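import Pool.Agent.HCF.GDefs

/-! # The group is compact and acts isometrically on `I0` (module GACT) -/

open Topology

noncomputable section

namespace Pool.Agent.HCF

lemma gact_isClosed : IsClosed (PG : Set (ℕ → Circle)) := by
  have h : (PG : Set (ℕ → Circle)) = {w | w 0 = 1} ∩ ⋂ j : ℕ, {w | w (j + 1) ^ 5 = w j} := by
    ext w
    rw [Set.mem_inter_iff, Set.mem_iInter]
    exact Iff.rfl
  rw [h]
  exact (isClosed_eq (continuous_apply 0) continuous_const).inter
    (isClosed_iInter fun j => isClosed_eq ((continuous_apply (j + 1)).pow 5) (continuous_apply j))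

instance : CompactSpace PG := isCompact_iff_compactSpace.1 gact_isClosed.isCompact

lemma gact_continuous : Continuous (fun p : PG × (∀ j : ℕ, SS j) =>
    (fun j => csmS (p.1.1 (j + 1)) (p.2 j) : ∀ j : ℕ, SS j)) := by
  refine continuous_pi fun j => Continuous.subtype_mk ?_ _
  have h1 : Continuous fun p : PG × (∀ j : ℕ, SS j) => ((p.1.1 (j + 1) : Circle) : ℂ) :=
    continuous_induced_dom.comp ((continuous_apply (j + 1)).comp
      (continuous_subtype_val.comp continuous_fst))
  have h2 : Continuous fun p : PG × (∀ j : ℕ, SS j) => (p.2 j).1 :=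
    continuous_subtype_val.comp ((continuous_apply j).comp continuous_snd)
  exact h1.smul h2

instance : ContinuousSMul PG I0 := ⟨gact_continuous⟩

lemma gact_dist_csmS {j : ℕ} (c : Circle) (v v' : SS j) :
    dist (csmS c v) (csmS c v') = dist v v' := by
  rw [Subtype.dist_eq, Subtype.dist_eq, dist_eq_norm, dist_eq_norm]
  change ‖(c : ℂ) • v.1 - (c : ℂ) • v'.1‖ = ‖v.1 - v'.1‖
  rw [← smul_sub, norm_smul, Circle.norm_coe, one_mul]

lemma gact_dist_self {j : ℕ} (c : Circle) (v : SS j) :
    dist v (csmS c v) = ‖(1 : ℂ) - (c : ℂ)‖ := by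
  rw [Subtype.dist_eq, dist_eq_norm]
  change ‖v.1 - (c : ℂ) • v.1‖ = ‖(1 : ℂ) - (c : ℂ)‖
  have hv : ‖v.1‖ = 1 := mem_sphere_zero_iff_norm.1 v.2
  have h : v.1 - (c : ℂ) • v.1 = ((1 : ℂ) - (c : ℂ)) • v.1 := by
    rw [sub_smul, one_smul]
  rw [h, norm_smul, hv, mul_one]

lemma gact_dist_eq (x y : I0) :
    dist x y = ∑' j : ℕ, min (2⁻¹ ^ j) (dist (x j) (y j)) := rfl

instance : IsIsometricSMul PG I0 where
  isometry_smul w := by
    refine Isometry.of_dist_eq fun x y => ?_
    rw [gact_dist_eq, gact_dist_eq]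
    refine tsum_congr fun j => ?_
    rw [I0_smul_apply, I0_smul_apply, gact_dist_csmS]

/-- the displacement does not depend on the point -/
theorem dist_smul_self (w : PG) (x : I0) : dist x (w • x) = kap w := by
  rw [gact_dist_eq, kap]
  refine tsum_congr fun j => ?_
  rw [I0_smul_apply, gact_dist_self]

theorem kap_nonneg (w : PG) : 0 ≤ kap w := by
  unfold kap
  exact tsum_nonneg fun j => le_min (by positivity) (norm_nonneg _)

/-- the action is free -/
theorem I0_free (w : PG) (x : I0) (h : w • x = x) : w = 1 := by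
  apply Subtype.ext
  funext n
  rcases n with _ | j
  · exact w.2.1
  · have h1 : csmS (w.1 (j + 1)) (x j) = x j := by
      rw [← I0_smul_apply, h]
    have h2 : ‖(1 : ℂ) - (w.1 (j + 1) : ℂ)‖ = 0 := by
      rw [← gact_dist_self (w.1 (j + 1)) (x j), h1, dist_self]
    have h3 : (1 : ℂ) - (w.1 (j + 1) : ℂ) = 0 := norm_eq_zero.1 h2
    exact Circle.ext (by
      rw [← sub_eq_zero.1 h3]
      rfl)

end Pool.Agent.HCF
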