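import Mathlib

/-! # Orbit spaces of isometric actions of compact groups -/

open Topology Uniformity

noncomputable section

namespace Pool.Agent.HCF

/-- the orbit space -/
def Orb (G X : Type) [Group G] [MulAction G X] : Type := MulAction.orbitRel.Quotient G X

/-- the class of a point -/
def Orb.mk (G : Type) {X : Type} [Group G] [MulAction G X] (x : X) : Orb G X :=
  Quotient.mk (MulAction.orbitRel G X) x

section
variable {G X : Type} [Group G] [MulAction G X]

lemma Orb.mk_surjective : Function.Surjective (Orb.mk G : X → Orb G X) := Quotient.mk_surjective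

lemma Orb.mk_eq_iff {x y : X} : Orb.mk G x = Orb.mk G y ↔ ∃ g : G, x = g • y := by
  refine (Quotient.eq (r := MulAction.orbitRel G X)).trans ?_
  rw [MulAction.orbitRel_apply]
  exact ⟨fun ⟨g, hg⟩ => ⟨g, hg.symm⟩, fun ⟨g, hg⟩ => ⟨g, hg.symm⟩⟩

lemma Orb.mk_smul (g : G) (x : X) : Orb.mk G (g • x) = Orb.mk G x := Orb.mk_eq_iff.2 ⟨g, rfl⟩

end

section
variable {G X : Type} [Group G] [TopologicalSpace G] [CompactSpace G] [MetricSpace X]
  [MulAction G X] [ContinuousSMul G X] [IsIsometricSMul G X]

/-- the distance of two orbits -/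
def orbDist (G : Type) {X : Type} [Group G] [MetricSpace X] [MulAction G X] (x y : X) : ℝ :=
  ⨅ g : G, dist x (g • y)

omit [TopologicalSpace G] [CompactSpace G] [ContinuousSMul G X] [IsIsometricSMul G X] in
lemma orbDist_bdd (x y : X) : BddBelow (Set.range fun g : G => dist x (g • y)) :=
  ⟨0, by rintro _ ⟨g, rfl⟩; exact dist_nonneg⟩

omit [TopologicalSpace G] [CompactSpace G] [ContinuousSMul G X] [IsIsometricSMul G X] in
lemma orbDist_le (g : G) (x y : X) : orbDist G x y ≤ dist x (g • y) :=
  ciInf_le (orbDist_bdd x y) g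

omit [TopologicalSpace G] [CompactSpace G] [ContinuousSMul G X] [IsIsometricSMul G X] in
lemma orbDist_nonneg (x y : X) : 0 ≤ orbDist G x y := le_ciInf fun _ => dist_nonneg

omit [IsIsometricSMul G X] in
lemma exists_orbDist (x y : X) : ∃ g : G, orbDist G x y = dist x (g • y) := by
  obtain ⟨g, -, hg⟩ := isCompact_univ.exists_isMinOn (Set.univ_nonempty (α := G))
    (f := fun g : G => dist x (g • y)) (by fun_prop)
  refine ⟨g, le_antisymm (orbDist_le g x y) (le_ciInf fun g' => ?_)⟩
  exact hg (Set.mem_univ g')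

omit [TopologicalSpace G] [CompactSpace G] [ContinuousSMul G X] in
lemma orbDist_smul_left (g : G) (x y : X) : orbDist G (g • x) y = orbDist G x y := by
  unfold orbDist
  have h : ∀ g' : G, dist (g • x) (g' • y) = dist x ((g⁻¹ * g') • y) := fun g' => by
    rw [← dist_smul g⁻¹ (g • x), inv_smul_smul, mul_smul]
  simp only [h]
  exact (Equiv.mulLeft g⁻¹).iInf_comp (g := fun g' : G => dist x (g' • y))

omit [TopologicalSpace G] [CompactSpace G] [ContinuousSMul G X] [IsIsometricSMul G X] in
lemma orbDist_smul_right (g : G) (x y : X) : orbDist G x (g • y) = orbDist G x y := by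
  unfold orbDist
  simp only [← mul_smul]
  exact (Equiv.mulRight g).iInf_comp (g := fun g' : G => dist x (g' • y))

omit [TopologicalSpace G] [CompactSpace G] [ContinuousSMul G X] in
lemma orbDist_comm (x y : X) : orbDist G x y = orbDist G y x := by
  unfold orbDist
  have h : ∀ g' : G, dist x (g' • y) = dist y (g'⁻¹ • x) := fun g' => by
    rw [← dist_smul g'⁻¹ x, inv_smul_smul, dist_comm]
  simp only [h]
  exact (Equiv.inv G).iInf_comp (g := fun g' : G => dist y (g' • x))

lemma orbDist_triangle (x y z : X) : orbDist G x z ≤ orbDist G x y + orbDist G y z := by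
  obtain ⟨g, hg⟩ := exists_orbDist (G := G) x y
  obtain ⟨g', hg'⟩ := exists_orbDist (G := G) y z
  calc orbDist G x z ≤ dist x ((g * g') • z) := orbDist_le _ _ _
    _ ≤ dist x (g • y) + dist (g • y) ((g * g') • z) := dist_triangle _ _ _
    _ = orbDist G x y + orbDist G y z := by rw [mul_smul, dist_smul, hg, hg']

instance : MetricSpace (Orb G X) where
  dist := Quotient.lift₂ (orbDist G) (by
    rintro x y x' y' ⟨g, hg⟩ ⟨g', hg'⟩
    simp only at hg hg'
    rw [← hg, ← hg', orbDist_smul_left, orbDist_smul_right])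
  dist_self := by
    rintro ⟨x⟩
    refine le_antisymm ?_ (orbDist_nonneg x x)
    have := orbDist_le (1 : G) x x
    rwa [one_smul, dist_self] at this
  dist_comm := by
    rintro ⟨x⟩ ⟨y⟩
    exact orbDist_comm x y
  dist_triangle := by
    rintro ⟨x⟩ ⟨y⟩ ⟨z⟩
    exact orbDist_triangle x y z
  eq_of_dist_eq_zero := by
    rintro ⟨x⟩ ⟨y⟩ h
    obtain ⟨g, hg⟩ := exists_orbDist (G := G) x y
    have h1 : dist x (g • y) = 0 := hg ▸ h
    exact Orb.mk_eq_iff.2 ⟨g, dist_eq_zero.1 h1⟩

lemma Orb.dist_mk (x y : X) : dist (Orb.mk G x) (Orb.mk G y) = orbDist G x y := rfl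

lemma Orb.dist_mk_le (x y : X) : dist (Orb.mk G x) (Orb.mk G y) ≤ dist x y := by
  have := orbDist_le (1 : G) x y
  rwa [one_smul] at this

lemma Orb.continuous_mk : Continuous (Orb.mk G : X → Orb G X) :=
  (LipschitzWith.mk_one fun x y => Orb.dist_mk_le x y).continuous

lemma Orb.isOpenMap_mk : IsOpenMap (Orb.mk G : X → Orb G X) := by
  intro U hU
  rw [Metric.isOpen_iff]
  rintro _ ⟨x, hx, rfl⟩
  obtain ⟨ε, hε, h⟩ := Metric.isOpen_iff.1 hU x hx
  refine ⟨ε, hε, ?_⟩
  intro b hb
  obtain ⟨y, rfl⟩ := Orb.mk_surjective b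
  rw [Metric.mem_ball, dist_comm, Orb.dist_mk] at hb
  obtain ⟨g, hg⟩ := exists_orbDist (G := G) x y
  refine ⟨g • y, h ?_, Orb.mk_smul g y⟩
  rw [Metric.mem_ball, dist_comm, ← hg]
  exact hb

lemma Orb.isOpenQuotientMap_mk : IsOpenQuotientMap (Orb.mk G : X → Orb G X) :=
  ⟨Orb.mk_surjective, Orb.continuous_mk, Orb.isOpenMap_mk⟩

instance [CompactSpace X] : CompactSpace (Orb G X) where
  isCompact_univ := by
    rw [← Orb.mk_surjective.range_eq (f := (Orb.mk G : X → Orb G X))]
    exact isCompact_range Orb.continuous_mk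

end

/-! ### Products with the sum metric -/

lemma prod_unif (X Y : Type) [MetricSpace X] [MetricSpace Y] :
    𝓤 (X × Y) = ⨅ ε > (0 : ℝ), Filter.principal
      {p : (X × Y) × (X × Y) | dist p.1.1 p.2.1 + dist p.1.2 p.2.2 < ε} := by
  have hb : (𝓤 (X × Y)).HasBasis (fun ε : ℝ => 0 < ε) fun ε => {p | dist p.1 p.2 < ε} :=
    Metric.uniformity_basis_dist
  rw [hb.eq_biInf]
  refine le_antisymm ?_ ?_
  · refine le_iInf₂ fun ε hε => ?_
    refine iInf₂_le_of_le (ε / 2) (half_pos hε) ?_
    refine Filter.principal_mono.2 ?_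
    intro p hp
    simp only [Set.mem_ofPred_eq, Prod.dist_eq, max_lt_iff] at hp ⊢
    linarith [hp.1, hp.2]
  · refine le_iInf₂ fun ε hε => ?_
    refine iInf₂_le_of_le ε hε ?_
    refine Filter.principal_mono.2 ?_
    intro p hp
    simp only [Set.mem_ofPred_eq, Prod.dist_eq, max_lt_iff] at hp ⊢
    have h1 := dist_nonneg (x := p.1.1) (y := p.2.1)
    have h2 := dist_nonneg (x := p.1.2) (y := p.2.2)
    exact ⟨by linarith, by linarith⟩

/-- the product with the sum metric -/
def PS (X Y : Type) : Type := X × Y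

instance (X Y : Type) [MetricSpace X] [MetricSpace Y] : MetricSpace (PS X Y) where
  dist p q := dist p.1 q.1 + dist p.2 q.2
  dist_self p := by simp
  dist_comm p q := by simp [dist_comm]
  dist_triangle p q r := by
    have h1 := dist_triangle p.1 q.1 r.1
    have h2 := dist_triangle p.2 q.2 r.2
    linarith
  eq_of_dist_eq_zero := by
    intro p q h
    have h1 : dist p.1 q.1 = 0 := by
      have := dist_nonneg (x := p.1) (y := q.1)
      have := dist_nonneg (x := p.2) (y := q.2)
      linarith
    have h2 : dist p.2 q.2 = 0 := by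
      have := dist_nonneg (x := p.1) (y := q.1)
      linarith
    exact Prod.ext (dist_eq_zero.1 h1) (dist_eq_zero.1 h2)
  toUniformSpace := inferInstanceAs (UniformSpace (X × Y))
  uniformity_dist := prod_unif X Y

lemma PS.dist_eq {X Y : Type} [MetricSpace X] [MetricSpace Y] (p q : PS X Y) :
    dist p q = dist p.1 q.1 + dist p.2 q.2 := rfl

instance (X Y : Type) [MetricSpace X] [MetricSpace Y] [CompactSpace X] [CompactSpace Y] :
    CompactSpace (PS X Y) := inferInstanceAs (CompactSpace (X × Y))

/-- pairs -/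
def PS.pair {X Y : Type} (x : X) (y : Y) : PS X Y := (x, y)

lemma PS.continuous_pair {Z X Y : Type} [TopologicalSpace Z] [MetricSpace X] [MetricSpace Y]
    {f : Z → X} {g : Z → Y} (hf : Continuous f) (hg : Continuous g) :
    Continuous fun z => PS.pair (f z) (g z) := Continuous.prodMk hf hg

lemma PS.continuous_fst {X Y : Type} [MetricSpace X] [MetricSpace Y] :
    Continuous fun p : PS X Y => p.1 := _root_.continuous_fst (X := X) (Y := Y)

lemma PS.continuous_snd {X Y : Type} [MetricSpace X] [MetricSpace Y] :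
    Continuous fun p : PS X Y => p.2 := _root_.continuous_snd (X := X) (Y := Y)

section
variable {G X Y : Type} [Group G] [MulAction G X] [MulAction G Y]

instance : MulAction G (PS X Y) := inferInstanceAs (MulAction G (X × Y))

lemma PS.smul_pair (g : G) (x : X) (y : Y) :
    g • (PS.pair x y : PS X Y) = PS.pair (g • x) (g • y) := rfl

end

section
variable {G X Y : Type} [Group G] [TopologicalSpace G] [MetricSpace X] [MetricSpace Y]
  [MulAction G X] [MulAction G Y]

instance [ContinuousSMul G X] [ContinuousSMul G Y] : ContinuousSMul G (PS X Y) :=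
  inferInstanceAs (ContinuousSMul G (X × Y))

omit [TopologicalSpace G] in
instance [IsIsometricSMul G X] [IsIsometricSMul G Y] : IsIsometricSMul G (PS X Y) := by
  refine ⟨fun g => Isometry.of_dist_eq fun p q => ?_⟩
  change dist (g • p.1) (g • q.1) + dist (g • p.2) (g • q.2) = dist p.1 q.1 + dist p.2 q.2
  rw [dist_smul, dist_smul]

end

section
variable (G X Y : Type) [Group G] [TopologicalSpace G] [CompactSpace G] [MetricSpace X]
  [MetricSpace Y] [MulAction G X] [MulAction G Y] [ContinuousSMul G X] [ContinuousSMul G Y]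
  [IsIsometricSMul G X] [IsIsometricSMul G Y]

/-- the projection `(X × Y) / G → X / G` -/
def oproj : C(Orb G (PS X Y), Orb G X) where
  toFun := Quotient.lift (fun p : PS X Y => Orb.mk G p.1) (by
    rintro p q ⟨g, hg⟩
    simp only at hg
    rw [← hg]
    exact Orb.mk_smul g q.1)
  continuous_toFun := by
    refine (Orb.isOpenQuotientMap_mk (G := G) (X := PS X Y)).isQuotientMap.continuous_iff.2 ?_
    exact Orb.continuous_mk.comp PS.continuous_fst

@[simp] lemma oproj_mk (x : X) (y : Y) :
    oproj G X Y (Orb.mk G (PS.pair x y)) = Orb.mk G x := rfl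

end

end Pool.Agent.HCF
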