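import Pool.Agent.HCF.GAct
import Pool.Agent.HCF.GOrb

/-! # `I0` and `B` are connected and locally connected (module GCONN) -/

open Topology

noncomputable section

namespace Pool.Agent.HCF

private lemma gconn_rank (j : ℕ) :
    1 < Module.rank ℝ (EuclideanSpace ℂ (Fin (5 ^ (j + 1)))) := by
  have h1 : Module.finrank ℝ (EuclideanSpace ℂ (Fin (5 ^ (j + 1)))) = 2 * 5 ^ (j + 1) := by
    rw [← Module.finrank_mul_finrank ℝ ℂ, finrank_euclideanSpace_fin, Complex.finrank_real_complex]
  have h2 : 1 < Module.finrank ℝ (EuclideanSpace ℂ (Fin (5 ^ (j + 1)))) := by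
    rw [h1]
    have := Nat.one_le_pow (j + 1) 5 (by norm_num)
    omega
  exact Module.one_lt_rank_of_one_lt_finrank h2

private instance gconn_conn (j : ℕ) : ConnectedSpace (SS j) :=
  isConnected_iff_connectedSpace.1 (isConnected_sphere (gconn_rank j) 0 zero_le_one)

private instance gconn_loc (j : ℕ) : LocallyConnectedSpace (SS j) := by
  let E := EuclideanSpace ℂ (Fin (5 ^ (j + 1)))
  let U : Set E := {x | x ≠ 0}
  have hU : IsOpen U := isOpen_ne
  have hUl : LocallyConnectedSpace U := hU.locallyConnectedSpace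
  let f : SS j → U := fun v => ⟨v.1, by
    intro h0
    have hv : ‖v.1‖ = 1 := mem_sphere_zero_iff_norm.1 v.2
    rw [h0, norm_zero] at hv
    exact zero_ne_one hv⟩
  let g : U → SS j := fun x => ⟨((‖x.1‖⁻¹ : ℝ) : ℂ) • x.1, by
    have hx : ‖x.1‖ ≠ 0 := norm_ne_zero_iff.2 x.2
    rw [mem_sphere_zero_iff_norm, norm_smul, Complex.norm_real, norm_inv, norm_norm,
      inv_mul_cancel₀ hx]⟩
  have hf : Continuous f := by fun_prop
  have hg : Continuous g := by
    have h1 : Continuous fun x : U => ‖x.1‖⁻¹ :=
      Continuous.inv₀ (by fun_prop) fun x => norm_ne_zero_iff.2 x.2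
    have h2 : Continuous fun x : U => ((‖x.1‖⁻¹ : ℝ) : ℂ) • x.1 :=
      (Complex.continuous_ofReal.comp h1).smul continuous_subtype_val
    exact h2.subtype_mk _
  have hgf : Function.LeftInverse g f := by
    intro v
    apply Subtype.ext
    have hv : ‖v.1‖ = 1 := mem_sphere_zero_iff_norm.1 v.2
    simp [f, g, hv]
  exact (IsQuotientMap.of_inverse hf hg hgf).isCoinducing.locallyConnectedSpace

instance : ConnectedSpace I0 := inferInstanceAs (ConnectedSpace (∀ j : ℕ, SS j))

instance : LocallyConnectedSpace I0 := inferInstanceAs (LocallyConnectedSpace (∀ j : ℕ, SS j))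

/-- the base space -/
def BB : Type := Orb PG I0

instance : MetricSpace BB := inferInstanceAs (MetricSpace (Orb PG I0))

instance : CompactSpace BB := inferInstanceAs (CompactSpace (Orb PG I0))

instance : ConnectedSpace BB :=
  (Orb.mk_surjective (G := PG) (X := I0)).connectedSpace Orb.continuous_mk

instance : LocallyConnectedSpace BB :=
  (Orb.isOpenQuotientMap_mk (G := PG) (X := I0)).isQuotientMap.isCoinducing.locallyConnectedSpace

end Pool.Agent.HCF
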