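import Pool.Agent.HCF.GDefs

/-! # Finite coverings (module GCOV) -/

open Topology

noncomputable section

namespace Pool.Agent.HCF

/-- the finite product of the first `l` spheres -/
abbrev YF (l : ℕ) : Type := ∀ j : Fin l, SS j

/-- the group of `5^l`-th roots of unity -/
def MU (l : ℕ) : Subgroup Circle where
  carrier := {c | c ^ 5 ^ l = 1}
  mul_mem' := by
    intro a b ha hb
    simp only [Set.mem_ofPred_eq] at ha hb ⊢
    rw [mul_pow, ha, hb, one_mul]
  one_mem' := one_pow _
  inv_mem' := by
    intro a ha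
    simp only [Set.mem_ofPred_eq] at ha ⊢
    rw [inv_pow, ha, inv_one]

/-- it acts on the `j`-th sphere by the power `5^(l-1-j)` -/
instance (l : ℕ) : MulAction (MU l) (YF l) where
  smul c y := fun j => csmS (c.1 ^ 5 ^ (l - 1 - (j : ℕ))) (y j)
  one_smul y := funext fun j => by
    change csmS ((1 : Circle) ^ _) (y j) = y j
    rw [one_pow, csmS_one]
  mul_smul c d y := funext fun j => by
    change csmS ((c.1 * d.1) ^ _) (y j) = csmS (c.1 ^ _) (csmS (d.1 ^ _) (y j))
    rw [mul_pow, csmS_mul]

/-- the action, found quickly -/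
instance (priority := 10000) instSMulMUYF (l : ℕ) : SMul (MU l) (YF l) :=
  (instMulActionSubtypeCircleMemSubgroupMUYF l).toSemigroupAction.toSMul

lemma csmS_fix {j : ℕ} (c : Circle) (v : SS j) (h : csmS c v = v) : c = 1 := by
  have h1 : (c : ℂ) • v.1 = v.1 := congrArg Subtype.val h
  have hv : ‖v.1‖ = 1 := mem_sphere_zero_iff_norm.1 v.2
  have h2 : ((c : ℂ) - 1) • v.1 = 0 := by rw [sub_smul, one_smul, h1, sub_self]
  rcases smul_eq_zero.1 h2 with h3 | h3
  · exact Circle.ext (by simpa using sub_eq_zero.1 h3)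
  · rw [h3, norm_zero] at hv
    exact absurd hv (by norm_num)

lemma continuous_csmS {j : ℕ} (c : Circle) : Continuous (csmS c : SS j → SS j) := by
  unfold csmS
  fun_prop

lemma MU_finite (l : ℕ) : Finite (MU l) := by
  have h : {z : ℂ | z ^ 5 ^ l = 1}.Finite := by
    refine (Polynomial.nthRootsFinset (5 ^ l) (1 : ℂ)).finite_toSet.subset ?_
    intro z hz
    exact (Polynomial.mem_nthRootsFinset (by positivity) _).2 hz
  have h2 : {c : Circle | c ^ 5 ^ l = 1}.Finite := by
    refine (h.preimage (f := fun c : Circle => (c : ℂ)) Circle.coe_injective.injOn).subset ?_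
    intro c hc
    have := congrArg (fun d : Circle => (d : ℂ)) (hc : c ^ 5 ^ l = 1)
    simpa using this
  exact h2.to_subtype

lemma MU_free (l : ℕ) (c : MU l) (y : YF l) (h : c • y = y) : c = 1 := by
  refine Subtype.ext ?_
  rcases Nat.eq_zero_or_pos l with rfl | hl
  · have := c.2
    change c.1 ^ 5 ^ 0 = 1 at this
    simpa using this
  · have h1 : csmS (c.1 ^ 5 ^ (l - 1 - (l - 1))) (y ⟨l - 1, by omega⟩) = y ⟨l - 1, by omega⟩ :=
      congrFun h ⟨l - 1, by omega⟩
    have h2 := csmS_fix _ _ h1
    simpa using h2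

instance (l : ℕ) : ContinuousConstSMul (MU l) (YF l) where
  continuous_const_smul c :=
    continuous_pi fun j => (continuous_csmS (c.1 ^ 5 ^ (l - 1 - (j : ℕ)))).comp (continuous_apply j)

/-- the quotient map is a covering (module GCOV) -/
theorem isCoveringMap_YF (l : ℕ) :
    IsCoveringMap (Quotient.mk (MulAction.orbitRel (MU l) (YF l))) := by
  have := MU_finite l
  have : IsCancelSMul (MU l) (YF l) :=
    isCancelSMul_iff_eq_one_of_smul_eq.2 fun c y h => MU_free l c y h
  exact (isQuotientCoveringMap_quotientMk_of_properlyDiscontinuousSMul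
    (E := YF l) (G := MU l)).isCoveringMap

end Pool.Agent.HCF
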