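import Pool.Agent.HCF.TDefs

/-! # The group, the free space `I0` and its metric (definitions) -/

open Topology
open scoped PiCountable

noncomputable section

namespace Pool.Agent.HCF

/-- The group of compatible sequences `w_0 = 1`, `w_{j+1}^5 = w_j` (5-adic integers). -/
def PG : Subgroup (ℕ → Circle) where
  carrier := {w | w 0 = 1 ∧ ∀ j, w (j + 1) ^ 5 = w j}
  mul_mem' := by
    rintro a b ⟨ha, ha'⟩ ⟨hb, hb'⟩
    refine ⟨by simp [ha, hb], fun j => ?_⟩
    simp [mul_pow, ha' j, hb' j]
  one_mem' := ⟨rfl, fun j => by simp⟩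
  inv_mem' := by
    rintro a ⟨ha, ha'⟩
    refine ⟨by simp [ha], fun j => ?_⟩
    simp [ha' j]

/-- the sphere of dimension `2 * 5^(j+1) - 1` -/
abbrev SS (j : ℕ) : Type := Metric.sphere (0 : EuclideanSpace ℂ (Fin (5 ^ (j + 1)))) 1

/-- multiplication of a sphere by a unit complex number -/
def csmS {j : ℕ} (c : Circle) (v : SS j) : SS j := ⟨(c : ℂ) • v.1, by
  have hv : ‖v.1‖ = 1 := mem_sphere_zero_iff_norm.1 v.2
  rw [mem_sphere_zero_iff_norm, norm_smul, Circle.norm_coe, hv, one_mul]⟩

lemma csmS_one {j : ℕ} (v : SS j) : csmS 1 v = v := Subtype.ext (by simp [csmS])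

lemma csmS_mul {j : ℕ} (c d : Circle) (v : SS j) : csmS (c * d) v = csmS c (csmS d v) :=
  Subtype.ext (by simp [csmS, mul_smul])

/-- the free space: the product of the spheres, with the metric `∑ min (2^-j) dist` -/
def I0 : Type := ∀ j : ℕ, SS j

instance : MetricSpace I0 := PiCountable.metricSpace (F := fun j : ℕ => SS j)

instance : CompactSpace I0 := inferInstanceAs (CompactSpace (∀ j : ℕ, SS j))

/-- the group acts on the `j`-th sphere by its coordinate `j + 1` -/
instance : MulAction PG I0 where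
  smul w x := fun j => csmS (w.1 (j + 1)) (x j)
  one_smul x := funext fun j => csmS_one (x j)
  mul_smul w w' x := funext fun j => csmS_mul (w.1 (j + 1)) (w'.1 (j + 1)) (x j)

lemma I0_smul_apply (w : PG) (x : I0) (j : ℕ) : (w • x) j = csmS (w.1 (j + 1)) (x j) := rfl

/-- the displacement function of the action on `I0` -/
def kap (w : PG) : ℝ := ∑' j : ℕ, min (2⁻¹ ^ j) ‖(1 : ℂ) - (w.1 (j + 1) : ℂ)‖

/-- the index on which the group acts on the `j`-th coordinate, level `k` -/
def ak (k j : ℕ) : ℕ := 2 ^ j - (2 ^ k - 1)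

end Pool.Agent.HCF
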