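import Pool.Agent.HCF.GOrb
import Pool.Agent.HCF.SDefs

/-! # Unique homotopy lifting (definitions) -/

open Topology

noncomputable section

namespace Pool.Agent.HCF

/-- homotopy lifting for `X → X / G`, with prescribed initial values -/
def UHL (G X : Type) [Group G] [TopologicalSpace G] [CompactSpace G] [MetricSpace X]
    [MulAction G X] [ContinuousSMul G X] [IsIsometricSMul G X] : Prop :=
  ∀ (Z : Type) [TopologicalSpace Z] (H : C(Z × unitInterval, Orb G X)) (g : C(Z, X)),
    (∀ z, Orb.mk G (g z) = H (z, 0)) →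
      ∃ L : C(Z × unitInterval, X), (∀ z, L (z, 0) = g z) ∧ ∀ y, Orb.mk G (L y) = H y

/-- uniqueness of path lifting for `X → X / G` -/
def UPL (G X : Type) [Group G] [TopologicalSpace G] [CompactSpace G] [MetricSpace X]
    [MulAction G X] [ContinuousSMul G X] [IsIsometricSMul G X] : Prop :=
  ∀ (γ γ' : C(unitInterval, X)), (∀ t, Orb.mk G (γ t) = Orb.mk G (γ' t)) → γ 0 = γ' 0 → γ = γ'

end Pool.Agent.HCF
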