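import Pool.Agent.HCF.GFib

/-! # The projection of orbit spaces is a fibration (module GFIBA) -/

open Topology

noncomputable section

namespace Pool.Agent.HCF

variable (G X Y : Type) [Group G] [TopologicalSpace G] [CompactSpace G] [MetricSpace X]
  [MetricSpace Y] [MulAction G X] [MulAction G Y] [ContinuousSMul G X] [ContinuousSMul G Y]
  [IsIsometricSMul G X] [IsIsometricSMul G Y]

/-- the pull back of `X → X / G` -/
def fibaT {Z : Type} (β : Z → Orb G X) : Type := {p : Z × X // Orb.mk G p.2 = β p.1}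

instance {Z : Type} [TopologicalSpace Z] (β : Z → Orb G X) : TopologicalSpace (fibaT G X β) :=
  inferInstanceAs (TopologicalSpace {p : Z × X // Orb.mk G p.2 = β p.1})

lemma fibaT_open {Z : Type} [TopologicalSpace Z] (β : Z → Orb G X) (hβ : Continuous β) :
    IsOpenQuotientMap (fun p : fibaT G X β => p.1.1) := by
  refine ⟨fun z => ?_, continuous_fst.comp continuous_subtype_val, ?_⟩
  · obtain ⟨x, hx⟩ := Orb.mk_surjective (G := G) (β z)
    exact ⟨⟨(z, x), hx⟩, rfl⟩
  · intro W hW
    obtain ⟨W', hW', rfl⟩ := isOpen_induced_iff.1 hW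
    rw [isOpen_iff_mem_nhds]
    rintro _ ⟨p, hp, rfl⟩
    have hp' : (p.1.1, p.1.2) ∈ W' := hp
    obtain ⟨U, V, hU, hV, hpU, hpV, hUV⟩ := isOpen_prod_iff.1 hW' p.1.1 p.1.2 hp'
    have hO : IsOpen (U ∩ β ⁻¹' (Orb.mk G '' V)) :=
      hU.inter ((Orb.isOpenMap_mk V hV).preimage hβ)
    refine Filter.mem_of_superset (hO.mem_nhds ⟨hpU, p.1.2, hpV, p.2⟩) ?_
    rintro z ⟨hz, x, hx, hxz⟩
    exact ⟨⟨(z, x), hxz⟩, hUV ⟨hz, hx⟩, rfl⟩

/-- The pairs `(x, e)` with `mk x = p e` are the same as the pairs `(x, y)`. -/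
lemma fiba_section [CompactSpace X] [CompactSpace Y] (hfree : ∀ (g : G) (x : X), g • x = x → g = 1) :
    ∃ m : {q : X × Orb G (PS X Y) // Orb.mk G q.1 = oproj G X Y q.2} → Y,
      Continuous m ∧ ∀ q, q.1.2 = Orb.mk G (PS.pair q.1.1 (m q)) := by
  let Φ : PS X Y → {q : X × Orb G (PS X Y) // Orb.mk G q.1 = oproj G X Y q.2} :=
    fun p => ⟨(p.1, Orb.mk G p), rfl⟩
  have hΦc : Continuous Φ := by
    refine Continuous.subtype_mk ?_ _
    exact PS.continuous_fst.prodMk Orb.continuous_mk
  have hΦ : Function.Bijective Φ := by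
    constructor
    · intro p p' h
      have ha : p.1 = p'.1 := congrArg (fun q => q.1.1) h
      have hb : Orb.mk G p = Orb.mk G p' := congrArg (fun q => q.1.2) h
      obtain ⟨g, hg⟩ := Orb.mk_eq_iff.1 hb
      have hg1 : p.1 = g • p'.1 := congrArg Prod.fst hg
      have hg2 : p.2 = g • p'.2 := congrArg Prod.snd hg
      have : g = 1 := hfree g p'.1 (by rw [← hg1, ha])
      subst this
      rw [one_smul] at hg2
      exact Prod.ext ha hg2
    · rintro ⟨⟨x, e⟩, hq⟩
      obtain ⟨p, rfl⟩ := Orb.mk_surjective (G := G) e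
      obtain ⟨g, hg⟩ := Orb.mk_eq_iff.1 (hq : Orb.mk G x = Orb.mk G p.1)
      refine ⟨g • p, Subtype.ext (Prod.ext ?_ ?_)⟩
      · exact hg.symm
      · exact Orb.mk_smul g p
  let e := Equiv.ofBijective Φ hΦ
  have he : Continuous e := hΦc
  let h : PS X Y ≃ₜ {q : X × Orb G (PS X Y) // Orb.mk G q.1 = oproj G X Y q.2} :=
    he.homeoOfEquivCompactToT2
  refine ⟨fun q => (h.symm q).2, PS.continuous_snd.comp h.symm.continuous, fun q => ?_⟩
  have hq : Φ (h.symm q) = q := h.apply_symm_apply q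
  have h1 : (h.symm q).1 = q.1.1 := congrArg (fun q => q.1.1) hq
  have h2 : Orb.mk G (h.symm q) = q.1.2 := congrArg (fun q => q.1.2) hq
  rw [← h2, ← h1]
  rfl

/-- The projection `(X × Y) / G → X / G` is a Hurewicz fibration (module GFIB). -/
theorem oproj_fibration [CompactSpace X] [CompactSpace Y] (hfree : ∀ (g : G) (x : X), g • x = x → g = 1)
    (h1 : UHL G X) (h2 : UPL G X) : IsHurewiczFibration (oproj G X Y) := by
  intro Z _ H g hg
  obtain ⟨m0, hm0c, hm0⟩ := fiba_section G X Y hfree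
  have hβ : Continuous (fun z : Z => H (z, 0)) := by fun_prop
  have hq0 := fibaT_open G X (fun z : Z => H (z, 0)) hβ
  let pr : C(fibaT G X (fun z : Z => H (z, 0)), Z) := ⟨_, hq0.continuous⟩
  let xx : C(fibaT G X (fun z : Z => H (z, 0)), X) :=
    ⟨fun p => p.1.2, continuous_snd.comp continuous_subtype_val⟩
  have hxx : ∀ p, Orb.mk G (xx p) = H (pr p, 0) := fun p => p.2
  obtain ⟨L, hL0, hL⟩ := h1 (fibaT G X (fun z : Z => H (z, 0)))
    (H.comp ((pr.comp ContinuousMap.fst).prodMk ContinuousMap.snd)) xx (fun p => p.2)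
  let m : fibaT G X (fun z : Z => H (z, 0)) → Y := fun p =>
    m0 ⟨(xx p, g (pr p)), by rw [hg]; exact p.2⟩
  have hmc : Continuous m := by
    refine hm0c.comp (Continuous.subtype_mk ?_ _)
    exact xx.continuous.prodMk (g.continuous.comp pr.continuous)
  have hm : ∀ p, g (pr p) = Orb.mk G (PS.pair (xx p) (m p)) := fun p =>
    hm0 ⟨(xx p, g (pr p)), by rw [hg]; exact p.2⟩
  have huniq : ∀ (x : X) (y y' : Y), Orb.mk G (PS.pair x y) = Orb.mk G (PS.pair x y') → y = y' := by
    intro x y y' h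
    obtain ⟨c, hc⟩ := Orb.mk_eq_iff.1 h
    have hc1 : x = c • x := congrArg Prod.fst hc
    have hc2 : y = c • y' := congrArg Prod.snd hc
    have : c = 1 := hfree c x hc1.symm
    subst this
    rwa [one_smul] at hc2
  -- independence of the choice
  have key : ∀ (p p' : fibaT G X (fun z : Z => H (z, 0))) (t : unitInterval), pr p = pr p' →
      Orb.mk G (PS.pair (L (p, t)) (m p)) = Orb.mk G (PS.pair (L (p', t)) (m p')) := by
    intro p p' t hpp
    obtain ⟨c, hc⟩ := Orb.mk_eq_iff.1 ((hxx p).trans ((congrArg (fun z => H (z, 0)) hpp).trans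
      (hxx p').symm))
    have hpath : (L.comp ((ContinuousMap.const unitInterval p).prodMk (ContinuousMap.id _))) =
        (⟨fun x : X => c • x, continuous_const_smul c⟩ : C(X, X)).comp
          (L.comp ((ContinuousMap.const unitInterval p').prodMk (ContinuousMap.id _))) := by
      refine h2 _ _ (fun s => ?_) ?_
      · change Orb.mk G (L (p, s)) = Orb.mk G (c • L (p', s))
        rw [Orb.mk_smul, hL, hL]
        change H (pr p, s) = H (pr p', s)
        rw [hpp]
      · change L (p, 0) = c • L (p', 0)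
        rw [hL0, hL0, hc]
    have hLt : L (p, t) = c • L (p', t) := congrArg (fun γ : C(unitInterval, X) => γ t) hpath
    have hmp : m p = c • m p' := by
      refine huniq (xx p) _ _ ?_
      rw [← hm, hc, ← PS.smul_pair, Orb.mk_smul, ← hm, hpp]
    rw [hLt, hmp, ← PS.smul_pair, Orb.mk_smul]
  choose s hs using hq0.surjective
  have hs' : ∀ z, pr (s z) = z := hs
  have hq : IsQuotientMap (fun p : fibaT G X (fun z : Z => H (z, 0)) × unitInterval =>
      ((pr p.1, p.2) : Z × unitInterval)) :=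
    (hq0.prodMap IsOpenQuotientMap.id).isQuotientMap
  refine ⟨⟨fun y => Orb.mk G (PS.pair (L (s y.1, y.2)) (m (s y.1))), ?_⟩, fun z => ?_, fun y => ?_⟩
  · refine hq.continuous_iff.2 ?_
    have he : (fun y : Z × unitInterval => Orb.mk G (PS.pair (L (s y.1, y.2)) (m (s y.1)))) ∘
        (fun p : fibaT G X (fun z : Z => H (z, 0)) × unitInterval =>
          ((pr p.1, p.2) : Z × unitInterval)) =
        fun p => Orb.mk G (PS.pair (L p) (m p.1)) := by
      funext p
      exact key _ _ _ (hs' _)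
    rw [he]
    exact Orb.continuous_mk.comp (PS.continuous_pair L.continuous (hmc.comp continuous_fst))
  · change Orb.mk G (PS.pair (L (s z, 0)) (m (s z))) = g z
    rw [hL0, ← hm, hs']
  · change Orb.mk G (L (s y.1, y.2)) = H y
    rw [hL]
    change H (pr (s y.1), y.2) = H y
    rw [hs']

end Pool.Agent.HCF
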