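import Pool.Agent.HCF.GFib

/-! # The fibres are isometric (module GFIBB) -/

open Topology

noncomputable section

namespace Pool.Agent.HCF

variable (G X Y : Type) [Group G] [TopologicalSpace G] [CompactSpace G] [MetricSpace X]
  [MetricSpace Y] [MulAction G X] [MulAction G Y] [ContinuousSMul G X] [ContinuousSMul G Y]
  [IsIsometricSMul G X] [IsIsometricSMul G Y]

/-- All fibres are isometric to `Y` when the displacement on `X` is large (module GISO). -/
theorem oproj_fibre_isometric (hfree : ∀ (g : G) (x : X), g • x = x → g = 1)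
    (hd : ∀ (g : G) (x : X) (y : Y), dist y (g • y) ≤ dist x (g • x)) (b : Orb G X) :
    ∃ φ : Y ≃ᵢ ((oproj G X Y) ⁻¹' {b} : Set (Orb G (PS X Y))),
      ∀ x : X, Orb.mk G x = b → ∃ g : G, ∀ y, (φ y).1 = Orb.mk G (PS.pair x (g • y)) := by
  obtain ⟨x0, hx0⟩ := Orb.mk_surjective b
  have hiso : ∀ y y' : Y, dist (Orb.mk G (PS.pair x0 y)) (Orb.mk G (PS.pair x0 y')) = dist y y' := by
    intro y y'
    rw [Orb.dist_mk]
    refine le_antisymm ?_ (le_ciInf fun g => ?_)
    · have h := orbDist_le (1 : G) (PS.pair x0 y) (PS.pair x0 y')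
      rw [one_smul, PS.dist_eq] at h
      change _ ≤ dist x0 x0 + dist y y' at h
      rwa [dist_self, zero_add] at h
    · rw [PS.smul_pair, PS.dist_eq]
      change dist y y' ≤ dist x0 (g • x0) + dist y (g • y')
      have h1 := hd g x0 y'
      have h2 := dist_triangle y (g • y') y'
      rw [dist_comm (g • y') y'] at h2
      linarith
  let f : Y → ((oproj G X Y) ⁻¹' {b} : Set (Orb G (PS X Y))) := fun y =>
    ⟨Orb.mk G (PS.pair x0 y), by
      rw [Set.mem_preimage, oproj_mk, Set.mem_singleton_iff, hx0]⟩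
  have hf : Isometry f := Isometry.of_dist_eq fun y y' => hiso y y'
  have hsurj : Function.Surjective f := by
    rintro ⟨e, he⟩
    obtain ⟨⟨x', y'⟩, rfl⟩ := Orb.mk_surjective e
    have h1 : Orb.mk G x' = Orb.mk G x0 := by
      rw [hx0]
      exact he
    obtain ⟨g, hg⟩ := Orb.mk_eq_iff.1 h1
    refine ⟨g⁻¹ • y', Subtype.ext ?_⟩
    change Orb.mk G (PS.pair x0 (g⁻¹ • y')) = Orb.mk G (PS.pair x' y')
    rw [← Orb.mk_smul g (PS.pair x0 (g⁻¹ • y')), PS.smul_pair, smul_inv_smul, hg]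
  refine ⟨⟨Equiv.ofBijective f ⟨hf.injective, hsurj⟩, hf⟩, fun x hx => ?_⟩
  rw [← hx0] at hx
  obtain ⟨g, hg⟩ := Orb.mk_eq_iff.1 hx
  refine ⟨g, fun y => ?_⟩
  change Orb.mk G (PS.pair x0 y) = Orb.mk G (PS.pair x (g • y))
  rw [← Orb.mk_smul g (PS.pair x0 y), PS.smul_pair, hg]

end Pool.Agent.HCF
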