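import Pool.Agent.HCF.GDefs

/-! # Powers of the coordinates, surjectivity onto roots of unity (module GPOW) -/

noncomputable section

namespace Pool.Agent.HCF

/-- powers of the coordinates -/
theorem PG_pow (w : PG) (m n : ℕ) : w.1 n ^ 5 ^ m = w.1 (n - m) := by
  induction m with
  | zero => rw [pow_zero, pow_one, Nat.sub_zero]
  | succ m ih =>
    rw [pow_succ, pow_mul, ih]
    rcases Nat.eq_zero_or_pos (n - m) with h | h
    · have h' : n - (m + 1) = 0 := by omega
      have hw : w.1 0 = 1 := w.2.1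
      rw [h, h', hw, one_pow]
    · have h' : n - m = (n - (m + 1)) + 1 := by omega
      rw [h']
      exact w.2.2 _

theorem PG_pow_self (w : PG) (n : ℕ) : w.1 n ^ 5 ^ n = 1 := by
  rw [PG_pow, Nat.sub_self]
  exact w.2.1

/-- a fifth root on the circle -/
lemma gpow_exists_root (c : Circle) : ∃ d : Circle, d ^ 5 = c := by
  obtain ⟨t, ht⟩ : ∃ t : ℝ, Circle.exp t = c := ⟨Complex.arg c, Circle.exp_arg c⟩
  refine ⟨Circle.exp (t / 5), ?_⟩
  rw [← ht, ← Circle.exp_nsmul]
  congr 1
  rw [nsmul_eq_mul]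
  push_cast
  ring

/-- a chosen fifth root -/
def gpowRt (c : Circle) : Circle := (gpow_exists_root c).choose

lemma gpowRt_pow (c : Circle) : gpowRt c ^ 5 = c := (gpow_exists_root c).choose_spec

/-- iterated fifth roots -/
def gpowIt (c : Circle) : ℕ → Circle
  | 0 => c
  | n + 1 => gpowRt (gpowIt c n)

/-- every root of unity of order `5^l` is the `l`-th coordinate of an element -/
theorem PG_surj (l : ℕ) (c : Circle) (hc : c ^ 5 ^ l = 1) : ∃ w : PG, w.1 l = c := by
  refine ⟨⟨fun n => if n ≤ l then c ^ 5 ^ (l - n) else gpowIt c (n - l), ?_, ?_⟩, ?_⟩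
  · change (if 0 ≤ l then c ^ 5 ^ (l - 0) else gpowIt c (0 - l)) = 1
    rw [if_pos (Nat.zero_le l), Nat.sub_zero, hc]
  · intro j
    change (if j + 1 ≤ l then c ^ 5 ^ (l - (j + 1)) else gpowIt c (j + 1 - l)) ^ 5 =
      if j ≤ l then c ^ 5 ^ (l - j) else gpowIt c (j - l)
    by_cases h : j + 1 ≤ l
    · rw [if_pos h, if_pos (by omega), ← pow_mul, ← pow_succ]
      congr 2
      omega
    · have e : j + 1 - l = (j - l) + 1 := by omega
      rw [if_neg h, e]
      change gpowRt (gpowIt c (j - l)) ^ 5 = _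
      rw [gpowRt_pow]
      by_cases h2 : j ≤ l
      · have hj : j = l := by omega
        subst hj
        rw [if_pos le_rfl, Nat.sub_self, pow_zero, pow_one]
        rfl
      · rw [if_neg h2]
  · change (if l ≤ l then c ^ 5 ^ (l - l) else gpowIt c (l - l)) = c
    rw [if_pos le_rfl, Nat.sub_self, pow_zero, pow_one]

end Pool.Agent.HCF
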