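import Pool.Agent.HCF.GFib
import Pool.Agent.HCF.GAct
import Pool.Agent.HCF.GPow
import Pool.Agent.HCF.GCov

/-! # Homotopy lifting for `I0 → I0 / PG` (module GUHL) -/

open Topology

noncomputable section

namespace Pool.Agent.HCF

/-- the first `l` coordinates -/
def resY (l : ℕ) (x : I0) : YF l := fun j => x j

lemma gl_continuous_coord (j : ℕ) : Continuous (fun x : I0 => x j) :=
  (continuous_apply j : Continuous fun x : (∀ j : ℕ, SS j) => x j)

lemma gl_continuous_resY (l : ℕ) : Continuous (resY l) :=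
  continuous_pi fun j => gl_continuous_coord j

lemma gl_continuous_toI0 {Z : Type} [TopologicalSpace Z] (f : Z → I0)
    (h : ∀ j, Continuous fun z => f z j) : Continuous f := by
  have : Continuous (fun z => (f z : ∀ j : ℕ, SS j)) := continuous_pi h
  exact this

/-- the space of orbits of level `l` -/
abbrev BQ (l : ℕ) : Type := Quotient (MulAction.orbitRel (MU l) (YF l))

/-- the quotient map of level `l` -/
def PY (l : ℕ) : YF l → BQ l := Quotient.mk (MulAction.orbitRel (MU l) (YF l))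

lemma PY_eq_iff {l : ℕ} {y y' : YF l} : PY l y = PY l y' ↔ ∃ c : MU l, y = c • y' := by
  refine (Quotient.eq (r := MulAction.orbitRel (MU l) (YF l))).trans ?_
  rw [MulAction.orbitRel_apply]
  exact ⟨fun ⟨g, hg⟩ => ⟨g, hg.symm⟩, fun ⟨g, hg⟩ => ⟨g, hg.symm⟩⟩

lemma MU_smul_apply {l : ℕ} (c : MU l) (y : YF l) (j : Fin l) :
    (c • y) j = csmS (c.1 ^ 5 ^ (l - 1 - (j : ℕ))) (y j) := rfl

/-- the coordinate of an element of the group -/
def coordMU (l : ℕ) (w : PG) : MU l := ⟨w.1 l, PG_pow_self w l⟩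

lemma resY_smul (l : ℕ) (w : PG) (x : I0) : resY l (w • x) = coordMU l w • resY l x := by
  funext j
  rw [MU_smul_apply]
  change csmS (w.1 (j + 1)) (x j) = csmS (w.1 l ^ 5 ^ (l - 1 - (j : ℕ))) (x j)
  have h : l - (l - 1 - (j : ℕ)) = j + 1 := by
    have := j.2
    omega
  rw [PG_pow, h]

/-- the comparison of the orbit spaces -/
def phiQ (l : ℕ) : Orb PG I0 → BQ l :=
  Quotient.lift (fun x : I0 => PY l (resY l x)) (by
    rintro x y ⟨w, hw⟩
    simp only at hw
    rw [← hw]
    exact PY_eq_iff.2 ⟨coordMU l w, resY_smul l w y⟩)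

lemma phiQ_mk (l : ℕ) (x : I0) : phiQ l (Orb.mk PG x) = PY l (resY l x) := rfl

lemma continuous_PY (l : ℕ) : Continuous (PY l) := (isCoveringMap_YF l).continuous

lemma continuous_phiQ (l : ℕ) : Continuous (phiQ l) := by
  refine (Orb.isOpenQuotientMap_mk (G := PG) (X := I0)).isQuotientMap.continuous_iff.2 ?_
  exact (continuous_PY l).comp (gl_continuous_resY l)

/-- restriction to one coordinate less -/
def rhoY (l : ℕ) (y : YF (l + 1)) : YF l := fun j => y j.castSucc

lemma continuous_rhoY (l : ℕ) : Continuous (rhoY l) :=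
  continuous_pi fun j => continuous_apply j.castSucc

/-- the fifth power -/
def fifthMU (l : ℕ) (c : MU (l + 1)) : MU l := ⟨c.1 ^ 5, by
  have h : c.1 ^ 5 ^ (l + 1) = 1 := c.2
  change (c.1 ^ 5) ^ 5 ^ l = 1
  rw [← pow_mul, ← pow_succ', h]⟩

lemma rhoY_smul (l : ℕ) (c : MU (l + 1)) (y : YF (l + 1)) :
    rhoY l (c • y) = fifthMU l c • rhoY l y := by
  funext j
  rw [MU_smul_apply]
  change csmS (c.1 ^ 5 ^ (l + 1 - 1 - (j : ℕ))) (y j.castSucc) =
    csmS ((c.1 ^ 5) ^ 5 ^ (l - 1 - (j : ℕ))) (y j.castSucc)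
  rw [← pow_mul, ← pow_succ']
  congr 3
  have := j.2
  omega

lemma PY_rhoY {l : ℕ} {y y' : YF (l + 1)} (h : PY (l + 1) y = PY (l + 1) y') :
    PY l (rhoY l y) = PY l (rhoY l y') := by
  obtain ⟨c, rfl⟩ := PY_eq_iff.1 h
  exact PY_eq_iff.2 ⟨fifthMU l c, rhoY_smul l c y'⟩

lemma phiQ_of_mk (l : ℕ) (y : YF (l + 1)) (b : Orb PG I0) (h : PY (l + 1) y = phiQ (l + 1) b) :
    PY l (rhoY l y) = phiQ l b := by
  obtain ⟨x, rfl⟩ := Orb.mk_surjective (G := PG) b
  exact PY_rhoY h

lemma MU_free' {l : ℕ} (c d : MU l) (y : YF l) (h : c • y = d • y) : c = d := by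
  have h2 : (d⁻¹ * c) • y = y := by rw [mul_smul, h, inv_smul_smul]
  have := MU_free l _ y h2
  exact (inv_mul_eq_one.1 this).symm

/-- If all finite levels agree, the classes agree. -/
lemma mk_eq_of_levels (x : I0) (b : Orb PG I0) (h : ∀ l, PY l (resY l x) = phiQ l b) :
    Orb.mk PG x = b := by
  obtain ⟨x0, rfl⟩ := Orb.mk_surjective (G := PG) b
  have h' : ∀ l, ∃ c : MU l, resY l x = c • resY l x0 := fun l => PY_eq_iff.1 (h l)
  choose c hc using h'
  have hcc : ∀ l, fifthMU l (c (l + 1)) = c l := by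
    intro l
    refine MU_free' _ _ (resY l x0) ?_
    have h1 : rhoY l (resY (l + 1) x) = rhoY l (c (l + 1) • resY (l + 1) x0) := by rw [hc (l + 1)]
    rw [rhoY_smul] at h1
    have h2 : resY l x = fifthMU l (c (l + 1)) • resY l x0 := h1
    rw [← h2, ← hc l]
  let w : PG := ⟨fun l => (c l).1, by
    constructor
    · have : (c 0).1 ^ 5 ^ 0 = 1 := (c 0).2
      simpa using this
    · intro j
      exact congrArg Subtype.val (hcc j)⟩
  refine Orb.mk_eq_iff.2 ⟨w, ?_⟩
  funext j
  change x j = csmS ((c (j + 1)).1) (x0 j)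
  have h1 : resY (j + 1) x (Fin.last j) = (c (j + 1) • resY (j + 1) x0) (Fin.last j) := by
    rw [hc (j + 1)]
  rw [MU_smul_apply] at h1
  have h2 : x j = csmS ((c (j + 1)).1 ^ 5 ^ (j + 1 - 1 - j)) (x0 j) := h1
  rw [h2]
  simp

theorem I0_UHL : UHL PG I0 := by
  intro Z _ H g hg
  have H0 : ∀ (l : ℕ) (z : Z), ((⟨phiQ l, continuous_phiQ l⟩ : C(Orb PG I0, BQ l)).comp
      (H.comp ⟨Prod.swap, continuous_swap⟩) : C(unitInterval × Z, BQ l)) (0, z) =
        PY l ((⟨resY l, gl_continuous_resY l⟩ : C(I0, YF l)).comp g z) := by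
    intro l z
    change phiQ l (H (z, 0)) = PY l (resY l (g z))
    rw [← hg]
    rfl
  let L : ∀ l, C(unitInterval × Z, YF l) := fun l =>
    (isCoveringMap_YF l).liftHomotopy _ _ (H0 l)
  have hL : ∀ l t z, PY l (L l (t, z)) = phiQ l (H (z, t)) := fun l t z =>
    congrFun ((isCoveringMap_YF l).liftHomotopy_lifts _ _ (H0 l)) (t, z)
  have hL0 : ∀ l z, L l (0, z) = resY l (g z) := fun l z =>
    (isCoveringMap_YF l).liftHomotopy_zero _ _ (H0 l) z
  have hcomp : ∀ l p, rhoY l (L (l + 1) p) = L l p := by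
    intro l
    have h1 : (fun p => rhoY l (L (l + 1) p)) = (L l : unitInterval × Z → YF l) := by
      refine ((isCoveringMap_YF l).eq_liftHomotopy_iff (H0 l) _).2 ⟨fun a => ?_, ?_, fun a => ?_⟩
      · exact (continuous_rhoY l).comp ((L (l + 1)).continuous.comp (by fun_prop))
      · funext p
        exact phiQ_of_mk l _ _ (hL (l + 1) p.1 p.2)
      · change rhoY l (L (l + 1) (0, a)) = resY l (g a)
        rw [hL0]
        rfl
    intro p
    exact congrFun h1 p
  let LL : Z × unitInterval → I0 := fun y j => L (j + 1) (y.2, y.1) (Fin.last j)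
  have hres : ∀ l y, resY l (LL y) = L l (y.2, y.1) := by
    intro l
    induction l with
    | zero => intro y; exact funext fun j => j.elim0
    | succ l ih =>
      intro y
      funext j
      refine Fin.lastCases ?_ (fun j' => ?_) j
      · rfl
      · have h1 := congrFun (ih y) j'
        rw [← hcomp l] at h1
        exact h1
  refine ⟨⟨LL, gl_continuous_toI0 _ fun j => ?_⟩, fun z => ?_, fun y => ?_⟩
  · exact (continuous_apply (Fin.last j)).comp ((L (j + 1)).continuous.comp
      (continuous_snd.prodMk continuous_fst))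
  · funext j
    change L (j + 1) (0, z) (Fin.last j) = g z j
    rw [hL0]
    rfl
  · refine mk_eq_of_levels _ _ fun l => ?_
    change PY l (resY l (LL y)) = _
    rw [hres, hL]

theorem I0_UPL : UPL PG I0 := by
  intro γ γ' h h0
  ext t
  have key : ∀ l, (fun t => resY l (γ t)) = fun t => resY l (γ' t) := by
    intro l
    refine (isCoveringMap_YF l).eq_of_comp_eq ((gl_continuous_resY l).comp γ.continuous)
      ((gl_continuous_resY l).comp γ'.continuous) ?_ 0 (by rw [h0])
    funext t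
    change phiQ l (Orb.mk PG (γ t)) = phiQ l (Orb.mk PG (γ' t))
    rw [h]
  funext j
  have := congrFun (congrFun (key (j + 1)) t) (Fin.last j)
  exact this

end Pool.Agent.HCF
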