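import Pool.Agent.HCF.KFou

/-! # Approximation by Laurent polynomials (module KFEJ) -/

noncomputable section

namespace Pool.Agent.HCF

variable {Γ : Type} {u : Γ → Circle} {x : Γ → ℤ} {Z : Type} [TopologicalSpace Z] [Op Γ Z]

/-- the number of pairs with a given difference -/
def kfejA (N : ℕ) (k : ℤ) : ℕ :=
  ((Finset.range (N + 1) ×ˢ Finset.range (N + 1)).filter fun p => (p.1 : ℤ) - p.2 = k).card

/-- the Dirichlet sum -/
def kfejP (N : ℕ) (v : Circle) : ℂ := ∑ j ∈ Finset.range (N + 1), ((v ^ j : Circle) : ℂ)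

/-- the Fejer kernel -/
def kfejK (N : ℕ) (v : Circle) : ℝ := ‖kfejP N v‖ ^ 2 / ((N : ℝ) + 1)

lemma kfejA_zero (N : ℕ) : kfejA N 0 = N + 1 := by
  have h : ((Finset.range (N + 1) ×ˢ Finset.range (N + 1)).filter
      fun p => (p.1 : ℤ) - p.2 = 0) = (Finset.range (N + 1)).image fun i => (i, i) := by
    ext ⟨i, j⟩
    simp only [Finset.mem_filter, Finset.mem_product, Finset.mem_range, Finset.mem_image,
      Prod.mk.injEq]
    constructor
    · rintro ⟨⟨h1, h2⟩, h3⟩
      exact ⟨i, h1, rfl, by omega⟩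
    · rintro ⟨a, h1, h2, h3⟩
      subst h2 h3
      exact ⟨⟨h1, h1⟩, sub_self _⟩
  rw [kfejA, h, Finset.card_image_of_injective _ (fun a b hab => (Prod.mk.inj hab).1),
    Finset.card_range]

lemma kfej_coe_inv (v : Circle) : ((v⁻¹ : Circle) : ℂ) = (starRingEnd ℂ) (v : ℂ) := by
  rw [Circle.coe_inv_eq_conj]

lemma kfej_sum (N : ℕ) (v : Circle) :
    ∑ k ∈ Finset.Icc (-(N : ℤ)) N, (kfejA N k : ℂ) * ((v ^ k : Circle) : ℂ) =
      ((‖kfejP N v‖ ^ 2 : ℝ) : ℂ) := by
  have h1 : ((‖kfejP N v‖ ^ 2 : ℝ) : ℂ) = kfejP N v * (starRingEnd ℂ) (kfejP N v) := by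
    rw [Complex.mul_conj, Complex.normSq_eq_norm_sq]
  have h2 : kfejP N v * (starRingEnd ℂ) (kfejP N v) =
      ∑ p ∈ Finset.range (N + 1) ×ˢ Finset.range (N + 1),
        ((v ^ ((p.1 : ℤ) - p.2) : Circle) : ℂ) := by
    rw [kfejP, map_sum, Finset.sum_mul_sum, ← Finset.sum_product']
    refine Finset.sum_congr rfl fun p _ => ?_
    rw [← kfej_coe_inv, ← Circle.coe_mul]
    congr 1
    rw [zpow_sub, zpow_natCast, zpow_natCast]
  rw [h1, h2, ← Finset.sum_fiberwise_of_maps_to (s := Finset.range (N + 1) ×ˢ Finset.range (N + 1))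
    (t := Finset.Icc (-(N : ℤ)) N) (g := fun p => (p.1 : ℤ) - p.2)]
  · refine Finset.sum_congr rfl fun k _ => ?_
    rw [Finset.sum_congr rfl (g := fun _ => ((v ^ k : Circle) : ℂ)), Finset.sum_const,
      nsmul_eq_mul, kfejA]
    intro p hp
    rw [(Finset.mem_filter.1 hp).2]
  · rintro ⟨i, j⟩ hp
    rw [Finset.mem_product, Finset.mem_range, Finset.mem_range] at hp
    rw [Finset.mem_Icc]
    simp only at hp ⊢
    omega

lemma kfejP_bound (N : ℕ) (v : Circle) : ‖kfejP N v‖ * ‖(v : ℂ) - 1‖ ≤ 2 := by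
  have h1 : kfejP N v * ((v : ℂ) - 1) = (v : ℂ) ^ (N + 1) - 1 := by
    rw [kfejP, ← geom_sum_mul]
    simp only [Circle.coe_pow]
  rw [← norm_mul, h1]
  refine (norm_sub_le _ _).trans ?_
  rw [norm_pow, Circle.norm_coe]
  norm_num

lemma kfejK_nonneg (N : ℕ) (v : Circle) : 0 ≤ kfejK N v := by unfold kfejK; positivity

lemma kfejK_le (N : ℕ) (v : Circle) (d : ℝ) (hd : 0 < d) (hv : d ≤ ‖(v : ℂ) - 1‖) :
    kfejK N v ≤ 4 / (((N : ℝ) + 1) * d ^ 2) := by
  have h1 : ‖kfejP N v‖ * d ≤ 2 :=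
    (mul_le_mul_of_nonneg_left hv (norm_nonneg _)).trans (kfejP_bound N v)
  have h2 : ‖kfejP N v‖ ^ 2 * d ^ 2 ≤ 4 := by
    have h0 : 0 ≤ ‖kfejP N v‖ * d := by positivity
    nlinarith
  have hN : (0 : ℝ) < (N : ℝ) + 1 := by positivity
  rw [kfejK, div_le_div_iff₀ hN (by positivity)]
  nlinarith

lemma kfej_cont (N : ℕ) : Continuous (kfejK N) := by
  unfold kfejK kfejP
  refine Continuous.div_const (Continuous.pow (Continuous.norm ?_) 2) _
  refine continuous_finsetSum _ fun j _ => ?_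
  exact continuous_subtype_val.comp (continuous_pow j)

/-- the Fejer sum as an integral -/
lemma kfej_repr (N : ℕ) (g : Circle → ℂ) (hg : Continuous g) (w : Circle) :
    ∑ k ∈ Finset.Icc (-(N : ℤ)) N, ((kfejA N k : ℂ) / ((N : ℂ) + 1)) * fcVal k g *
      ((w ^ k : Circle) : ℂ) = fcVal 0 fun v => g v * (kfejK N (w * v⁻¹) : ℂ) := by
  have h1 : ∀ v : Circle, (kfejK N (w * v⁻¹) : ℂ) = ∑ k ∈ Finset.Icc (-(N : ℤ)) N,
      ((kfejA N k : ℂ) / ((N : ℂ) + 1)) * (((w * v⁻¹) ^ k : Circle) : ℂ) := by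
    intro v
    rw [kfejK, Complex.ofReal_div, ← kfej_sum, Finset.sum_div]
    refine Finset.sum_congr rfl fun k _ => ?_
    push_cast
    ring
  unfold fcVal
  simp_rw [h1]
  have h2 : ∀ t : ℝ, g (Circle.exp (2 * Real.pi * t)) * (∑ k ∈ Finset.Icc (-(N : ℤ)) N,
      ((kfejA N k : ℂ) / ((N : ℂ) + 1)) *
        (((w * (Circle.exp (2 * Real.pi * t))⁻¹) ^ k : Circle) : ℂ)) *
        ((Circle.exp (2 * Real.pi * t) ^ (-0 : ℤ) : Circle) : ℂ) =
      ∑ k ∈ Finset.Icc (-(N : ℤ)) N, (((kfejA N k : ℂ) / ((N : ℂ) + 1)) *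
        ((w ^ k : Circle) : ℂ)) * (g (Circle.exp (2 * Real.pi * t)) *
        ((Circle.exp (2 * Real.pi * t) ^ (-k) : Circle) : ℂ)) := by
    intro t
    rw [neg_zero, zpow_zero, Circle.coe_one, mul_one, Finset.mul_sum]
    refine Finset.sum_congr rfl fun k _ => ?_
    have : ((w * (Circle.exp (2 * Real.pi * t))⁻¹) ^ k : Circle) =
        w ^ k * Circle.exp (2 * Real.pi * t) ^ (-k) := by
      rw [mul_zpow, inv_zpow']
    rw [this, Circle.coe_mul]
    ring
  simp_rw [h2]
  rw [intervalIntegral.integral_finsetSum]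
  · refine Finset.sum_congr rfl fun k _ => ?_
    rw [intervalIntegral.integral_const_mul]
    ring
  · intro k _
    exact (kfou_ii k hg 0 1).const_mul _

lemma kfej_mass (N : ℕ) (w : Circle) :
    fcVal 0 (fun v => (kfejK N (w * v⁻¹) : ℂ)) = 1 := by
  have h1 := kfej_repr N (fun _ => 1) continuous_const w
  simp only [one_mul] at h1
  rw [← h1, Finset.sum_eq_single (0 : ℤ)]
  · rw [kfou_fcVal_one, if_pos rfl, kfejA_zero, zpow_zero, Circle.coe_one]
    have : ((N : ℂ) + 1) ≠ 0 := by exact_mod_cast Nat.succ_ne_zero N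
    push_cast
    field_simp
  · intro k _ hk
    rw [kfou_fcVal_one, if_neg hk, mul_zero, zero_mul]
  · intro h
    exact absurd (Finset.mem_Icc.2 ⟨by omega, by omega⟩) h

lemma kfej_mass_real (N : ℕ) (w : Circle) :
    ∫ t in (0 : ℝ)..1, kfejK N (w * (Circle.exp (2 * Real.pi * t))⁻¹) = 1 := by
  have h := kfej_mass N w
  unfold fcVal at h
  simp only [neg_zero, zpow_zero, Circle.coe_one, mul_one] at h
  rw [intervalIntegral.integral_ofReal] at h
  exact_mod_cast h

lemma kfej_error (N : ℕ) (g : Circle → ℂ) (hg : Continuous g) (δ d M : ℝ) (hd : 0 < d)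
    (hδ : ∀ w v : Circle, dist w v < d → ‖g w - g v‖ ≤ δ) (hM : ∀ w, ‖g w‖ ≤ M) (w : Circle) :
    ‖g w - ∑ k ∈ Finset.Icc (-(N : ℤ)) N, ((kfejA N k : ℂ) / ((N : ℂ) + 1)) * fcVal k g *
      ((w ^ k : Circle) : ℂ)‖ ≤ δ + 2 * M * (4 / (((N : ℝ) + 1) * d ^ 2)) := by
  have hδ0 : 0 ≤ δ := (norm_nonneg _).trans (hδ w w (by rw [dist_self]; exact hd))
  have hM0 : 0 ≤ M := (norm_nonneg _).trans (hM w)
  have hK : Continuous fun v : Circle => kfejK N (w * v⁻¹) := (kfej_cont N).comp (by fun_prop)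
  have hKc : Continuous fun v : Circle => (kfejK N (w * v⁻¹) : ℂ) :=
    Complex.continuous_ofReal.comp hK
  rw [kfej_repr N g hg w]
  have h1 : g w = fcVal 0 fun v => g w * (kfejK N (w * v⁻¹) : ℂ) := by
    rw [kfou_fcVal_const_mul, kfej_mass, mul_one]
  have h2 : g w - fcVal 0 (fun v => g v * (kfejK N (w * v⁻¹) : ℂ)) =
      fcVal 0 (fun v => (g w - g v) * (kfejK N (w * v⁻¹) : ℂ)) := by
    conv_lhs => rw [h1]
    rw [← kfou_fcVal_sub 0 (f := fun v => g w * (kfejK N (w * v⁻¹) : ℂ))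
      (g := fun v => g v * (kfejK N (w * v⁻¹) : ℂ)) (continuous_const.mul hKc) (hg.mul hKc)]
    congr 1
    ext v
    ring
  rw [h2]
  set C : ℝ := 2 * M * (4 / (((N : ℝ) + 1) * d ^ 2)) with hC
  have hC0 : 0 ≤ C := by positivity
  have h3 : ∀ v : Circle, ‖(g w - g v) * (kfejK N (w * v⁻¹) : ℂ)‖ ≤
      δ * kfejK N (w * v⁻¹) + C := by
    intro v
    rw [norm_mul, Complex.norm_real, Real.norm_of_nonneg (kfejK_nonneg _ _)]
    by_cases hwv : dist w v < d
    · have := mul_le_mul_of_nonneg_right (hδ w v hwv) (kfejK_nonneg N (w * v⁻¹))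
      linarith
    · have h4 : d ≤ ‖((w * v⁻¹ : Circle) : ℂ) - 1‖ := by
        have h5 : ((w * v⁻¹ : Circle) : ℂ) - 1 = ((w : ℂ) - v) * ((v⁻¹ : Circle) : ℂ) := by
          rw [sub_mul, ← Circle.coe_mul, ← Circle.coe_mul, mul_inv_cancel, Circle.coe_one]
        rw [h5, norm_mul, Circle.norm_coe, mul_one, ← dist_eq_norm]
        exact not_lt.1 hwv
      have h6 := kfejK_le N (w * v⁻¹) d hd h4
      have h7 : ‖g w - g v‖ ≤ 2 * M := by
        refine (norm_sub_le _ _).trans ?_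
        linarith [hM w, hM v]
      have h8 : ‖g w - g v‖ * kfejK N (w * v⁻¹) ≤ C := by
        rw [hC]
        exact mul_le_mul h7 h6 (kfejK_nonneg _ _) (by linarith)
      have h9 : 0 ≤ δ * kfejK N (w * v⁻¹) := mul_nonneg hδ0 (kfejK_nonneg _ _)
      linarith
  have h4 : ‖fcVal 0 (fun v => (g w - g v) * (kfejK N (w * v⁻¹) : ℂ))‖ ≤
      ∫ t in (0 : ℝ)..1, (δ * kfejK N (w * (Circle.exp (2 * Real.pi * t))⁻¹) + C) := by
    unfold fcVal
    refine intervalIntegral.norm_integral_le_of_norm_le zero_le_one ?_ ?_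
    · refine Filter.Eventually.of_forall fun t _ => ?_
      rw [norm_mul, Circle.norm_coe, mul_one]
      exact h3 _
    · refine Continuous.intervalIntegrable ?_ 0 1
      refine Continuous.add (continuous_const.mul (hK.comp (by fun_prop))) continuous_const
  refine h4.trans (le_of_eq ?_)
  rw [intervalIntegral.integral_add, intervalIntegral.integral_const_mul, kfej_mass_real]
  · simp
  · refine Continuous.intervalIntegrable ?_ 0 1
    exact continuous_const.mul (hK.comp (by fun_prop))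
  · exact continuous_const.intervalIntegrable 0 1

/-- Uniform approximation of finitely many functions on `Z × S^1` of given weights by Laurent
polynomials in the circle variable with coefficients of the right weights, exact at the points of
`Z` where the functions are constant in the circle variable. -/
theorem fejer [CompactSpace Z] (hx : ∃ m : ℕ, 0 < m ∧ ∀ g, (u g ^ x g) ^ m = 1) {α : Type}
    [Finite α] (y : α → Γ → ℤ) (f : α → C(Z × Cir u x, ℂ)) (hf : ∀ i, IsW u (y i) (f i))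
    (ε : ℝ) (hε : 0 < ε) :
    ∃ (N : ℕ) (c : α → ℤ → C(Z, ℂ)), 1 ≤ N ∧ (∀ i k, IsW u (y i - k • x) (c i k)) ∧
      (∀ i (z : Z) (w : Cir u x),
        ‖f i (z, w) - ∑ k ∈ Finset.Icc (-(N : ℤ)) N, c i k z * zc u x w ^ k‖ < ε) ∧
      (∀ i (z : Z), (∀ w w' : Cir u x, f i (z, w) = f i (z, w')) →
        (∀ w : Cir u x, c i 0 z = f i (z, w)) ∧ ∀ k : ℤ, k ≠ 0 → |k| ≤ N → c i k z = 0) := by
  have _ := hx
  classical
  cases nonempty_fintype α
  -- uniform continuity
  let F : α → C(Circle, C(Z, ℂ)) := fun i =>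
    ContinuousMap.curry (X := Circle) (Y := Z) (Z := ℂ)
      ((f i).comp (⟨fun p => (p.2, p.1), by
        exact Continuous.prodMk continuous_snd continuous_fst⟩ : C(Circle × Z, Z × Cir u x)))
  have hF : ∀ i w z, F i w z = f i (z, w) := fun i w z => rfl
  let G : Circle → α → C(Z, ℂ) := fun w i => F i w
  have hG : Continuous G := continuous_pi fun i => (F i).continuous
  have hGu : UniformContinuous G := CompactSpace.uniformContinuous_of_continuous hG
  obtain ⟨d, hd, hGd⟩ := Metric.uniformContinuous_iff.1 hGu (ε / 4) (by positivity)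
  obtain ⟨M, hM⟩ := (isCompact_range hG).isBounded.exists_norm_le
  have hM0 : 0 ≤ M := (norm_nonneg _).trans (hM (G 1) ⟨1, rfl⟩)
  obtain ⟨N, hN⟩ := exists_nat_gt (max 1 (2 * M * 4 / (d ^ 2 * (ε / 4))))
  have hN1 : (1 : ℝ) < N := lt_of_le_of_lt (le_max_left _ _) hN
  have hN2 : 2 * M * 4 / (d ^ 2 * (ε / 4)) < N := lt_of_le_of_lt (le_max_right _ _) hN
  have hN0 : ((N : ℂ) + 1) ≠ 0 := by exact_mod_cast Nat.succ_ne_zero N
  refine ⟨N, fun i k => ContinuousMap.const Z ((kfejA N k : ℂ) / ((N : ℂ) + 1)) * fc k (f i),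
    ?_, ?_, ?_, ?_⟩
  · have : 1 < N := by exact_mod_cast hN1
    exact this.le
  · intro i k
    have h := fc_isW k (y i) (f i) (hf i)
    intro g z
    change ((kfejA N k : ℂ) / ((N : ℂ) + 1)) * fc k (f i) (op g z) =
      ch u (y i - k • x) g * (((kfejA N k : ℂ) / ((N : ℂ) + 1)) * fc k (f i) z)
    rw [h g z]
    ring
  · intro i z w
    have h1 := kfej_error N (fun w => f i (z, w)) (kfou_cont_slice (f i) z) (ε / 4) d M hd
      (fun w v hwv => by
        have h2 := hGd hwv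
        have h3 : dist (G w i z) (G v i z) ≤ dist (G w) (G v) :=
          (ContinuousMap.dist_apply_le_dist z).trans (dist_le_pi_dist (G w) (G v) i)
        rw [dist_eq_norm] at h3
        exact h3.trans h2.le)
      (fun w => by
        have h2 := hM (G w) ⟨w, rfl⟩
        have h3 : ‖G w i z‖ ≤ ‖G w‖ :=
          ((G w i).norm_coe_le_norm z).trans (norm_le_pi_norm (G w) i)
        exact h3.trans h2) w
    have h2 : (∑ k ∈ Finset.Icc (-(N : ℤ)) N,
        (ContinuousMap.const Z ((kfejA N k : ℂ) / ((N : ℂ) + 1)) * fc k (f i)) z *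
          zc u x w ^ k) = ∑ k ∈ Finset.Icc (-(N : ℤ)) N,
          ((kfejA N k : ℂ) / ((N : ℂ) + 1)) * fcVal k (fun w => f i (z, w)) *
      ((((show Circle from w) ^ k : Circle)) : ℂ) := by
      refine Finset.sum_congr rfl fun k _ => ?_
      rw [Circle.coe_zpow]
      rfl
    rw [h2]
    refine lt_of_le_of_lt h1 ?_
    have h3 : 2 * M * (4 / (((N : ℝ) + 1) * d ^ 2)) ≤ ε / 4 := by
      have hN3 : (0 : ℝ) < (N : ℝ) + 1 := by positivity
      rw [div_lt_iff₀ (by positivity)] at hN2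
      rw [← mul_div_assoc, div_le_iff₀ (by positivity)]
      have : 0 ≤ d ^ 2 * (ε / 4) := by positivity
      nlinarith
    linarith
  · intro i z hconst
    have hval : ∀ k : ℤ, ∀ w : Circle, fcVal k (fun w => f i (z, w)) =
        f i (z, w) * (if k = 0 then 1 else 0) := by
      intro k w
      have h1 : (fun w : Circle => f i (z, w)) = fun _ => f i (z, w) * (1 : ℂ) := by
        ext v
        rw [mul_one]
        exact hconst v w
      rw [← kfou_fcVal_one k, ← kfou_fcVal_const_mul, ← h1]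
    constructor
    · intro w
      change ((kfejA N 0 : ℂ) / ((N : ℂ) + 1)) * fcVal 0 (fun w => f i (z, w)) = f i (z, w)
      rw [hval 0 w, if_pos rfl, kfejA_zero]
      push_cast
      field_simp
    · intro k hk _
      change ((kfejA N k : ℂ) / ((N : ℂ) + 1)) * fcVal k (fun w => f i (z, w)) = 0
      rw [hval k 1, if_neg hk, mul_zero, mul_zero]

end Pool.Agent.HCF
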