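import Pool.Agent.HCF.KDefs

/-! # Homotopy invariance (module KHOM) -/

noncomputable section

namespace Pool.Agent.HCF

variable {Γ : Type} {u : Γ → Circle} {Z Z' : Type} [TopologicalSpace Z] [Op Γ Z]
  [TopologicalSpace Z'] [Op Γ Z']

/-- the inclusion at time `t` -/
def atT (Z : Type) [TopologicalSpace Z] (t : unitInterval) : C(Z, Z × unitInterval) :=
  ⟨fun z => (z, t), by fun_prop⟩

@[simp] lemma atT_apply (t : unitInterval) (z : Z) : atT Z t z = (z, t) := rfl

lemma eqv_atT (t : unitInterval) : Eqv Γ (atT Z t) := fun _ _ => rfl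

/-- evaluation at a point -/
def khomEv (z : Z) : C(Z, ℂ) →+* ℂ where
  toFun f := f z
  map_one' := rfl
  map_mul' _ _ := rfl
  map_zero' := rfl
  map_add' _ _ := rfl

/-- composition with a map -/
def khomComp (φ : C(Z', Z)) : C(Z, ℂ) →+* C(Z', ℂ) where
  toFun f := f.comp φ
  map_one' := rfl
  map_mul' _ _ := rfl
  map_zero' := rfl
  map_add' _ _ := rfl

omit [Op Γ Z] in
theorem khom_ev_mul {ι κ μ : Type} [Fintype κ] (z : Z) (a : Matrix ι κ C(Z, ℂ))
    (b : Matrix κ μ C(Z, ℂ)) :
    (a * b).map (khomEv z) = a.map (khomEv z) * b.map (khomEv z) := by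
  ext i j
  simp [Matrix.mul_apply, Matrix.map_apply, map_sum, map_mul]

omit [Op Γ Z] in
theorem khom_ev_one {ι : Type} [Fintype ι] [DecidableEq ι] (z : Z) :
    (1 : Matrix ι ι C(Z, ℂ)).map (khomEv z) = 1 := by
  rw [Matrix.map_one _ (map_zero _) (map_one _)]

/-- a homogeneous square matrix moves by conjugation with a diagonal matrix -/
theorem khom_conj {ι : Type} [Fintype ι] [DecidableEq ι] {w : ι → Γ → ℤ}
    {a : Matrix ι ι C(Z, ℂ)} (ha : HomM u w w a) (g : Γ) (z : Z) :
    a.map (khomEv (op g z)) = Matrix.diagonal (fun i => ch u (w i) g) * a.map (khomEv z) *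
      Matrix.diagonal (fun i => ch u (-(w i)) g) := by
  ext i j
  rw [Matrix.mul_diagonal, Matrix.diagonal_mul, Matrix.map_apply, Matrix.map_apply]
  change a i j (op g z) = ch u (w i) g * a i j z * ch u (-(w j)) g
  rw [ha i j g z, sub_eq_add_neg, ch_add]
  ring

theorem khom_diag_mul {ι : Type} [Fintype ι] [DecidableEq ι] (w : ι → Γ → ℤ) (g : Γ) :
    Matrix.diagonal (fun i => ch u (-(w i)) g) * Matrix.diagonal (fun i => ch u (w i) g) = 1 := by
  rw [Matrix.diagonal_mul_diagonal]
  have h1 : (fun i => ch u (-(w i)) g * ch u (w i) g) = fun _ => (1 : ℂ) := by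
    funext i
    rw [← ch_add, neg_add_cancel, ch_zero]
  rw [h1, Matrix.diagonal_one]

theorem khom_conj_rev {ι : Type} [Fintype ι] [DecidableEq ι] {w : ι → Γ → ℤ}
    {b : Matrix ι ι C(Z, ℂ)}
    (h : ∀ g z, b.map (khomEv (op g z)) = Matrix.diagonal (fun i => ch u (w i) g) *
      b.map (khomEv z) * Matrix.diagonal (fun i => ch u (-(w i)) g)) : HomM u w w b := by
  intro i j g z
  have h1 := congrFun (congrFun (h g z) i) j
  rw [Matrix.mul_diagonal, Matrix.diagonal_mul, Matrix.map_apply, Matrix.map_apply] at h1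
  change b i j (op g z) = ch u (w i) g * b i j z * ch u (-(w j)) g at h1
  rw [h1, sub_eq_add_neg, ch_add]
  ring

/-- the inverse of a homogeneous matrix is homogeneous -/
theorem khom_inv {ι : Type} [Fintype ι] [DecidableEq ι] {w : ι → Γ → ℤ}
    {a b : Matrix ι ι C(Z, ℂ)} (ha : HomM u w w a) (hba : b * a = 1) : HomM u w w b := by
  refine khom_conj_rev fun g z => ?_
  have h1 : ∀ y : Z, b.map (khomEv y) * a.map (khomEv y) = 1 := fun y => by
    rw [← khom_ev_mul, hba, khom_ev_one]
  have h2 : ∀ y : Z, a.map (khomEv y) * b.map (khomEv y) = 1 := fun y =>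
    mul_eq_one_comm.1 (h1 y)
  have h3 : a.map (khomEv (op g z)) * (Matrix.diagonal (fun i => ch u (w i) g) *
      b.map (khomEv z) * Matrix.diagonal (fun i => ch u (-(w i)) g)) = 1 := by
    rw [khom_conj ha g z]
    have h4 : Matrix.diagonal (fun i => ch u (w i) g) *
        Matrix.diagonal (fun i => ch u (-(w i)) g) = 1 := mul_eq_one_comm.1 (khom_diag_mul w g)
    calc Matrix.diagonal (fun i => ch u (w i) g) * a.map (khomEv z) *
          Matrix.diagonal (fun i => ch u (-(w i)) g) * (Matrix.diagonal (fun i => ch u (w i) g) *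
          b.map (khomEv z) * Matrix.diagonal (fun i => ch u (-(w i)) g))
        = Matrix.diagonal (fun i => ch u (w i) g) * (a.map (khomEv z) *
          ((Matrix.diagonal (fun i => ch u (-(w i)) g) *
            Matrix.diagonal (fun i => ch u (w i) g)) *
          b.map (khomEv z))) * Matrix.diagonal (fun i => ch u (-(w i)) g) := by
          simp only [Matrix.mul_assoc]
      _ = 1 := by
          rw [khom_diag_mul, Matrix.one_mul, h2, Matrix.mul_one, h4]
  calc b.map (khomEv (op g z)) = b.map (khomEv (op g z)) * (a.map (khomEv (op g z)) *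
        (Matrix.diagonal (fun i => ch u (w i) g) *
      b.map (khomEv z) * Matrix.diagonal (fun i => ch u (-(w i)) g))) := by
        rw [h3, Matrix.mul_one]
    _ = _ := by
        rw [← Matrix.mul_assoc, h1, Matrix.one_mul]

/-- a matrix of functions with nowhere vanishing determinant is invertible -/
theorem khom_exists_inv {ι : Type} [Fintype ι] [DecidableEq ι] (a : Matrix ι ι C(Z, ℂ))
    (h : ∀ z, a.det z ≠ 0) : ∃ b : Matrix ι ι C(Z, ℂ), b * a = 1 ∧ a * b = 1 := by
  have h1 : IsUnit a.det := (ContinuousMap.isUnit_iff_forall_ne_zero _).2 h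
  exact ⟨a⁻¹, Matrix.nonsing_inv_mul a h1, Matrix.mul_nonsing_inv a h1⟩

/-- two idempotents which are close are isomorphic -/
theorem khom_close {ι : Type} [Fintype ι] [DecidableEq ι] {w : ι → Γ → ℤ}
    {P Q : Matrix ι ι C(Z, ℂ)} (hP : P * P = P) (hQ : Q * Q = Q) (hwP : HomM u w w P)
    (hwQ : HomM u w w Q) (h : ∀ z, (P * Q + (1 - P) * (1 - Q)).det z ≠ 0) :
    ∃ (a b : Matrix ι ι C(Z, ℂ)), HomM u w w a ∧ HomM u w w b ∧ a * b = P ∧ b * a = Q := by
  obtain ⟨v, hv1, hv2⟩ := khom_exists_inv _ h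
  have hw : HomM u w w (P * Q + (1 - P) * (1 - Q)) :=
    (hwP.mul hwQ).add ((HomM.one.sub hwP).mul (HomM.one.sub hwQ))
  have hwv : HomM u w w v := khom_inv hw hv1
  have e1 : P * (P * Q + (1 - P) * (1 - Q)) = P * Q := by
    have : P * (1 - P) = 0 := by rw [mul_sub, mul_one, hP, sub_self]
    rw [mul_add, ← mul_assoc, hP, ← mul_assoc, this, zero_mul, add_zero]
  have e2 : (P * Q + (1 - P) * (1 - Q)) * Q = P * Q := by
    have : (1 - Q) * Q = 0 := by rw [sub_mul, one_mul, hQ, sub_self]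
    rw [add_mul, mul_assoc, hQ, mul_assoc, this, mul_zero, add_zero]
  generalize P * Q + (1 - P) * (1 - Q) = W at *
  refine ⟨W * Q, v * P, hw.mul hwQ, hwv.mul hwP, ?_, ?_⟩
  · calc W * Q * (v * P) = P * (W * v) * P := by
          rw [e2, ← e1]
          simp only [mul_assoc]
      _ = P := by rw [hv2, mul_one, hP]
  · calc v * P * (W * Q) = v * (P * W) * Q := by simp only [mul_assoc]
      _ = v * (W * Q) * Q := by rw [e1, e2]
      _ = (v * W) * (Q * Q) := by simp only [mul_assoc]
      _ = Q := by rw [hv1, one_mul, hQ]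

theorem khom_local [CompactSpace Z] (E : Bun u (Z × unitInterval)) (s : unitInterval) :
    ∀ᶠ t in nhds s, Bun.Iso (E.pull (atT Z s) (eqv_atT s)) (E.pull (atT Z t) (eqv_atT t)) := by
  let c : C(Z × unitInterval, Z × unitInterval) := ⟨fun p => (p.1, s), by fun_prop⟩
  let P' : Matrix E.ι E.ι C(Z × unitInterval, ℂ) := pullM c E.e
  let W' : Matrix E.ι E.ι C(Z × unitInterval, ℂ) := P' * E.e + (1 - P') * (1 - E.e)
  have hopen : IsOpen {p : Z × unitInterval | W'.det p ≠ 0} :=
    isOpen_ne_fun W'.det.continuous continuous_const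
  have hcomp : ∀ (t : unitInterval) (z : Z),
      ((pullM (atT Z s) E.e * pullM (atT Z t) E.e +
        (1 - pullM (atT Z s) E.e) * (1 - pullM (atT Z t) E.e)).det) z = W'.det (z, t) := by
    intro t z
    have h1 : pullM (atT Z s) E.e * pullM (atT Z t) E.e +
        (1 - pullM (atT Z s) E.e) * (1 - pullM (atT Z t) E.e) =
        (khomComp (atT Z t)).mapMatrix W' := by
      have h2 : pullM (atT Z t) E.e = (khomComp (atT Z t)).mapMatrix E.e := rfl
      have h3 : pullM (atT Z s) E.e = (khomComp (atT Z t)).mapMatrix P' := rfl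
      rw [h2, h3]
      simp only [W', map_add, map_mul, map_sub, map_one]
    rw [h1, ← RingHom.map_det]
    rfl
  have hsub : (Set.univ : Set Z) ×ˢ ({s} : Set unitInterval) ⊆
      {p : Z × unitInterval | W'.det p ≠ 0} := by
    rintro ⟨z, t⟩ ⟨-, ht⟩
    obtain rfl : t = s := ht
    change W'.det (z, t) ≠ 0
    rw [← hcomp]
    have h4 : pullM (atT Z t) E.e * pullM (atT Z t) E.e = pullM (atT Z t) E.e := by
      rw [← pullM_mul, E.idem]
    have h5 : pullM (atT Z t) E.e * pullM (atT Z t) E.e +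
        (1 - pullM (atT Z t) E.e) * (1 - pullM (atT Z t) E.e) = 1 := by
      rw [mul_sub, sub_mul, sub_mul, h4]
      simp
    rw [h5, Matrix.det_one]
    exact one_ne_zero
  obtain ⟨U, V, -, hV, hU, hsV, hUV⟩ := generalized_tube_lemma isCompact_univ
    (isCompact_singleton (x := s)) hopen hsub
  filter_upwards [hV.mem_nhds (hsV rfl)] with t ht
  have h6 : ∀ z, ((pullM (atT Z s) E.e * pullM (atT Z t) E.e +
        (1 - pullM (atT Z s) E.e) * (1 - pullM (atT Z t) E.e)).det) z ≠ 0 := by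
    intro z
    rw [hcomp]
    exact hUV (Set.mk_mem_prod (hU (Set.mem_univ z)) ht)
  exact khom_close (by rw [← pullM_mul, E.idem]) (by rw [← pullM_mul, E.idem])
    (E.hom.pull (eqv_atT s)) (E.hom.pull (eqv_atT t)) h6

/-- a bundle over `Z × I` has isomorphic restrictions to the ends -/
theorem iso_of_homotopy [CompactSpace Z] (E : Bun u (Z × unitInterval)) (s t : unitInterval) :
    Bun.Iso (E.pull (atT Z s) (eqv_atT s)) (E.pull (atT Z t) (eqv_atT t)) := by
  have h1 : IsOpen {t | Bun.Iso (E.pull (atT Z s) (eqv_atT s)) (E.pull (atT Z t) (eqv_atT t))} := by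
    rw [isOpen_iff_mem_nhds]
    intro t ht
    filter_upwards [khom_local E t] with t' ht'
    exact Bun.Iso.trans ht ht'
  have h2 : IsClosed
      {t | Bun.Iso (E.pull (atT Z s) (eqv_atT s)) (E.pull (atT Z t) (eqv_atT t))} := by
    rw [← isOpen_compl_iff, isOpen_iff_mem_nhds]
    intro t ht
    filter_upwards [khom_local E t] with t' ht' hcon
    exact ht (Bun.Iso.trans hcon ht'.symm)
  have h3 := IsClopen.eq_univ ⟨h2, h1⟩ ⟨s, Bun.Iso.refl _⟩
  have h4 : t ∈ (Set.univ : Set unitInterval) := Set.mem_univ t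
  rw [← h3] at h4
  exact h4

theorem Kpull_homotopy [CompactSpace Z'] (F : C(Z' × unitInterval, Z)) (hF : Eqv Γ F)
    (φ ψ : C(Z', Z)) (hφ : Eqv Γ φ) (hψ : Eqv Γ ψ) (h0 : ∀ z, F (z, 0) = φ z)
    (h1 : ∀ z, F (z, 1) = ψ z) (y : K u Z) : Kpull φ hφ y = Kpull ψ hψ y := by
  have h : (Kpull φ hφ : K u Z →+ K u Z') = Kpull ψ hψ := by
    refine K_hom_ext fun E => ?_
    rw [Kpull_cls, Kpull_cls]
    refine cls_iso ?_
    have h2 := iso_of_homotopy (E.pull F hF) 0 1
    refine Bun.Iso.trans ?_ (Bun.Iso.trans h2 ?_)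
    · refine Bun.iso_of_equiv _ _ (Equiv.refl _) (fun i => rfl) fun i j => ?_
      refine ContinuousMap.ext fun z => ?_
      change E.e i j (F (z, 0)) = E.e i j (φ z)
      rw [h0]
    · refine Bun.iso_of_equiv _ _ (Equiv.refl _) (fun i => rfl) fun i j => ?_
      refine ContinuousMap.ext fun z => ?_
      change E.e i j (ψ z) = E.e i j (F (z, 1))
      rw [h1]
  rw [h]

end Pool.Agent.HCF
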