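import Pool.Agent.HCF.KComC
import Pool.Agent.HCF.KFej
import Pool.Agent.HCF.KHomot

/-! # Polynomial approximation of an isomorphism (module KAPPR) -/

noncomputable section

namespace Pool.Agent.HCF

variable {Γ : Type} {u : Γ → Circle} {x : Γ → ℤ} {Z : Type} [TopologicalSpace Z] [Op Γ Z]
  {ι : Type} [Fintype ι] [DecidableEq ι]

/-- multiplication of a matrix by a function -/
def kapprS {Y : Type} [TopologicalSpace Y] {μ ν : Type} (s : C(Y, ℂ)) (a : Matrix μ ν C(Y, ℂ)) :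
    Matrix μ ν C(Y, ℂ) := fun i j => s * a i j

theorem kappr_S_mul {Y : Type} [TopologicalSpace Y] {μ ν ρ : Type} [Fintype ν] (s : C(Y, ℂ))
    (a : Matrix μ ν C(Y, ℂ)) (b : Matrix ν ρ C(Y, ℂ)) :
    kapprS s a * b = kapprS s (a * b) := by
  ext1 i j
  simp only [kapprS, Matrix.mul_apply, Finset.mul_sum, mul_assoc]

theorem kappr_mul_S {Y : Type} [TopologicalSpace Y] {μ ν ρ : Type} [Fintype ν] (s : C(Y, ℂ))
    (a : Matrix μ ν C(Y, ℂ)) (b : Matrix ν ρ C(Y, ℂ)) :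
    a * kapprS s b = kapprS s (a * b) := by
  ext1 i j
  simp only [kapprS, Matrix.mul_apply, Finset.mul_sum]
  exact Finset.sum_congr rfl fun k _ => by ring

theorem kappr_S_S {Y : Type} [TopologicalSpace Y] {μ ν : Type} (s t : C(Y, ℂ))
    (a : Matrix μ ν C(Y, ℂ)) (h : s * t = 1) : kapprS s (kapprS t a) = a := by
  ext1 i j
  simp only [kapprS]
  rw [← mul_assoc, h, one_mul]

omit [Op Γ Z] in
theorem kappr_zc_ne (w : Cir u x) : zc u x w ≠ 0 := by
  rw [← norm_ne_zero_iff, norm_zc]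
  exact one_ne_zero

/-- the integer powers of the circle variable -/
def kapprZ (u : Γ → Circle) (x : Γ → ℤ) (Z : Type) [TopologicalSpace Z] (k : ℤ) :
    C(Z × Cir u x, ℂ) :=
  ⟨fun p => (zc u x p.2) ^ k,
    ((zc u x).continuous.comp continuous_snd).zpow₀ k fun p => Or.inl (kappr_zc_ne p.2)⟩

theorem kappr_isW_Z (k : ℤ) : IsW u (k • x) (kapprZ u x Z k) := by
  intro g p
  change (zc u x (op g p.2)) ^ k = ch u (k • x) g * (zc u x p.2) ^ k
  rw [zc_op, mul_zpow]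
  congr 1
  simp only [ch, Pi.smul_apply, smul_eq_mul]
  rw [← Circle.coe_zpow, ← zpow_mul, mul_comm (x g) k]

omit [Op Γ Z] in
theorem kappr_Z_mul (k : ℤ) : kapprZ u x Z k * kapprZ u x Z (-k) = 1 := by
  ext p
  change (zc u x p.2) ^ k * (zc u x p.2) ^ (-k) = 1
  rw [← zpow_add₀ (kappr_zc_ne p.2), add_neg_cancel, zpow_zero]

theorem kappr_sum_shift (N : ℕ) (hN : 1 ≤ N) (w : ℂ) (hw : w ≠ 0) (X : ℤ → ℂ) :
    ∑ k ∈ Finset.range (2 * N - 1 + 2), w ^ k * X ((k : ℤ) - N) =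
      w ^ (N : ℤ) * ∑ k ∈ Finset.Icc (-(N : ℤ)) N, w ^ k * X k := by
  rw [Finset.mul_sum]
  refine Finset.sum_nbij' (fun k : ℕ => (k : ℤ) - N) (fun k : ℤ => (k + N).toNat) ?_ ?_ ?_ ?_ ?_
  · intro k hk
    rw [Finset.mem_range] at hk
    rw [Finset.mem_Icc]
    omega
  · intro k hk
    rw [Finset.mem_Icc] at hk
    rw [Finset.mem_range]
    omega
  · intro k _
    omega
  · intro k hk
    rw [Finset.mem_Icc] at hk
    omega
  · intro k _
    rw [← mul_assoc, ← zpow_add₀ hw]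
    have h1 : (N : ℤ) + ((k : ℤ) - N) = (k : ℤ) := by ring
    rw [h1, zpow_natCast]

theorem kappr_det {n : Type} [Fintype n] [DecidableEq n] (A : Matrix n n ℂ) (η : ℝ)
    (hη : (Fintype.card n : ℝ) * η < 1) (h : ∀ i j, ‖A i j - (1 : Matrix n n ℂ) i j‖ ≤ η) :
    A.det ≠ 0 := by
  refine det_ne_zero_of_sum_row_lt_diag fun k => ?_
  have h1 : ∑ j ∈ Finset.univ.erase k, ‖A k j‖ ≤ ∑ j ∈ Finset.univ.erase k, η := by
    refine Finset.sum_le_sum fun j hj => ?_
    have h2 := h k j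
    rw [Matrix.one_apply_ne (Finset.ne_of_mem_erase hj).symm, sub_zero] at h2
    exact h2
  have h3 : ∑ j ∈ Finset.univ.erase k, η + η = (Fintype.card n : ℝ) * η := by
    rw [Finset.sum_erase_add _ _ (Finset.mem_univ k), Finset.sum_const, Finset.card_univ,
      nsmul_eq_mul]
  have h4 := h k k
  rw [Matrix.one_apply_eq] at h4
  have h5 : (1 : ℝ) ≤ ‖A k k‖ + η := by
    calc (1 : ℝ) = ‖(1 : ℂ)‖ := by simp
      _ = ‖A k k - (A k k - 1)‖ := by congr 1; ring
      _ ≤ ‖A k k‖ + ‖A k k - 1‖ := norm_sub_le _ _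
      _ ≤ ‖A k k‖ + η := by linarith
  linarith

/-- Polynomial approximation of an isomorphism over `Z × S^1` (module KAPPR). -/
theorem exists_poly_iso [CompactSpace Z] (hx : ∃ m : ℕ, 0 < m ∧ ∀ g, (u g ^ x g) ^ m = 1)
    (w0 : ι → Γ → ℤ) (E : Bun u Z) (a : Matrix E.ι ι C(Z × Cir u x, ℂ))
    (b : Matrix ι E.ι C(Z × Cir u x, ℂ)) (ha : HomM u E.w w0 a) (hb : HomM u w0 E.w b)
    (hab : a * b = pullM ContinuousMap.fst E.e) (hba : b * a = 1) :
    ∃ (N : ℕ) (P : ℕ → Matrix E.ι ι C(Z, ℂ)) (B : Matrix ι E.ι C(Z × Cir u x, ℂ)), 1 ≤ N ∧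
      (∀ k i j, IsW u (E.w i + N • x - w0 j - k • x) (P k i j)) ∧ (∀ k, E.e * P k = P k) ∧
      (∀ i j, IsW u (w0 i - (E.w j + N • x)) (B i j)) ∧ B * pullM ContinuousMap.fst E.e = B ∧
      polyV u x (2 * N - 1) P * B = pullM ContinuousMap.fst E.e ∧
      B * polyV u x (2 * N - 1) P = 1 ∧
      ∀ z : Z, (∀ (w w' : Cir u x) i k, a i k (z, w) = a i k (z, w')) →
        ∀ k, k ≠ N → k ≤ 2 * N → ∀ i j, P k i j z = 0 := by
  classical
  -- the bound
  obtain ⟨C, hC⟩ : ∃ C : ℝ, C = ∑ i, ∑ l, ‖b i l‖ := ⟨_, rfl⟩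
  have hC0 : 0 ≤ C := by
    rw [hC]
    exact Finset.sum_nonneg fun i _ => Finset.sum_nonneg fun l _ => norm_nonneg _
  obtain ⟨ε, hεdef⟩ : ∃ ε : ℝ, ε = 1 / ((Fintype.card ι : ℝ) * C + 1) := ⟨_, rfl⟩
  have hpos : 0 < (Fintype.card ι : ℝ) * C + 1 := by positivity
  have hε : 0 < ε := by
    rw [hεdef]
    positivity
  have hεC : (Fintype.card ι : ℝ) * (C * ε) < 1 := by
    rw [hεdef, ← mul_assoc, mul_one_div, div_lt_one hpos]
    linarith
  obtain ⟨N, c, hN, hcW, hcA, hcE⟩ := fejer hx (α := E.ι × ι)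
    (fun p => E.w p.1 - w0 p.2) (fun p => a p.1 p.2) (fun p => ha p.1 p.2) ε hε
  have hE1 : pullM (ContinuousMap.fst : C(Z × Cir u x, Z)) E.e *
      pullM (ContinuousMap.fst : C(Z × Cir u x, Z)) E.e = pullM ContinuousMap.fst E.e := by
    rw [← pullM_mul, E.idem]
  have hbE : b * pullM (ContinuousMap.fst : C(Z × Cir u x, Z)) E.e = b := by
    rw [← hab, ← Matrix.mul_assoc, hba, Matrix.one_mul]
  -- the approximation
  obtain ⟨a', ha'⟩ : ∃ a' : Matrix E.ι ι C(Z × Cir u x, ℂ), ∀ i j, a' i j =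
      ∑ k ∈ Finset.Icc (-(N : ℤ)) N, kapprZ u x Z k * (c (i, j) k).comp ContinuousMap.fst :=
    ⟨fun i j => _, fun i j => rfl⟩
  have ha'W : HomM u E.w w0 a' := by
    intro i j
    rw [ha']
    refine IsW.sum fun k _ => ?_
    have h1 : IsW u (E.w i - w0 j - k • x)
        ((c (i, j) k).comp (ContinuousMap.fst : C(Z × Cir u x, Z))) :=
      (hcW (i, j) k).comp eqv_fst
    exact ((kappr_isW_Z k).mul h1).congr (by abel)
  have ha'v : ∀ i j (p : Z × Cir u x), a' i j p =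
      ∑ k ∈ Finset.Icc (-(N : ℤ)) N, (zc u x p.2) ^ k * c (i, j) k p.1 := by
    intro i j p
    rw [ha', ContinuousMap.sum_apply]
    rfl
  have happ : ∀ i j (p : Z × Cir u x), ‖a' i j p - a i j p‖ ≤ ε := by
    rintro i j ⟨z, w⟩
    rw [norm_sub_rev, ha'v]
    have h1 := (hcA (i, j) z w).le
    have h2 : ∑ k ∈ Finset.Icc (-(N : ℤ)) N, (zc u x w) ^ k * c (i, j) k z =
        ∑ k ∈ Finset.Icc (-(N : ℤ)) N, c (i, j) k z * (zc u x w) ^ k :=
      Finset.sum_congr rfl fun k _ => mul_comm _ _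
    rw [← h2] at h1
    exact h1
  -- the matrix `M`
  obtain ⟨M, hM⟩ : ∃ M, M = b * a' := ⟨_, rfl⟩
  have hMW : HomM u w0 w0 M := by
    rw [hM]
    exact hb.mul ha'W
  have hMdet : ∀ p, M.det p ≠ 0 := by
    intro p
    have h1 : M.det p = (M.map (khomEv p)).det := by
      have h2 := RingHom.map_det (khomEv p) M
      exact h2
    rw [h1]
    refine kappr_det _ (C * ε) hεC fun i j => ?_
    have h3 : (1 : Matrix ι ι ℂ) i j = ∑ l, b i l p * a l j p := by
      have h4 : (b * a) i j p = (1 : Matrix ι ι C(Z × Cir u x, ℂ)) i j p := by rw [hba]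
      rw [Matrix.mul_apply, ContinuousMap.sum_apply] at h4
      have h5 : (1 : Matrix ι ι C(Z × Cir u x, ℂ)) i j p = (1 : Matrix ι ι ℂ) i j := by
        have := congrFun (congrFun (khom_ev_one (ι := ι) p) i) j
        exact this
      rw [← h5, ← h4]
      rfl
    have h6 : (M.map (khomEv p)) i j = ∑ l, b i l p * a' l j p := by
      rw [hM, khom_ev_mul, Matrix.mul_apply]
      rfl
    rw [h6, h3, ← Finset.sum_sub_distrib]
    calc ‖∑ l, (b i l p * a' l j p - b i l p * a l j p)‖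
        ≤ ∑ l, ‖b i l p * a' l j p - b i l p * a l j p‖ := norm_sum_le _ _
      _ ≤ ∑ l, ‖b i l‖ * ε := by
          refine Finset.sum_le_sum fun l _ => ?_
          rw [← mul_sub, norm_mul]
          exact mul_le_mul (ContinuousMap.norm_coe_le_norm _ _) (happ l j p) (norm_nonneg _)
            (norm_nonneg _)
      _ = (∑ l, ‖b i l‖) * ε := by rw [Finset.sum_mul]
      _ ≤ C * ε := by
          refine mul_le_mul_of_nonneg_right ?_ hε.le
          rw [hC]
          exact Finset.single_le_sum (f := fun i => ∑ l, ‖b i l‖)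
            (fun i _ => Finset.sum_nonneg fun l _ => norm_nonneg _) (Finset.mem_univ i)
  obtain ⟨V, hVM, hMV⟩ := khom_exists_inv M hMdet
  have hVW : HomM u w0 w0 V := khom_inv hMW hVM
  -- the polynomial
  obtain ⟨P, hP⟩ : ∃ P : ℕ → Matrix E.ι ι C(Z, ℂ), ∀ k, P k =
      E.e * (Matrix.of fun i j => c (i, j) ((k : ℤ) - N) : Matrix E.ι ι C(Z, ℂ)) :=
    ⟨fun k => _, fun k => rfl⟩
  have hPval : ∀ k i j z, P k i j z = ∑ l, E.e i l z * c (l, j) ((k : ℤ) - N) z := by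
    intro k i j z
    rw [hP, Matrix.mul_apply, ContinuousMap.sum_apply]
    rfl
  have hpoly : polyV u x (2 * N - 1) P = kapprS (kapprZ u x Z N)
      (pullM (ContinuousMap.fst : C(Z × Cir u x, Z)) E.e * a') := by
    ext i j p
    have h1 : (polyV u x (2 * N - 1) P i j) p =
        ∑ k ∈ Finset.range (2 * N - 1 + 2), (zc u x p.2) ^ k * P k i j p.1 := by
      simp only [polyV, Matrix.sum_apply, Matrix.smul_apply, smul_eq_mul,
        ContinuousMap.sum_apply]
      rfl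
    have h2 : (kapprS (kapprZ u x Z N)
        (pullM (ContinuousMap.fst : C(Z × Cir u x, Z)) E.e * a') i j) p =
        (zc u x p.2) ^ (N : ℤ) * ∑ l, E.e i l p.1 * a' l j p := by
      rw [kapprS, ContinuousMap.mul_apply, Matrix.mul_apply, ContinuousMap.sum_apply]
      rfl
    rw [h1, h2]
    have h3 : ∀ k : ℕ, (zc u x p.2) ^ k * P k i j p.1 = (zc u x p.2) ^ k *
        (fun m : ℤ => ∑ l, E.e i l p.1 * c (l, j) m p.1) ((k : ℤ) - N) := by
      intro k
      rw [hPval]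
    rw [Finset.sum_congr rfl fun k _ => h3 k]
    refine (kappr_sum_shift N hN _ (kappr_zc_ne p.2) (fun m : ℤ =>
      ∑ l, E.e i l p.1 * c (l, j) m p.1)).trans ?_
    congr 1
    simp only [ha'v, Finset.mul_sum]
    rw [Finset.sum_comm]
    refine Finset.sum_congr rfl fun l _ => Finset.sum_congr rfl fun k _ => ?_
    ring
  have haE : pullM (ContinuousMap.fst : C(Z × Cir u x, Z)) E.e * a' = a * M := by
    rw [hM, ← Matrix.mul_assoc, hab]
  refine ⟨N, P, kapprS (kapprZ u x Z (-(N : ℤ))) (V * b), hN, ?_, ?_, ?_, ?_, ?_, ?_, ?_⟩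
  · intro k i j
    rw [hP, Matrix.mul_apply]
    refine IsW.sum fun l _ => ?_
    refine ((E.hom i l).mul (hcW (l, j) ((k : ℤ) - N))).congr ?_
    rw [sub_smul, natCast_zsmul, natCast_zsmul]
    abel
  · intro k
    rw [hP, ← Matrix.mul_assoc, E.idem]
  · intro i j
    have h1 : IsW u (w0 i - E.w j) ((V * b) i j) := hVW.mul hb i j
    refine ((kappr_isW_Z (-(N : ℤ))).mul h1).congr ?_
    rw [neg_smul, natCast_zsmul]
    abel
  · have h1 : kapprS (kapprZ u x Z (-(N : ℤ))) (V * b) *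
        pullM (ContinuousMap.fst : C(Z × Cir u x, Z)) E.e =
        kapprS (kapprZ u x Z (-(N : ℤ))) (V * b) := by
      rw [kappr_S_mul, Matrix.mul_assoc, hbE]
    exact h1
  · rw [hpoly, kappr_S_mul, kappr_mul_S, kappr_S_S _ _ _ (kappr_Z_mul _), haE]
    calc a * M * (V * b) = a * (M * V) * b := by simp only [Matrix.mul_assoc]
      _ = _ := by rw [hMV, Matrix.mul_one, hab]
  · rw [hpoly, kappr_S_mul, kappr_mul_S, kappr_S_S _ _ _ (by rw [mul_comm, kappr_Z_mul]), haE]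
    calc V * b * (a * M) = V * (b * a) * M := by simp only [Matrix.mul_assoc]
      _ = _ := by rw [hba, Matrix.mul_one, hVM]
  · intro z hz k hkN hk2 i j
    rw [hPval]
    refine Finset.sum_eq_zero fun l _ => ?_
    have h1 := (hcE (l, j) z fun w w' => hz w w' l j).2 ((k : ℤ) - N) (by omega)
      (by rw [abs_le]; omega)
    rw [h1, mul_zero]

end Pool.Agent.HCF
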