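import Pool.Agent.HCF.KBottA
import Pool.Agent.HCF.KHomot

/-! # The divisibility lemma for spheres (module KBOTT) -/

noncomputable section

namespace Pool.Agent.HCF

variable {Γ : Type} {u : Γ → Circle} {x : Γ → ℤ} {Z : Type} [TopologicalSpace Z] [Op Γ Z]

/-- the vector with one more coordinate -/
def kbottSnoc {n : ℕ} (v : EuclideanSpace ℂ (Fin n)) (w : ℂ) : EuclideanSpace ℂ (Fin (n + 1)) :=
  WithLp.toLp 2 (Fin.snoc (α := fun _ => ℂ) (WithLp.ofLp v) w)

lemma kbottSnoc_norm_sq {n : ℕ} (v : EuclideanSpace ℂ (Fin n)) (w : ℂ) :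
    ‖kbottSnoc v w‖ ^ 2 = ‖v‖ ^ 2 + ‖w‖ ^ 2 := by
  rw [EuclideanSpace.norm_sq_eq, EuclideanSpace.norm_sq_eq, Fin.sum_univ_castSucc]
  simp [kbottSnoc]

lemma kbottSnoc_smul {n : ℕ} (v : EuclideanSpace ℂ (Fin n)) (w c : ℂ) :
    kbottSnoc (c • v) (c * w) = c • kbottSnoc v w := by
  ext i
  refine Fin.lastCases ?_ (fun i => ?_) i
  · simp [kbottSnoc]
  · simp [kbottSnoc]

lemma kbottSnoc_cont {n : ℕ} {X : Type*} [TopologicalSpace X]
    {f : X → EuclideanSpace ℂ (Fin n)} {g : X → ℂ} (hf : Continuous f) (hg : Continuous g) :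
    Continuous fun p => kbottSnoc (f p) (g p) := by
  unfold kbottSnoc
  apply (PiLp.continuous_toLp 2 _).comp
  apply continuous_pi
  intro i
  refine Fin.lastCases ?_ (fun i => ?_) i
  · simpa using hg
  · simp only [Fin.snoc_castSucc]
    exact (continuous_apply i).comp ((PiLp.continuous_ofLp 2 _).comp hf)

/-- the map from the product of the ball and the circle to the sphere -/
def kbottMap (n : ℕ) : C(Metric.closedBall (0 : EuclideanSpace ℂ (Fin n)) 1 × Circle,
    Metric.sphere (0 : EuclideanSpace ℂ (Fin (n + 1))) 1) :=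
  ⟨fun p => ⟨kbottSnoc p.1.1 (((√(1 - ‖p.1.1‖ ^ 2) : ℝ) : ℂ) * (p.2 : ℂ)), by
    have hv : ‖p.1.1‖ ≤ 1 := mem_closedBall_zero_iff.1 p.1.2
    have hv0 : 0 ≤ 1 - ‖p.1.1‖ ^ 2 := by
      have := norm_nonneg p.1.1
      nlinarith
    have h1 : ‖kbottSnoc p.1.1 (((√(1 - ‖p.1.1‖ ^ 2) : ℝ) : ℂ) * (p.2 : ℂ))‖ ^ 2 = 1 := by
      rw [kbottSnoc_norm_sq, norm_mul, Circle.norm_coe, mul_one, Complex.norm_real,
        Real.norm_eq_abs, sq_abs, Real.sq_sqrt hv0]
      ring
    rw [mem_sphere_zero_iff_norm]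
    have h2 := norm_nonneg (kbottSnoc p.1.1 (((√(1 - ‖p.1.1‖ ^ 2) : ℝ) : ℂ) * (p.2 : ℂ)))
    nlinarith⟩, by
    refine Continuous.subtype_mk (kbottSnoc_cont (continuous_subtype_val.comp continuous_fst) ?_) _
    refine Continuous.mul ?_ (continuous_subtype_val.comp continuous_snd)
    refine Complex.continuous_ofReal.comp (Real.continuous_sqrt.comp ?_)
    exact continuous_const.sub ((continuous_subtype_val.comp continuous_fst).norm.pow 2)⟩

/-- the inclusion of the sphere in the ball -/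
def kbottInc (n : ℕ) : C(Metric.sphere (0 : EuclideanSpace ℂ (Fin n)) 1,
    Metric.closedBall (0 : EuclideanSpace ℂ (Fin n)) 1) :=
  ⟨fun v => ⟨v.1, Metric.sphere_subset_closedBall v.2⟩,
    Continuous.subtype_mk continuous_subtype_val _⟩

/-- the contraction of the ball -/
def kbottScale (n : ℕ) : C(Metric.closedBall (0 : EuclideanSpace ℂ (Fin n)) 1 × unitInterval,
    Metric.closedBall (0 : EuclideanSpace ℂ (Fin n)) 1) :=
  ⟨fun p => ⟨(((p.2 : ℝ) : ℂ)) • p.1.1, by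
    have hv : ‖p.1.1‖ ≤ 1 := mem_closedBall_zero_iff.1 p.1.2
    rw [mem_closedBall_zero_iff, norm_smul, Complex.norm_real, Real.norm_eq_abs,
      abs_of_nonneg p.2.2.1]
    exact mul_le_one₀ p.2.2.2 (norm_nonneg _) hv⟩, by
    refine Continuous.subtype_mk ?_ _
    exact (Complex.continuous_ofReal.comp (continuous_subtype_val.comp continuous_snd)).smul
      (continuous_subtype_val.comp continuous_fst)⟩

variable (u x) in
/-- `kbottMap` on spaces with operators -/
def kbM (n : ℕ) : C(Dsk u x n × Cir u x, Sph u x (n + 1)) := kbottMap n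

variable (u x) in
/-- `kbottInc` on spaces with operators -/
def kbI (n : ℕ) : C(Sph u x n, Dsk u x n) := kbottInc n

variable (u x) in
/-- `kbottScale` on spaces with operators -/
def kbS (n : ℕ) : C(Dsk u x n × unitInterval, Dsk u x n) := kbottScale n

variable (u x) in
/-- the centre of the ball -/
def kb0 (n : ℕ) : Dsk u x n :=
  (⟨0, Metric.mem_closedBall_self zero_le_one⟩ : Metric.closedBall (0 : EuclideanSpace ℂ (Fin n)) 1)

lemma kbM_eqv (n : ℕ) : Eqv Γ (kbM u x n) := by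
  intro g p
  apply Subtype.ext
  change kbottSnoc (ch u x g • p.1.1) (((√(1 - ‖ch u x g • p.1.1‖ ^ 2) : ℝ) : ℂ) *
      zc u x (op g p.2)) =
    ch u x g • kbottSnoc p.1.1 (((√(1 - ‖p.1.1‖ ^ 2) : ℝ) : ℂ) * zc u x p.2)
  rw [norm_smul, norm_ch, one_mul, ← kbottSnoc_smul, zc_op]
  congr 1
  ring

lemma kbI_eqv (n : ℕ) : Eqv Γ (kbI u x n) := fun _ _ => rfl

lemma kbS_eqv (n : ℕ) : Eqv Γ (kbS u x n) := by
  intro g p
  apply Subtype.ext
  change (((p.2 : ℝ) : ℂ)) • (ch u x g • p.1.1) = ch u x g • ((((p.2 : ℝ) : ℂ)) • p.1.1)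
  rw [smul_comm]

lemma kb0_op (n : ℕ) (g : Γ) : (op g : C(Dsk u x n, Dsk u x n)) (kb0 u x n) = kb0 u x n := by
  apply Subtype.ext
  change ch u x g • (0 : EuclideanSpace ℂ (Fin n)) = 0
  rw [smul_zero]

lemma kbM_const (n : ℕ) (v : Sph u x n) (w w' : Cir u x) :
    kbM u x n (kbI u x n v, w) = kbM u x n (kbI u x n v, w') := by
  apply Subtype.ext
  change kbottSnoc v.1 (((√(1 - ‖v.1‖ ^ 2) : ℝ) : ℂ) * zc u x w) =
    kbottSnoc v.1 (((√(1 - ‖v.1‖ ^ 2) : ℝ) : ℂ) * zc u x w')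
  have hv : ‖v.1‖ = 1 := mem_sphere_zero_iff_norm.1 v.2
  rw [hv]
  simp

lemma kbS_zero (n : ℕ) (v : Dsk u x n) : kbS u x n (v, 0) = kb0 u x n := by
  apply Subtype.ext
  change ((((0 : unitInterval) : ℝ) : ℂ)) • v.1 = (0 : EuclideanSpace ℂ (Fin n))
  simp

lemma kbS_one (n : ℕ) (v : Dsk u x n) : kbS u x n (v, 1) = v := by
  apply Subtype.ext
  change ((((1 : unitInterval) : ℝ) : ℂ)) • v.1 = v.1
  simp

lemma kbott_pull_id (y : K u Z) :
    Kpull (ContinuousMap.id Z) (fun _ _ => rfl : Eqv Γ (ContinuousMap.id Z)) y = y := by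
  revert y
  suffices h : Kpull (u := u) (ContinuousMap.id Z) (fun _ _ => rfl : Eqv Γ (ContinuousMap.id Z)) =
      AddMonoidHom.id _ from fun y => DFunLike.congr_fun h y
  refine K_hom_ext fun E => ?_
  rw [Kpull_cls, AddMonoidHom.id_apply]
  exact cls_iso (Bun.iso_of_equiv _ _ (Equiv.refl _) (fun i => rfl) (fun i j => rfl))

/-- If a class on `Z` vanishes on `Z × S(n x)`, then it is divisible by `(1 - x)^n`. -/
theorem bott [CompactSpace Z] (hx : ∃ m : ℕ, 0 < m ∧ ∀ g, (u g ^ x g) ^ m = 1) (n : ℕ)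
    (y : K u Z) (h : Kfst u Z (Sph u x n) y = 0) :
    ∃ b : K u Z, y = ((1 - Ktw x) ^ n : AddMonoid.End (K u Z)) b := by
  induction n generalizing y with
  | zero => exact ⟨y, rfl⟩
  | succ n ih =>
    suffices key : ∃ b1 : K u Z, y = (1 - Ktw x : AddMonoid.End (K u Z)) b1 ∧
        Kfst u Z (Sph u x n) b1 = 0 by
      obtain ⟨b1, h1, h2⟩ := key
      obtain ⟨b, hb⟩ := ih b1 h2
      refine ⟨b, ?_⟩
      rw [h1, hb, pow_succ']
      rfl
    obtain ⟨ι, _, _, w, F, rfl⟩ := K_exists_triv y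
    rw [map_sub, Kpull_triv, Kpull_cls, sub_eq_zero] at h
    obtain ⟨κ, _, _, w1, hiso⟩ := cls_eq_iff_triv _ _ h
    set E : Bun u Z := F.sum (Bun.triv u Z w1) with hE
    set W0 : ι ⊕ κ → Γ → ℤ := Sum.elim w w1 with hW0
    have hy : cls (Bun.triv u Z w) - cls F = cls (Bun.triv u Z W0) - cls E := by
      have e1 : cls (Bun.triv u Z W0) = cls (Bun.triv u Z w) + cls (Bun.triv u Z w1) := by
        rw [← cls_sum]
        refine cls_iso (Bun.iso_of_equiv _ _ (Equiv.refl _) ?_ ?_)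
        · intro i
          rfl
        · intro i j
          have : (Matrix.fromBlocks (1 : Matrix ι ι C(Z, ℂ)) 0 0 (1 : Matrix κ κ C(Z, ℂ))) = 1 :=
            Matrix.fromBlocks_one
          exact congrFun (congrFun this i) j
      rw [e1, hE, cls_sum]
      abel
    have hi1 : Bun.Iso (E.pull (cfst Z (Sph u x (n + 1))) eqv_fst)
        ((F.pull (cfst Z (Sph u x (n + 1))) eqv_fst).sum (Bun.triv u _ w1)) := by
      refine Bun.iso_of_equiv _ _ (Equiv.refl _) ?_ ?_
      · rintro (i | i) <;> rfl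
      · rintro (i | i) (j | j)
        · rfl
        · rfl
        · rfl
        · exact (congrFun (congrFun (pullM_one (cfst Z (Sph u x (n + 1)))) i) j).symm
    have hi2 : Bun.Iso ((Bun.triv u (Z × Sph u x (n + 1)) w).sum (Bun.triv u _ w1))
        (Bun.triv u (Z × Sph u x (n + 1)) W0) := by
      refine Bun.iso_of_equiv _ _ (Equiv.refl _) ?_ ?_
      · intro i
        rfl
      · intro i j
        have : (Matrix.fromBlocks (1 : Matrix ι ι C(Z × Sph u x (n + 1), ℂ)) 0 0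
          (1 : Matrix κ κ C(Z × Sph u x (n + 1), ℂ))) = 1 := Matrix.fromBlocks_one
        exact (congrFun (congrFun this i) j).symm
    obtain ⟨a, b, ha, hb, hab, hba⟩ := (hi1.trans hiso.symm).trans hi2
    let φ : C((Z × Dsk u x n) × Cir u x, Z × Sph u x (n + 1)) :=
      ⟨fun p => (p.1.1, kbM u x n (p.1.2, p.2)), by fun_prop⟩
    have hφ : Eqv Γ φ := fun g p => by
      change (op g p.1.1, kbM u x n (op g (p.1.2, p.2))) = (op g p.1.1, op g (kbM u x n (p.1.2, p.2)))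
      rw [kbM_eqv]
    obtain ⟨c, hc1, hc2⟩ := bott_one hx W0 (E.pull (cfst Z (Dsk u x n)) eqv_fst)
      (pullM φ a) (pullM φ b) (ha.pull hφ) (hb.pull hφ)
      (by rw [← pullM_mul, hab]; rfl) (by rw [← pullM_mul, hba]; exact pullM_one φ)
    let i0 : C(Z, Z × Dsk u x n) := ⟨fun z => (z, kb0 u x n), by fun_prop⟩
    have hi0 : Eqv Γ i0 := fun g z => by
      change (op g z, kb0 u x n) = (op g z, op g (kb0 u x n))
      rw [kb0_op]
    let j : C(Z × Sph u x n, Z × Dsk u x n) :=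
      ⟨fun p => (p.1, kbI u x n p.2), by fun_prop⟩
    have hj : Eqv Γ j := fun g p => rfl
    have hc3 : Kpull j hj c = 0 := by
      apply hc2 _ j hj
      intro p w w' i k
      change a i k (p.1, kbM u x n (kbI u x n p.2, w)) = a i k (p.1, kbM u x n (kbI u x n p.2, w'))
      rw [kbM_const]
    let G : C((Z × Dsk u x n) × unitInterval, Z × Dsk u x n) :=
      ⟨fun p => (p.1.1, kbS u x n (p.1.2, p.2)), by fun_prop⟩
    have hG : Eqv Γ G := fun g p => by
      change (op g p.1.1, kbS u x n (op g (p.1.2, p.2))) = (op g p.1.1, op g (kbS u x n (p.1.2, p.2)))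
      rw [kbS_eqv]
    have hr : Eqv Γ (i0.comp (cfst Z (Dsk u x n))) := fun g p => hi0 g p.1
    have hc4 : Kfst u Z (Dsk u x n) (Kpull i0 hi0 c) = c := by
      rw [Kpull_comp i0 hi0 (cfst Z (Dsk u x n)) eqv_fst (i0.comp (cfst Z (Dsk u x n))) hr
        (fun _ => rfl)]
      rw [Kpull_homotopy G hG (i0.comp (cfst Z (Dsk u x n))) (ContinuousMap.id _) hr
        (fun _ _ => rfl) (fun p => ?_) (fun p => ?_)]
      · exact kbott_pull_id c
      · change (p.1, kbS u x n (p.2, 0)) = (p.1, kb0 u x n)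
        rw [kbS_zero]
      · change (p.1, kbS u x n (p.2, 1)) = p
        rw [kbS_one]
    refine ⟨Kpull i0 hi0 c, ?_, ?_⟩
    · rw [hy]
      have h1 := congrArg (Kpull i0 hi0) hc1
      rw [map_sub, Kpull_triv] at h1
      have h2 : Kpull i0 hi0 (cls (E.pull (cfst Z (Dsk u x n)) eqv_fst)) = cls E := by
        rw [← Kpull_cls, Kpull_comp (cfst Z (Dsk u x n)) eqv_fst i0 hi0 (ContinuousMap.id Z)
          (fun _ _ => rfl) (fun _ => rfl), kbott_pull_id]
      rw [h2] at h1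
      rw [h1]
      change Kpull i0 hi0 (c - Ktw x c) = Kpull i0 hi0 c - Ktw x (Kpull i0 hi0 c)
      rw [map_sub, Kpull_tw]
    · have h1 : Kfst u Z (Sph u x n) (Kpull i0 hi0 c) =
          Kpull j hj (Kfst u Z (Dsk u x n) (Kpull i0 hi0 c)) := by
        rw [Kpull_comp (cfst Z (Dsk u x n)) eqv_fst j hj (cfst Z (Sph u x n)) eqv_fst
          (fun _ => rfl)]
      rw [h1, hc4, hc3]

end Pool.Agent.HCF
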