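import Pool.Agent.HCF.KAppr

/-! # The one dimensional divisibility lemma (module KBOTTA) -/

noncomputable section

namespace Pool.Agent.HCF

variable {Γ : Type} {u : Γ → Circle} {x : Γ → ℤ} {Z : Type} [TopologicalSpace Z] [Op Γ Z]
  {ι : Type} [Fintype ι] [DecidableEq ι]

/-- the bundle given by the projection to the first blocks is trivial -/
lemma kbotta_block {W : Type} [TopologicalSpace W] [Op Γ W] (m N : ℕ) (hN : N ≤ m)
    (w0 : ι → Γ → ℤ) (G : Bun u W) (σ : G.ι ≃ Fin m × ι)
    (hw : ∀ r, G.w r = w0 (σ r).2 + ((σ r).1 : ℕ) • x)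
    (he : ∀ r c, G.e r c = if r = c ∧ ((σ r).1 : ℕ) < N then (1 : C(W, ℂ)) else 0) :
    Bun.Iso G (Bun.triv u W (fun c : Fin N × ι => w0 c.2 + (c.1 : ℕ) • x)) := by
  have hinj : ∀ c c' : Fin N × ι, (Fin.castLE hN c.1, c.2) = (Fin.castLE hN c'.1, c'.2) →
      c = c' := by
    rintro ⟨k, i⟩ ⟨k', i'⟩ h
    simp only [Prod.mk.injEq, Fin.castLE_inj] at h
    rw [h.1, h.2]
  obtain ⟨A, hA⟩ : ∃ A : Matrix G.ι (Fin N × ι) C(W, ℂ), ∀ r c, A r c =
      if σ r = (Fin.castLE hN c.1, c.2) then 1 else 0 := ⟨fun r c => _, fun r c => rfl⟩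
  obtain ⟨A', hA'⟩ : ∃ A' : Matrix (Fin N × ι) G.ι C(W, ℂ), ∀ c r, A' c r =
      if σ r = (Fin.castLE hN c.1, c.2) then 1 else 0 := ⟨fun c r => _, fun c r => rfl⟩
  refine ⟨A, A', ?_, ?_, ?_, ?_⟩
  · intro r c
    rw [hA]
    by_cases h : σ r = (Fin.castLE hN c.1, c.2)
    · rw [if_pos h]
      refine IsW.one.congr ?_
      rw [hw, h]
      simp
    · rw [if_neg h]; exact IsW.zero
  · intro c r
    rw [hA']
    by_cases h : σ r = (Fin.castLE hN c.1, c.2)
    · rw [if_pos h]
      refine IsW.one.congr ?_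
      rw [hw, h]
      simp
    · rw [if_neg h]; exact IsW.zero
  · ext1 r c
    rw [Matrix.mul_apply, he]
    simp only [hA, hA']
    by_cases hr : ((σ r).1 : ℕ) < N
    · have h1 : σ r = (Fin.castLE hN ⟨(σ r).1, hr⟩, (σ r).2) := rfl
      rw [Finset.sum_eq_single (⟨(σ r).1, hr⟩, (σ r).2)]
      · by_cases hrc : r = c
        · subst hrc
          simp [hr]
        · have : σ c ≠ (Fin.castLE hN ⟨(σ r).1, hr⟩, (σ r).2) := by
            rw [← h1]; exact fun h => hrc (σ.injective h).symm
          rw [if_neg this, mul_zero, if_neg (fun h => hrc h.1)]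
      · intro c' _ hc'
        rw [if_neg, zero_mul]
        intro h
        exact hc' (hinj _ _ (h.symm.trans h1))
      · intro h; exact absurd (Finset.mem_univ _) h
    · rw [if_neg (fun h => hr h.2)]
      refine Finset.sum_eq_zero fun c' _ => ?_
      rw [if_neg, zero_mul]
      intro h
      apply hr
      rw [h]
      exact c'.1.2
  · ext1 c c'
    rw [Matrix.mul_apply]
    simp only [hA, hA']
    rw [Finset.sum_eq_single (σ.symm (Fin.castLE hN c.1, c.2))]
    · by_cases h : c = c'
      · subst h; simp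
      · rw [Matrix.one_apply_ne h, Equiv.apply_symm_apply, if_pos rfl, one_mul, if_neg]
        exact fun h' => h (hinj _ _ h')
    · intro r _ hr
      rw [if_neg, zero_mul]
      intro h
      exact hr (by rw [← h, Equiv.symm_apply_apply])
    · intro h; exact absurd (Finset.mem_univ _) h

lemma kbotta_sum {W : Type} [TopologicalSpace W] [Op Γ W] (N : ℕ) (w0 : ι → Γ → ℤ) :
    cls (Bun.triv u W (fun c : Fin N × ι => w0 c.2 + (c.1 : ℕ) • x)) =
      ((∑ i ∈ Finset.range N, Ktw x ^ i : AddMonoid.End (K u W))) (cls (Bun.triv u W w0)) := by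
  rw [cls_triv, cls_triv, Fintype.sum_prod_type, Finset.sum_range]
  have h1 : ∀ (y : K u W), (∑ i : Fin N, Ktw x ^ (i : ℕ) : AddMonoid.End (K u W)) y =
      ∑ i : Fin N, (Ktw x ^ (i : ℕ) : AddMonoid.End (K u W)) y := fun y =>
    AddMonoidHom.finsetSum_apply _ _ _
  rw [h1]
  refine Finset.sum_congr rfl fun k _ => ?_
  rw [map_sum]
  refine Finset.sum_congr rfl fun i _ => ?_
  rw [← Ktw_nsmul, add_comm, ← Ktw_mul]
  rfl

/-- An isomorphism over `Z × S^1` from a trivial bundle to `E` gives divisibility by `1 - x` on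
`Z`, with a quotient which vanishes where the isomorphism is constant in the circle variable. -/
theorem bott_one [CompactSpace Z] (hx : ∃ m : ℕ, 0 < m ∧ ∀ g, (u g ^ x g) ^ m = 1)
    (w0 : ι → Γ → ℤ) (E : Bun u Z) (a : Matrix E.ι ι C(Z × Cir u x, ℂ))
    (b : Matrix ι E.ι C(Z × Cir u x, ℂ)) (ha : HomM u E.w w0 a) (hb : HomM u w0 E.w b)
    (hab : a * b = pullM ContinuousMap.fst E.e) (hba : b * a = 1) :
    ∃ c : K u Z, cls (Bun.triv u Z w0) - cls E = (1 - Ktw x : AddMonoid.End (K u Z)) c ∧
      ∀ (W : Type) [TopologicalSpace W] [Op Γ W] (j : C(W, Z)) (hj : Eqv Γ j),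
        (∀ (y : W) (w w' : Cir u x) i k, a i k (j y, w) = a i k (j y, w')) →
          Kpull j hj c = 0 := by
  obtain ⟨N, P, B, hN, hPw, hP, hBw, hBe, h1, h2, hvan⟩ := exists_poly_iso hx w0 E a b ha hb hab hba
  obtain ⟨hQ, hQh, hcls⟩ := comp_class (2 * N - 1) w0 (E.tw (N • x)).w E.e (E.tw (N • x)).idem
    (E.tw (N • x)).hom P hPw hP B hBw hBe h1 h2
  set Qb : Bun u Z := ⟨Fin (2 * N - 1 + 1) × ι, wF0 x (2 * N - 1) w0, compQ (2 * N - 1) P B, hQ,
    hQh⟩ with hQb
  have htw : cls (⟨E.ι, (E.tw (N • x)).w, E.e, (E.tw (N • x)).idem, (E.tw (N • x)).hom⟩ :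
      Bun u Z) = (Ktw x ^ N : AddMonoid.End (K u Z)) (cls E) := by
    rw [← Ktw_nsmul, Ktw_cls]
  rw [htw] at hcls
  refine ⟨cls Qb - (∑ i ∈ Finset.range N, Ktw x ^ i : AddMonoid.End (K u Z)) (cls E), ?_, ?_⟩
  · rw [map_sub, ← hcls]
    have h3 : (1 - Ktw x : AddMonoid.End (K u Z))
        ((∑ i ∈ Finset.range N, Ktw x ^ i : AddMonoid.End (K u Z)) (cls E)) =
        cls E - (Ktw x ^ N : AddMonoid.End (K u Z)) (cls E) := by
      change ((1 - Ktw x) * (∑ i ∈ Finset.range N, Ktw x ^ i) : AddMonoid.End (K u Z)) (cls E) = _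
      rw [mul_neg_geom_sum]
      rfl
    rw [h3]
    abel
  · intro W _ _ j hj hconst
    -- the pull back of `Q`
    have hj0 : ∀ k, k ≠ N → k ≤ (2 * N - 1) + 1 → pullM j (P k) = 0 := by
      intro k hk hk'
      ext i l y
      exact hvan (j y) (hconst y) k hk (by omega) i l
    have hpQ := compQ_monomial (2 * N - 1) N hN (by omega) P B E.e h1 h2 hBe hP j hj0
    have hQW : Kpull j hj (cls Qb) =
        ((∑ i ∈ Finset.range N, Ktw x ^ i : AddMonoid.End (K u W))) (cls (Bun.triv u W w0)) := by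
      rw [Kpull_cls, ← kbotta_sum]
      refine cls_iso (kbotta_block (2 * N - 1 + 1) N (by omega) w0 _ (Equiv.refl _) ?_ ?_)
      · intro r; rfl
      · intro r c
        have := congrFun (congrFun hpQ r) c
        exact this
    -- the isomorphism over `W`
    have hbe : b * (a * b) = b := by
      rw [← Matrix.mul_assoc, hba, Matrix.one_mul]
    have habz : ∀ (p : Z × Cir u x) (i k : E.ι), ∑ l, a i l p * b l k p = E.e i k p.1 := by
      intro p i k
      have := congrArg (fun M : Matrix E.ι E.ι C(Z × Cir u x, ℂ) => M i k p) hab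
      simpa [Matrix.mul_apply, ContinuousMap.sum_apply] using this
    have hbaz : ∀ (p : Z × Cir u x) (i k : ι), ∑ l, b i l p * a l k p = if i = k then 1 else 0 := by
      intro p i k
      have := congrArg (fun M : Matrix ι ι C(Z × Cir u x, ℂ) => M i k p) hba
      simp only [Matrix.mul_apply, ContinuousMap.sum_apply, ContinuousMap.mul_apply] at this
      rw [this]
      by_cases h : i = k
      · subst h; simp
      · simp [Matrix.one_apply_ne h, h]
    have hbez : ∀ (p : Z × Cir u x) (i : ι) (k : E.ι), ∑ l, b i l p * E.e l k p.1 = b i k p := by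
      intro p i k
      have h5 : (b * (a * b)) i k p = b i k p := by rw [hbe]
      rw [Matrix.mul_apply, ContinuousMap.sum_apply] at h5
      rw [← h5]
      refine Finset.sum_congr rfl fun l _ => ?_
      rw [ContinuousMap.mul_apply, ← habz p l k, Matrix.mul_apply, ContinuousMap.sum_apply]
      simp only [ContinuousMap.mul_apply]
    have hbconst : ∀ (y : W) (w w' : Cir u x) i k, b i k (j y, w) = b i k (j y, w') := by
      intro y w w' i k
      calc b i k (j y, w) = ∑ l, b i l (j y, w) * E.e l k (j y) := (hbez (j y, w) i k).symm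
        _ = ∑ l, b i l (j y, w) * ∑ m, a l m (j y, w') * b m k (j y, w') := by
            refine Finset.sum_congr rfl fun l _ => ?_
            rw [habz (j y, w')]
        _ = ∑ m, (∑ l, b i l (j y, w) * a l m (j y, w)) * b m k (j y, w') := by
            simp_rw [Finset.mul_sum, Finset.sum_mul]
            rw [Finset.sum_comm]
            refine Finset.sum_congr rfl fun m _ => Finset.sum_congr rfl fun l _ => ?_
            rw [hconst y w' w]; ring
        _ = b i k (j y, w') := by
            simp_rw [hbaz]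
            simp
    have hEW : cls (E.pull j hj) = cls (Bun.triv u W w0) := by
      set φ : C(W, Z × Cir u x) := ContinuousMap.prodMk j (ContinuousMap.const W (1 : Circle)) with hφ
      have hφ1 : ∀ y, φ y = (j y, (1 : Circle)) := fun y => rfl
      refine cls_iso ⟨pullM φ a, pullM φ b, ?_, ?_, ?_, ?_⟩
      · intro i k g y
        have e1 : a i k (φ (op g y)) = a i k (op g (φ y)) := by
          have h5 := hconst (op g y) (1 : Circle) ((op g : C(Cir u x, Cir u x)) (1 : Circle)) i k
          have h6 : ((j (op g y), (op g : C(Cir u x, Cir u x)) (1 : Circle)) : Z × Cir u x) =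
              op g (φ y) := by
            rw [hj g y]; rfl
          exact h5.trans (congrArg (a i k) h6)
        exact e1.trans (ha i k g (φ y))
      · intro i k g y
        have e1 : b i k (φ (op g y)) = b i k (op g (φ y)) := by
          have h5 := hbconst (op g y) (1 : Circle) ((op g : C(Cir u x, Cir u x)) (1 : Circle)) i k
          have h6 : ((j (op g y), (op g : C(Cir u x, Cir u x)) (1 : Circle)) : Z × Cir u x) =
              op g (φ y) := by
            rw [hj g y]; rfl
          exact h5.trans (congrArg (b i k) h6)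
        exact e1.trans (hb i k g (φ y))
      · rw [← pullM_mul, hab]
        rfl
      · rw [← pullM_mul, hba, pullM_one]
    have hpow : ∀ (i : ℕ) (y : K u Z), Kpull j hj ((Ktw x ^ i : AddMonoid.End (K u Z)) y) =
        (Ktw x ^ i : AddMonoid.End (K u W)) (Kpull j hj y) := by
      intro i y
      rw [← Ktw_nsmul, ← Ktw_nsmul, Kpull_tw]
    rw [map_sub, hQW, sub_eq_zero]
    have hs : ∀ (Z' : Type) [TopologicalSpace Z'] [Op Γ Z'] (y : K u Z'),
        (∑ i ∈ Finset.range N, Ktw x ^ i : AddMonoid.End (K u Z')) y =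
        ∑ i ∈ Finset.range N, (Ktw x ^ i : AddMonoid.End (K u Z')) y := fun Z' _ _ y =>
      AddMonoidHom.finsetSum_apply _ _ _
    rw [hs, hs, map_sum]
    refine Finset.sum_congr rfl fun i _ => ?_
    rw [hpow, Kpull_cls, hEW]

end Pool.Agent.HCF
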