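import Pool.Agent.HCF.KDefs

/-! # The Clifford isomorphism (module KCLIF) -/

open scoped Kronecker

noncomputable section

namespace Pool.Agent.HCF

variable {Γ : Type} {u : Γ → Circle} {Z : Type} [TopologicalSpace Z] [Op Γ Z]

/-- the conjugate function has the opposite weight -/
lemma kclif_isW_star {x : Γ → ℤ} {f : C(Z, ℂ)} (h : IsW u x f) : IsW u (-x) (star f) := by
  intro g z
  have h1 : ch u (-x) g = star (ch u x g) := by
    simp only [ch, Pi.neg_apply, zpow_neg]
    rw [Circle.coe_inv_eq_conj]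
    rfl
  rw [ContinuousMap.star_apply, ContinuousMap.star_apply, h g z, star_mul', h1]

/-- the tensor product of a bundle with a representation -/
abbrev kclifTens {κ : Type} [Fintype κ] [DecidableEq κ] (E : Bun u Z) (y : κ → Γ → ℤ) :
    Bun u Z where
  ι := E.ι × κ
  w := fun p => E.w p.1 + y p.2
  e := E.e ⊗ₖ (1 : Matrix κ κ C(Z, ℂ))
  idem := by rw [← Matrix.mul_kronecker_mul, E.idem, one_mul]
  hom := by
    rintro ⟨i, k⟩ ⟨j, l⟩
    rw [Matrix.kronecker_apply]
    by_cases h : k = l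
    · subst h
      rw [Matrix.one_apply_eq, mul_one]
      exact (E.hom i j).congr (add_sub_add_right_eq_sub _ _ _).symm
    · rw [Matrix.one_apply_ne h, mul_zero]
      exact IsW.zero

lemma kclifTens_iso {κ κ' : Type} [Fintype κ] [DecidableEq κ] [Fintype κ'] [DecidableEq κ']
    (E : Bun u Z) (y : κ → Γ → ℤ) (y' : κ' → Γ → ℤ) (M : Matrix κ κ' C(Z, ℂ))
    (M' : Matrix κ' κ C(Z, ℂ)) (hM : HomM u y y' M) (hM' : HomM u y' y M') (h1 : M * M' = 1)
    (h2 : M' * M = 1) : Bun.Iso (kclifTens E y) (kclifTens E y') := by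
  refine ⟨E.e ⊗ₖ M, E.e ⊗ₖ M', ?_, ?_, ?_, ?_⟩
  · rintro ⟨i, k⟩ ⟨j, l⟩
    rw [Matrix.kronecker_apply]
    exact ((E.hom i j).mul (hM k l)).congr (by simp only; abel)
  · rintro ⟨i, k⟩ ⟨j, l⟩
    rw [Matrix.kronecker_apply]
    exact ((E.hom i j).mul (hM' k l)).congr (by simp only; abel)
  · rw [← Matrix.mul_kronecker_mul, E.idem, h1]
  · rw [← Matrix.mul_kronecker_mul, E.idem, h2]

lemma kclifTens_succ {n : ℕ} (E : Bun u Z) (y : Fin (n + 1) → Γ → ℤ) :
    Bun.Iso (kclifTens E y) ((E.tw (y 0)).sum (kclifTens E (fun i : Fin n => y i.succ))) := by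
  let σ : E.ι × Fin (n + 1) ≃ E.ι ⊕ (E.ι × Fin n) :=
    { toFun := fun p => Fin.cases (Sum.inl p.1) (fun k => Sum.inr (p.1, k)) p.2
      invFun := fun q => Sum.elim (fun i => (i, 0)) (fun p => (p.1, p.2.succ)) q
      left_inv := by
        rintro ⟨i, k⟩
        refine Fin.cases ?_ (fun k => ?_) k <;> rfl
      right_inv := by
        rintro (i | ⟨i, k⟩) <;> rfl }
  refine Bun.iso_of_equiv _ _ σ ?_ ?_
  · rintro ⟨i, k⟩
    refine Fin.cases ?_ (fun k => ?_) k <;> rfl
  · rintro ⟨i, k⟩ ⟨j, l⟩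
    refine Fin.cases ?_ (fun k => ?_) k <;> refine Fin.cases ?_ (fun l => ?_) l
    · change E.e i j = (E.e ⊗ₖ (1 : Matrix (Fin (n + 1)) (Fin (n + 1)) C(Z, ℂ))) (i, 0) (j, 0)
      rw [Matrix.kronecker_apply, Matrix.one_apply_eq, mul_one]
    · change (0 : C(Z, ℂ)) =
        (E.e ⊗ₖ (1 : Matrix (Fin (n + 1)) (Fin (n + 1)) C(Z, ℂ))) (i, 0) (j, l.succ)
      rw [Matrix.kronecker_apply, Matrix.one_apply_ne (Fin.succ_ne_zero l).symm, mul_zero]
    · change (0 : C(Z, ℂ)) =
        (E.e ⊗ₖ (1 : Matrix (Fin (n + 1)) (Fin (n + 1)) C(Z, ℂ))) (i, k.succ) (j, 0)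
      rw [Matrix.kronecker_apply, Matrix.one_apply_ne (Fin.succ_ne_zero k), mul_zero]
    · change (E.e ⊗ₖ (1 : Matrix (Fin n) (Fin n) C(Z, ℂ))) (i, k) (j, l) =
        (E.e ⊗ₖ (1 : Matrix (Fin (n + 1)) (Fin (n + 1)) C(Z, ℂ))) (i, k.succ) (j, l.succ)
      rw [Matrix.kronecker_apply, Matrix.kronecker_apply]
      by_cases h : k = l
      · subst h; rw [Matrix.one_apply_eq, Matrix.one_apply_eq]
      · rw [Matrix.one_apply_ne h, Matrix.one_apply_ne (fun h' => h (Fin.succ_injective _ h'))]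

lemma kclif_cls_tens (E : Bun u Z) : ∀ (n : ℕ) (y : Fin n → Γ → ℤ),
    cls (kclifTens E y) = ∑ i, Ktw (y i) (cls E) := by
  intro n
  induction n with
  | zero =>
    intro y
    rw [Fin.sum_univ_zero]
    have h1 : cls (kclifTens E y) = cls ((kclifTens E y).sum (kclifTens E y)) := by
      refine cls_iso (Bun.iso_of_equiv _ _ (?_ : (E.ι × Fin 0) ≃ ((E.ι × Fin 0) ⊕ (E.ι × Fin 0)))
        ?_ ?_)
      · haveI : IsEmpty (E.ι × Fin 0) := ⟨fun p => p.2.elim0⟩
        exact (Equiv.sumEmpty _ _).symm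
      · rintro ⟨i, k⟩; exact k.elim0
      · rintro ⟨i, k⟩; exact k.elim0
    rw [cls_sum] at h1
    exact left_eq_add.1 h1
  | succ n ih =>
    intro y
    rw [cls_iso (kclifTens_succ E y), cls_sum, ih, Fin.sum_univ_succ, Ktw_cls]

/-- the Clifford matrix -/
def kclifM (v : Fin 3 → C(Z, ℂ)) : Matrix (Fin 4) (Fin 4) C(Z, ℂ) :=
  !![v 0, 0, star (v 2), -star (v 1);
     v 1, -star (v 2), 0, star (v 0);
     v 2, star (v 1), -star (v 0), 0;
     0, v 0, v 1, v 2]

lemma kclifM_mul (v : Fin 3 → C(Z, ℂ)) (hn : ∀ z, ∑ i, ‖v i z‖ ^ 2 = 1) :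
    kclifM v * (kclifM v).conjTranspose = 1 := by
  have hn' : ∀ z, v 0 z * star (v 0 z) + v 1 z * star (v 1 z) + v 2 z * star (v 2 z) = 1 := by
    intro z
    have := hn z
    rw [Fin.sum_univ_three] at this
    have h1 : ∀ c : ℂ, c * star c = ((‖c‖ ^ 2 : ℝ) : ℂ) := fun c => by
      rw [Complex.star_def, Complex.mul_conj, Complex.normSq_eq_norm_sq]
    rw [h1, h1, h1, ← Complex.ofReal_add, ← Complex.ofReal_add, this, Complex.ofReal_one]
  have h1 : v 0 * star (v 0) + v 1 * star (v 1) + v 2 * star (v 2) = 1 := by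
    ext z
    simpa using hn' z
  ext1 i j
  rw [Matrix.mul_apply, Fin.sum_univ_four]
  fin_cases i <;> fin_cases j <;>
    simp [kclifM, Matrix.conjTranspose_apply] <;> first | (linear_combination h1) | ring

/-- If `Z` carries three functions of weight `x` without common zero (normalised), then
`(1 - x)^3 = 0` on `K(Z)`. -/
theorem Ktw_cube (x : Γ → ℤ) (v : Fin 3 → C(Z, ℂ)) (hv : ∀ i, IsW u x (v i))
    (hn : ∀ z, ∑ i, ‖v i z‖ ^ 2 = 1) : ((1 - Ktw x) ^ 3 : AddMonoid.End (K u Z)) = 0 := by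
  have hM := kclifM_mul v hn
  have hM' := mul_eq_one_comm.1 hM
  have hs : ∀ i, IsW u (-x) (star (v i)) := fun i => kclif_isW_star (hv i)
  have hW : HomM u (![x, x, x, x + x + x]) (![0, x + x, x + x, x + x]) (kclifM v) := by
    intro i j
    fin_cases i <;> fin_cases j
    · exact (hv 0).congr (by simp)
    · exact IsW.zero
    · exact (hs 2).congr (by simp)
    · exact (hs 1).neg.congr (by simp)
    · exact (hv 1).congr (by simp)
    · exact (hs 2).neg.congr (by simp)
    · exact IsW.zero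
    · exact (hs 0).congr (by simp)
    · exact (hv 2).congr (by simp)
    · exact (hs 1).congr (by simp)
    · exact (hs 0).neg.congr (by simp)
    · exact IsW.zero
    · exact IsW.zero
    · exact (hv 0).congr (by simp)
    · exact (hv 1).congr (by simp)
    · exact (hv 2).congr (by simp)
  have hW' : HomM u (![0, x + x, x + x, x + x]) (![x, x, x, x + x + x])
      (kclifM v).conjTranspose := by
    intro i j
    rw [Matrix.conjTranspose_apply]
    exact (kclif_isW_star (hW j i)).congr (neg_sub _ _)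
  have hmain : ∀ E : Bun u Z, Ktw x (cls E) + Ktw x (cls E) + Ktw x (cls E) +
      Ktw (x + x + x) (cls E) = Ktw 0 (cls E) + Ktw (x + x) (cls E) + Ktw (x + x) (cls E) +
      Ktw (x + x) (cls E) := by
    intro E
    have h := cls_iso (kclifTens_iso E _ _ _ _ hW hW' hM hM')
    rw [kclif_cls_tens, kclif_cls_tens, Fin.sum_univ_four, Fin.sum_univ_four] at h
    simpa using h
  have hmain' : (Ktw x + Ktw x + Ktw x + Ktw (x + x + x) : AddMonoid.End (K u Z)) =
      Ktw 0 + Ktw (x + x) + Ktw (x + x) + Ktw (x + x) := K_end_ext fun E => hmain E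
  rw [Ktw_zero, ← Ktw_mul, ← Ktw_mul] at hmain'
  have key : ∀ (R : Type 1) [Ring R] (t : R), t + t + t + t * t * t = 1 + t * t + t * t + t * t →
      (1 - t) ^ 3 = 0 := by
    intro R _ t ht
    have : (1 - t) ^ 3 = (1 + t * t + t * t + t * t) - (t + t + t + t * t * t) := by
      noncomm_ring
    rw [this, ht, sub_self]
  exact key _ _ hmain'

end Pool.Agent.HCF
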