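import Pool.Agent.HCF.KPen

/-! # The companion pencil of a polynomial (modules KCOMA, KCOMB, KCOMC use these definitions) -/

noncomputable section

namespace Pool.Agent.HCF

variable {Γ : Type} {u : Γ → Circle} {x : Γ → ℤ} {Z : Type} [TopologicalSpace Z] [Op Γ Z]
  {ι κ : Type} [Fintype ι] [DecidableEq ι] [Fintype κ] [DecidableEq κ]

/-- the value `∑_{k ≤ n+1} z^k P_k` of the polynomial of degree `n + 1` -/
def polyV (u : Γ → Circle) (x : Γ → ℤ) (n : ℕ) (P : ℕ → Matrix κ ι C(Z, ℂ)) :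
    Matrix κ ι C(Z × Cir u x, ℂ) :=
  ∑ k ∈ Finset.range (n + 2), (zz u x Z) ^ k • pullM ContinuousMap.fst (P k)

/-- coefficient of `z` in the companion pencil -/
def compA (n : ℕ) (P : ℕ → Matrix κ ι C(Z, ℂ)) :
    Matrix ((Fin n × ι) ⊕ κ) (Fin (n + 1) × ι) C(Z, ℂ) :=
  fun r c => match r with
    | Sum.inl (k, i) => if (c.1 : ℕ) = k ∧ i = c.2 then -1 else 0
    | Sum.inr r => if (c.1 : ℕ) = n then P (n + 1) r c.2 else 0

/-- constant coefficient in the companion pencil -/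
def compB (n : ℕ) (P : ℕ → Matrix κ ι C(Z, ℂ)) :
    Matrix ((Fin n × ι) ⊕ κ) (Fin (n + 1) × ι) C(Z, ℂ) :=
  fun r c => match r with
    | Sum.inl (k, i) => if (c.1 : ℕ) = k + 1 ∧ i = c.2 then 1 else 0
    | Sum.inr r => P c.1 r c.2

/-- the idempotent of the target of the companion pencil -/
def compF (n : ℕ) (e : Matrix κ κ C(Z, ℂ)) : Matrix ((Fin n × ι) ⊕ κ) ((Fin n × ι) ⊕ κ) C(Z, ℂ) :=
  Matrix.fromBlocks 1 0 0 e

/-- the inverse of the companion pencil, when `B` is inverse to the polynomial -/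
def compR (n : ℕ) (P : ℕ → Matrix κ ι C(Z, ℂ)) (B : Matrix ι κ C(Z × Cir u x, ℂ)) :
    Matrix (Fin (n + 1) × ι) ((Fin n × ι) ⊕ κ) C(Z × Cir u x, ℂ) :=
  fun r c => match c with
    | Sum.inl (k, j) =>
        (if (k : ℕ) + 1 ≤ r.1 ∧ r.2 = j then (zz u x Z) ^ ((r.1 : ℕ) - (k + 1)) else 0) -
          (zz u x Z) ^ (r.1 : ℕ) * ∑ l ∈ Finset.Icc ((k : ℕ) + 1) (n + 1),
            (zz u x Z) ^ (l - ((k : ℕ) + 1)) *
              (B * pullM (ContinuousMap.fst : C(Z × Cir u x, Z)) (P l) : Matrix ι ι _) r.2 j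
    | Sum.inr s => (zz u x Z) ^ (r.1 : ℕ) * B r.2 s

/-- weights of the source -/
def wF0 (x : Γ → ℤ) (n : ℕ) (w0 : ι → Γ → ℤ) : Fin (n + 1) × ι → Γ → ℤ :=
  fun c => w0 c.2 + (c.1 : ℕ) • x

/-- weights of the target -/
def wF1 (x : Γ → ℤ) (n : ℕ) (w0 : ι → Γ → ℤ) (w1 : κ → Γ → ℤ) : (Fin n × ι) ⊕ κ → Γ → ℤ :=
  Sum.elim (fun r => w0 r.2 + ((r.1 : ℕ) + 1) • x) w1

end Pool.Agent.HCF
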