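import Pool.Agent.HCF.KCom

/-! # The companion pencil is inverse to `compR` (module KCOMA) -/

noncomputable section

namespace Pool.Agent.HCF

section Abstract

variable {R : Type*} [CommRing R] {ι κ : Type} [Fintype ι] [DecidableEq ι] [Fintype κ]
  [DecidableEq κ]

/-- tail sums of `B P_l` -/
def kcomaX (z : R) (n : ℕ) (P : ℕ → Matrix κ ι R) (B : Matrix ι κ R) (k : ℕ) : Matrix ι ι R :=
  ∑ l ∈ Finset.Icc (k + 1) (n + 1), z ^ (l - (k + 1)) • (B * P l)

/-- the block of `compR` -/
def kcomaD (z : R) (n : ℕ) (P : ℕ → Matrix κ ι R) (B : Matrix ι κ R) (c k : ℕ) : Matrix ι ι R :=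
  (if k + 1 ≤ c then z ^ (c - (k + 1)) • (1 : Matrix ι ι R) else 0) - z ^ c • kcomaX z n P B k

theorem kcomaX_step (z : R) (n : ℕ) (P : ℕ → Matrix κ ι R) (B : Matrix ι κ R) (d : ℕ)
    (hd : d ≤ n) :
    (if d = 0 then ∑ k ∈ Finset.range (n + 2), z ^ k • (B * P k) else kcomaX z n P B (d - 1)) =
      B * P d + z • kcomaX z n P B d := by
  have key : (if d = 0 then ∑ k ∈ Finset.range (n + 2), z ^ k • (B * P k)
      else kcomaX z n P B (d - 1)) = ∑ l ∈ Finset.Icc d (n + 1), z ^ (l - d) • (B * P l) := by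
    split_ifs with h
    · subst h
      refine Finset.sum_congr ?_ (fun l _ => by rw [Nat.sub_zero])
      ext l
      simp only [Finset.mem_range, Finset.mem_Icc]
      omega
    · unfold kcomaX
      have h1 : d - 1 + 1 = d := by omega
      rw [h1]
  rw [key, ← Finset.add_sum_Ioc_eq_sum_Icc (by omega : d ≤ n + 1)]
  congr 1
  · simp
  · unfold kcomaX
    rw [Finset.smul_sum]
    refine Finset.sum_congr ?_ (fun l hl => ?_)
    · ext l
      simp only [Finset.mem_Ioc, Finset.mem_Icc]
      omega
    · simp only [Finset.mem_Icc] at hl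
      rw [smul_smul, ← pow_succ']
      congr 2
      omega

/-- the blocks of the product `compR * pencil` -/
theorem kcoma_left_aux (z : R) (n : ℕ) (P : ℕ → Matrix κ ι R) (B : Matrix ι κ R)
    (h2 : ∑ k ∈ Finset.range (n + 2), z ^ k • (B * P k) = 1) (c d : ℕ) (hc : c ≤ n) (hd : d ≤ n) :
    (if d < n then -(z • kcomaD z n P B c d) else 0) +
      (if 1 ≤ d then kcomaD z n P B c (d - 1) else 0) + z ^ c • (B * P d) +
      (if d = n then z ^ (c + 1) • (B * P (n + 1)) else 0) = if c = d then 1 else 0 := by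
  have hstep := kcomaX_step z n P B d hd
  have hu : (if d < n then -(z • kcomaD z n P B c d) else 0) +
      (if d = n then z ^ (c + 1) • (B * P (n + 1)) else 0) =
      -(if d + 1 ≤ c then z ^ (c - d) • (1 : Matrix ι ι R) else 0) +
        z ^ (c + 1) • kcomaX z n P B d := by
    rcases Nat.lt_or_ge d n with h | h
    · rw [if_pos h, if_neg (by omega), add_zero]
      unfold kcomaD
      rw [smul_sub, neg_sub, smul_smul, ← pow_succ']
      split_ifs with h1
      · rw [smul_smul, ← pow_succ']
        have : c - (d + 1) + 1 = c - d := by omega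
        rw [this]
        abel
      · simp
    · have hdn : d = n := by omega
      subst hdn
      rw [if_neg (by omega), if_pos rfl, if_neg (by omega), neg_zero]
      unfold kcomaX
      simp
  have hre : (if d < n then -(z • kcomaD z n P B c d) else 0) +
      (if 1 ≤ d then kcomaD z n P B c (d - 1) else 0) + z ^ c • (B * P d) +
      (if d = n then z ^ (c + 1) • (B * P (n + 1)) else 0) =
      ((if d < n then -(z • kcomaD z n P B c d) else 0) +
      (if d = n then z ^ (c + 1) • (B * P (n + 1)) else 0)) +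
      (if 1 ≤ d then kcomaD z n P B c (d - 1) else 0) + z ^ c • (B * P d) := by abel
  rw [hre, hu]
  have hre2 : z ^ (c + 1) • kcomaX z n P B d + z ^ c • (B * P d) =
      z ^ c • (if d = 0 then ∑ k ∈ Finset.range (n + 2), z ^ k • (B * P k)
        else kcomaX z n P B (d - 1)) := by
    rw [hstep, smul_add, smul_smul, ← pow_succ]
    abel
  have hre3 : ∀ (a b e : Matrix ι ι R), (-a + z ^ (c + 1) • kcomaX z n P B d) + b + e =
      (z ^ (c + 1) • kcomaX z n P B d + e) + b - a := by
    intro a b e
    abel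
  rw [hre3, hre2]
  by_cases h0 : d = 0
  · subst h0
    rw [if_pos rfl, if_neg (by omega), h2]
    rcases Nat.eq_zero_or_pos c with h | h
    · subst h
      simp
    · rw [if_pos (by omega), if_neg (by omega)]
      simp
  · rw [if_neg h0, if_pos (by omega)]
    unfold kcomaD
    have h1 : d - 1 + 1 = d := by omega
    rw [h1]
    rcases lt_trichotomy c d with h | h | h
    · rw [if_neg (by omega), if_neg (by omega), if_neg (by omega)]
      simp
    · subst h
      rw [if_pos (by omega), if_neg (by omega), if_pos rfl]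
      simp
    · rw [if_pos (by omega), if_pos (by omega), if_neg (by omega)]
      simp

theorem kcoma_right_aux (z : R) (n : ℕ) (P : ℕ → Matrix κ ι R) (B : Matrix ι κ R)
    (e : Matrix κ κ R) (h1 : (∑ k ∈ Finset.range (n + 2), z ^ k • P k) * B = e)
    (hP : ∀ k, e * P k = P k) (k : ℕ) (hk : k < n) :
    z • (P (n + 1) * kcomaD z n P B n k) +
      ∑ c ∈ Finset.range (n + 1), P c * kcomaD z n P B c k = 0 := by
  have hX : (∑ c ∈ Finset.range (n + 2), z ^ c • P c) * kcomaX z n P B k =
      ∑ l ∈ Finset.Icc (k + 1) (n + 1), z ^ (l - (k + 1)) • P l := by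
    unfold kcomaX
    rw [Matrix.mul_sum]
    refine Finset.sum_congr rfl (fun l _ => ?_)
    rw [Matrix.mul_smul, ← Matrix.mul_assoc, h1, hP]
  have hsum : ∑ c ∈ Finset.range (n + 1), P c * kcomaD z n P B c k =
      (∑ c ∈ Finset.Icc (k + 1) n, z ^ (c - (k + 1)) • P c) -
        (∑ c ∈ Finset.range (n + 1), z ^ c • P c) * kcomaX z n P B k := by
    unfold kcomaD
    simp only [Matrix.mul_sub, Finset.sum_sub_distrib]
    congr 1
    · have : Finset.Icc (k + 1) n = (Finset.range (n + 1)).filter (fun c => k + 1 ≤ c) := by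
        ext c
        simp only [Finset.mem_Icc, Finset.mem_filter, Finset.mem_range]
        omega
      rw [this, Finset.sum_filter]
      refine Finset.sum_congr rfl (fun c _ => ?_)
      split_ifs
      · simp
      · simp
    · rw [Matrix.sum_mul]
      refine Finset.sum_congr rfl (fun c _ => ?_)
      rw [Matrix.mul_smul, Matrix.smul_mul]
  have hlast : z • (P (n + 1) * kcomaD z n P B n k) =
      z ^ (n + 1 - (k + 1)) • P (n + 1) - (z ^ (n + 1) • P (n + 1)) * kcomaX z n P B k := by
    unfold kcomaD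
    rw [if_pos (by omega), Matrix.mul_sub, smul_sub, Matrix.mul_smul, Matrix.mul_one,
      Matrix.mul_smul, smul_smul, smul_smul, ← pow_succ', ← pow_succ', Matrix.smul_mul]
    have : n - (k + 1) + 1 = n + 1 - (k + 1) := by omega
    rw [this]
  rw [hsum, hlast]
  have e1 : (∑ c ∈ Finset.range (n + 2), z ^ c • P c) =
      (∑ c ∈ Finset.range (n + 1), z ^ c • P c) + z ^ (n + 1) • P (n + 1) :=
    Finset.sum_range_succ _ _
  have e2 : ∑ l ∈ Finset.Icc (k + 1) (n + 1), z ^ (l - (k + 1)) • P l =
      (∑ l ∈ Finset.Icc (k + 1) n, z ^ (l - (k + 1)) • P l) +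
        z ^ (n + 1 - (k + 1)) • P (n + 1) :=
    Finset.sum_Icc_succ_top (by omega) _
  rw [e1, e2, Matrix.add_mul] at hX
  have hX' : (∑ c ∈ Finset.range (n + 1), z ^ c • P c) * kcomaX z n P B k =
      (∑ l ∈ Finset.Icc (k + 1) n, z ^ (l - (k + 1)) • P l) +
        z ^ (n + 1 - (k + 1)) • P (n + 1) - z ^ (n + 1) • P (n + 1) * kcomaX z n P B k :=
    eq_sub_of_add_eq hX
  rw [hX']
  abel

end Abstract

variable {Γ : Type} {u : Γ → Circle} {x : Γ → ℤ} {Z : Type} [TopologicalSpace Z] [Op Γ Z]
  {ι κ : Type} [Fintype ι] [DecidableEq ι] [Fintype κ] [DecidableEq κ]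

/-- pulled back coefficients -/
def kcomaP (u : Γ → Circle) (x : Γ → ℤ) (P : ℕ → Matrix κ ι C(Z, ℂ)) (k : ℕ) :
    Matrix κ ι C(Z × Cir u x, ℂ) := pullM ContinuousMap.fst (P k)

theorem kcoma_penc_inl (n : ℕ) (P : ℕ → Matrix κ ι C(Z, ℂ)) (k : Fin n) (i : ι)
    (c : Fin (n + 1) × ι) :
    penc u x (compA n P) (compB n P) (Sum.inl (k, i)) c =
      (if c = (k.castSucc, i) then -zz u x Z else 0) + (if c = (k.succ, i) then 1 else 0) := by
  have hA : ((c.1 : ℕ) = k ∧ i = c.2) ↔ c = (k.castSucc, i) := by
    rw [Prod.ext_iff, Fin.ext_iff]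
    simp only [Fin.val_castSucc]
    tauto
  have hB : ((c.1 : ℕ) = k + 1 ∧ i = c.2) ↔ c = (k.succ, i) := by
    rw [Prod.ext_iff, Fin.ext_iff]
    simp only [Fin.val_succ]
    tauto
  change zz u x Z * (if (c.1 : ℕ) = k ∧ i = c.2 then (-1 : C(Z, ℂ)) else 0).comp
      ContinuousMap.fst +
    (if (c.1 : ℕ) = k + 1 ∧ i = c.2 then (1 : C(Z, ℂ)) else 0).comp ContinuousMap.fst = _
  congr 1
  · by_cases h : (c.1 : ℕ) = k ∧ i = c.2
    · rw [if_pos h, if_pos (hA.1 h)]
      ext y
      simp
    · rw [if_neg h, if_neg (fun h' => h (hA.2 h'))]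
      ext y
      simp
  · by_cases h : (c.1 : ℕ) = k + 1 ∧ i = c.2
    · rw [if_pos h, if_pos (hB.1 h)]
      rfl
    · rw [if_neg h, if_neg (fun h' => h (hB.2 h'))]
      rfl

theorem kcoma_penc_inr (n : ℕ) (P : ℕ → Matrix κ ι C(Z, ℂ)) (s : κ) (c : Fin (n + 1) × ι) :
    penc u x (compA n P) (compB n P) (Sum.inr s) c =
      (if c.1 = Fin.last n then zz u x Z * kcomaP u x P (n + 1) s c.2 else 0) +
        kcomaP u x P c.1 s c.2 := by
  change zz u x Z * (if (c.1 : ℕ) = n then P (n + 1) s c.2 else 0).comp ContinuousMap.fst +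
    (P c.1 s c.2).comp ContinuousMap.fst = _
  congr 1
  by_cases h : (c.1 : ℕ) = n
  · rw [if_pos h, if_pos (Fin.ext h)]
    rfl
  · rw [if_neg h, if_neg (fun h' => h (by rw [h']; rfl))]
    ext y
    simp

theorem kcoma_R_inl (n : ℕ) (P : ℕ → Matrix κ ι C(Z, ℂ)) (B : Matrix ι κ C(Z × Cir u x, ℂ))
    (c : Fin (n + 1) × ι) (k : Fin n) (j : ι) :
    compR n P B c (Sum.inl (k, j)) = kcomaD (zz u x Z) n (kcomaP u x P) B c.1 k c.2 j := by
  change (if (k : ℕ) + 1 ≤ c.1 ∧ c.2 = j then (zz u x Z) ^ ((c.1 : ℕ) - (k + 1)) else 0) -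
          (zz u x Z) ^ (c.1 : ℕ) * ∑ l ∈ Finset.Icc ((k : ℕ) + 1) (n + 1),
            (zz u x Z) ^ (l - ((k : ℕ) + 1)) *
              (B * pullM (ContinuousMap.fst : C(Z × Cir u x, Z)) (P l) : Matrix ι ι _) c.2 j = _
  unfold kcomaD kcomaX
  rw [Matrix.sub_apply, Matrix.smul_apply, Matrix.sum_apply]
  congr 1
  by_cases h : (k : ℕ) + 1 ≤ c.1
  · rw [if_pos h]
    by_cases h' : c.2 = j
    · rw [if_pos ⟨h, h'⟩, Matrix.smul_apply, h', Matrix.one_apply_eq]
      simp
    · rw [if_neg (fun h'' => h' h''.2), Matrix.smul_apply, Matrix.one_apply_ne h']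
      simp
  · rw [if_neg (fun h'' => h h''.1), if_neg h]
    rfl

theorem kcoma_R_inr (n : ℕ) (P : ℕ → Matrix κ ι C(Z, ℂ)) (B : Matrix ι κ C(Z × Cir u x, ℂ))
    (c : Fin (n + 1) × ι) (s : κ) :
    compR n P B c (Sum.inr s) = zz u x Z ^ (c.1 : ℕ) * B c.2 s := rfl

theorem comp_right (n : ℕ) (P : ℕ → Matrix κ ι C(Z, ℂ)) (B : Matrix ι κ C(Z × Cir u x, ℂ))
    (e : Matrix κ κ C(Z, ℂ)) (h1 : polyV u x n P * B = pullM ContinuousMap.fst e)
    (hP : ∀ k, e * P k = P k) :
    penc u x (compA n P) (compB n P) * compR n P B = pullM ContinuousMap.fst (compF n e) := by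
  have hP' : ∀ k, pullM (ContinuousMap.fst : C(Z × Cir u x, Z)) e * kcomaP u x P k =
      kcomaP u x P k := by
    intro k
    unfold kcomaP
    rw [← pullM_mul, hP]
  have h1' : (∑ k ∈ Finset.range (n + 2), zz u x Z ^ k • kcomaP u x P k) * B =
      pullM ContinuousMap.fst e := h1
  ext1 r q
  rw [Matrix.mul_apply]
  rcases r with ⟨k, i⟩ | s
  · simp only [kcoma_penc_inl, add_mul, Finset.sum_add_distrib, ite_mul, zero_mul, one_mul,
      Finset.sum_ite_eq', Finset.mem_univ, if_true]
    rcases q with ⟨k', j⟩ | s'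
    · rw [kcoma_R_inl, kcoma_R_inl]
      simp only [Fin.val_castSucc, Fin.val_succ]
      have hF : pullM (ContinuousMap.fst : C(Z × Cir u x, Z)) (compF n e) (Sum.inl (k, i))
          (Sum.inl (k', j)) = if k = k' ∧ i = j then 1 else 0 := by
        change ((Matrix.fromBlocks 1 0 0 e : Matrix ((Fin n × ι) ⊕ κ) ((Fin n × ι) ⊕ κ) C(Z, ℂ))
          (Sum.inl (k, i)) (Sum.inl (k', j))).comp ContinuousMap.fst = _
        rw [Matrix.fromBlocks_apply₁₁, Matrix.one_apply]
        by_cases h : k = k' ∧ i = j
        · rw [if_pos h, if_pos (by rw [h.1, h.2])]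
          rfl
        · rw [if_neg h, if_neg (by
            intro h'
            rw [Prod.ext_iff] at h'
            exact h h')]
          rfl
      rw [hF]
      have hD : -zz u x Z * kcomaD (zz u x Z) n (kcomaP u x P) B k k' i j +
          kcomaD (zz u x Z) n (kcomaP u x P) B (k + 1) k' i j =
          (if (k' : ℕ) ≤ k then zz u x Z ^ ((k : ℕ) - k') * (1 : Matrix ι ι _) i j else 0) -
          (if (k' : ℕ) + 1 ≤ k then zz u x Z ^ ((k : ℕ) - k') * (1 : Matrix ι ι _) i j
            else 0) := by
        unfold kcomaD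
        simp only [Matrix.sub_apply, Matrix.smul_apply, smul_eq_mul]
        have e1 : ((if (k' : ℕ) + 1 ≤ k + 1 then zz u x Z ^ ((k : ℕ) + 1 - (k' + 1)) •
            (1 : Matrix ι ι C(Z × Cir u x, ℂ)) else 0) i j) =
            (if (k' : ℕ) ≤ k then zz u x Z ^ ((k : ℕ) - k') * (1 : Matrix ι ι _) i j else 0) := by
          by_cases h : (k' : ℕ) ≤ k
          · rw [if_pos (by omega), if_pos h, Matrix.smul_apply, smul_eq_mul]
            congr 2
            omega
          · rw [if_neg (by omega), if_neg h]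
            rfl
        have e2 : zz u x Z * ((if (k' : ℕ) + 1 ≤ k then zz u x Z ^ ((k : ℕ) - (k' + 1)) •
            (1 : Matrix ι ι C(Z × Cir u x, ℂ)) else 0) i j) =
            (if (k' : ℕ) + 1 ≤ k then zz u x Z ^ ((k : ℕ) - k') * (1 : Matrix ι ι _) i j
              else 0) := by
          by_cases h : (k' : ℕ) + 1 ≤ k
          · rw [if_pos h, if_pos h, Matrix.smul_apply, smul_eq_mul, ← mul_assoc, ← pow_succ']
            congr 2
            omega
          · rw [if_neg h, if_neg h]
            simp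
        rw [e1, ← e2, pow_succ]
        ring
      rw [hD]
      by_cases hij : i = j
      · subst hij
        rw [Matrix.one_apply_eq, mul_one]
        by_cases hk : k = k'
        · subst hk
          rw [if_pos le_rfl, if_neg (by omega), if_pos ⟨rfl, rfl⟩]
          simp
        · have hk' : (k : ℕ) ≠ k' := fun h => hk (Fin.ext h)
          rw [if_neg (show ¬(k = k' ∧ i = i) from fun h => hk h.1)]
          by_cases hlt : (k' : ℕ) + 1 ≤ k
          · rw [if_pos (by omega), if_pos hlt, sub_self]
          · rw [if_neg (by omega), if_neg hlt, sub_self]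
      · rw [Matrix.one_apply_ne hij, mul_zero,
          if_neg (show ¬(k = k' ∧ i = j) from fun h => hij h.2)]
        simp
    · rw [kcoma_R_inr, kcoma_R_inr]
      have hF : pullM (ContinuousMap.fst : C(Z × Cir u x, Z)) (compF n e) (Sum.inl (k, i))
          (Sum.inr s') = 0 := rfl
      rw [hF]
      simp only [Fin.val_castSucc, Fin.val_succ]
      rw [pow_succ]
      ring
  · simp only [kcoma_penc_inr, add_mul, Finset.sum_add_distrib, ite_mul, zero_mul]
    rw [Fintype.sum_prod_type, Fintype.sum_prod_type]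
    rw [Finset.sum_eq_single (Fin.last n) (by
      intro b _ hb
      simp [hb]) (by simp)]
    simp only [if_true]
    rcases q with ⟨k', j⟩ | s'
    · simp only [kcoma_R_inl]
      have hF : pullM (ContinuousMap.fst : C(Z × Cir u x, Z)) (compF n e) (Sum.inr s)
          (Sum.inl (k', j)) = 0 := rfl
      rw [hF]
      have h3 := congrFun (congrFun (kcoma_right_aux (zz u x Z) n (kcomaP u x P) B _ h1' hP' k'
        k'.isLt) s) j
      rw [Matrix.add_apply, Matrix.smul_apply, Matrix.sum_apply, Matrix.mul_apply,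
        Matrix.zero_apply] at h3
      rw [← h3, ← Fin.sum_univ_eq_sum_range
        (fun c => (kcomaP u x P c * kcomaD (zz u x Z) n (kcomaP u x P) B c k') s j) (n + 1)]
      congr 1
      rw [smul_eq_mul, Finset.mul_sum]
      refine Finset.sum_congr rfl (fun l _ => ?_)
      simp only [Fin.val_last]
      ring
    · simp only [kcoma_R_inr]
      have hF : pullM (ContinuousMap.fst : C(Z × Cir u x, Z))
          (compF n e : Matrix ((Fin n × ι) ⊕ κ) ((Fin n × ι) ⊕ κ) C(Z, ℂ)) (Sum.inr s)
          (Sum.inr s') = pullM ContinuousMap.fst e s s' := rfl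
      rw [hF, ← h1', Finset.sum_range_succ, Matrix.add_mul, Matrix.add_apply, Matrix.sum_mul,
        Matrix.sum_apply, add_comm]
      congr 1
      · rw [← Fin.sum_univ_eq_sum_range
          (fun c => (zz u x Z ^ c • kcomaP u x P c * B) s s') (n + 1)]
        refine Finset.sum_congr rfl (fun c _ => ?_)
        rw [Matrix.mul_apply]
        refine Finset.sum_congr rfl (fun l _ => ?_)
        rw [Matrix.smul_apply, smul_eq_mul]
        ring
      · rw [Matrix.mul_apply]
        refine Finset.sum_congr rfl (fun l _ => ?_)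
        rw [Matrix.smul_apply, smul_eq_mul]
        simp only [Fin.val_last]
        ring

theorem comp_left (n : ℕ) (P : ℕ → Matrix κ ι C(Z, ℂ)) (B : Matrix ι κ C(Z × Cir u x, ℂ))
    (h2 : B * polyV u x n P = 1) :
    compR n P B * penc u x (compA n P) (compB n P) = 1 := by
  have h2' : ∑ k ∈ Finset.range (n + 2), zz u x Z ^ k • (B * kcomaP u x P k) = 1 := by
    rw [← h2]
    unfold polyV
    rw [Matrix.mul_sum]
    refine Finset.sum_congr rfl (fun k _ => ?_)
    exact (Matrix.mul_smul B (zz u x Z ^ k) (kcomaP u x P k)).symm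
  ext1 ci di
  obtain ⟨c, i⟩ := ci
  obtain ⟨d, i'⟩ := di
  rw [Matrix.mul_apply, Fintype.sum_sum_type, Fintype.sum_prod_type]
  simp only [kcoma_penc_inl, kcoma_penc_inr, kcoma_R_inl, kcoma_R_inr]
  have h3 := congrFun (congrFun (kcoma_left_aux (zz u x Z) n (kcomaP u x P) B h2' c d
    (by omega) (by omega)) i) i'
  have hr : (if (c : ℕ) = d then (1 : Matrix ι ι C(Z × Cir u x, ℂ)) else 0) i i' =
      (1 : Matrix (Fin (n + 1) × ι) (Fin (n + 1) × ι) C(Z × Cir u x, ℂ)) (c, i) (d, i') := by
    rw [Matrix.one_apply]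
    by_cases h : (c : ℕ) = d
    · rw [if_pos h, Matrix.one_apply]
      have hcd : c = d := Fin.ext h
      subst hcd
      by_cases h' : i = i'
      · rw [if_pos h', if_pos (by rw [h'])]
      · rw [if_neg h', if_neg (fun h'' => h' (Prod.ext_iff.1 h'').2)]
    · rw [if_neg h, if_neg (fun h'' => h (congrArg Fin.val (Prod.ext_iff.1 h'').1))]
      rfl
  rw [← hr, ← h3]
  simp only [Matrix.add_apply]
  have s1 : ∑ k : Fin n, ∑ j : ι, kcomaD (zz u x Z) n (kcomaP u x P) B c k i j *
      ((if (d, i') = (k.castSucc, j) then -zz u x Z else 0) +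
        (if (d, i') = (k.succ, j) then 1 else 0)) =
      (if (d : ℕ) < n then -(zz u x Z • kcomaD (zz u x Z) n (kcomaP u x P) B c d) else 0) i i' +
      (if 1 ≤ (d : ℕ) then kcomaD (zz u x Z) n (kcomaP u x P) B c ((d : ℕ) - 1) else 0) i i' := by
    simp only [mul_add, Finset.sum_add_distrib]
    congr 1
    · by_cases h : (d : ℕ) < n
      · rw [if_pos h, Finset.sum_eq_single ⟨d, h⟩, Finset.sum_eq_single i']
        · rw [if_pos]
          · simp only [Matrix.neg_apply, Matrix.smul_apply, smul_eq_mul]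
            ring
          · rfl
        · intro b _ hb
          rw [if_neg (fun h' => hb (Prod.ext_iff.1 h').2.symm), mul_zero]
        · simp
        · intro b _ hb
          refine Finset.sum_eq_zero (fun j _ => ?_)
          rw [if_neg, mul_zero]
          intro h'
          apply hb
          have h4 := congrArg Fin.val (Prod.ext_iff.1 h').1
          simp only [Fin.val_castSucc] at h4
          exact Fin.ext h4.symm
        · simp
      · rw [if_neg h]
        refine Finset.sum_eq_zero (fun k _ => Finset.sum_eq_zero (fun j _ => ?_))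
        rw [if_neg, mul_zero]
        intro h'
        apply h
        have := (Prod.ext_iff.1 h').1
        simp only at this
        rw [this]
        exact k.isLt
    · by_cases h : 1 ≤ (d : ℕ)
      · rw [if_pos h, Finset.sum_eq_single ⟨(d : ℕ) - 1, by omega⟩, Finset.sum_eq_single i']
        · rw [if_pos]
          · rw [mul_one]
          · ext
            · simp only [Fin.val_succ]
              omega
            · rfl
        · intro b _ hb
          rw [if_neg (fun h' => hb (Prod.ext_iff.1 h').2.symm), mul_zero]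
        · simp
        · intro b _ hb
          refine Finset.sum_eq_zero (fun j _ => ?_)
          rw [if_neg, mul_zero]
          intro h'
          apply hb
          have h4 := congrArg Fin.val (Prod.ext_iff.1 h').1
          simp only [Fin.val_succ] at h4
          refine Fin.ext ?_
          change (b : ℕ) = (d : ℕ) - 1
          omega
        · simp
      · rw [if_neg h]
        refine Finset.sum_eq_zero (fun k _ => Finset.sum_eq_zero (fun j _ => ?_))
        rw [if_neg, mul_zero]
        intro h'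
        apply h
        have := (Prod.ext_iff.1 h').1
        simp only at this
        rw [this, Fin.val_succ]
        omega
  have s2 : ∑ s : κ, zz u x Z ^ (c : ℕ) * B i s *
      ((if d = Fin.last n then zz u x Z * kcomaP u x P (n + 1) s i' else 0) +
        kcomaP u x P d s i') =
      (zz u x Z ^ (c : ℕ) • (B * kcomaP u x P d)) i i' +
      (if (d : ℕ) = n then zz u x Z ^ ((c : ℕ) + 1) • (B * kcomaP u x P (n + 1)) else 0) i i' := by
    simp only [mul_add, Finset.sum_add_distrib]
    rw [add_comm]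
    congr 1
    · rw [Matrix.smul_apply, Matrix.mul_apply, smul_eq_mul, Finset.mul_sum]
      refine Finset.sum_congr rfl (fun s _ => ?_)
      ring
    · by_cases h : (d : ℕ) = n
      · rw [if_pos h]
        have hd : d = Fin.last n := Fin.ext h
        simp only [if_pos hd]
        rw [Matrix.smul_apply, Matrix.mul_apply, smul_eq_mul, Finset.mul_sum]
        refine Finset.sum_congr rfl (fun s _ => ?_)
        rw [pow_succ]
        ring
      · rw [if_neg h]
        have hd : d ≠ Fin.last n := fun h' => h (by rw [h']; rfl)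
        simp only [if_neg hd, mul_zero, Finset.sum_const_zero]
        rfl
  rw [s1, s2]
  ring

end Pool.Agent.HCF
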