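import Pool.Agent.HCF.KComA

/-! # Weights and class of the companion pencil (module KCOMB) -/

noncomputable section

namespace Pool.Agent.HCF

variable {Γ : Type} {u : Γ → Circle} {x : Γ → ℤ} {Z : Type} [TopologicalSpace Z] [Op Γ Z]
  {ι κ : Type} [Fintype ι] [DecidableEq ι] [Fintype κ] [DecidableEq κ]

/-- the idempotent of the companion pencil -/
def compQ (n : ℕ) (P : ℕ → Matrix κ ι C(Z, ℂ)) (B : Matrix ι κ C(Z × Cir u x, ℂ)) :
    Matrix (Fin (n + 1) × ι) (Fin (n + 1) × ι) C(Z, ℂ) :=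
  fcM (-1) (compR n P B) * compA n P

theorem kcomb_isW_zz : IsW u x (zz u x Z) := (isW_zc u x).comp eqv_snd

theorem kcomb_isW_pow (m : ℕ) : IsW u (m • x) (zz u x Z ^ m) := by
  induction m with
  | zero => rw [pow_zero, zero_smul]; exact IsW.one
  | succ m ih =>
    rw [pow_succ, succ_nsmul]
    exact ih.mul kcomb_isW_zz

theorem kcomb_ha (n : ℕ) (w0 : ι → Γ → ℤ) (w1 : κ → Γ → ℤ) (P : ℕ → Matrix κ ι C(Z, ℂ))
    (hPw : ∀ k i j, IsW u (w1 i - w0 j - k • x) (P k i j)) (r : (Fin n × ι) ⊕ κ)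
    (c : Fin (n + 1) × ι) : IsW u (wF1 x n w0 w1 r - wF0 x n w0 c - x) (compA n P r c) := by
  rcases r with ⟨k, i⟩ | r
  · change IsW u ((w0 i + ((k : ℕ) + 1) • x) - (w0 c.2 + (c.1 : ℕ) • x) - x)
      (if (c.1 : ℕ) = k ∧ i = c.2 then (-1 : C(Z, ℂ)) else 0)
    by_cases h : (c.1 : ℕ) = k ∧ i = c.2
    · rw [if_pos h]
      refine (IsW.one.neg).congr ?_
      rw [h.1, h.2, succ_nsmul]
      abel
    · rw [if_neg h]
      exact IsW.zero
  · change IsW u (w1 r - (w0 c.2 + (c.1 : ℕ) • x) - x)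
      (if (c.1 : ℕ) = n then P (n + 1) r c.2 else 0)
    by_cases h : (c.1 : ℕ) = n
    · rw [if_pos h]
      refine (hPw _ _ _).congr ?_
      rw [h, succ_nsmul]
      abel
    · rw [if_neg h]
      exact IsW.zero

theorem kcomb_hb (n : ℕ) (w0 : ι → Γ → ℤ) (w1 : κ → Γ → ℤ) (P : ℕ → Matrix κ ι C(Z, ℂ))
    (hPw : ∀ k i j, IsW u (w1 i - w0 j - k • x) (P k i j)) :
    HomM u (wF1 x n w0 w1) (wF0 x n w0) (compB n P) := by
  intro r c
  rcases r with ⟨k, i⟩ | r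
  · change IsW u ((w0 i + ((k : ℕ) + 1) • x) - (w0 c.2 + (c.1 : ℕ) • x))
      (if (c.1 : ℕ) = k + 1 ∧ i = c.2 then (1 : C(Z, ℂ)) else 0)
    by_cases h : (c.1 : ℕ) = k + 1 ∧ i = c.2
    · rw [if_pos h]
      refine IsW.one.congr ?_
      rw [h.1, h.2]
      abel
    · rw [if_neg h]
      exact IsW.zero
  · change IsW u (w1 r - (w0 c.2 + (c.1 : ℕ) • x)) (P c.1 r c.2)
    refine (hPw _ _ _).congr ?_
    abel

theorem kcomb_hf (n : ℕ) (w0 : ι → Γ → ℤ) (w1 : κ → Γ → ℤ) (e : Matrix κ κ C(Z, ℂ))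
    (heh : HomM u w1 w1 e) : HomM u (wF1 x n w0 w1) (wF1 x n w0 w1) (compF n e) := by
  intro r c
  rcases r with r | r <;> rcases c with c | c
  · exact HomM.one (w := fun r : Fin n × ι => w0 r.2 + ((r.1 : ℕ) + 1) • x) r c
  · exact IsW.zero
  · exact IsW.zero
  · exact heh r c

theorem kcomb_hR (n : ℕ) (w0 : ι → Γ → ℤ) (w1 : κ → Γ → ℤ) (P : ℕ → Matrix κ ι C(Z, ℂ))
    (hPw : ∀ k i j, IsW u (w1 i - w0 j - k • x) (P k i j))
    (B : Matrix ι κ C(Z × Cir u x, ℂ)) (hBw : ∀ i j, IsW u (w0 i - w1 j) (B i j))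
    (c : Fin (n + 1) × ι) (r : (Fin n × ι) ⊕ κ) :
    IsW u (wF0 x n w0 c - wF1 x n w0 w1 r) (compR n P B c r) := by
  rcases r with ⟨k, j⟩ | s
  · change IsW u ((w0 c.2 + (c.1 : ℕ) • x) - (w0 j + ((k : ℕ) + 1) • x))
        ((if (k : ℕ) + 1 ≤ c.1 ∧ c.2 = j then (zz u x Z) ^ ((c.1 : ℕ) - (k + 1)) else 0) -
          (zz u x Z) ^ (c.1 : ℕ) * ∑ l ∈ Finset.Icc ((k : ℕ) + 1) (n + 1),
            (zz u x Z) ^ (l - ((k : ℕ) + 1)) *
              (B * pullM (ContinuousMap.fst : C(Z × Cir u x, Z)) (P l) : Matrix ι ι _) c.2 j)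
    refine IsW.sub ?_ ?_
    · by_cases h : (k : ℕ) + 1 ≤ c.1 ∧ c.2 = j
      · rw [if_pos h]
        refine (kcomb_isW_pow _).congr ?_
        have h1 : (c.1 : ℕ) = ((c.1 : ℕ) - ((k : ℕ) + 1)) + ((k : ℕ) + 1) := by omega
        rw [h.2]
        conv_rhs => rw [h1, add_nsmul]
        abel
      · rw [if_neg h]
        exact IsW.zero
    · have hs : IsW u (w0 c.2 - w0 j - ((k : ℕ) + 1) • x)
          (∑ l ∈ Finset.Icc ((k : ℕ) + 1) (n + 1), (zz u x Z) ^ (l - ((k : ℕ) + 1)) *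
              (B * pullM (ContinuousMap.fst : C(Z × Cir u x, Z)) (P l) : Matrix ι ι _) c.2 j) := by
        refine IsW.sum fun l hl => ?_
        rw [Finset.mem_Icc] at hl
        have hBP : IsW u (w0 c.2 - w0 j - l • x)
            ((B * pullM (ContinuousMap.fst : C(Z × Cir u x, Z)) (P l) : Matrix ι ι _) c.2 j) := by
          rw [Matrix.mul_apply]
          refine IsW.sum fun s _ => ?_
          refine ((hBw c.2 s).mul ((hPw l s j).comp eqv_fst)).congr ?_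
          abel
        refine ((kcomb_isW_pow _).mul hBP).congr ?_
        have h1 : l = (l - ((k : ℕ) + 1)) + ((k : ℕ) + 1) := by omega
        conv_lhs => rw [show l • x = ((l - ((k : ℕ) + 1)) + ((k : ℕ) + 1)) • x by rw [← h1]]
        rw [add_nsmul]
        abel
      refine ((kcomb_isW_pow _).mul hs).congr ?_
      abel
  · change IsW u ((w0 c.2 + (c.1 : ℕ) • x) - w1 s) (zz u x Z ^ (c.1 : ℕ) * B c.2 s)
    refine ((kcomb_isW_pow _).mul (hBw c.2 s)).congr ?_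
    abel

theorem kcomb_hfa (n : ℕ) (e : Matrix κ κ C(Z, ℂ)) (P : ℕ → Matrix κ ι C(Z, ℂ))
    (hP : ∀ k, e * P k = P k) :
    (compF n e : Matrix ((Fin n × ι) ⊕ κ) ((Fin n × ι) ⊕ κ) C(Z, ℂ)) * compA n P =
      compA n P := by
  ext1 r c
  rw [Matrix.mul_apply, Fintype.sum_sum_type]
  rcases r with r | r
  · simp only [compF, Matrix.fromBlocks_apply₁₁, Matrix.fromBlocks_apply₁₂, Matrix.zero_apply,
      zero_mul, Finset.sum_const_zero, add_zero, Matrix.one_apply, ite_mul, one_mul,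
      Finset.sum_ite_eq, Finset.mem_univ, if_true]
  · simp only [compF, Matrix.fromBlocks_apply₂₁, Matrix.fromBlocks_apply₂₂, Matrix.zero_apply,
      zero_mul, Finset.sum_const_zero, zero_add]
    simp only [compA]
    by_cases h : (c.1 : ℕ) = n
    · simp only [if_pos h]
      rw [← Matrix.mul_apply, hP]
    · simp only [if_neg h, mul_zero, Finset.sum_const_zero]

theorem kcomb_hfb (n : ℕ) (e : Matrix κ κ C(Z, ℂ)) (P : ℕ → Matrix κ ι C(Z, ℂ))
    (hP : ∀ k, e * P k = P k) :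
    (compF n e : Matrix ((Fin n × ι) ⊕ κ) ((Fin n × ι) ⊕ κ) C(Z, ℂ)) * compB n P =
      compB n P := by
  ext1 r c
  rw [Matrix.mul_apply, Fintype.sum_sum_type]
  rcases r with r | r
  · simp only [compF, Matrix.fromBlocks_apply₁₁, Matrix.fromBlocks_apply₁₂, Matrix.zero_apply,
      zero_mul, Finset.sum_const_zero, add_zero, Matrix.one_apply, ite_mul, one_mul,
      Finset.sum_ite_eq, Finset.mem_univ, if_true]
  · simp only [compF, Matrix.fromBlocks_apply₂₁, Matrix.fromBlocks_apply₂₂, Matrix.zero_apply,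
      zero_mul, Finset.sum_const_zero, zero_add]
    simp only [compB]
    rw [← Matrix.mul_apply, hP]

theorem kcomb_hRf (n : ℕ) (e : Matrix κ κ C(Z, ℂ)) (P : ℕ → Matrix κ ι C(Z, ℂ))
    (B : Matrix ι κ C(Z × Cir u x, ℂ)) (hBe : B * pullM ContinuousMap.fst e = B) :
    compR n P B * pullM (ContinuousMap.fst : C(Z × Cir u x, Z))
      (compF n e : Matrix ((Fin n × ι) ⊕ κ) ((Fin n × ι) ⊕ κ) C(Z, ℂ)) = compR n P B := by
  have hpull : pullM (ContinuousMap.fst : C(Z × Cir u x, Z))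
      (compF n e : Matrix ((Fin n × ι) ⊕ κ) ((Fin n × ι) ⊕ κ) C(Z, ℂ)) =
      Matrix.fromBlocks 1 0 0 (pullM ContinuousMap.fst e) := by
    ext1 r c
    rcases r with r | r <;> rcases c with c | c
    · exact congrFun (congrFun (pullM_one (ι := Fin n × ι)
        (ContinuousMap.fst : C(Z × Cir u x, Z))) r) c
    · rfl
    · rfl
    · rfl
  rw [hpull]
  ext1 c r
  rw [Matrix.mul_apply, Fintype.sum_sum_type]
  rcases r with r | r
  · simp only [Matrix.fromBlocks_apply₁₁, Matrix.fromBlocks_apply₂₁, Matrix.zero_apply,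
      mul_zero, Finset.sum_const_zero, add_zero, Matrix.one_apply, mul_ite, mul_one,
      Finset.sum_ite_eq', Finset.mem_univ, if_true]
  · simp only [Matrix.fromBlocks_apply₁₂, Matrix.fromBlocks_apply₂₂, Matrix.zero_apply,
      mul_zero, Finset.sum_const_zero, zero_add, kcoma_R_inr]
    have hB : ∑ s, B c.2 s * pullM (ContinuousMap.fst : C(Z × Cir u x, Z)) e s r = B c.2 r :=
      congrFun (congrFun hBe c.2) r
    rw [← hB, Finset.mul_sum]
    refine Finset.sum_congr rfl (fun s _ => ?_)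
    ring

theorem kcomb_cls (n : ℕ) (w0 : ι → Γ → ℤ) (w1 : κ → Γ → ℤ) (e : Matrix κ κ C(Z, ℂ))
    (he : e * e = e) (heh : HomM u w1 w1 e)
    (hf : (compF n e : Matrix ((Fin n × ι) ⊕ κ) ((Fin n × ι) ⊕ κ) C(Z, ℂ)) * compF n e =
      compF n e)
    (hfh : HomM u (wF1 x n w0 w1) (wF1 x n w0 w1) (compF n e)) :
    cls (Bun.triv u Z (wF0 x n w0)) -
      cls (⟨(Fin n × ι) ⊕ κ, wF1 x n w0 w1, compF n e, hf, hfh⟩ : Bun u Z) =
    cls (Bun.triv u Z w0) - cls (⟨κ, w1, e, he, heh⟩ : Bun u Z) := by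
  have h1 : cls (⟨(Fin n × ι) ⊕ κ, wF1 x n w0 w1, compF n e, hf, hfh⟩ : Bun u Z) =
      cls (Bun.triv u Z (fun r : Fin n × ι => w0 r.2 + ((r.1 : ℕ) + 1) • x)) +
        cls (⟨κ, w1, e, he, heh⟩ : Bun u Z) :=
    cls_sum (Bun.triv u Z (fun r : Fin n × ι => w0 r.2 + ((r.1 : ℕ) + 1) • x))
      ⟨κ, w1, e, he, heh⟩
  have h2 : cls (Bun.triv u Z (wF0 x n w0)) = cls (Bun.triv u Z w0) +
      cls (Bun.triv u Z (fun r : Fin n × ι => w0 r.2 + ((r.1 : ℕ) + 1) • x)) := by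
    rw [cls_triv, cls_triv, cls_triv, Fintype.sum_prod_type, Fintype.sum_prod_type,
      Fin.sum_univ_succ]
    congr 1
    refine Finset.sum_congr rfl (fun i _ => ?_)
    simp [wF0]
  rw [h1, h2]
  abel

/-- A polynomial isomorphism `P` from the trivial bundle `w0` to `e` (of weights `w1`) over
`Z × S^1` gives `[w0] - [e] = (1 - x) [Q]` on `Z`. -/
theorem comp_class (n : ℕ) (w0 : ι → Γ → ℤ) (w1 : κ → Γ → ℤ) (e : Matrix κ κ C(Z, ℂ))
    (he : e * e = e) (heh : HomM u w1 w1 e) (P : ℕ → Matrix κ ι C(Z, ℂ))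
    (hPw : ∀ k i j, IsW u (w1 i - w0 j - k • x) (P k i j)) (hP : ∀ k, e * P k = P k)
    (B : Matrix ι κ C(Z × Cir u x, ℂ)) (hBw : ∀ i j, IsW u (w0 i - w1 j) (B i j))
    (hBe : B * pullM ContinuousMap.fst e = B)
    (h1 : polyV u x n P * B = pullM ContinuousMap.fst e) (h2 : B * polyV u x n P = 1) :
    ∃ (hQ : compQ n P B * compQ n P B = compQ n P B)
      (hQh : HomM u (wF0 x n w0) (wF0 x n w0) (compQ n P B)),
      cls (Bun.triv u Z w0) - cls ⟨κ, w1, e, he, heh⟩ =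
        (1 - Ktw x : AddMonoid.End (K u Z))
          (cls ⟨Fin (n + 1) × ι, wF0 x n w0, compQ n P B, hQ, hQh⟩) := by
  have hf : (compF n e : Matrix ((Fin n × ι) ⊕ κ) ((Fin n × ι) ⊕ κ) C(Z, ℂ)) * compF n e =
      compF n e := by
    simp [compF, Matrix.fromBlocks_multiply, he]
  have hfh := kcomb_hf (x := x) n w0 w1 e heh
  obtain ⟨hQ, hQh, h3⟩ := pencil_class (wF0 x n w0) (wF1 x n w0 w1) (compF n e) (compA n P)
    (compB n P) (compR n P B) hf hfh (kcomb_ha n w0 w1 P hPw) (kcomb_hb n w0 w1 P hPw)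
    (kcomb_hR n w0 w1 P hPw B hBw) (kcomb_hfa n e P hP) (kcomb_hfb n e P hP)
    (kcomb_hRf n e P B hBe) (comp_right n P B e h1 hP) (comp_left n P B h2)
  refine ⟨hQ, hQh, ?_⟩
  rw [← kcomb_cls (x := x) n w0 w1 e he heh hf hfh]
  exact h3

end Pool.Agent.HCF
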