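import Pool.Agent.HCF.KComB

/-! # The companion idempotent where the polynomial is a monomial (module KCOMC) -/

noncomputable section

namespace Pool.Agent.HCF

variable {Γ : Type} {u : Γ → Circle} {x : Γ → ℤ} {Z W : Type} [TopologicalSpace Z]
  [TopologicalSpace W] {ι κ : Type} [Fintype ι] [DecidableEq ι] [Fintype κ] [DecidableEq κ]

omit [TopologicalSpace W] in
private theorem kcomc_shift (p : ℕ) : ∀ (k : ℤ) (f : C(Z × Cir u x, ℂ)),
    fc k (zz u x Z ^ p * f) = fc (k - p) f := by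
  induction p with
  | zero => intro k f; simp
  | succ p ih =>
    intro k f
    rw [pow_succ', mul_assoc, fc_zz_mul, ih]
    congr 1
    push_cast
    ring

private theorem kcomc_pow (p : ℕ) (k : ℤ) : fc k (zz u x Z ^ p) = if k = p then 1 else 0 := by
  have h := kcomc_shift (u := u) (x := x) (Z := Z) p k 1
  rw [mul_one, fc_one] at h
  rw [h]
  congr 1
  exact propext sub_eq_zero

/-- the matrix `B P_N` on `W` -/
private theorem kcomc_G (n N : ℕ) (hNn : N ≤ n) (P : ℕ → Matrix κ ι C(Z, ℂ))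
    (B : Matrix ι κ C(Z × Cir u x, ℂ)) (h2 : B * polyV u x n P = 1)
    (j : C(W, Z)) (hj : ∀ k, k ≠ N → k ≤ n + 1 → pullM j (P k) = 0) (i i' : ι) :
    zz u x W ^ N * ((B * pullM (ContinuousMap.fst : C(Z × Cir u x, Z)) (P N) :
      Matrix ι ι _) i i').comp (j.prodMap (ContinuousMap.id (Cir u x))) =
      if i = i' then 1 else 0 := by
  ext ⟨w, ζ⟩
  have h := congrFun (congrFun h2 i) i'
  have h' := congrArg (fun f : C(Z × Cir u x, ℂ) => f (j w, ζ)) h
  simp only [Matrix.mul_apply, polyV, Matrix.sum_apply, Matrix.smul_apply, smul_eq_mul,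
    ContinuousMap.sum_apply, ContinuousMap.mul_apply, ContinuousMap.pow_apply, pullM_apply,
    ContinuousMap.comp_apply, ContinuousMap.fst_apply, Matrix.one_apply] at h'
  have hz : ∀ k ∈ Finset.range (n + 2), k ≠ N → ∀ s : κ, P k s i' (j w) = 0 := by
    intro k hk hkN s
    have h3 := congrFun (congrFun (hj k hkN (by have := Finset.mem_range.1 hk; omega)) s) i'
    have h4 := congrArg (fun f : C(W, ℂ) => f w) h3
    simpa using h4
  have hs : ∀ s : κ, (∑ k ∈ Finset.range (n + 2), zz u x Z (j w, ζ) ^ k * P k s i' (j w)) =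
      zz u x Z (j w, ζ) ^ N * P N s i' (j w) := by
    intro s
    refine Finset.sum_eq_single N ?_ ?_
    · intro k hk hkN
      rw [hz k hk hkN s, mul_zero]
    · intro hN
      exact absurd (Finset.mem_range.2 (by omega)) hN
  simp only [hs] at h'
  have e1 : zz u x Z (j w, ζ) = zz u x W (w, ζ) := rfl
  rw [e1] at h'
  simp only [ContinuousMap.mul_apply, ContinuousMap.pow_apply, ContinuousMap.comp_apply,
    Matrix.mul_apply, ContinuousMap.sum_apply, pullM_apply, ContinuousMap.prodMap_apply,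
    ContinuousMap.id_apply, ContinuousMap.fst_apply, Prod.map_apply, ContinuousMap.coe_id, id_eq]
  rw [Finset.mul_sum]
  have e2 : ∀ s ∈ (Finset.univ : Finset κ), zz u x W (w, ζ) ^ N * (B i s (j w, ζ) * P N s i' (j w)) =
      B i s (j w, ζ) * (zz u x W (w, ζ) ^ N * P N s i' (j w)) := by
    intro s _
    ring
  rw [Finset.sum_congr rfl e2, h']
  split_ifs <;> rfl

/-- At the points of `W → Z` where `P_k = 0` for `k ≠ N` (`1 ≤ N ≤ n`), the idempotent `Q` is the
projection to the first `N` blocks. -/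
theorem compQ_monomial (n N : ℕ) (hN : 1 ≤ N) (hNn : N ≤ n) (P : ℕ → Matrix κ ι C(Z, ℂ))
    (B : Matrix ι κ C(Z × Cir u x, ℂ)) (e : Matrix κ κ C(Z, ℂ))
    (h1 : polyV u x n P * B = pullM ContinuousMap.fst e) (h2 : B * polyV u x n P = 1)
    (hBe : B * pullM ContinuousMap.fst e = B) (hP : ∀ k, e * P k = P k)
    (j : C(W, Z)) (hj : ∀ k, k ≠ N → k ≤ n + 1 → pullM j (P k) = 0) :
    pullM j (compQ n P B) =
      fun r c => if r = c ∧ (r.1 : ℕ) < N then (1 : C(W, ℂ)) else 0 := by
  set J : C(W × Cir u x, Z × Cir u x) := j.prodMap (ContinuousMap.id (Cir u x)) with hJ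
  set G : ι → ι → C(W × Cir u x, ℂ) := fun i i' =>
    ((B * pullM (ContinuousMap.fst : C(Z × Cir u x, Z)) (P N) : Matrix ι ι _) i i').comp J with hG
  have hGz : ∀ i i', zz u x W ^ N * G i i' = if i = i' then 1 else 0 := fun i i' =>
    kcomc_G n N hNn P B h2 j hj i i'
  have hGf : ∀ (m : ℤ) (i i' : ι), fc m (G i i') = if i = i' ∧ m = -(N : ℤ) then 1 else 0 := by
    intro m i i'
    have h3 := kcomc_shift N (m + N) (G i i')
    rw [hGz] at h3
    have e1 : m + (N : ℤ) - N = m := by ring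
    rw [e1] at h3
    rw [← h3]
    by_cases hi : i = i'
    · have e2 : (if i = i' then (1 : C(W × Cir u x, ℂ)) else 0) = 1 := if_pos hi
      rw [e2, fc_one]
      by_cases hm : m = -(N : ℤ)
      · have e3 : (if i = i' ∧ m = -(N : ℤ) then (1 : C(W, ℂ)) else 0) = 1 := if_pos ⟨hi, hm⟩
        have e4 : m + (N : ℤ) = 0 := by omega
        rw [e3, if_pos e4]
      · have e3 : (if i = i' ∧ m = -(N : ℤ) then (1 : C(W, ℂ)) else 0) = 0 :=
          if_neg (fun h => hm h.2)
        have e4 : ¬ m + (N : ℤ) = 0 := by omega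
        rw [e3, if_neg e4]
    · have e2 : (if i = i' then (1 : C(W × Cir u x, ℂ)) else 0) = 0 := if_neg hi
      have e3 : (if i = i' ∧ m = -(N : ℤ) then (1 : C(W, ℂ)) else 0) = 0 :=
        if_neg (fun h => hi h.1)
      rw [e2, e3]
      have := fc_sub (m + N) (1 : C(W × Cir u x, ℂ)) 1
      rwa [sub_self, sub_self] at this
  -- the entries of the first kind
  have hR : ∀ (r : Fin (n + 1) × ι) (k : Fin n) (i' : ι),
      (compR n P B r (Sum.inl (k, i'))).comp J =
        (if (k : ℕ) + 1 ≤ r.1 ∧ r.2 = i' then (zz u x W) ^ ((r.1 : ℕ) - (k + 1)) else 0) -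
          (if (k : ℕ) + 1 ≤ N then (zz u x W) ^ ((r.1 : ℕ) + (N - (k + 1))) * G r.2 i' else 0) := by
    intro r k i'
    ext ⟨w, ζ⟩
    have hz : ∀ l, l ≠ N → l ≤ n + 1 → ∀ s : κ, P l s i' (j w) = 0 := by
      intro l hl hl' s
      have h3 := congrFun (congrFun (hj l hl hl') s) i'
      have h4 := congrArg (fun f : C(W, ℂ) => f w) h3
      simpa using h4
    have hBP : ∀ l, l ≠ N → l ≤ n + 1 → (B * pullM (ContinuousMap.fst : C(Z × Cir u x, Z)) (P l) :
        Matrix ι ι _) r.2 i' (j w, ζ) = 0 := by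
      intro l hl hl'
      rw [Matrix.mul_apply, ContinuousMap.sum_apply]
      refine Finset.sum_eq_zero fun s _ => ?_
      rw [ContinuousMap.mul_apply, pullM_apply, ContinuousMap.comp_apply]
      show _ * P l s i' (j w) = 0
      rw [hz l hl hl' s, mul_zero]
    have e0 : ((compR n P B r (Sum.inl (k, i'))).comp J) (w, ζ) =
        (if (k : ℕ) + 1 ≤ r.1 ∧ r.2 = i' then (zz u x W) ^ ((r.1 : ℕ) - (k + 1)) else 0 :
          C(W × Cir u x, ℂ)) (w, ζ) - (zz u x W (w, ζ)) ^ (r.1 : ℕ) *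
          ∑ l ∈ Finset.Icc ((k : ℕ) + 1) (n + 1), (zz u x W (w, ζ)) ^ (l - ((k : ℕ) + 1)) *
              (B * pullM (ContinuousMap.fst : C(Z × Cir u x, Z)) (P l) : Matrix ι ι _) r.2 i'
                (j w, ζ) := by
      have e3 : J (w, ζ) = (j w, ζ) := rfl
      have e4 : zz u x Z (j w, ζ) = zz u x W (w, ζ) := rfl
      rw [ContinuousMap.comp_apply, e3]
      simp only [compR, ContinuousMap.sub_apply, ContinuousMap.mul_apply,
        ContinuousMap.pow_apply, ContinuousMap.sum_apply, e4]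
      congr 1
      split_ifs
      · simp only [ContinuousMap.pow_apply, e4]
      · rfl
    rw [e0, ContinuousMap.sub_apply]
    congr 1
    by_cases hk : (k : ℕ) + 1 ≤ N
    · rw [if_pos hk, Finset.sum_eq_single N]
      · simp only [ContinuousMap.mul_apply, ContinuousMap.pow_apply]
        rw [pow_add, mul_assoc]
        rfl
      · intro l hl hlN
        rw [hBP l hlN (Finset.mem_Icc.1 hl).2, mul_zero]
      · intro hn
        exact absurd (Finset.mem_Icc.2 ⟨hk, by omega⟩) hn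
    · rw [if_neg hk, Finset.sum_eq_zero]
      · rw [mul_zero]
        rfl
      · intro l hl
        have hl' := Finset.mem_Icc.1 hl
        rw [hBP l (by omega) hl'.2, mul_zero]
  have hF : ∀ (r : Fin (n + 1) × ι) (k : Fin n) (i' : ι),
      (fcM (-1) (compR n P B) r (Sum.inl (k, i'))).comp j =
        if (r.2 = i' ∧ (r.1 : ℕ) = k) ∧ (k : ℕ) < N then -1 else 0 := by
    intro r k i'
    show (fc (-1) (compR n P B r (Sum.inl (k, i')))).comp j = _
    rw [fc_comp, ← hJ, hR, fc_sub]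
    have f1 : fc (-1) (if (k : ℕ) + 1 ≤ r.1 ∧ r.2 = i' then
        (zz u x W) ^ ((r.1 : ℕ) - (k + 1)) else 0) = 0 := by
      split_ifs
      · rw [kcomc_pow, if_neg (by omega)]
      · have := fc_sub (-1) (1 : C(W × Cir u x, ℂ)) 1
        rwa [sub_self, sub_self] at this
    rw [f1, zero_sub]
    by_cases hk : (k : ℕ) < N
    · have hk' : (k : ℕ) + 1 ≤ N := hk
      rw [if_pos hk', kcomc_shift, hGf]
      by_cases hi : r.2 = i' ∧ (r.1 : ℕ) = k
      · have e3 : (if (r.2 = i' ∧ (r.1 : ℕ) = k) ∧ (k : ℕ) < N then (-1 : C(W, ℂ)) else 0) =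
            -1 := if_pos ⟨hi, hk⟩
        have e5 : r.2 = i' ∧ (-1 : ℤ) - (((r.1 : ℕ) + (N - ((k : ℕ) + 1)) : ℕ) : ℤ) = -(N : ℤ) :=
          ⟨hi.1, by have := hi.2; omega⟩
        rw [e3, if_pos e5]
      · have e3 : (if (r.2 = i' ∧ (r.1 : ℕ) = k) ∧ (k : ℕ) < N then (-1 : C(W, ℂ)) else 0) =
            0 := if_neg (fun h => hi h.1)
        have e5 : ¬ (r.2 = i' ∧
            (-1 : ℤ) - (((r.1 : ℕ) + (N - ((k : ℕ) + 1)) : ℕ) : ℤ) = -(N : ℤ)) := by
          rintro ⟨h3, h4⟩
          exact hi ⟨h3, by omega⟩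
        rw [e3, if_neg e5, neg_zero]
    · have hk' : ¬ (k : ℕ) + 1 ≤ N := hk
      have e3 : (if (r.2 = i' ∧ (r.1 : ℕ) = k) ∧ (k : ℕ) < N then (-1 : C(W, ℂ)) else 0) =
            0 := if_neg (fun h => hk h.2)
      rw [if_neg hk', e3]
      have := fc_sub (-1) (1 : C(W × Cir u x, ℂ)) 1
      rw [sub_self, sub_self] at this
      rw [this, neg_zero]
  unfold compQ
  rw [pullM_mul]
  funext r c
  rw [Matrix.mul_apply, Fintype.sum_sum_type]
  have s2 : ∑ s : κ, pullM j (fcM (-1) (compR n P B)) r (Sum.inr s) *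
      pullM j (compA n P) (Sum.inr s) c = 0 := by
    refine Finset.sum_eq_zero fun s _ => ?_
    have h3 := congrFun (congrFun (hj (n + 1) (by omega) le_rfl) s) c.2
    have h4 : pullM j (compA n P) (Sum.inr s) c = 0 := by
      rw [pullM_apply]
      simp only [compA]
      split_ifs
      · exact h3
      · exact ContinuousMap.zero_comp _
    rw [h4, mul_zero]
  rw [s2, add_zero]
  have hA : ∀ (k : Fin n) (i' : ι), pullM j (compA n P) (Sum.inl (k, i')) c =
      if (c.1 : ℕ) = k ∧ i' = c.2 then -1 else 0 := by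
    intro k i'
    rw [pullM_apply]
    simp only [compA]
    split_ifs
    · ext w
      rfl
    · exact ContinuousMap.zero_comp _
  by_cases hc : (c.1 : ℕ) < n
  · rw [Finset.sum_eq_single ((⟨(c.1 : ℕ), hc⟩ : Fin n), c.2)]
    · rw [hA, pullM_apply, hF]
      rw [if_pos (⟨rfl, rfl⟩ : (c.1 : ℕ) = ((⟨(c.1 : ℕ), hc⟩ : Fin n) : ℕ) ∧ c.2 = c.2)]
      by_cases hrc : r = c
      · subst hrc
        by_cases hr : (r.1 : ℕ) < N
        · rw [if_pos ⟨⟨rfl, rfl⟩, hr⟩, if_pos ⟨rfl, hr⟩]
          ring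
        · rw [if_neg (fun h => hr h.2), if_neg (fun h => hr h.2)]
          ring
      · rw [if_neg, if_neg (fun h => hrc h.1)]
        · ring
        · rintro ⟨⟨h3, h4⟩, -⟩
          exact hrc (Prod.ext (Fin.ext h4) h3)
    · rintro ⟨k, i'⟩ - hne
      rw [hA, if_neg, mul_zero]
      rintro ⟨h3, h4⟩
      apply hne
      exact Prod.ext (Fin.ext h3.symm) h4
    · intro h
      exact absurd (Finset.mem_univ _) h
  · rw [Finset.sum_eq_zero]
    · rw [if_neg]
      rintro ⟨h3, h4⟩
      subst h3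
      omega
    · rintro ⟨k, i'⟩ -
      rw [hA, if_neg, mul_zero]
      rintro ⟨h3, -⟩
      have := k.2
      omega

end Pool.Agent.HCF
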