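import Mathlib

/-!
# Elementary equivariant K theory of idempotent matrix functions (definitions)

`Γ` is an index type of operators, `u : Γ → Circle` a family of numbers, a weight is a function
`x : Γ → ℤ`.  A space with operators is a space `Z` with a continuous self map `op g` for each `g`.
A function `f` on `Z` has weight `x` when `f (op g z) = u g ^ x g * f z`.
-/

open scoped Matrix

noncomputable section

namespace Pool.Agent.HCF

/-- A space with a family of continuous self maps. -/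
class Op (Γ : Type) (Z : Type) [TopologicalSpace Z] where
  op : Γ → C(Z, Z)

export Op (op)

variable {Γ : Type}

instance instOpProd {Z Z' : Type} [TopologicalSpace Z] [TopologicalSpace Z'] [Op Γ Z] [Op Γ Z'] :
    Op Γ (Z × Z') where
  op g := (op g : C(Z, Z)).prodMap (op g : C(Z', Z'))

/-- the unit interval has the trivial operators -/
instance instOpI : Op Γ unitInterval where
  op _ := ContinuousMap.id _

instance instOpUnit : Op Γ PUnit.{1} where
  op _ := ContinuousMap.id _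

@[simp] lemma op_prod {Z Z' : Type} [TopologicalSpace Z] [TopologicalSpace Z'] [Op Γ Z] [Op Γ Z']
    (g : Γ) (z : Z) (z' : Z') : (op g : C(Z × Z', Z × Z')) (z, z') = (op g z, op g z') := rfl

@[simp] lemma op_I (g : Γ) (t : unitInterval) : (op g : C(unitInterval, unitInterval)) t = t := rfl

@[simp] lemma op_unit (g : Γ) (t : PUnit.{1}) : (op g : C(PUnit.{1}, PUnit.{1})) t = t := rfl

/-- `f` commutes with the operators. -/
def Eqv (Γ : Type) {Z' Z : Type} [TopologicalSpace Z] [TopologicalSpace Z'] [Op Γ Z] [Op Γ Z']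
    (f : C(Z', Z)) : Prop := ∀ (g : Γ) (z : Z'), f (op g z) = op g (f z)

/-- the value at `g` of the character of weight `x` -/
def ch (u : Γ → Circle) (x : Γ → ℤ) (g : Γ) : ℂ := ((u g ^ x g : Circle) : ℂ)

lemma ch_zero (u : Γ → Circle) (g : Γ) : ch u 0 g = 1 := by simp [ch]

lemma ch_add (u : Γ → Circle) (x y : Γ → ℤ) (g : Γ) : ch u (x + y) g = ch u x g * ch u y g := by
  simp [ch, zpow_add]

lemma norm_ch (u : Γ → Circle) (x : Γ → ℤ) (g : Γ) : ‖ch u x g‖ = 1 := by
  simp only [ch, Circle.norm_coe]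

lemma ch_ne_zero (u : Γ → Circle) (x : Γ → ℤ) (g : Γ) : ch u x g ≠ 0 := by
  rw [← norm_ne_zero_iff, norm_ch]; exact one_ne_zero

/-- `f` has weight `x`. -/
def IsW (u : Γ → Circle) {Z : Type} [TopologicalSpace Z] [Op Γ Z] (x : Γ → ℤ) (f : C(Z, ℂ)) :
    Prop := ∀ (g : Γ) (z : Z), f (op g z) = ch u x g * f z

section IsW
variable {u : Γ → Circle} {Z : Type} [TopologicalSpace Z] [Op Γ Z] {x y : Γ → ℤ} {f f' : C(Z, ℂ)}

lemma IsW.zero : IsW u x (0 : C(Z, ℂ)) := fun g z => by simp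

lemma IsW.one : IsW u 0 (1 : C(Z, ℂ)) := fun g z => by simp [ch_zero]

lemma IsW.add (h : IsW u x f) (h' : IsW u x f') : IsW u x (f + f') := fun g z => by
  simp [h g z, h' g z, mul_add]

lemma IsW.neg (h : IsW u x f) : IsW u x (-f) := fun g z => by simp [h g z]

lemma IsW.sub (h : IsW u x f) (h' : IsW u x f') : IsW u x (f - f') := by
  rw [sub_eq_add_neg]; exact h.add h'.neg

lemma IsW.mul (h : IsW u x f) (h' : IsW u y f') : IsW u (x + y) (f * f') := fun g z => by
  simp [h g z, h' g z, ch_add]; ring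

lemma IsW.sum {ι : Type} {s : Finset ι} {F : ι → C(Z, ℂ)} (h : ∀ i ∈ s, IsW u x (F i)) :
    IsW u x (∑ i ∈ s, F i) := by
  classical
  induction s using Finset.induction_on with
  | empty => simpa using IsW.zero
  | insert a s ha ih =>
    rw [Finset.sum_insert ha]
    exact (h a (Finset.mem_insert_self _ _)).add
      (ih fun i hi => h i (Finset.mem_insert_of_mem hi))

lemma IsW.congr (h : IsW u x f) (hxy : x = y) : IsW u y f := hxy ▸ h

lemma IsW.comp {Z' : Type} [TopologicalSpace Z'] [Op Γ Z'] {φ : C(Z', Z)} (hφ : Eqv Γ φ)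
    (h : IsW u x f) : IsW u x (f.comp φ) := fun g z => by
  simp [hφ g z, h g (φ z)]

end IsW

/-- a matrix of functions `a i j` of weight `w i - w' j` -/
def HomM (u : Γ → Circle) {Z : Type} [TopologicalSpace Z] [Op Γ Z] {ι κ : Type}
    (w : ι → Γ → ℤ) (w' : κ → Γ → ℤ) (a : Matrix ι κ C(Z, ℂ)) : Prop :=
  ∀ i j, IsW u (w i - w' j) (a i j)

section HomM
variable {u : Γ → Circle} {Z : Type} [TopologicalSpace Z] [Op Γ Z] {ι κ μ : Type}
  {w : ι → Γ → ℤ} {w' : κ → Γ → ℤ} {w'' : μ → Γ → ℤ}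

lemma HomM.mul [Fintype κ] {a : Matrix ι κ C(Z, ℂ)} {b : Matrix κ μ C(Z, ℂ)}
    (ha : HomM u w w' a) (hb : HomM u w' w'' b) : HomM u w w'' (a * b) := by
  intro i j
  rw [Matrix.mul_apply]
  exact IsW.sum fun k _ => ((ha i k).mul (hb k j)).congr (by abel)

lemma HomM.one [DecidableEq ι] : HomM u w w (1 : Matrix ι ι C(Z, ℂ)) := by
  intro i j
  by_cases h : i = j
  · subst h; rw [Matrix.one_apply_eq, sub_self]; exact IsW.one
  · rw [Matrix.one_apply_ne h]; exact IsW.zero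

lemma HomM.zero : HomM u w w' (0 : Matrix ι κ C(Z, ℂ)) := fun _ _ => IsW.zero

lemma HomM.sub {a b : Matrix ι κ C(Z, ℂ)} (ha : HomM u w w' a) (hb : HomM u w w' b) :
    HomM u w w' (a - b) := fun i j => (ha i j).sub (hb i j)

lemma HomM.add {a b : Matrix ι κ C(Z, ℂ)} (ha : HomM u w w' a) (hb : HomM u w w' b) :
    HomM u w w' (a + b) := fun i j => (ha i j).add (hb i j)

/-- pull back of a matrix of functions along `φ` -/
def pullM {Z' : Type} [TopologicalSpace Z'] (φ : C(Z', Z)) (a : Matrix ι κ C(Z, ℂ)) :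
    Matrix ι κ C(Z', ℂ) := fun i j => (a i j).comp φ

omit [Op Γ Z] in
@[simp] lemma pullM_apply {Z' : Type} [TopologicalSpace Z'] (φ : C(Z', Z))
    (a : Matrix ι κ C(Z, ℂ)) (i : ι) (j : κ) : pullM φ a i j = (a i j).comp φ := rfl

omit [Op Γ Z] in
lemma pullM_mul [Fintype κ] {Z' : Type} [TopologicalSpace Z'] (φ : C(Z', Z))
    (a : Matrix ι κ C(Z, ℂ)) (b : Matrix κ μ C(Z, ℂ)) :
    pullM φ (a * b) = pullM φ a * pullM φ b := by
  ext i j z
  simp [Matrix.mul_apply, ContinuousMap.sum_apply]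

omit [Op Γ Z] in
@[simp] lemma pullM_one [DecidableEq ι] {Z' : Type} [TopologicalSpace Z'] (φ : C(Z', Z)) :
    pullM φ (1 : Matrix ι ι C(Z, ℂ)) = 1 := by
  ext i j z
  by_cases h : i = j
  · subst h; simp
  · simp [Matrix.one_apply_ne h]

lemma HomM.pull {Z' : Type} [TopologicalSpace Z'] [Op Γ Z'] {φ : C(Z', Z)} (hφ : Eqv Γ φ)
    {a : Matrix ι κ C(Z, ℂ)} (ha : HomM u w w' a) : HomM u w w' (pullM φ a) :=
  fun i j => (ha i j).comp hφ

end HomM

/-- An (equivariant) bundle: a homogeneous idempotent matrix of functions. -/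
structure Bun (u : Γ → Circle) (Z : Type) [TopologicalSpace Z] [Op Γ Z] : Type 1 where
  ι : Type
  [ft : Fintype ι]
  [dec : DecidableEq ι]
  w : ι → Γ → ℤ
  e : Matrix ι ι C(Z, ℂ)
  idem : e * e = e
  hom : HomM u w w e

attribute [instance] Bun.ft Bun.dec

namespace Bun

variable {u : Γ → Circle} {Z : Type} [TopologicalSpace Z] [Op Γ Z]

/-- isomorphism of bundles -/
def Iso (E F : Bun u Z) : Prop :=
  ∃ (a : Matrix E.ι F.ι C(Z, ℂ)) (b : Matrix F.ι E.ι C(Z, ℂ)),
    HomM u E.w F.w a ∧ HomM u F.w E.w b ∧ a * b = E.e ∧ b * a = F.e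

lemma Iso.refl (E : Bun u Z) : Iso E E := ⟨E.e, E.e, E.hom, E.hom, E.idem, E.idem⟩

lemma Iso.symm {E F : Bun u Z} (h : Iso E F) : Iso F E := by
  obtain ⟨a, b, ha, hb, hab, hba⟩ := h
  exact ⟨b, a, hb, ha, hba, hab⟩

lemma Iso.trans {E F G : Bun u Z} (h : Iso E F) (h' : Iso F G) : Iso E G := by
  obtain ⟨a, b, ha, hb, hab, hba⟩ := h
  obtain ⟨c, d, hc, hd, hcd, hdc⟩ := h'
  refine ⟨a * c, d * b, ha.mul hc, hd.mul hb, ?_, ?_⟩
  · calc a * c * (d * b) = a * (c * d) * b := by simp only [Matrix.mul_assoc]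
      _ = a * (b * a) * b := by rw [hcd, hba]
      _ = (a * b) * (a * b) := by simp only [Matrix.mul_assoc]
      _ = E.e := by rw [hab, E.idem]
  · calc d * b * (a * c) = d * (b * a) * c := by simp only [Matrix.mul_assoc]
      _ = d * (c * d) * c := by rw [hcd, hba]
      _ = (d * c) * (d * c) := by simp only [Matrix.mul_assoc]
      _ = G.e := by rw [hdc, G.idem]

instance setoid (u : Γ → Circle) (Z : Type) [TopologicalSpace Z] [Op Γ Z] : Setoid (Bun u Z) where
  r := Iso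
  iseqv := ⟨Iso.refl, Iso.symm, Iso.trans⟩

/-- direct sum -/
abbrev sum (E F : Bun u Z) : Bun u Z where
  ι := E.ι ⊕ F.ι
  w := Sum.elim E.w F.w
  e := Matrix.fromBlocks E.e 0 0 F.e
  idem := by simp [Matrix.fromBlocks_multiply, E.idem, F.idem]
  hom := by
    rintro (i | i) (j | j)
    · exact E.hom i j
    · exact IsW.zero
    · exact IsW.zero
    · exact F.hom i j

lemma Iso.sum {E E' F F' : Bun u Z} (h : Iso E E') (h' : Iso F F') :
    Iso (E.sum F) (E'.sum F') := by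
  obtain ⟨a, b, ha, hb, hab, hba⟩ := h
  obtain ⟨c, d, hc, hd, hcd, hdc⟩ := h'
  refine ⟨Matrix.fromBlocks a 0 0 c, Matrix.fromBlocks b 0 0 d, ?_, ?_, ?_, ?_⟩
  · rintro (i | i) (j | j)
    · exact ha i j
    · exact IsW.zero
    · exact IsW.zero
    · exact hc i j
  · rintro (i | i) (j | j)
    · exact hb i j
    · exact IsW.zero
    · exact IsW.zero
    · exact hd i j
  · simp only [Matrix.fromBlocks_multiply, Bun.sum]
    simp [hab, hcd]
  · simp only [Matrix.fromBlocks_multiply, Bun.sum]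
    simp [hba, hdc]

/-- reindexing gives an isomorphic bundle -/
lemma iso_of_equiv (E F : Bun u Z) (σ : E.ι ≃ F.ι) (hw : ∀ i, F.w (σ i) = E.w i)
    (he : ∀ i j, F.e (σ i) (σ j) = E.e i j) : Iso E F := by
  refine ⟨fun i j => E.e i (σ.symm j), fun i j => E.e (σ.symm i) j, ?_, ?_, ?_, ?_⟩
  · intro i j
    have h1 := E.hom i (σ.symm j)
    rwa [← hw (σ.symm j), σ.apply_symm_apply] at h1
  · intro i j
    have h1 := E.hom (σ.symm i) j
    rwa [← hw (σ.symm i), σ.apply_symm_apply] at h1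
  · ext1 i j
    rw [Matrix.mul_apply]
    rw [show (∑ k : F.ι, E.e i (σ.symm k) * E.e (σ.symm k) j) = ∑ k : E.ι, E.e i k * E.e k j from
      Equiv.sum_comp σ.symm fun k => E.e i k * E.e k j]
    rw [← Matrix.mul_apply, E.idem]
  · ext1 i j
    rw [Matrix.mul_apply, ← Matrix.mul_apply, E.idem, ← he, σ.apply_symm_apply,
      σ.apply_symm_apply]

/-- the zero bundle -/
abbrev zero (u : Γ → Circle) (Z : Type) [TopologicalSpace Z] [Op Γ Z] : Bun u Z where
  ι := Empty
  w := Empty.elim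
  e := 0
  idem := by simp
  hom := fun i => i.elim

/-- the trivial bundle with given weights -/
abbrev triv (u : Γ → Circle) (Z : Type) [TopologicalSpace Z] [Op Γ Z] {ι : Type} [Fintype ι]
    [DecidableEq ι] (w : ι → Γ → ℤ) : Bun u Z where
  ι := ι
  w := w
  e := 1
  idem := one_mul _
  hom := HomM.one

/-- the complement of a bundle in the trivial bundle with the same weights -/
abbrev compl (E : Bun u Z) : Bun u Z where
  ι := E.ι
  w := E.w
  e := 1 - E.e
  idem := by rw [mul_sub, sub_mul, sub_mul, E.idem]; simp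
  hom := HomM.one.sub E.hom

lemma sum_compl (E : Bun u Z) : Iso (E.sum E.compl) (triv u Z E.w) := by
  refine ⟨Matrix.fromRows E.e (1 - E.e), Matrix.fromCols E.e (1 - E.e), ?_, ?_, ?_, ?_⟩
  · rintro (i | i) j
    · exact E.hom i j
    · exact E.compl.hom i j
  · rintro i (j | j)
    · exact E.hom i j
    · exact E.compl.hom i j
  · rw [Matrix.fromRows_mul_fromCols]
    simp only [Bun.sum, Bun.compl]
    congr 1
    · exact E.idem
    · rw [mul_sub, E.idem]; simp
    · rw [sub_mul, E.idem]; simp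
    · exact E.compl.idem
  · rw [Matrix.fromCols_mul_fromRows, E.idem]
    have := E.compl.idem
    simp only [Bun.compl] at this
    rw [this]
    simp [Bun.triv]

/-- twist by a weight -/
abbrev tw (x : Γ → ℤ) (E : Bun u Z) : Bun u Z where
  ι := E.ι
  w := fun i => E.w i + x
  e := E.e
  idem := E.idem
  hom := fun i j => (E.hom i j).congr (add_sub_add_right_eq_sub _ _ _).symm

lemma Iso.tw {E F : Bun u Z} (x : Γ → ℤ) (h : Iso E F) : Iso (E.tw x) (F.tw x) := by
  obtain ⟨a, b, ha, hb, hab, hba⟩ := h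
  exact ⟨a, b, fun i j => (ha i j).congr (add_sub_add_right_eq_sub _ _ _).symm,
    fun i j => (hb i j).congr (add_sub_add_right_eq_sub _ _ _).symm, hab, hba⟩

/-- pull back -/
abbrev pull {Z' : Type} [TopologicalSpace Z'] [Op Γ Z'] (φ : C(Z', Z)) (hφ : Eqv Γ φ) (E : Bun u Z) :
    Bun u Z' where
  ι := E.ι
  w := E.w
  e := pullM φ E.e
  idem := by rw [← pullM_mul, E.idem]
  hom := E.hom.pull hφ

lemma Iso.pull {Z' : Type} [TopologicalSpace Z'] [Op Γ Z'] (φ : C(Z', Z)) (hφ : Eqv Γ φ)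
    {E F : Bun u Z} (h : Iso E F) : Iso (E.pull φ hφ) (F.pull φ hφ) := by
  obtain ⟨a, b, ha, hb, hab, hba⟩ := h
  refine ⟨pullM φ a, pullM φ b, ha.pull hφ, hb.pull hφ, ?_, ?_⟩
  · rw [← pullM_mul, hab]
  · rw [← pullM_mul, hba]

end Bun

/-- the monoid of isomorphism classes of bundles -/
def V (u : Γ → Circle) (Z : Type) [TopologicalSpace Z] [Op Γ Z] : Type 1 :=
  Quotient (Bun.setoid u Z)

section V
variable {u : Γ → Circle} {Z : Type} [TopologicalSpace Z] [Op Γ Z]

instance : AddCommMonoid (V u Z) where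
  add := Quotient.map₂ Bun.sum fun _ _ h _ _ h' => Bun.Iso.sum h h'
  zero := Quotient.mk _ (Bun.zero u Z)
  add_assoc := by
    rintro ⟨E⟩ ⟨F⟩ ⟨G⟩
    apply Quotient.sound
    refine Bun.iso_of_equiv _ _ (Equiv.sumAssoc E.ι F.ι G.ι) ?_ ?_
    · rintro ((i | i) | i) <;> rfl
    · rintro ((i | i) | i) ((j | j) | j) <;> rfl
  zero_add := by
    rintro ⟨E⟩
    apply Quotient.sound
    refine Bun.iso_of_equiv _ _ (Equiv.emptySum Empty E.ι) ?_ ?_
    · rintro (i | i)
      · exact i.elim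
      · rfl
    · rintro (i | i) (j | j)
      · exact i.elim
      · exact i.elim
      · exact j.elim
      · rfl
  add_zero := by
    rintro ⟨E⟩
    apply Quotient.sound
    refine Bun.iso_of_equiv _ _ (Equiv.sumEmpty E.ι Empty) ?_ ?_
    · rintro (i | i)
      · rfl
      · exact i.elim
    · rintro (i | i) (j | j)
      · rfl
      · exact j.elim
      · exact i.elim
      · exact i.elim
  add_comm := by
    rintro ⟨E⟩ ⟨F⟩
    apply Quotient.sound
    refine Bun.iso_of_equiv _ _ (Equiv.sumComm E.ι F.ι) ?_ ?_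
    · rintro (i | i) <;> rfl
    · rintro (i | i) (j | j) <;> rfl
  nsmul := @nsmulRec _ ⟨Quotient.mk _ (Bun.zero u Z)⟩
    ⟨Quotient.map₂ Bun.sum fun _ _ h _ _ h' => Bun.Iso.sum h h'⟩
  nsmul_zero := fun _ => rfl
  nsmul_succ := fun _ _ => rfl

/-- the class in the monoid -/
def Bun.toV (E : Bun u Z) : V u Z := Quotient.mk _ E

lemma Bun.toV_sum (E F : Bun u Z) : (E.sum F).toV = E.toV + F.toV := rfl

lemma Bun.toV_eq {E F : Bun u Z} : E.toV = F.toV ↔ Bun.Iso E F := Quotient.eq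

end V

/-- the K group -/
abbrev K (u : Γ → Circle) (Z : Type) [TopologicalSpace Z] [Op Γ Z] : Type 1 :=
  Algebra.GrothendieckAddGroup (V u Z)

section K
variable {u : Γ → Circle} {Z : Type} [TopologicalSpace Z] [Op Γ Z]

/-- the class of a bundle in the K group -/
def cls (E : Bun u Z) : K u Z := Algebra.GrothendieckAddGroup.of E.toV

lemma cls_sum (E F : Bun u Z) : cls (E.sum F) = cls E + cls F := by
  rw [cls, Bun.toV_sum, map_add]; rfl

lemma cls_iso {E F : Bun u Z} (h : Bun.Iso E F) : cls E = cls F := by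
  rw [cls, Bun.toV_eq.2 h]; rfl

/-- every class is a difference of bundles -/
lemma K_exists (y : K u Z) : ∃ E F : Bun u Z, y = cls E - cls F := by
  obtain ⟨⟨m, s⟩, h⟩ := (AddLocalization.addMonoidOf (⊤ : AddSubmonoid (V u Z))).surj y
  obtain ⟨E, rfl⟩ := Quotient.exists_rep m
  obtain ⟨s, hs⟩ := s
  obtain ⟨F, rfl⟩ := Quotient.exists_rep s
  exact ⟨E, F, eq_sub_iff_add_eq.2 h⟩

/-- equality of classes is stable isomorphism -/
lemma cls_eq_iff (E F : Bun u Z) : cls E = cls F ↔ ∃ T : Bun u Z, Bun.Iso (E.sum T) (F.sum T) := by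
  constructor
  · intro h
    obtain ⟨⟨c, hc⟩, h'⟩ := ((AddLocalization.addMonoidOf
      (⊤ : AddSubmonoid (V u Z))).eq_iff_exists).1 h
    obtain ⟨T, rfl⟩ := Quotient.exists_rep c
    refine ⟨T, Bun.toV_eq.1 ?_⟩
    rw [Bun.toV_sum, Bun.toV_sum, add_comm, add_comm F.toV]
    exact h'
  · rintro ⟨T, h⟩
    have := cls_iso h
    rw [cls_sum, cls_sum] at this
    exact add_right_cancel this

/-- the universal property -/
def Klift {A : Type*} [AddCommGroup A] (φ : Bun u Z → A)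
    (hs : ∀ E F, φ (E.sum F) = φ E + φ F) (hi : ∀ E F, Bun.Iso E F → φ E = φ F) : K u Z →+ A :=
  Algebra.GrothendieckAddGroup.lift
    { toFun := Quotient.lift φ hi
      map_zero' := by
        have h1 : φ (Bun.zero u Z) = φ ((Bun.zero u Z).sum (Bun.zero u Z)) :=
          hi _ _ (Bun.iso_of_equiv _ _ (Equiv.sumEmpty Empty Empty).symm (fun i => i.elim)
            (fun i => i.elim))
        rw [hs] at h1
        exact left_eq_add.1 h1
      map_add' := by
        rintro ⟨E⟩ ⟨F⟩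
        exact hs E F }

@[simp] lemma Klift_cls {A : Type*} [AddCommGroup A] (φ : Bun u Z → A)
    (hs : ∀ E F, φ (E.sum F) = φ E + φ F) (hi : ∀ E F, Bun.Iso E F → φ E = φ F) (E : Bun u Z) :
    Klift φ hs hi (cls E) = φ E := by
  simp only [Klift, cls, Algebra.GrothendieckAddGroup.lift]
  exact AddSubmonoid.LocalizationMap.lift_eq _ _ _

/-- homomorphisms out of the K group are determined on bundles -/
lemma K_hom_ext {A : Type*} [AddCommGroup A] {φ ψ : K u Z →+ A}
    (h : ∀ E : Bun u Z, φ (cls E) = ψ (cls E)) : φ = ψ := by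
  ext y
  obtain ⟨E, F, rfl⟩ := K_exists y
  rw [map_sub, map_sub, h, h]

lemma K_end_ext {φ ψ : AddMonoid.End (K u Z)} (h : ∀ E : Bun u Z, φ (cls E) = ψ (cls E)) :
    φ = ψ := K_hom_ext (φ := φ) (ψ := ψ) h

/-- twist by the weight `x` on the K group -/
def Ktw (x : Γ → ℤ) : AddMonoid.End (K u Z) :=
  Klift (fun E => cls (E.tw x))
    (fun E F => by
      rw [← cls_sum]
      refine cls_iso (Bun.iso_of_equiv _ _ (Equiv.refl _) ?_ ?_)
      · rintro (i | i) <;> rfl
      · rintro (i | i) (j | j) <;> rfl)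
    (fun E F h => cls_iso (h.tw x))

@[simp] lemma Ktw_cls (x : Γ → ℤ) (E : Bun u Z) : Ktw x (cls E) = cls (E.tw x) :=
  Klift_cls _ _ _ E

lemma Ktw_zero : (Ktw 0 : AddMonoid.End (K u Z)) = 1 := by
  refine K_end_ext fun E => ?_
  rw [Ktw_cls]
  refine cls_iso (Bun.iso_of_equiv _ _ (Equiv.refl _) ?_ ?_)
  · intro i; simp
  · intro i j; rfl

lemma Ktw_mul (x y : Γ → ℤ) : (Ktw x * Ktw y : AddMonoid.End (K u Z)) = Ktw (x + y) := by
  refine K_end_ext fun E => ?_
  change Ktw x (Ktw y (cls E)) = Ktw (x + y) (cls E)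
  rw [Ktw_cls, Ktw_cls, Ktw_cls]
  refine cls_iso (Bun.iso_of_equiv _ _ (Equiv.refl _) ?_ ?_)
  · intro i; simp only [Equiv.refl_apply]; abel
  · intro i j; rfl

lemma Ktw_comm (x y : Γ → ℤ) : Commute (Ktw x : AddMonoid.End (K u Z)) (Ktw y) := by
  rw [Commute, SemiconjBy, Ktw_mul, Ktw_mul, add_comm]

lemma Ktw_nsmul (x : Γ → ℤ) (n : ℕ) : (Ktw (n • x) : AddMonoid.End (K u Z)) = Ktw x ^ n := by
  induction n with
  | zero => simp [Ktw_zero]
  | succ n ih => rw [add_smul, one_smul, ← Ktw_mul, ih, pow_succ]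

/-- pull back on the K group -/
def Kpull {Z' : Type} [TopologicalSpace Z'] [Op Γ Z'] (φ : C(Z', Z)) (hφ : Eqv Γ φ) :
    K u Z →+ K u Z' :=
  Klift (fun E => cls (E.pull φ hφ))
    (fun E F => by
      rw [← cls_sum]
      refine cls_iso (Bun.iso_of_equiv _ _ (Equiv.refl _) ?_ ?_)
      · rintro (i | i) <;> rfl
      · rintro (i | i) (j | j) <;> rfl)
    (fun E F h => cls_iso (h.pull φ hφ))

@[simp] lemma Kpull_cls {Z' : Type} [TopologicalSpace Z'] [Op Γ Z'] (φ : C(Z', Z))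
    (hφ : Eqv Γ φ) (E : Bun u Z) : Kpull φ hφ (cls E) = cls (E.pull φ hφ) :=
  Klift_cls _ _ _ E

lemma Kpull_comp {Z' Z'' : Type} [TopologicalSpace Z'] [Op Γ Z'] [TopologicalSpace Z'']
    [Op Γ Z''] (φ : C(Z', Z)) (hφ : Eqv Γ φ) (ψ : C(Z'', Z')) (hψ : Eqv Γ ψ)
    (χ : C(Z'', Z)) (hχ : Eqv Γ χ) (h : ∀ z, χ z = φ (ψ z)) (y : K u Z) :
    Kpull ψ hψ (Kpull φ hφ y) = Kpull χ hχ y := by
  obtain rfl : χ = φ.comp ψ := ContinuousMap.ext h
  revert y
  suffices h : (Kpull (u := u) ψ hψ).comp (Kpull φ hφ) = Kpull (φ.comp ψ) hχ from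
    fun y => DFunLike.congr_fun h y
  refine K_hom_ext fun E => ?_
  rw [AddMonoidHom.comp_apply, Kpull_cls, Kpull_cls, Kpull_cls]
  rfl

lemma Kpull_tw {Z' : Type} [TopologicalSpace Z'] [Op Γ Z'] (φ : C(Z', Z)) (hφ : Eqv Γ φ)
    (x : Γ → ℤ) (y : K u Z) : Kpull φ hφ (Ktw x y) = Ktw x (Kpull φ hφ y) := by
  revert y
  suffices h : (Kpull (u := u) φ hφ).comp (Ktw x) = (AddMonoidHom.comp (Ktw x) (Kpull φ hφ)) from
    fun y => DFunLike.congr_fun h y
  refine K_hom_ext fun E => ?_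
  change Kpull φ hφ (Ktw x (cls E)) = Ktw x (Kpull φ hφ (cls E))
  rw [Ktw_cls, Kpull_cls, Kpull_cls, Ktw_cls]

/-- the class of the trivial line bundle -/
def K1 (u : Γ → Circle) (Z : Type) [TopologicalSpace Z] [Op Γ Z] : K u Z :=
  cls (Bun.triv u Z (fun _ : Unit => (0 : Γ → ℤ)))

lemma Kpull_triv {Z' : Type} [TopologicalSpace Z'] [Op Γ Z'] (φ : C(Z', Z)) (hφ : Eqv Γ φ)
    {ι : Type} [Fintype ι] [DecidableEq ι] (w : ι → Γ → ℤ) :
    Kpull φ hφ (cls (Bun.triv u Z w)) = cls (Bun.triv u Z' w) := by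
  rw [Kpull_cls]
  refine cls_iso (Bun.iso_of_equiv _ _ (Equiv.refl _) ?_ ?_)
  · intro i; rfl
  · intro i j
    exact (congrFun (congrFun (pullM_one φ) i) j).symm

lemma Kpull_one {Z' : Type} [TopologicalSpace Z'] [Op Γ Z'] (φ : C(Z', Z)) (hφ : Eqv Γ φ) :
    Kpull φ hφ (K1 u Z) = K1 u Z' := Kpull_triv φ hφ _

end K

end Pool.Agent.HCF
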