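import Pool.Agent.HCF.KSph

/-! # Descent for the fifth roots of unity (module KDESC) -/

noncomputable section

namespace Pool.Agent.HCF

variable {Γ : Type} [DecidableEq Γ] {u : Γ → Circle} {θ : Γ} [hθ : Fact (u θ ^ 5 = 1)]
  {Z : Type} [TopologicalSpace Z] [Op Γ Z]

/-- the weight with the value at `θ` reset to `0` -/
def KDESC_rs (θ : Γ) (x : Γ → ℤ) : Γ → ℤ := Function.update x θ 0

omit [DecidableEq Γ] hθ in
lemma KDESC_rs_same [DecidableEq Γ] (x : Γ → ℤ) : KDESC_rs θ x θ = 0 := by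
  simp [KDESC_rs]

lemma KDESC_rs_ne {g : Γ} (h : g ≠ θ) (x : Γ → ℤ) : KDESC_rs θ x g = x g := by
  simp [KDESC_rs, h]

lemma KDESC_rs_add (x : Γ → ℤ) : x = KDESC_rs θ x + (x θ) • sw θ := by
  funext g
  by_cases h : g = θ
  · subst h; simp [KDESC_rs, sw]
  · simp [KDESC_rs, sw, h]

/-- the neutral element -/
def KDESC_h1 (u : Γ → Circle) (θ : Γ) : HH u θ := ⟨1, one_pow 5⟩

/-- the inclusion at the neutral element (not equivariant) -/
def KDESC_inc (u : Γ → Circle) (θ : Γ) (Z : Type) [TopologicalSpace Z] : C(Z, Z × HH u θ) :=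
  ⟨fun z => (z, KDESC_h1 u θ), by fun_prop⟩

lemma KDESC_op_ne {g : Γ} (h : g ≠ θ) :
    (op g : C(HH u θ, HH u θ)) (KDESC_h1 u θ) = KDESC_h1 u θ := by
  apply Subtype.ext
  show u g ^ sw θ g * 1 = 1
  simp [sw, h]

lemma KDESC_isW (hZ : ∀ z : Z, (op θ : C(Z, Z)) z = z) {x y : Γ → ℤ} {f : C(Z × HH u θ, ℂ)}
    (hf : IsW u (x - y) f) :
    IsW u (KDESC_rs θ x - KDESC_rs θ y) (f.comp (KDESC_inc u θ Z)) := by
  intro g z
  by_cases hg : g = θ
  · subst hg
    have h1 : ch u (KDESC_rs g x - KDESC_rs g y) g = 1 := by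
      simp [ch, KDESC_rs_same]
    rw [h1, one_mul, hZ]
  · have h1 : ch u (KDESC_rs θ x - KDESC_rs θ y) g = ch u (x - y) g := by
      simp [ch, KDESC_rs_ne hg]
    rw [h1]
    have h2 := hf g (z, KDESC_h1 u θ)
    rw [op_prod, KDESC_op_ne hg] at h2
    exact h2

/-- the restriction of a bundle to the neutral element -/
abbrev KDESC_D (hZ : ∀ z : Z, (op θ : C(Z, Z)) z = z) (E : Bun u (Z × HH u θ)) : Bun u Z where
  ι := E.ι
  w := fun i => KDESC_rs θ (E.w i)
  e := pullM (KDESC_inc u θ Z) E.e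
  idem := by rw [← pullM_mul, E.idem]
  hom := fun i j => KDESC_isW hZ (E.hom i j)

lemma KDESC_iso (hZ : ∀ z : Z, (op θ : C(Z, Z)) z = z) {E F : Bun u (Z × HH u θ)}
    (h : Bun.Iso E F) : Bun.Iso (KDESC_D hZ E) (KDESC_D hZ F) := by
  obtain ⟨a, b, ha, hb, hab, hba⟩ := h
  refine ⟨pullM (KDESC_inc u θ Z) a, pullM (KDESC_inc u θ Z) b,
    fun i j => KDESC_isW hZ (ha i j), fun i j => KDESC_isW hZ (hb i j), ?_, ?_⟩
  · rw [← pullM_mul, hab]
  · rw [← pullM_mul, hba]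

/-- powers of the coordinate function of the fifth roots of unity -/
def KDESC_hp (u : Γ → Circle) (θ : Γ) (m : ℤ) : C(HH u θ, ℂ) :=
  ⟨fun h => ((h.1 ^ m : Circle) : ℂ), by
    have h1 : Continuous fun h : HH u θ => (h.1 ^ m : Circle) :=
      (continuous_zpow (G := Circle) m).comp continuous_subtype_val
    exact continuous_subtype_val.comp h1⟩

omit [DecidableEq Γ] hθ in
lemma KDESC_hp_apply (m : ℤ) (h : HH u θ) : KDESC_hp u θ m h = ((h.1 ^ m : Circle) : ℂ) := rfl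

lemma KDESC_isW_hp (m : ℤ) : IsW u (m • sw θ) (KDESC_hp u θ m) := by
  intro g h
  rw [KDESC_hp_apply, KDESC_hp_apply]
  have h1 : ((op g : C(HH u θ, HH u θ)) h).1 = u g ^ sw θ g * h.1 := rfl
  rw [h1, mul_zpow, Circle.coe_mul, ← zpow_mul]
  simp [ch, mul_comm]

omit [DecidableEq Γ] hθ in
lemma KDESC_hp_add (m n : ℤ) (h : HH u θ) :
    KDESC_hp u θ m h * KDESC_hp u θ n h = KDESC_hp u θ (m + n) h := by
  simp only [KDESC_hp_apply]
  rw [← Circle.coe_mul, ← zpow_add]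

/-- the value at `(z, h)` in terms of the value at `(z, 1)` -/
lemma KDESC_val (hZ : ∀ z : Z, (op θ : C(Z, Z)) z = z)
    (h5 : ∀ h : Circle, h ^ 5 = 1 → ∃ k : ℤ, h = u θ ^ k) {x : Γ → ℤ} {f : C(Z × HH u θ, ℂ)}
    (hf : IsW u x f) (z : Z) (h : HH u θ) :
    f (z, h) = KDESC_hp u θ (x θ) h * f (z, KDESC_h1 u θ) := by
  have key : ∀ (n : ℕ) (h : HH u θ), h.1 = u θ ^ n →
      f (z, h) = KDESC_hp u θ (x θ) h * f (z, KDESC_h1 u θ) := by
    intro n
    induction n with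
    | zero =>
      intro h hh
      have : h = KDESC_h1 u θ := Subtype.ext (by rw [hh, pow_zero]; rfl)
      subst this
      have h1 : KDESC_hp u θ (x θ) (KDESC_h1 u θ) = 1 := by
        rw [KDESC_hp_apply]; simp [KDESC_h1]
      rw [h1, one_mul]
    | succ n ih =>
      intro h hh
      have hn : (u θ ^ n) ^ 5 = 1 := by rw [← pow_mul, mul_comm, pow_mul, hθ.out, one_pow]
      have h1 := ih ⟨u θ ^ n, hn⟩ rfl
      have h2 : (op θ : C(HH u θ, HH u θ)) ⟨u θ ^ n, hn⟩ = h := by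
        apply Subtype.ext
        show u θ ^ sw θ θ * u θ ^ n = h.1
        rw [hh]; simp [sw, pow_succ, mul_comm]
      have h3 := hf θ (z, ⟨u θ ^ n, hn⟩)
      rw [op_prod, h2, hZ, h1] at h3
      have h4 : KDESC_hp u θ (x θ) h = ch u x θ * KDESC_hp u θ (x θ) ⟨u θ ^ n, hn⟩ := by
        rw [KDESC_hp_apply, KDESC_hp_apply, hh, ch, ← Circle.coe_mul, pow_succ, mul_comm,
          mul_zpow]
      rw [h3, h4, mul_assoc]
  obtain ⟨k, hk⟩ := h5 h.1 h.2
  refine key (k % 5).toNat h ?_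
  have h1 : ((k % 5).toNat : ℤ) = k % 5 := Int.toNat_of_nonneg (Int.emod_nonneg k (by norm_num))
  have h2 : u θ ^ (5 : ℤ) = 1 := by
    rw [show (5 : ℤ) = ((5 : ℕ) : ℤ) from rfl, zpow_natCast]; exact hθ.out
  rw [← zpow_natCast, h1, hk]
  conv_lhs => rw [← Int.emod_add_mul_ediv k 5]
  rw [zpow_add, zpow_mul, h2, one_zpow, mul_one]

lemma KDESC_pull_iso (hZ : ∀ z : Z, (op θ : C(Z, Z)) z = z)
    (h5 : ∀ h : Circle, h ^ 5 = 1 → ∃ k : ℤ, h = u θ ^ k) (E : Bun u (Z × HH u θ)) :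
    Bun.Iso ((KDESC_D hZ E).pull (cfst Z (HH u θ)) eqv_fst) E := by
  let p : ℤ → C(Z × HH u θ, ℂ) := fun m => (KDESC_hp u θ m).comp ContinuousMap.snd
  have hp : ∀ m, IsW u (m • sw θ) (p m) := fun m => (KDESC_isW_hp m).comp eqv_snd
  let e' : Matrix E.ι E.ι C(Z × HH u θ, ℂ) :=
    pullM (cfst Z (HH u θ)) (pullM (KDESC_inc u θ Z) E.e)
  have he' : ∀ i j, IsW u (KDESC_rs θ (E.w i) - KDESC_rs θ (E.w j)) (e' i j) := fun i j =>
    (KDESC_isW hZ (E.hom i j)).comp eqv_fst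
  have hidem : e' * e' = e' := by
    show pullM _ _ * pullM _ _ = pullM _ _
    rw [← pullM_mul, ← pullM_mul, E.idem]
  have hidem' : ∀ i j, ∑ k, e' i k * e' k j = e' i j := fun i j => by
    have := congrFun (congrFun hidem i) j
    rwa [Matrix.mul_apply] at this
  refine ⟨fun i j => e' i j * p (-(E.w j θ)), fun i j => p (E.w i θ) * e' i j, ?_, ?_, ?_, ?_⟩
  · intro i j
    refine ((he' i j).mul (hp _)).congr ?_
    conv_rhs => rw [KDESC_rs_add (θ := θ) (E.w j)]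
    rw [neg_smul]
    abel
  · intro i j
    refine ((hp _).mul (he' i j)).congr ?_
    conv_rhs => rw [KDESC_rs_add (θ := θ) (E.w i)]
    abel
  · ext i j z
    rw [Matrix.mul_apply]
    have h1 : ∀ k, e' i k * p (-(E.w k θ)) * (p (E.w k θ) * e' k j) = e' i k * e' k j := by
      intro k
      ext z
      simp only [ContinuousMap.mul_apply]
      have h2 : p (-(E.w k θ)) z * p (E.w k θ) z = 1 := by
        show KDESC_hp u θ _ z.2 * KDESC_hp u θ _ z.2 = 1
        rw [KDESC_hp_add, neg_add_cancel, KDESC_hp_apply]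
        simp
      calc e' i k z * p (-(E.w k θ)) z * (p (E.w k θ) z * e' k j z)
          = e' i k z * (p (-(E.w k θ)) z * p (E.w k θ) z) * e' k j z := by ring
        _ = e' i k z * e' k j z := by rw [h2, mul_one]
    rw [Finset.sum_congr rfl fun k _ => h1 k, hidem']
  · ext i j z
    rw [Matrix.mul_apply]
    have h1 : ∀ k, p (E.w i θ) * e' i k * (e' k j * p (-(E.w j θ)))
        = p (E.w i θ) * (e' i k * e' k j) * p (-(E.w j θ)) := by
      intro k; ring
    rw [Finset.sum_congr rfl fun k _ => h1 k, ← Finset.sum_mul, ← Finset.mul_sum, hidem']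
    obtain ⟨z, h⟩ := z
    rw [KDESC_val hZ h5 (E.hom i j) z h]
    show KDESC_hp u θ _ h * E.e i j (z, KDESC_h1 u θ) * KDESC_hp u θ _ h = _
    rw [mul_right_comm, KDESC_hp_add]
    rfl

/-- If `θ` acts trivially on `Z` and `u θ` is a primitive fifth root of unity, then the pull back
`K(Z) → K(Z × H)` has an additive right inverse (section). -/
theorem exists_descent (hZ : ∀ z : Z, (op θ : C(Z, Z)) z = z)
    (h5 : ∀ h : Circle, h ^ 5 = 1 → ∃ k : ℤ, h = u θ ^ k) :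
    ∃ D : K u (Z × HH u θ) →+ K u Z, ∀ y, Kfst u Z (HH u θ) (D y) = y := by
  let D : K u (Z × HH u θ) →+ K u Z := Klift (fun E => cls (KDESC_D hZ E))
    (fun E F => by
      rw [← cls_sum]
      refine cls_iso (Bun.iso_of_equiv _ _ (Equiv.refl _) ?_ ?_)
      · rintro (i | i) <;> rfl
      · rintro (i | i) (j | j) <;> rfl)
    (fun E F h => cls_iso (KDESC_iso hZ h))
  refine ⟨D, ?_⟩
  suffices h : (Kfst u Z (HH u θ)).comp D = AddMonoidHom.id _ from
    fun y => DFunLike.congr_fun h y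
  refine K_hom_ext fun E => ?_
  have h1 : D (cls E) = cls (KDESC_D hZ E) := Klift_cls _ _ _ E
  rw [AddMonoidHom.comp_apply, h1, AddMonoidHom.id_apply, Kpull_cls]
  exact cls_iso (KDESC_pull_iso hZ h5 E)

end Pool.Agent.HCF
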