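import Pool.Agent.HCF.KRed

/-! # No equivariant map (module KFIN) -/

noncomputable section

namespace Pool.Agent.HCF

/-- the operators: `false` is a primitive `5^l`-th root of unity, `true` a primitive fifth root -/
def ul (l : ℕ) : Bool → Circle :=
  fun b => bif b then Circle.exp (2 * Real.pi / 5) else Circle.exp (2 * Real.pi / 5 ^ l)

/-- the product of the first `k` spheres, level `l` -/
abbrev YY (l k : ℕ) : Type := ∀ j : Fin k, Sph (ul l) (wt (5 ^ (l - 1 - (j : ℕ)))) (5 ^ ((j : ℕ) + 1))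

theorem ul_false_pow (l : ℕ) (k : ℕ) : ul l false ^ k = 1 ↔ 5 ^ l ∣ k := by
  have h1 : IsPrimitiveRoot ((ul l false : Circle) : ℂ) (5 ^ l) := by
    have h2 := Complex.isPrimitiveRoot_exp (5 ^ l) (pow_ne_zero _ (by norm_num))
    have h3 : ((ul l false : Circle) : ℂ) =
        Complex.exp (2 * Real.pi * Complex.I / ((5 ^ l : ℕ) : ℂ)) := by
      change ((Circle.exp (2 * Real.pi / 5 ^ l) : Circle) : ℂ) = _
      rw [Circle.coe_exp]
      congr 1
      push_cast
      ring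
    rw [h3]
    exact h2
  rw [← h1.pow_eq_one_iff_dvd, ← Circle.coe_pow, Circle.coe_eq_one]

lemma kfin_mul_apply {M : Type*} [AddCommGroup M] (f g : AddMonoid.End M) (y : M) :
    (f * g) y = f (g y) := rfl

lemma kfin_one_sub_apply {M : Type*} [AddCommGroup M] (f : AddMonoid.End M) (y : M) :
    (1 - f) y = y - f y := rfl

lemma kfin_pow_succ_apply {M : Type*} [AddCommGroup M] (f : AddMonoid.End M) (m : ℕ) (y : M) :
    ((1 - f) ^ (m + 1)) y = ((1 - f) ^ m) y - f (((1 - f) ^ m) y) := by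
  rw [pow_succ', kfin_mul_apply, kfin_one_sub_apply]

lemma kfin_pull_pow {Γ : Type} {u : Γ → Circle} {Z Z' : Type} [TopologicalSpace Z] [Op Γ Z]
    [TopologicalSpace Z'] [Op Γ Z'] (φ : C(Z', Z)) (hφ : Eqv Γ φ) (x : Γ → ℤ) (m : ℕ)
    (y : K u Z) : Kpull φ hφ (((1 - Ktw x) ^ m : AddMonoid.End (K u Z)) y) =
      ((1 - Ktw x) ^ m : AddMonoid.End (K u Z')) (Kpull φ hφ y) := by
  induction m with
  | zero => rfl
  | succ m ih =>
    rw [kfin_pow_succ_apply, kfin_pow_succ_apply, map_sub, Kpull_tw, ih]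

/-- divisibility is preserved by pull back -/
lemma kfin_div {u : Bool → Circle} {Z Z' : Type} [TopologicalSpace Z] [Op Bool Z]
    [TopologicalSpace Z'] [Op Bool Z'] (φ : C(Z', Z)) (hφ : Eqv Bool φ) (m : ℕ)
    (h : ∃ z : K u Z, ((1 - Ktw (wt 1)) ^ m : AddMonoid.End (K u Z)) (K1 u Z) = (5 : ℤ) • z) :
    ∃ z : K u Z', ((1 - Ktw (wt 1)) ^ m : AddMonoid.End (K u Z')) (K1 u Z') = (5 : ℤ) • z := by
  obtain ⟨z, hz⟩ := h
  refine ⟨Kpull φ hφ z, ?_⟩
  rw [← map_zsmul, ← hz, kfin_pull_pow, Kpull_one]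

lemma kfin_sph_true (u : Bool → Circle) (c : ℤ) (n : ℕ) (v : Sph u (wt c) n) :
    (op true : C(Sph u (wt c) n, Sph u (wt c) n)) v = v := by
  apply Subtype.ext
  change ch u (wt c) true • v.1 = v.1
  have : ch u (wt c) true = 1 := by simp [ch, wt]
  rw [this, one_smul]

lemma kfin_YY_true (l k : ℕ) (y : YY l k) : (op true : C(YY l k, YY l k)) y = y := by
  funext j
  exact kfin_sph_true _ _ _ _

/-- the map adding the last sphere -/
def kfinSnoc (l k : ℕ) : C(YY l k × Sph (ul l) (wt (5 ^ (l - 1 - k))) (5 ^ (k + 1)),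
    YY l (k + 1)) where
  toFun p := Fin.snoc (α := fun j : Fin (k + 1) =>
    Sph (ul l) (wt (5 ^ (l - 1 - (j : ℕ)))) (5 ^ ((j : ℕ) + 1))) p.1 p.2
  continuous_toFun := by
    refine continuous_pi fun j => ?_
    refine Fin.lastCases ?_ (fun i => ?_) j
    · simp only [Fin.snoc_last]
      exact continuous_snd
    · simp only [Fin.snoc_castSucc]
      exact (continuous_apply i).comp continuous_fst

lemma kfin_snoc_eqv (l k : ℕ) : Eqv Bool (kfinSnoc l k) := by
  intro g p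
  funext j
  refine Fin.lastCases ?_ (fun i => ?_) j
  · change Fin.snoc (α := fun j : Fin (k + 1) =>
      Sph (ul l) (wt (5 ^ (l - 1 - (j : ℕ)))) (5 ^ ((j : ℕ) + 1))) _ _ (Fin.last k) =
      op g (Fin.snoc (α := fun j : Fin (k + 1) =>
      Sph (ul l) (wt (5 ^ (l - 1 - (j : ℕ)))) (5 ^ ((j : ℕ) + 1))) _ _ (Fin.last k))
    rw [Fin.snoc_last, Fin.snoc_last]
    rfl
  · change Fin.snoc (α := fun j : Fin (k + 1) =>
      Sph (ul l) (wt (5 ^ (l - 1 - (j : ℕ)))) (5 ^ ((j : ℕ) + 1))) _ _ (Fin.castSucc i) =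
      op g (Fin.snoc (α := fun j : Fin (k + 1) =>
      Sph (ul l) (wt (5 ^ (l - 1 - (j : ℕ)))) (5 ^ ((j : ℕ) + 1))) _ _ (Fin.castSucc i))
    rw [Fin.snoc_castSucc, Fin.snoc_castSucc]
    rfl

/-- `(1 - t)^(5^l - 1)` is not divisible by `5` on the product of the first `k ≤ l` spheres. -/
theorem YY_not_div (l k : ℕ) (hk : k ≤ l) :
    ¬ ∃ z : K (ul l) (YY l k),
      ((1 - Ktw (wt 1)) ^ (5 ^ l - 1) : AddMonoid.End (K (ul l) (YY l k))) (K1 (ul l) (YY l k)) =
        (5 : ℤ) • z := by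
  induction k with
  | zero =>
    intro h
    refine point_not_div (ul l) (5 ^ l) (Nat.one_le_pow _ _ (by norm_num)) (ul_false_pow l) ?_
    exact kfin_div (⟨fun _ j => j.elim0, continuous_const⟩ : C(PUnit.{1}, YY l 0))
      (fun g z => by funext j; exact j.elim0) _ h
  | succ k ih =>
    intro h
    refine ih (by omega) ?_
    refine reduction (ul l) ⟨5 ^ l, by positivity, (ul_false_pow l _).2 dvd_rfl⟩ rfl
      (kfin_YY_true l k) (5 ^ (l - 1 - k)) (k + 1) ?_ _ (kfin_div (kfinSnoc l k)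
        (kfin_snoc_eqv l k) _ h)
    rw [show ((5 : ℤ) ^ (l - 1 - k)) = ((5 ^ (l - 1 - k) : ℕ) : ℤ) by push_cast; rfl, zpow_natCast,
      ← pow_mul, ← pow_add, ul_false_pow, show l - 1 - k + (k + 1) = l by omega]

/-- weights of the source: `1, V`-square -/
def wA (l : ℕ) : Fin 2 → ℤ := ![5 ^ (l - 1), 5 ^ (l - 1)]
/-- weights of the target -/
def wB (l : ℕ) : Fin 2 → ℤ := ![0, 2 * 5 ^ (l - 1)]

lemma kfin_five {M : Type*} [AddCommGroup M] (r : AddMonoid.End M) (y : M) :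
    (5 * r) y = (5 : ℤ) • r y := by
  have h1 : (5 : AddMonoid.End M) * r = ((5 : ℕ) : AddMonoid.End M) * r := by norm_cast
  rw [h1, kfin_mul_apply, AddMonoid.End.natCast_apply]
  rw [← natCast_zsmul]
  rfl

lemma kfin_add_apply {M : Type*} [AddCommGroup M] (f g : AddMonoid.End M) (y : M) :
    (f + g) y = f y + g y := rfl

lemma kfin_inv_weight (c : Circle) (wa wb : Fin 2 → ℤ) (M M' : Matrix (Fin 2) (Fin 2) ℂ)
    (hdet : M.det ≠ 0)
    (h : ∀ i j, M' i j = ((c ^ (wa i - wb j) : Circle) : ℂ) * M i j) (i j : Fin 2) :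
    M'⁻¹ i j = ((c ^ (wb i - wa j) : Circle) : ℂ) * M⁻¹ i j := by
  have hc : ∀ n : ℤ, ((c ^ n : Circle) : ℂ) * ((c ^ (-n) : Circle) : ℂ) = 1 := by
    intro n
    rw [← Circle.coe_mul, ← zpow_add, add_neg_cancel, zpow_zero, Circle.coe_one]
  have hMu : IsUnit M.det := isUnit_iff_ne_zero.2 hdet
  have hM' : M' = Matrix.diagonal (fun i => ((c ^ wa i : Circle) : ℂ)) * M *
      Matrix.diagonal (fun j => ((c ^ (-wb j) : Circle) : ℂ)) := by
    ext i j
    rw [Matrix.mul_diagonal, Matrix.diagonal_mul, h, sub_eq_add_neg, zpow_add, Circle.coe_mul]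
    ring
  have hinv : M'⁻¹ = Matrix.diagonal (fun i => ((c ^ wb i : Circle) : ℂ)) * M⁻¹ *
      Matrix.diagonal (fun j => ((c ^ (-wa j) : Circle) : ℂ)) := by
    apply Matrix.inv_eq_right_inv
    rw [hM']
    have h1 : Matrix.diagonal (fun j => ((c ^ (-wb j) : Circle) : ℂ)) *
        Matrix.diagonal (fun i => ((c ^ wb i : Circle) : ℂ)) = 1 := by
      rw [Matrix.diagonal_mul_diagonal, ← Matrix.diagonal_one]
      congr 1
      funext i
      rw [mul_comm]
      exact hc _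
    have h2 : Matrix.diagonal (fun i => ((c ^ wa i : Circle) : ℂ)) *
        Matrix.diagonal (fun j => ((c ^ (-wa j) : Circle) : ℂ)) = 1 := by
      rw [Matrix.diagonal_mul_diagonal, ← Matrix.diagonal_one]
      congr 1
      funext i
      exact hc _
    calc _ = Matrix.diagonal (fun i => ((c ^ wa i : Circle) : ℂ)) * (M *
          (Matrix.diagonal (fun j => ((c ^ (-wb j) : Circle) : ℂ)) *
          Matrix.diagonal (fun i => ((c ^ wb i : Circle) : ℂ))) * M⁻¹) *
          Matrix.diagonal (fun j => ((c ^ (-wa j) : Circle) : ℂ)) := by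
            simp only [Matrix.mul_assoc]
      _ = 1 := by
            rw [h1, Matrix.mul_one, Matrix.mul_nonsing_inv _ hMu, Matrix.mul_one, h2]
  rw [hinv, Matrix.mul_diagonal, Matrix.diagonal_mul, sub_eq_add_neg, zpow_add, Circle.coe_mul]
  ring

/-- There is no invertible matrix function on the product of the spheres with the weights of
`L + L → 1 + L^2`. -/
theorem no_equivariant (l : ℕ) (hl : 1 ≤ l) (A : C(YY l l, Matrix (Fin 2) (Fin 2) ℂ))
    (hdet : ∀ y, (A y).det ≠ 0)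
    (hA : ∀ (y : YY l l) (i j : Fin 2), A (op false y) i j =
      ((ul l false ^ (wA l i - wB l j) : Circle) : ℂ) * A y i j) : False := by
  -- the isomorphism
  let a : Matrix (Fin 2) (Fin 2) C(YY l l, ℂ) := fun i j =>
    ⟨fun y => A y i j, A.continuous.matrix_elem i j⟩
  have hinv : ∀ y, (A y)⁻¹ = (A y).det⁻¹ • (A y).adjugate := fun y => by
    rw [Matrix.inv_def, Ring.inverse_eq_inv']
  let b : Matrix (Fin 2) (Fin 2) C(YY l l, ℂ) := fun i j =>
    ⟨fun y => (A y)⁻¹ i j, by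
      simp only [hinv, Matrix.smul_apply, smul_eq_mul]
      exact (A.continuous.matrix_det.inv₀ hdet).mul (A.continuous.matrix_adjugate.matrix_elem i j)⟩
  have hone : ∀ (i j : Fin 2) (y : YY l l),
      (1 : Matrix (Fin 2) (Fin 2) C(YY l l, ℂ)) i j y = (1 : Matrix (Fin 2) (Fin 2) ℂ) i j := by
    intro i j y
    by_cases hij : i = j
    · subst hij; simp
    · simp [Matrix.one_apply_ne hij]
  have hab : a * b = 1 := by
    ext i j y
    rw [hone, ← Matrix.mul_nonsing_inv (A y) (isUnit_iff_ne_zero.2 (hdet y)), Matrix.mul_apply,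
      Matrix.mul_apply, ContinuousMap.sum_apply]
    rfl
  have hba : b * a = 1 := by
    ext i j y
    rw [hone, ← Matrix.nonsing_inv_mul (A y) (isUnit_iff_ne_zero.2 (hdet y)), Matrix.mul_apply,
      Matrix.mul_apply, ContinuousMap.sum_apply]
    rfl
  have hwt : ∀ p q : ℤ, ch (ul l) (wt p - wt q) false = ((ul l false ^ (p - q) : Circle) : ℂ) :=
    fun p q => rfl
  have hwt' : ∀ p q : ℤ, ch (ul l) (wt p - wt q) true = 1 := by
    intro p q
    simp [ch, wt]
  have haW : HomM (ul l) (fun i => wt (wA l i)) (fun i => wt (wB l i)) a := by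
    intro i j g y
    cases g
    · rw [hwt]; exact hA y i j
    · rw [hwt', kfin_YY_true, one_mul]
  have hbW : HomM (ul l) (fun i => wt (wB l i)) (fun i => wt (wA l i)) b := by
    intro i j g y
    cases g
    · rw [hwt]
      exact kfin_inv_weight _ (wA l) (wB l) (A y) (A (op false y)) (hdet y) (hA y) i j
    · rw [hwt', kfin_YY_true, one_mul]
  have hcls : cls (Bun.triv (ul l) (YY l l) (fun i => wt (wA l i))) =
      cls (Bun.triv (ul l) (YY l l) (fun i => wt (wB l i))) :=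
    cls_iso ⟨a, b, haW, hbW, hab, hba⟩
  rw [cls_triv, cls_triv, Fin.sum_univ_two, Fin.sum_univ_two] at hcls
  set T : AddMonoid.End (K (ul l) (YY l l)) := Ktw (wt 1) with hT
  have hS : ∀ n : ℕ, (Ktw (wt (n : ℤ)) : AddMonoid.End (K (ul l) (YY l l))) = T ^ n := by
    intro n
    rw [hT, ← Ktw_nsmul]
    congr 1
    funext c
    cases c <;> simp [wt]
  have hA0 : wt (wA l 0) = wt ((5 ^ (l - 1) : ℕ) : ℤ) := by simp [wA]
  have hA1 : wt (wA l 1) = wt ((5 ^ (l - 1) : ℕ) : ℤ) := by simp [wA]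
  have hB0 : wt (wB l 0) = wt ((0 : ℕ) : ℤ) := by simp [wB]
  have hB1 : wt (wB l 1) = wt ((2 * 5 ^ (l - 1) : ℕ) : ℤ) := by simp [wB]
  rw [hA0, hA1, hB0, hB1, hS, hS, hS, pow_zero] at hcls
  set k1 := K1 (ul l) (YY l l) with hk1
  obtain ⟨r, hr, -⟩ := one_sub_pow_five_sq T (l - 1)
  have hsq : (1 - T ^ (5 ^ (l - 1))) ^ 2 = 1 - T ^ (5 ^ (l - 1)) - T ^ (5 ^ (l - 1)) +
      T ^ (2 * 5 ^ (l - 1)) := by
    rw [mul_comm 2, pow_mul, sq, sub_mul, one_mul, mul_sub, mul_one, ← sq]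
    abel
  have hz : ((1 - T ^ (5 ^ (l - 1))) ^ 2 : AddMonoid.End (K (ul l) (YY l l))) k1 = 0 := by
    rw [hsq]
    change k1 - (T ^ (5 ^ (l - 1))) k1 - (T ^ (5 ^ (l - 1))) k1 + (T ^ (2 * 5 ^ (l - 1))) k1 = 0
    have h1 : (T ^ (5 ^ (l - 1))) k1 + (T ^ (5 ^ (l - 1))) k1 =
      k1 + (T ^ (2 * 5 ^ (l - 1))) k1 := hcls
    rw [sub_sub, h1]
    abel
  have h5 : 5 ^ l = 5 * 5 ^ (l - 1) := by
    rw [← pow_succ']
    congr 1
    omega
  have hpos : 1 ≤ 5 ^ (l - 1) := Nat.one_le_pow _ _ (by norm_num)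
  refine YY_not_div l l le_rfl ⟨((1 - T) ^ (5 ^ l - 1 - 2 * 5 ^ (l - 1)) :
    AddMonoid.End (K (ul l) (YY l l))) (r k1), ?_⟩
  have he : 5 ^ l - 1 = (5 ^ l - 1 - 2 * 5 ^ (l - 1)) + 2 * 5 ^ (l - 1) := by omega
  have hpow : ((1 - T) ^ (5 ^ l - 1) : AddMonoid.End (K (ul l) (YY l l))) =
      (1 - T) ^ (5 ^ l - 1 - 2 * 5 ^ (l - 1)) * (1 - T) ^ (2 * 5 ^ (l - 1)) := by
    rw [← pow_add, ← he]
  rw [← hT, hpow, kfin_mul_apply, hr, kfin_add_apply, hz, zero_add, kfin_five, map_zsmul]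

end Pool.Agent.HCF
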