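import Pool.Agent.HCF.KSph

/-! # Fourier coefficients in the circle variable (module KFOU) -/

open Filter Topology

noncomputable section

namespace Pool.Agent.HCF

variable {Γ : Type} {u : Γ → Circle} {x : Γ → ℤ} {Z Z' : Type} [TopologicalSpace Z]
  [TopologicalSpace Z']

/-- the value of the `k`-th Fourier coefficient -/
def fcVal (k : ℤ) (f : Circle → ℂ) : ℂ :=
  ∫ t in (0 : ℝ)..1, f (Circle.exp (2 * Real.pi * t)) *
    ((Circle.exp (2 * Real.pi * t) ^ (-k) : Circle) : ℂ)

lemma kfou_cont_int (k : ℤ) {f : Circle → ℂ} (hf : Continuous f) :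
    Continuous fun t : ℝ => f (Circle.exp (2 * Real.pi * t)) *
      ((Circle.exp (2 * Real.pi * t) ^ (-k) : Circle) : ℂ) := by
  refine Continuous.mul (by fun_prop) ?_
  have h : Continuous fun t : ℝ => (Circle.exp (2 * Real.pi * t) ^ (-k) : Circle) := by fun_prop
  exact continuous_subtype_val.comp h

lemma kfou_ii (k : ℤ) {f : Circle → ℂ} (hf : Continuous f) (a b : ℝ) :
    IntervalIntegrable (fun t : ℝ => f (Circle.exp (2 * Real.pi * t)) *
      ((Circle.exp (2 * Real.pi * t) ^ (-k) : Circle) : ℂ)) MeasureTheory.volume a b :=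
  (kfou_cont_int k hf).intervalIntegrable a b

lemma kfou_fcVal_add (k : ℤ) {f g : Circle → ℂ} (hf : Continuous f) (hg : Continuous g) :
    fcVal k (fun w => f w + g w) = fcVal k f + fcVal k g := by
  unfold fcVal
  rw [← intervalIntegral.integral_add (kfou_ii k hf 0 1) (kfou_ii k hg 0 1)]
  congr 1
  ext t
  ring

lemma kfou_fcVal_sub (k : ℤ) {f g : Circle → ℂ} (hf : Continuous f) (hg : Continuous g) :
    fcVal k (fun w => f w - g w) = fcVal k f - fcVal k g := by
  unfold fcVal
  rw [← intervalIntegral.integral_sub (kfou_ii k hf 0 1) (kfou_ii k hg 0 1)]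
  congr 1
  ext t
  ring

lemma kfou_fcVal_const_mul (k : ℤ) (c : ℂ) (f : Circle → ℂ) :
    fcVal k (fun w => c * f w) = c * fcVal k f := by
  unfold fcVal
  rw [← intervalIntegral.integral_const_mul]
  congr 1
  ext t
  ring

lemma kfou_norm_le (k : ℤ) (f : Circle → ℂ) (C : ℝ) (hC : ∀ w, ‖f w‖ ≤ C) :
    ‖fcVal k f‖ ≤ C := by
  unfold fcVal
  have h := intervalIntegral.norm_integral_le_of_norm_le_const (a := (0 : ℝ)) (b := 1) (C := C)
    (f := fun t : ℝ => f (Circle.exp (2 * Real.pi * t)) *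
      ((Circle.exp (2 * Real.pi * t) ^ (-k) : Circle) : ℂ)) (fun t _ => by
        rw [norm_mul, Circle.norm_coe, mul_one]
        exact hC _)
  simpa using h

/-- the `k`-th Fourier coefficient in the circle variable is continuous in the parameter -/
theorem continuous_fcVal (k : ℤ) (f : C(Z × Cir u x, ℂ)) :
    Continuous fun z => fcVal k fun w => f (z, w) := by
  have h1 : Continuous fun g : C(Circle, ℂ) => fcVal k g := by
    rw [Metric.continuous_iff]
    intro g ε hε
    refine ⟨ε / 2, by positivity, fun h hh => ?_⟩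
    rw [dist_eq_norm, ← kfou_fcVal_sub k h.continuous g.continuous]
    refine lt_of_le_of_lt (kfou_norm_le k _ (ε / 2) fun w => ?_) (by linarith)
    rw [← dist_eq_norm]
    exact (ContinuousMap.dist_apply_le_dist w).trans hh.le
  exact h1.comp (ContinuousMap.curry (X := Z) (Y := Circle) (Z := ℂ) f).continuous

/-- the `k`-th Fourier coefficient of a function on `Z × S^1` -/
def fc (k : ℤ) (f : C(Z × Cir u x, ℂ)) : C(Z, ℂ) :=
  ⟨fun z => fcVal k fun w => f (z, w), continuous_fcVal k f⟩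

/-- the coordinate function on `Z × S^1` -/
def zz (u : Γ → Circle) (x : Γ → ℤ) (Z : Type) [TopologicalSpace Z] : C(Z × Cir u x, ℂ) :=
  (zc u x).comp ContinuousMap.snd

lemma kfou_cont_slice (f : C(Z × Cir u x, ℂ)) (z : Z) :
    Continuous (fun w : Circle => (f (z, w) : ℂ)) := by
  have h : Continuous (fun w : Cir u x => f (z, w)) := by fun_prop
  exact h

theorem fc_add (k : ℤ) (f g : C(Z × Cir u x, ℂ)) : fc k (f + g) = fc k f + fc k g := by
  ext z
  exact kfou_fcVal_add k (kfou_cont_slice f z) (kfou_cont_slice g z)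

theorem fc_sub (k : ℤ) (f g : C(Z × Cir u x, ℂ)) : fc k (f - g) = fc k f - fc k g := by
  ext z
  exact kfou_fcVal_sub k (kfou_cont_slice f z) (kfou_cont_slice g z)

lemma kfou_fc_zero (k : ℤ) : fc k (0 : C(Z × Cir u x, ℂ)) = 0 := by
  have h := fc_sub k (0 : C(Z × Cir u x, ℂ)) 0
  rwa [sub_self, sub_self] at h

theorem fc_sum {α : Type} (s : Finset α) (k : ℤ) (f : α → C(Z × Cir u x, ℂ)) :
    fc k (∑ i ∈ s, f i) = ∑ i ∈ s, fc k (f i) := by
  classical
  induction s using Finset.induction_on with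
  | empty => simp only [Finset.sum_empty]; exact kfou_fc_zero k
  | insert a s ha ih => rw [Finset.sum_insert ha, Finset.sum_insert ha, fc_add, ih]

theorem fc_mul_left (k : ℤ) (g : C(Z, ℂ)) (f : C(Z × Cir u x, ℂ)) :
    fc k (g.comp ContinuousMap.fst * f) = g * fc k f := by
  ext z
  exact kfou_fcVal_const_mul k (g z) (fun w => f (z, w))

theorem fc_zz_mul (k : ℤ) (f : C(Z × Cir u x, ℂ)) :
    fc k (zz u x Z * f) = fc (k - 1) f := by
  ext z
  change fcVal k (fun w => (w : ℂ) * f (z, w)) = fcVal (k - 1) (fun w => f (z, w))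
  unfold fcVal
  congr 1
  ext t
  have h : (Circle.exp (2 * Real.pi * t) ^ (-(k - 1)) : Circle) =
      Circle.exp (2 * Real.pi * t) * Circle.exp (2 * Real.pi * t) ^ (-k) := by
    rw [neg_sub, sub_eq_add_neg, zpow_add, zpow_one]
  rw [h, Circle.coe_mul]
  ring

lemma kfou_fcVal_one (k : ℤ) : fcVal k (fun _ => 1) = if k = 0 then 1 else 0 := by
  unfold fcVal
  split_ifs with hk
  · subst hk
    simp
  · have hk' : (k : ℂ) ≠ 0 := by exact_mod_cast hk
    have hc : (-(k : ℂ) * (2 * Real.pi * Complex.I)) ≠ 0 := by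
      refine mul_ne_zero (neg_ne_zero.2 hk') ?_
      have := Real.pi_ne_zero
      simp [this]
    have h1 : ∀ t : ℝ, (1 : ℂ) * ((Circle.exp (2 * Real.pi * t) ^ (-k) : Circle) : ℂ) =
        Complex.exp ((-(k : ℂ) * (2 * Real.pi * Complex.I)) * t) := by
      intro t
      rw [one_mul, Circle.coe_zpow, Circle.coe_exp, ← Complex.exp_int_mul]
      congr 1
      push_cast
      ring
    simp_rw [h1]
    rw [integral_exp_mul_complex hc]
    have h2 : Complex.exp ((-(k : ℂ) * (2 * Real.pi * Complex.I)) * ((1 : ℝ) : ℂ)) = 1 := by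
      rw [Complex.exp_eq_one_iff]
      exact ⟨-k, by push_cast; ring⟩
    rw [h2]
    simp

theorem fc_one (k : ℤ) : fc k (1 : C(Z × Cir u x, ℂ)) = if k = 0 then 1 else 0 := by
  ext z
  have h := kfou_fcVal_one k
  change fcVal k (fun _ => 1) = _
  rw [h]
  split_ifs <;> rfl

/-- coefficients of pulled back functions -/
theorem fc_fst (k : ℤ) (g : C(Z, ℂ)) :
    fc k (g.comp ContinuousMap.fst : C(Z × Cir u x, ℂ)) = if k = 0 then g else 0 := by
  have h := fc_mul_left (u := u) (x := x) k g 1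
  rw [mul_one, fc_one] at h
  rw [h]
  split_ifs
  · rw [mul_one]
  · rw [mul_zero]

lemma kfou_rl (f : Circle → ℂ) :
    Tendsto (fun r : ℝ => ∫ v : ℝ, Real.fourierChar (-(v * r)) •
      (Set.indicator (Set.Ioc (0 : ℝ) 1) (fun t : ℝ => f (Circle.exp (2 * Real.pi * t))) v))
      (cocompact ℝ) (𝓝 0) :=
  Real.tendsto_integral_exp_smul_cocompact _

lemma kfou_fcVal_eq (k : ℤ) (f : Circle → ℂ) :
    fcVal k f = ∫ v : ℝ, Real.fourierChar (-(v * (k : ℝ))) •
      (Set.indicator (Set.Ioc (0 : ℝ) 1) (fun t : ℝ => f (Circle.exp (2 * Real.pi * t))) v) := by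
  unfold fcVal
  rw [intervalIntegral.integral_of_le zero_le_one, ← MeasureTheory.integral_indicator
    measurableSet_Ioc]
  congr 1
  ext t
  by_cases ht : t ∈ Set.Ioc (0 : ℝ) 1
  · rw [Set.indicator_of_mem ht, Set.indicator_of_mem ht, Circle.smul_def, smul_eq_mul, mul_comm]
    congr 1
    rw [Circle.coe_zpow, Circle.coe_exp, ← Complex.exp_int_mul, Real.fourierChar_apply]
    congr 1
    push_cast
    ring
  · rw [Set.indicator_of_notMem ht, Set.indicator_of_notMem ht, smul_zero]

theorem fc_tendsto_top (f : C(Z × Cir u x, ℂ)) (z : Z) :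
    Tendsto (fun n : ℕ => fc (n : ℤ) f z) atTop (𝓝 0) := by
  have h1 := kfou_rl (fun w => f (z, w))
  have h2 : Tendsto (fun n : ℕ => ((n : ℤ) : ℝ)) atTop (cocompact ℝ) := by
    have : Tendsto (fun n : ℕ => (n : ℝ)) atTop atTop := tendsto_natCast_atTop_atTop
    simpa using this.mono_right atTop_le_cocompact
  have h3 := h1.comp h2
  refine h3.congr fun n => ?_
  exact (kfou_fcVal_eq (n : ℤ) (fun w => f (z, w))).symm

theorem fc_tendsto_bot (f : C(Z × Cir u x, ℂ)) (z : Z) :
    Tendsto (fun n : ℕ => fc (-(n : ℤ)) f z) atTop (𝓝 0) := by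
  have h1 := kfou_rl (fun w => f (z, w))
  have h2 : Tendsto (fun n : ℕ => ((-(n : ℤ) : ℤ) : ℝ)) atTop (cocompact ℝ) := by
    have : Tendsto (fun n : ℕ => -(n : ℝ)) atTop atBot :=
      tendsto_neg_atTop_atBot.comp tendsto_natCast_atTop_atTop
    simpa using this.mono_right atBot_le_cocompact
  have h3 := h1.comp h2
  refine h3.congr fun n => ?_
  exact (kfou_fcVal_eq (-(n : ℤ)) (fun w => f (z, w))).symm

/-- rotation invariance -/
lemma kfou_rot (k : ℤ) (f : Circle → ℂ) (c : Circle) :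
    fcVal k (fun w => f (c * w)) = ((c ^ k : Circle) : ℂ) * fcVal k f := by
  obtain ⟨s, hs⟩ : ∃ s : ℝ, c = Circle.exp (2 * Real.pi * s) := by
    refine ⟨Complex.arg c / (2 * Real.pi), ?_⟩
    rw [mul_div_cancel₀ _ (by have := Real.pi_ne_zero; simp [this]), Circle.exp_arg]
  have hper : Function.Periodic (fun t : ℝ => f (Circle.exp (2 * Real.pi * t)) *
      ((Circle.exp (2 * Real.pi * t) ^ (-k) : Circle) : ℂ)) 1 := by
    intro t
    have : Circle.exp (2 * Real.pi * (t + 1)) = Circle.exp (2 * Real.pi * t) := by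
      rw [mul_add, mul_one]
      exact Circle.periodic_exp _
    simp only [this]
  have h1 : fcVal k f = ∫ t in (s : ℝ)..(s + 1), f (Circle.exp (2 * Real.pi * t)) *
      ((Circle.exp (2 * Real.pi * t) ^ (-k) : Circle) : ℂ) := by
    have := hper.intervalIntegral_add_eq 0 s
    rw [zero_add] at this
    exact this
  have h2 : (∫ t in (s : ℝ)..(s + 1), f (Circle.exp (2 * Real.pi * t)) *
      ((Circle.exp (2 * Real.pi * t) ^ (-k) : Circle) : ℂ)) =
      ∫ t in (0 : ℝ)..1, f (Circle.exp (2 * Real.pi * (t + s))) *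
      ((Circle.exp (2 * Real.pi * (t + s)) ^ (-k) : Circle) : ℂ) := by
    rw [intervalIntegral.integral_comp_add_right (fun t : ℝ => f (Circle.exp (2 * Real.pi * t)) *
      ((Circle.exp (2 * Real.pi * t) ^ (-k) : Circle) : ℂ)) s, zero_add, add_comm 1 s]
  rw [h1, h2, ← intervalIntegral.integral_const_mul]
  unfold fcVal
  congr 1
  ext t
  have h3 : Circle.exp (2 * Real.pi * (t + s)) = c * Circle.exp (2 * Real.pi * t) := by
    rw [hs, ← Circle.exp_add]
    congr 1
    ring
  rw [h3, mul_zpow, Circle.coe_mul]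
  have h4 : ((c ^ k : Circle) : ℂ) * ((c ^ (-k) : Circle) : ℂ) = 1 := by
    rw [← Circle.coe_mul, ← zpow_add, add_neg_cancel, zpow_zero, Circle.coe_one]
  linear_combination (-(f (c * Circle.exp (2 * Real.pi * t)) *
    ((Circle.exp (2 * Real.pi * t) ^ (-k) : Circle) : ℂ))) * h4

theorem fc_isW [Op Γ Z] (k : ℤ) (y : Γ → ℤ) (f : C(Z × Cir u x, ℂ)) (hf : IsW u y f) :
    IsW u (y - k • x) (fc k f) := by
  intro g z
  change fcVal k (fun w => f (op g z, w)) = ch u (y - k • x) g * fcVal k (fun w => f (z, w))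
  have h1 := kfou_rot k (fun w => f (op g z, w)) (u g ^ x g)
  have h2 : (fun w : Circle => (fun w => f (op g z, w)) (u g ^ x g * w)) =
      fun w : Circle => ch u y g * f (z, w) := by
    ext w
    exact hf g (z, w)
  rw [h2, kfou_fcVal_const_mul] at h1
  have h3 : ch u (y - k • x) g * (((u g ^ x g) ^ k : Circle) : ℂ) = ch u y g := by
    rw [sub_eq_add_neg, ch_add, ch, mul_assoc]
    unfold ch
    rw [← Circle.coe_mul, ← zpow_mul, ← zpow_add]
    have : (-(k • x)) g + x g * k = 0 := by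
      simp only [Pi.neg_apply, Pi.smul_apply, smul_eq_mul]
      ring
    rw [this, zpow_zero, Circle.coe_one, mul_one]
  have h4 : (((u g ^ x g) ^ k : Circle) : ℂ) ≠ 0 := Circle.coe_ne_zero _
  apply mul_left_cancel₀ h4
  rw [← h1, ← h3]
  ring

theorem fc_comp (k : ℤ) (φ : C(Z', Z)) (f : C(Z × Cir u x, ℂ)) :
    (fc k f).comp φ = fc k (f.comp (φ.prodMap (ContinuousMap.id (Cir u x)))) := by
  ext z
  rfl

end Pool.Agent.HCF
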