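import Pool.Agent.HCF.KSph

/-! # Isotypic components (module KISOT) -/

noncomputable section

namespace Pool.Agent.HCF

variable {Γ : Type} {u : Γ → Circle} {θ : Γ} {Z : Type} [TopologicalSpace Z] [Op Γ Z]

section Kisot

open Classical in
/-- the diagonal projection to the indices whose weight gives `c` at `θ` -/
def kisotD (u : Γ → Circle) (θ : Γ) (Z : Type) [TopologicalSpace Z] {ι : Type}
    [DecidableEq ι] (c : Circle) (w : ι → Γ → ℤ) : Matrix ι ι C(Z, ℂ) :=
  Matrix.diagonal fun i => if u θ ^ w i θ = c then 1 else 0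

lemma kisotD_hom {ι : Type} [DecidableEq ι] (c : Circle) (w : ι → Γ → ℤ) :
    HomM u w w (kisotD u θ Z c w) := by
  intro i j
  by_cases h : i = j
  · subst h
    rw [kisotD, Matrix.diagonal_apply_eq, sub_self]
    split_ifs
    · exact IsW.one
    · exact IsW.zero
  · rw [kisotD, Matrix.diagonal_apply_ne _ h]; exact IsW.zero

omit [Op Γ Z] in
lemma kisotD_idem {ι : Type} [Fintype ι] [DecidableEq ι] (c : Circle) (w : ι → Γ → ℤ) :
    kisotD u θ Z c w * kisotD u θ Z c w = kisotD u θ Z c w := by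
  rw [kisotD, Matrix.diagonal_mul_diagonal]
  congr 1
  funext i
  split_ifs <;> simp

lemma kisot_zero (hZ : ∀ z : Z, (op θ : C(Z, Z)) z = z) {x : Γ → ℤ} {f : C(Z, ℂ)}
    (hf : IsW u x f) (hx : u θ ^ x θ ≠ 1) : f = 0 := by
  ext z
  have h1 := hf θ z
  rw [hZ] at h1
  by_contra h0
  apply hx
  have h2 : ch u x θ = 1 := by
    have h3 : (ch u x θ - 1) * f z = 0 := by rw [sub_mul, one_mul, ← h1, sub_self]
    rcases mul_eq_zero.1 h3 with h4 | h4
    · exact sub_eq_zero.1 h4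
    · exact absurd h4 h0
  exact Circle.coe_injective (by simpa [ch] using h2)

lemma kisotD_comm (hZ : ∀ z : Z, (op θ : C(Z, Z)) z = z) {ι κ : Type} [Fintype ι] [Fintype κ]
    [DecidableEq ι] [DecidableEq κ] (c : Circle) {w : ι → Γ → ℤ} {w' : κ → Γ → ℤ}
    {a : Matrix ι κ C(Z, ℂ)} (ha : HomM u w w' a) :
    kisotD u θ Z c w * a = a * kisotD u θ Z c w' := by
  ext1 i j
  rw [kisotD, kisotD, Matrix.diagonal_mul, Matrix.mul_diagonal]
  by_cases h : u θ ^ w i θ = u θ ^ w' j θ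
  · rw [h, mul_comm]
  · have h0 : a i j = 0 := by
      refine kisot_zero hZ (ha i j) fun h1 => h ?_
      rw [Pi.sub_apply, zpow_sub] at h1
      exact mul_inv_eq_one.1 h1
    rw [h0, mul_zero, zero_mul]

/-- the isotypic component of a bundle -/
abbrev kisotE (hZ : ∀ z : Z, (op θ : C(Z, Z)) z = z) (c : Circle) (E : Bun u Z) : Bun u Z where
  ι := E.ι
  w := E.w
  e := kisotD u θ Z c E.w * E.e
  idem := by
    calc kisotD u θ Z c E.w * E.e * (kisotD u θ Z c E.w * E.e)
        = kisotD u θ Z c E.w * (E.e * kisotD u θ Z c E.w) * E.e := by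
          simp only [Matrix.mul_assoc]
      _ = (kisotD u θ Z c E.w * kisotD u θ Z c E.w) * (E.e * E.e) := by
          rw [← kisotD_comm hZ c E.hom]; simp only [Matrix.mul_assoc]
      _ = kisotD u θ Z c E.w * E.e := by rw [kisotD_idem, E.idem]
  hom := (kisotD_hom c E.w).mul E.hom

lemma kisotE_iso (hZ : ∀ z : Z, (op θ : C(Z, Z)) z = z) (c : Circle) {E F : Bun u Z}
    (h : Bun.Iso E F) : Bun.Iso (kisotE hZ c E) (kisotE hZ c F) := by
  obtain ⟨a, b, ha, hb, hab, hba⟩ := h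
  refine ⟨kisotD u θ Z c E.w * a, kisotD u θ Z c F.w * b, (kisotD_hom c E.w).mul ha,
    (kisotD_hom c F.w).mul hb, ?_, ?_⟩
  · calc kisotD u θ Z c E.w * a * (kisotD u θ Z c F.w * b)
        = kisotD u θ Z c E.w * (a * kisotD u θ Z c F.w) * b := by simp only [Matrix.mul_assoc]
      _ = (kisotD u θ Z c E.w * kisotD u θ Z c E.w) * (a * b) := by
          rw [← kisotD_comm hZ c ha]; simp only [Matrix.mul_assoc]
      _ = kisotD u θ Z c E.w * E.e := by rw [kisotD_idem, hab]
  · calc kisotD u θ Z c F.w * b * (kisotD u θ Z c E.w * a)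
        = kisotD u θ Z c F.w * (b * kisotD u θ Z c E.w) * a := by simp only [Matrix.mul_assoc]
      _ = (kisotD u θ Z c F.w * kisotD u θ Z c F.w) * (b * a) := by
          rw [← kisotD_comm hZ c hb]; simp only [Matrix.mul_assoc]
      _ = kisotD u θ Z c F.w * F.e := by rw [kisotD_idem, hba]

/-- the isotypic component on the K group -/
def kisotP (hZ : ∀ z : Z, (op θ : C(Z, Z)) z = z) (c : Circle) : AddMonoid.End (K u Z) :=
  Klift (fun E => cls (kisotE hZ c E))
    (fun E F => by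
      rw [← cls_sum]
      refine cls_iso (Bun.iso_of_equiv _ _ (Equiv.refl _) ?_ ?_)
      · rintro (i | i) <;> rfl
      · rintro (i | i) (j | j) <;>
          simp [kisotD, Matrix.diagonal_mul])
    (fun _ _ h => cls_iso (kisotE_iso hZ c h))

lemma kisotP_cls (hZ : ∀ z : Z, (op θ : C(Z, Z)) z = z) (c : Circle) (E : Bun u Z) :
    kisotP hZ c (cls E) = cls (kisotE hZ c E) := Klift_cls _ _ _ E

lemma kisot_cls_zero (E : Bun u Z) (h : E.e = 0) : cls E = 0 := by
  have h1 : cls E = cls (Bun.zero u Z) := by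
    refine cls_iso ⟨0, 0, HomM.zero, HomM.zero, ?_, ?_⟩
    · rw [h]; simp
    · simp
  rw [h1]
  have h2 : cls ((Bun.zero u Z).sum (Bun.zero u Z)) = cls (Bun.zero u Z) :=
    cls_iso (Bun.iso_of_equiv _ _ (Equiv.sumEmpty Empty Empty)
      (fun i => by rcases i with i | i <;> exact i.elim)
      (fun i => by rcases i with i | i <;> exact i.elim))
  rw [cls_sum] at h2
  exact left_eq_add.1 h2.symm

end Kisot

/-- If `θ` acts trivially on `Z`, then `K(Z)` has isotypic components: `P c` takes the part of a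
bundle on which `θ` acts by `c`. -/
theorem exists_isotypic (hZ : ∀ z : Z, (op θ : C(Z, Z)) z = z) :
    ∃ P : Circle → AddMonoid.End (K u Z),
      (∀ (c : Circle) (x : Γ → ℤ) (y : K u Z), P c (Ktw x y) = Ktw x (P (c * (u θ ^ x θ)⁻¹) y)) ∧
      P 1 (K1 u Z) = K1 u Z ∧ ∀ c : Circle, c ≠ 1 → P c (K1 u Z) = 0 := by
  refine ⟨fun c => kisotP hZ c, ?_, ?_, ?_⟩
  · intro c x y
    suffices h : (kisotP hZ c * Ktw x : AddMonoid.End (K u Z)) =
        Ktw x * kisotP hZ (c * (u θ ^ x θ)⁻¹) from DFunLike.congr_fun h y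
    refine K_end_ext fun E => ?_
    change kisotP hZ c (Ktw x (cls E)) = Ktw x (kisotP hZ (c * (u θ ^ x θ)⁻¹) (cls E))
    rw [Ktw_cls, kisotP_cls, kisotP_cls, Ktw_cls]
    refine cls_iso (Bun.iso_of_equiv _ _ (Equiv.refl _) ?_ ?_)
    · intro i; rfl
    · intro i j
      change (kisotD u θ Z (c * (u θ ^ x θ)⁻¹) E.w * E.e) i j =
        (kisotD u θ Z c (fun i => E.w i + x) * E.e) i j
      rw [kisotD, kisotD, Matrix.diagonal_mul, Matrix.diagonal_mul]
      congr 1
      have h1 : (u θ ^ E.w i θ = c * (u θ ^ x θ)⁻¹) ↔ (u θ ^ (E.w i + x) θ = c) := by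
        rw [Pi.add_apply, zpow_add, eq_mul_inv_iff_mul_eq]
      by_cases h2 : u θ ^ E.w i θ = c * (u θ ^ x θ)⁻¹
      · rw [if_pos h2, if_pos (h1.1 h2)]
      · rw [if_neg h2, if_neg fun h3 => h2 (h1.2 h3)]
  · rw [K1, kisotP_cls]
    refine cls_iso (Bun.iso_of_equiv _ _ (Equiv.refl _) ?_ ?_)
    · intro i; rfl
    · intro i j
      change (1 : Matrix Unit Unit C(Z, ℂ)) i j = (kisotD u θ Z 1 _ * 1 : Matrix Unit Unit C(Z, ℂ)) i j
      rw [kisotD, mul_one]
      cases i; cases j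
      simp
  · intro c hc
    rw [K1, kisotP_cls]
    refine kisot_cls_zero _ ?_
    change (kisotD u θ Z c _ * 1 : Matrix Unit Unit C(Z, ℂ)) = 0
    rw [mul_one, kisotD]
    ext1 i j
    cases i; cases j
    simp [Ne.symm hc]

end Pool.Agent.HCF
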