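import Pool.Agent.HCF.KDefs

/-! # Twists which act trivially, and ring algebra (module KROOT) -/

noncomputable section

namespace Pool.Agent.HCF

variable {Γ : Type} {u : Γ → Circle} {Z : Type} [TopologicalSpace Z] [Op Γ Z]

theorem Ktw_eq_one_of_ch (x : Γ → ℤ) (hx : ∀ g, u g ^ x g = 1) :
    (Ktw x : AddMonoid.End (K u Z)) = 1 := by
  have hc : ∀ g, ch u x g = 1 := fun g => by simp [ch, hx g]
  refine K_end_ext fun E => ?_
  rw [Ktw_cls]
  change cls (E.tw x) = cls E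
  refine cls_iso ⟨E.e, E.e, ?_, ?_, E.idem, E.idem⟩
  · intro i j g z
    have h1 := E.hom i j g z
    rw [h1]
    have h2 : E.w i + x - E.w j = (E.w i - E.w j) + x := by abel
    change ch u (E.w i - E.w j) g * _ = ch u (E.w i + x - E.w j) g * _
    rw [h2, ch_add, hc, mul_one]
  · intro i j g z
    have h1 := E.hom i j g z
    rw [h1]
    have h2 : E.w i - E.w j = (E.w i - (E.w j + x)) + x := by abel
    change ch u (E.w i - E.w j) g * _ = ch u (E.w i - (E.w j + x)) g * _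
    rw [h2, ch_add, hc, mul_one]

omit [Op Γ Z] in
theorem kroot_smul_mul {ι : Type} [Fintype ι] (h k : C(Z, ℂ)) (hhk : h * k = 1)
    (e : Matrix ι ι C(Z, ℂ)) (he : e * e = e) :
    (Matrix.of fun i j => h * e i j) * (Matrix.of fun i j => k * e i j) = e := by
  ext1 i j
  rw [Matrix.mul_apply]
  simp only [Matrix.of_apply]
  have h1 : ∀ l, h * e i l * (k * e l j) = e i l * e l j := fun l => by
    calc h * e i l * (k * e l j) = (h * k) * (e i l * e l j) := by ring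
      _ = e i l * e l j := by rw [hhk, one_mul]
  simp only [h1]
  rw [← Matrix.mul_apply, he]

theorem Ktw_eq_one_of_unit (x : Γ → ℤ) (h : C(Z, ℂ)) (hW : IsW u x h) (h0 : ∀ z, h z ≠ 0) :
    (Ktw x : AddMonoid.End (K u Z)) = 1 := by
  obtain ⟨k, hk⟩ : ∃ k : C(Z, ℂ), ∀ z, k z = (h z)⁻¹ :=
    ⟨⟨fun z => (h z)⁻¹, h.continuous.inv₀ h0⟩, fun z => rfl⟩
  have hhk : h * k = 1 := by
    ext z
    rw [ContinuousMap.mul_apply, hk, mul_inv_cancel₀ (h0 z)]
    rfl
  have hWk : IsW u (-x) k := by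
    intro g z
    rw [hk, hk, hW g z, mul_inv]
    congr 1
    have h1 : ch u (-x) g * ch u x g = 1 := by
      rw [← ch_add, neg_add_cancel, ch_zero]
    exact (eq_inv_of_mul_eq_one_left h1).symm
  refine K_end_ext fun E => ?_
  rw [Ktw_cls]
  change cls (E.tw x) = cls E
  refine cls_iso ⟨fun i j => h * E.e i j, fun i j => k * E.e i j, ?_, ?_, ?_, ?_⟩
  · intro i j
    have h1 : IsW u (x + (E.w i - E.w j)) (h * E.e i j) := hW.mul (E.hom i j)
    refine h1.congr ?_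
    change x + (E.w i - E.w j) = (E.w i + x) - E.w j
    abel
  · intro i j
    have h1 : IsW u (-x + (E.w i - E.w j)) (k * E.e i j) := hWk.mul (E.hom i j)
    refine h1.congr ?_
    change -x + (E.w i - E.w j) = E.w i - (E.w j + x)
    abel
  · exact kroot_smul_mul h k hhk E.e E.idem
  · exact kroot_smul_mul k h (by rw [mul_comm, hhk]) E.e E.idem

theorem nu_eq {R : Type*} [Ring R] (s : R) (h5 : s ^ 5 = 1) (h3 : (1 - s) ^ 3 = 0) :
    1 + s + s ^ 2 + s ^ 3 + s ^ 4 = 5 ∧ 5 * (1 - s) = 0 := by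
  obtain ⟨c, rfl⟩ : ∃ c, s = 1 - c := ⟨1 - s, by abel⟩
  have hc : c ^ 3 = 0 := by simpa using h3
  have hc4 : c ^ 4 = 0 := by rw [pow_succ, hc, zero_mul]
  have hc5 : c ^ 5 = 0 := by rw [pow_succ, hc4, zero_mul]
  have e1 : (1 - c) ^ 5 = 1 - 5 * c + 10 * c ^ 2 - 10 * c ^ 3 + 5 * c ^ 4 - c ^ 5 := by
    noncomm_ring
  rw [e1, hc, hc4, hc5] at h5
  have h6 : 10 * c ^ 2 = 5 * c := by
    have h7 : 10 * c ^ 2 - 5 * c = (1 - 5 * c + 10 * c ^ 2 - 10 * 0 + 5 * 0 - 0) - 1 := by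
      noncomm_ring
    rw [h5, sub_self] at h7
    exact sub_eq_zero.1 h7
  have h8 : 5 * c ^ 2 = 0 := by
    have h9 : 5 * c ^ 2 = (5 * c) * c := by rw [mul_assoc, ← sq]
    rw [h9, ← h6, mul_assoc, ← pow_succ, hc, mul_zero]
  have h10 : 5 * c = 0 := by
    rw [← h6]
    have h11 : (10 : R) * c ^ 2 = 2 * (5 * c ^ 2) := by
      rw [← mul_assoc]; norm_num
    rw [h11, h8, mul_zero]
  constructor
  · have e2 : 1 + (1 - c) + (1 - c) ^ 2 + (1 - c) ^ 3 + (1 - c) ^ 4 =
        (1 + 1 + 1 + 1 + 1) - 2 * (5 * c) + 2 * (5 * c ^ 2) - 5 * c ^ 3 + c ^ 4 := by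
      noncomm_ring
    rw [e2, h8, h10, hc, hc4]
    norm_num
  · rw [sub_sub_cancel]
    exact h10

theorem kroot_poly (j : ℕ) : ∃ h : Polynomial ℤ,
    (1 - Polynomial.X) ^ (5 ^ j) = 1 - Polynomial.X ^ (5 ^ j) + Polynomial.C 5 * h := by
  have h1 : Polynomial.C (5 : ℤ) ∣
      (1 - Polynomial.X) ^ (5 ^ j) - (1 - Polynomial.X ^ (5 ^ j)) := by
    rw [Polynomial.C_dvd_iff_dvd_coeff]
    intro i
    have h2 : Polynomial.map (Int.castRingHom (ZMod 5))
        ((1 - Polynomial.X) ^ (5 ^ j) - (1 - Polynomial.X ^ (5 ^ j))) = 0 := by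
      have : Fact (Nat.Prime 5) := ⟨by norm_num⟩
      rw [Polynomial.map_sub, Polynomial.map_pow, Polynomial.map_sub, Polynomial.map_sub,
        Polynomial.map_pow, Polynomial.map_one, Polynomial.map_X, sub_pow_char_pow, one_pow,
        sub_self]
    have h3 := congrArg (fun p => Polynomial.coeff p i) h2
    simp only [Polynomial.coeff_map, Polynomial.coeff_zero] at h3
    have h4 := (ZMod.intCast_zmod_eq_zero_iff_dvd _ 5).1 h3
    exact_mod_cast h4
  obtain ⟨h, hh⟩ := h1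
  exact ⟨h, by rw [← hh]; ring⟩

theorem kroot_commute {R : Type*} [Ring R] (s t : R) (ht : Commute t s) (p : Polynomial ℤ) :
    Commute t (Polynomial.aeval s p) := by
  induction p using Polynomial.induction_on with
  | C a =>
    rw [Polynomial.aeval_C]
    exact (Algebra.commutes a t).symm
  | add p q hp hq =>
    rw [map_add]
    exact hp.add_right hq
  | monomial n a _ =>
    rw [map_mul, Polynomial.aeval_C, map_pow, Polynomial.aeval_X]
    exact Commute.mul_right (Algebra.commutes a t).symm (ht.pow_right _)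

/-- `(1 - s)^(5^j)` is divisible by `5` when `s^(5^j) = 1` -/
theorem one_sub_pow_five {R : Type*} [Ring R] (s : R) (j : ℕ) (hs : s ^ (5 ^ j) = 1) :
    ∃ r : R, Commute r s ∧ (1 - s) ^ (5 ^ j) = 5 * r ∧
      ∀ t : R, Commute t s → Commute t r := by
  obtain ⟨h, hh⟩ := kroot_poly j
  refine ⟨Polynomial.aeval s h, (kroot_commute s s (Commute.refl s) h).symm, ?_,
    fun t ht => kroot_commute s t ht h⟩
  have h1 := congrArg (Polynomial.aeval s) hh
  simp only [map_add, map_sub, map_pow, map_mul, map_one, Polynomial.aeval_X,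
    Polynomial.aeval_C, hs, sub_self, zero_add] at h1
  rw [h1]
  congr 1
  simp

/-- `(1 - s)^(2 * 5^j) = (1 - s^(5^j))^2 + 5 * r` -/
theorem one_sub_pow_five_sq {R : Type*} [Ring R] (s : R) (j : ℕ) :
    ∃ r : R, (1 - s) ^ (2 * 5 ^ j) = (1 - s ^ (5 ^ j)) ^ 2 + 5 * r ∧ Commute r s := by
  obtain ⟨h, hh⟩ := kroot_poly j
  obtain ⟨g, hg⟩ : ∃ g : Polynomial ℤ, (1 - Polynomial.X) ^ (2 * 5 ^ j) =
      (1 - Polynomial.X ^ (5 ^ j)) ^ 2 + Polynomial.C 5 * g := by
    refine ⟨2 * (1 - Polynomial.X ^ (5 ^ j)) * h + Polynomial.C 5 * h ^ 2, ?_⟩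
    rw [mul_comm 2, pow_mul, hh]
    ring
  refine ⟨Polynomial.aeval s g, ?_, (kroot_commute s s (Commute.refl s) g).symm⟩
  have h1 := congrArg (Polynomial.aeval s) hg
  simp only [map_add, map_sub, map_pow, map_mul, map_one, Polynomial.aeval_X,
    Polynomial.aeval_C] at h1
  rw [h1]
  congr 2
  simp

end Pool.Agent.HCF
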