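import Pool.Agent.HCF.KIsot
import Pool.Agent.HCF.KRoot

/-! # Divisibility by five from isotypic components (module KISOTB) -/

noncomputable section

namespace Pool.Agent.HCF

variable {Γ : Type} {u : Γ → Circle} {θ : Γ} {Z : Type} [TopologicalSpace Z] [Op Γ Z]

/-- The algebra of the isotypic components: if `ξ - s ξ = (1 - s)^2 w`, where `ξ` is invariant
under `θ`, then `ξ` is divisible by five. -/
theorem div_five_of_isotypic [DecidableEq Γ] (hZ : ∀ z : Z, (op θ : C(Z, Z)) z = z)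
    (h5 : u θ ^ 5 = 1) (h1 : u θ ≠ 1) (T : AddMonoid.End (K u Z))
    (hT : ∃ (x : Γ → ℤ) (m : ℕ), x θ = 0 ∧ T = (1 - Ktw x) ^ m)
    (w : K u Z) (h : (1 - Ktw (sw θ) : AddMonoid.End (K u Z)) (T (K1 u Z)) =
      ((1 - Ktw (sw θ)) ^ 2 : AddMonoid.End (K u Z)) w) :
    ∃ z : K u Z, T (K1 u Z) = (5 : ℤ) • z := by
  obtain ⟨P, hP, hP1, hP0⟩ := exists_isotypic (u := u) (θ := θ) hZ
  obtain ⟨x, m, hx, rfl⟩ := hT
  -- the components commute with `1 - Ktw x`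
  have hcomm : ∀ (c : Circle), Commute (P c) ((1 - Ktw x : AddMonoid.End (K u Z)) ^ m) := by
    intro c
    refine Commute.pow_right (Commute.sub_right (Commute.one_right _) ?_) m
    change P c * Ktw x = Ktw x * P c
    refine AddMonoidHom.ext fun y => ?_
    have h2 := hP c x y
    rw [hx, zpow_zero, inv_one, mul_one] at h2
    exact h2
  set ξ : K u Z := ((1 - Ktw x : AddMonoid.End (K u Z)) ^ m) (K1 u Z) with hξ
  have hξ1 : P 1 ξ = ξ := by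
    have h2 := DFunLike.congr_fun (hcomm 1) (K1 u Z)
    change P 1 ξ = ((1 - Ktw x : AddMonoid.End (K u Z)) ^ m) (P 1 (K1 u Z)) at h2
    rw [h2, hP1]
  have hξ0 : ∀ c : Circle, c ≠ 1 → P c ξ = 0 := by
    intro c hc
    have h2 := DFunLike.congr_fun (hcomm c) (K1 u Z)
    change P c ξ = ((1 - Ktw x : AddMonoid.End (K u Z)) ^ m) (P c (K1 u Z)) at h2
    rw [h2, hP0 c hc, map_zero]
  set s : AddMonoid.End (K u Z) := Ktw (sw θ) with hs
  have hs5 : s ^ 5 = 1 := by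
    rw [hs, ← Ktw_nsmul]
    refine Ktw_eq_one_of_ch _ fun g => ?_
    by_cases hg : g = θ
    · subst hg; simpa [sw] using h5
    · simp [sw, hg]
  have hPs : ∀ (i : ℕ) (y : K u Z), P (u θ ^ (i + 1)) (s y) = s (P (u θ ^ i) y) := by
    intro i y
    rw [hs, hP]
    congr 2
    simp [sw, pow_succ]
  -- `A i = s^(5 k - i) P (c^i)`
  have hA : ∀ (i j : ℕ) (y : K u Z), (s ^ j) (P (u θ ^ (i + 1)) ((1 - s) y)) =
      (s ^ j) (P (u θ ^ (i + 1)) y) - (s ^ (j + 1)) (P (u θ ^ i) y) := by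
    intro i j y
    have h2 : ((1 - s) y) = y - s y := rfl
    rw [h2, map_sub, map_sub, hPs, pow_succ]
    rfl
  have hA2 : ∀ (i j : ℕ) (y : K u Z), (s ^ j) (P (u θ ^ (i + 2)) (((1 - s) ^ 2 : AddMonoid.End (K u Z)) y)) =
      (s ^ j) (P (u θ ^ (i + 2)) y) - (2 : ℤ) • (s ^ (j + 1)) (P (u θ ^ (i + 1)) y) +
        (s ^ (j + 2)) (P (u θ ^ i) y) := by
    intro i j y
    have h2 : ((1 - s) ^ 2 : AddMonoid.End (K u Z)) y = (1 - s) ((1 - s) y) := by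
      rw [pow_two]; rfl
    rw [h2, hA (i + 1) j, hA (i + 1) j, hA i (j + 1)]
    module
  -- the elements `v i`
  have hz : ∀ i : ℕ, u θ ^ (i + 5) = u θ ^ i := by intro i; rw [pow_add, h5, mul_one]
  have hsz : ∀ i : ℕ, s ^ (i + 5) = s ^ i := by intro i; rw [pow_add, hs5, mul_one]
  have hne : ∀ i : ℕ, i ∈ ({1, 2, 3, 4} : Finset ℕ) → u θ ^ i ≠ 1 := by
    intro i hi hi1
    apply h1
    have hcop : Nat.Coprime i 5 := by
      simp only [Finset.mem_insert, Finset.mem_singleton] at hi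
      rcases hi with rfl | rfl | rfl | rfl <;> decide
    have h2 : orderOf (u θ) ∣ i := orderOf_dvd_of_pow_eq_one hi1
    have h3 : orderOf (u θ) ∣ 5 := orderOf_dvd_of_pow_eq_one h5
    have h4 : orderOf (u θ) ∣ 1 := by
      rw [← hcop]; exact Nat.dvd_gcd h2 h3
    exact orderOf_eq_one_iff.1 (Nat.dvd_one.1 h4)
  -- equations
  have key : ∀ i j : ℕ, (s ^ j) (P (u θ ^ (i + 2)) ξ) - (s ^ (j + 1)) (P (u θ ^ (i + 1)) ξ) =
      (s ^ j) (P (u θ ^ (i + 2)) w) - (2 : ℤ) • (s ^ (j + 1)) (P (u θ ^ (i + 1)) w) +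
        (s ^ (j + 2)) (P (u θ ^ i) w) := by
    intro i j
    rw [← hA2, ← h, hA (i + 1) j]
  have e1 := key 4 4
  have e2 := key 0 3
  have e3 := key 1 2
  have e4 := key 2 1
  have z0 : P (u θ ^ 0) ξ = ξ := by rw [pow_zero]; exact hξ1
  have z1 := hξ0 _ (hne 1 (by simp))
  have z2 := hξ0 _ (hne 2 (by simp))
  have z3 := hξ0 _ (hne 3 (by simp))
  have z4 := hξ0 _ (hne 4 (by simp))
  have t5 : u θ ^ (4 + 1) = u θ ^ 0 := hz 0
  have t6 : u θ ^ (4 + 2) = u θ ^ 1 := hz 1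
  have s5 : s ^ (4 + 1) = s ^ 0 := hsz 0
  have s6 : s ^ (4 + 2) = s ^ 1 := hsz 1
  have s5' : s ^ (3 + 2) = s ^ 0 := hsz 0
  rw [t5, t6, s5, s6, z0, z1, map_zero, pow_zero] at e1
  rw [s5', zero_add, zero_add, pow_zero, z2, z1, map_zero, map_zero, sub_zero] at e2
  rw [show 1 + 2 = 3 from rfl, show 1 + 1 = 2 from rfl, z3, z2, map_zero, map_zero, sub_zero] at e3
  rw [show 2 + 2 = 4 from rfl, show 2 + 1 = 3 from rfl, z4, z3, map_zero, map_zero, sub_zero] at e4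
  change 0 - ξ = (s ^ 4) (P (u θ ^ 1) w) - (2 : ℤ) • P (u θ ^ 0) w + (s ^ 1) (P (u θ ^ 4) w) at e1
  change 0 = (s ^ 3) (P (u θ ^ 2) w) - (2 : ℤ) • (s ^ 4) (P (u θ ^ 1) w) + P (u θ ^ 0) w at e2
  change 0 = (s ^ 2) (P (u θ ^ 3) w) - (2 : ℤ) • (s ^ 3) (P (u θ ^ 2) w) +
    (s ^ 4) (P (u θ ^ 1) w) at e3
  change 0 = (s ^ 1) (P (u θ ^ 4) w) - (2 : ℤ) • (s ^ 2) (P (u θ ^ 3) w) +
    (s ^ 3) (P (u θ ^ 2) w) at e4
  refine ⟨P (u θ ^ 0) w - (s ^ 4) (P (u θ ^ 1) w), ?_⟩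
  generalize (s ^ 4) (P (u θ ^ 1) w) = v1 at *
  generalize (s ^ 3) (P (u θ ^ 2) w) = v2 at *
  generalize (s ^ 2) (P (u θ ^ 3) w) = v3 at *
  generalize (s ^ 1) (P (u θ ^ 4) w) = v4 at *
  generalize P (u θ ^ 0) w = v0 at *
  linear_combination (norm := module) (-1 : ℤ) • e1 + (3 : ℤ) • e2 + (2 : ℤ) • e3 + (1 : ℤ) • e4

end Pool.Agent.HCF
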