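import Pool.Agent.HCF.KDefs

/-! # Trivial bundles (module KTRIV) -/

noncomputable section

namespace Pool.Agent.HCF

variable {Γ : Type} {u : Γ → Circle} {Z : Type} [TopologicalSpace Z] [Op Γ Z]

theorem ktriv_cls_zero : cls (Bun.zero u Z) = 0 := by
  rw [cls]
  exact map_zero _

theorem ktriv_tw_K1 (x : Γ → ℤ) :
    Ktw x (K1 u Z) = cls (Bun.triv u Z (fun _ : Unit => x)) := by
  rw [K1, Ktw_cls]
  refine cls_iso (Bun.iso_of_equiv _ _ (Equiv.refl _) ?_ ?_)
  · intro i
    simp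
  · intro i j
    rfl

/-- the sum of a point and `Fin n` is `Fin (n + 1)` -/
def ktrivEquiv (n : ℕ) : Unit ⊕ Fin n ≃ Fin (n + 1) where
  toFun := Sum.elim (fun _ => 0) Fin.succ
  invFun := Fin.cases (Sum.inl ()) Sum.inr
  left_inv := by
    rintro (i | i)
    · rfl
    · rfl
  right_inv := by
    intro i
    refine Fin.cases ?_ (fun i => ?_) i
    · rfl
    · rfl

theorem ktriv_fin : ∀ (n : ℕ) (w : Fin n → Γ → ℤ),
    cls (Bun.triv u Z w) = ∑ i, Ktw (w i) (K1 u Z)
  | 0, w => by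
    rw [Finset.univ_eq_empty, Finset.sum_empty, ← ktriv_cls_zero (u := u) (Z := Z)]
    refine cls_iso (Bun.iso_of_equiv _ _ (Equiv.equivOfIsEmpty _ _) ?_ ?_)
    · intro i
      exact i.elim0
    · intro i j
      exact i.elim0
  | n + 1, w => by
    rw [Fin.sum_univ_succ, ktriv_tw_K1, ← ktriv_fin n (fun i => w i.succ), ← cls_sum]
    symm
    refine cls_iso (Bun.iso_of_equiv _ _ (ktrivEquiv n) ?_ ?_)
    · rintro (i | i)
      · rfl
      · rfl
    · rintro (i | i) (j | j)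
      · simp [ktrivEquiv, Matrix.one_apply]
      · simp [ktrivEquiv, Matrix.one_apply, (Fin.succ_ne_zero j).symm]
      · simp [ktrivEquiv, Matrix.one_apply, Fin.succ_ne_zero i]
      · simp [ktrivEquiv, Matrix.one_apply]

/-- a trivial bundle is the sum of the twists of the trivial line bundle -/
theorem cls_triv {ι : Type} [Fintype ι] [DecidableEq ι] (w : ι → Γ → ℤ) :
    cls (Bun.triv u Z w) = ∑ i, Ktw (w i) (K1 u Z) := by
  have e := Fintype.equivFin ι
  have h1 : cls (Bun.triv u Z (fun k => w (e.symm k))) = cls (Bun.triv u Z w) := by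
    refine cls_iso (Bun.iso_of_equiv _ _ e.symm ?_ ?_)
    · intro i
      rfl
    · intro i j
      simp [Matrix.one_apply]
  rw [← h1, ktriv_fin]
  exact Equiv.sum_comp e.symm (fun i => Ktw (w i) (K1 u Z))

/-- every class is the difference of a trivial bundle and a bundle -/
theorem K_exists_triv (y : K u Z) : ∃ (ι : Type) (_ : Fintype ι) (_ : DecidableEq ι)
    (w : ι → Γ → ℤ) (F : Bun u Z), y = cls (Bun.triv u Z w) - cls F := by
  obtain ⟨E, F, rfl⟩ := K_exists y
  refine ⟨E.ι, E.ft, E.dec, E.w, E.compl.sum F, ?_⟩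
  have h1 := cls_iso E.sum_compl
  rw [cls_sum] at h1
  rw [cls_sum, ← h1]
  abel

/-- stable isomorphism can be tested by adding trivial bundles -/
theorem cls_eq_iff_triv (E F : Bun u Z) (h : cls E = cls F) :
    ∃ (ι : Type) (_ : Fintype ι) (_ : DecidableEq ι) (w : ι → Γ → ℤ),
      Bun.Iso (E.sum (Bun.triv u Z w)) (F.sum (Bun.triv u Z w)) := by
  obtain ⟨T, hT⟩ := (cls_eq_iff E F).1 h
  refine ⟨T.ι, T.ft, T.dec, T.w, ?_⟩
  rw [← Bun.toV_eq, Bun.toV_sum, Bun.toV_sum] at hT ⊢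
  have h1 := Bun.toV_eq.2 T.sum_compl
  rw [Bun.toV_sum] at h1
  rw [← h1, ← add_assoc, ← add_assoc, hT]

end Pool.Agent.HCF
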