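import Pool.Agent.HCF.KFou
import Pool.Agent.HCF.KTriv

/-! # Linear pencils (module KPEN) -/

noncomputable section

namespace Pool.Agent.HCF

variable {Γ : Type} {u : Γ → Circle} {x : Γ → ℤ} {Z : Type} [TopologicalSpace Z] [Op Γ Z]
  {ι κ : Type} [Fintype ι] [DecidableEq ι] [Fintype κ] [DecidableEq κ]

/-- Fourier coefficients of a matrix of functions -/
def fcM (k : ℤ) (R : Matrix ι κ C(Z × Cir u x, ℂ)) : Matrix ι κ C(Z, ℂ) := fun i j => fc k (R i j)

/-- the pencil `z a + b` on `Z × S^1` -/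
def penc (u : Γ → Circle) (x : Γ → ℤ) (a b : Matrix κ ι C(Z, ℂ)) :
    Matrix κ ι C(Z × Cir u x, ℂ) :=
  zz u x Z • pullM ContinuousMap.fst a + pullM ContinuousMap.fst b

section kpenAux

omit [Op Γ Z] [Fintype ι] [DecidableEq ι] [Fintype κ] [DecidableEq κ] in
lemma kpen_apply (a b : Matrix κ ι C(Z, ℂ)) (i : κ) (j : ι) :
    penc u x a b i j = zz u x Z * (a i j).comp ContinuousMap.fst +
      (b i j).comp ContinuousMap.fst := rfl

omit [Op Γ Z] [Fintype ι] [DecidableEq ι] [DecidableEq κ] in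
lemma kpen_left {μ : Type} (a b : Matrix μ κ C(Z, ℂ)) (R : Matrix κ ι C(Z × Cir u x, ℂ)) (k : ℤ) :
    fcM k (penc u x a b * R) = a * fcM (k - 1) R + b * fcM k R := by
  ext1 i l
  rw [Matrix.add_apply, Matrix.mul_apply, Matrix.mul_apply]
  simp only [fcM]
  rw [Matrix.mul_apply, fc_sum, ← Finset.sum_add_distrib]
  refine Finset.sum_congr rfl fun j _ => ?_
  rw [kpen_apply, add_mul, fc_add, mul_assoc, fc_zz_mul, fc_mul_left, fc_mul_left]

omit [Op Γ Z] [Fintype κ] [DecidableEq ι] [DecidableEq κ] in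
lemma kpen_right {μ : Type} (a b : Matrix ι κ C(Z, ℂ)) (R : Matrix μ ι C(Z × Cir u x, ℂ)) (k : ℤ) :
    fcM k (R * penc u x a b) = fcM (k - 1) R * a + fcM k R * b := by
  ext1 i l
  rw [Matrix.add_apply, Matrix.mul_apply, Matrix.mul_apply]
  simp only [fcM]
  rw [Matrix.mul_apply, fc_sum, ← Finset.sum_add_distrib]
  refine Finset.sum_congr rfl fun j _ => ?_
  rw [kpen_apply, mul_comm, add_mul, fc_add, mul_assoc, fc_zz_mul, fc_mul_left, fc_mul_left,
    mul_comm (a j l), mul_comm (b j l)]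

omit [Op Γ Z] [Fintype κ] [DecidableEq ι] [DecidableEq κ] [Fintype ι] in
lemma kpen_fcM_fst (f : Matrix ι κ C(Z, ℂ)) (k : ℤ) :
    fcM k (pullM ContinuousMap.fst f : Matrix ι κ C(Z × Cir u x, ℂ)) =
      if k = 0 then f else 0 := by
  ext1 i j
  simp only [fcM, pullM_apply]
  rw [fc_fst]
  split_ifs <;> rfl

omit [Op Γ Z] [Fintype κ] [DecidableEq κ] [Fintype ι] in
lemma kpen_fcM_one (k : ℤ) :
    fcM k (1 : Matrix ι ι C(Z × Cir u x, ℂ)) = if k = 0 then 1 else 0 := by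
  rw [← kpen_fcM_fst (u := u) (x := x) (1 : Matrix ι ι C(Z, ℂ)) k, pullM_one]

omit [Op Γ Z] [DecidableEq ι] [DecidableEq κ] [Fintype ι] in
lemma kpen_mul_fst (R : Matrix ι κ C(Z × Cir u x, ℂ)) (f : Matrix κ κ C(Z, ℂ)) (k : ℤ) :
    fcM k (R * pullM ContinuousMap.fst f) = fcM k R * f := by
  ext1 i l
  have hm : ∀ R' : Matrix κ κ C(Z × Cir u x, ℂ), fcM k (R * R') i l =
      ∑ j, fc k (R i j * R' j l) := by
    intro R'
    simp only [fcM]
    rw [Matrix.mul_apply, fc_sum]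
  refine (hm (pullM ContinuousMap.fst f)).trans ?_
  rw [Matrix.mul_apply]
  refine Finset.sum_congr rfl fun j _ => ?_
  rw [pullM_apply, mul_comm, fc_mul_left, mul_comm]
  rfl

omit [Op Γ Z] [DecidableEq ι] [DecidableEq κ] in
/-- a product which does not depend on `n` vanishes -/
lemma kpen_zero (R : Matrix ι κ C(Z × Cir u x, ℂ)) (a : Matrix κ ι C(Z, ℂ)) (c : ℕ)
    (M : Matrix ι κ C(Z, ℂ))
    (h : ∀ n : ℕ, fcM (n : ℤ) R * a * fcM (-((n + c : ℕ) : ℤ)) R = M) : M = 0 := by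
  ext i l z
  have h1 : ∀ n : ℕ, ∑ k, (∑ j, fc (n : ℤ) (R i j) z * a j k z) *
      fc (-((n + c : ℕ) : ℤ)) (R k l) z = M i l z := by
    intro n
    rw [← h n]
    simp [Matrix.mul_apply, ContinuousMap.sum_apply, fcM]
  have h2 : Filter.Tendsto (fun n : ℕ => ∑ k, (∑ j, fc (n : ℤ) (R i j) z * a j k z) *
      fc (-((n + c : ℕ) : ℤ)) (R k l) z) Filter.atTop (nhds 0) := by
    have h3 : (0 : ℂ) = ∑ _k : ι, (∑ j : κ, 0 * a j _k z) * 0 := by simp
    rw [h3]
    refine tendsto_finsetSum _ fun k _ => Filter.Tendsto.mul ?_ ?_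
    · refine tendsto_finsetSum _ fun j _ => Filter.Tendsto.mul ?_ tendsto_const_nhds
      exact fc_tendsto_top (R i j) z
    · exact (fc_tendsto_bot (R k l) z).comp (Filter.tendsto_add_atTop_nat c)
  simp only [h1] at h2
  have := tendsto_nhds_unique tendsto_const_nhds h2
  simpa using this

/-- splitting an idempotent -/
lemma kpen_split {ν : Type} [Fintype ν] [DecidableEq ν] (w : ν → Γ → ℤ)
    (e p q : Matrix ν ν C(Z, ℂ)) (he : e * e = e) (heh : HomM u w w e) (hp : p * p = p)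
    (hph : HomM u w w p) (hq : q * q = q) (hqh : HomM u w w q) (hpq : p * q = 0)
    (hqp : q * p = 0) (hs : p + q = e) :
    cls (⟨ν, w, e, he, heh⟩ : Bun u Z) = cls (⟨ν, w, p, hp, hph⟩ : Bun u Z) +
      cls (⟨ν, w, q, hq, hqh⟩ : Bun u Z) := by
  rw [← cls_sum]
  refine (cls_iso ?_).symm
  refine ⟨Matrix.fromRows p q, Matrix.fromCols p q, ?_, ?_, ?_, ?_⟩
  · rintro (i | i) j
    · exact hph i j
    · exact hqh i j
  · rintro i (j | j)
    · exact hph i j
    · exact hqh i j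
  · rw [Matrix.fromRows_mul_fromCols]
    simp only [Bun.sum]
    rw [hp, hq, hpq, hqp]
  · rw [Matrix.fromCols_mul_fromRows, hp, hq, hs]

end kpenAux

variable (w0 : ι → Γ → ℤ) (w1 : κ → Γ → ℤ) (f : Matrix κ κ C(Z, ℂ)) (a b : Matrix κ ι C(Z, ℂ))
  (R : Matrix ι κ C(Z × Cir u x, ℂ))

/-- algebraic part: the coefficient `S` of `z⁻¹` and the coefficient `T` of `z⁰` of the inverse `R`
of the pencil satisfy `a S + b T = f`, `S a + T b = 1`, `S a S = S`, `T b T = T`. -/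
theorem pencil_alg (hfa : f * a = a) (hfb : f * b = b)
    (hRf : R * pullM ContinuousMap.fst f = R)
    (h1 : penc u x a b * R = pullM ContinuousMap.fst f) (h2 : R * penc u x a b = 1) :
    a * fcM (-1) R + b * fcM 0 R = f ∧ fcM (-1) R * a + fcM 0 R * b = 1 ∧
      fcM (-1) R * a * fcM (-1) R = fcM (-1) R ∧ fcM 0 R * b * fcM 0 R = fcM 0 R := by
  have hA : ∀ k : ℤ, a * fcM (k - 1) R + b * fcM k R = if k = 0 then f else 0 := by
    intro k
    rw [← kpen_left, h1, kpen_fcM_fst]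
  have hB : ∀ k : ℤ, fcM (k - 1) R * a + fcM k R * b = if k = 0 then 1 else 0 := by
    intro k
    rw [← kpen_right, h2, kpen_fcM_one]
  have hC : ∀ k : ℤ, fcM k R * f = fcM k R := by
    intro k
    rw [← kpen_mul_fst, hRf]
  have hA0 : a * fcM (-1) R + b * fcM 0 R = f := by simpa using hA 0
  have hB0 : fcM (-1) R * a + fcM 0 R * b = 1 := by simpa using hB 0
  have hrel : ∀ k l : ℤ, fcM (k - 1) R * a * fcM l R = fcM k R * a * fcM (l - 1) R +
      (if k = 0 then fcM l R else 0) - (if l = 0 then fcM k R else 0) := by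
    intro k l
    have e1 : fcM k R * (a * fcM (l - 1) R + b * fcM l R) = if l = 0 then fcM k R else 0 := by
      rw [hA]
      split_ifs
      · exact hC k
      · exact Matrix.mul_zero _
    have e2 : (fcM (k - 1) R * a + fcM k R * b) * fcM l R = if k = 0 then fcM l R else 0 := by
      rw [hB]
      split_ifs
      · exact Matrix.one_mul _
      · exact Matrix.zero_mul _
    rw [← e1, ← e2, Matrix.add_mul, Matrix.mul_add, ← Matrix.mul_assoc, ← Matrix.mul_assoc]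
    abel
  have hstep : ∀ c : ℕ, 1 ≤ c → ∀ n : ℕ,
      fcM (n : ℤ) R * a * fcM (-((n + c : ℕ) : ℤ)) R = fcM 0 R * a * fcM (-(c : ℤ)) R := by
    intro c hc n
    induction n with
    | zero => simp
    | succ n ih =>
      rw [← ih]
      have := hrel ((n : ℤ) + 1) (-((n + c : ℕ) : ℤ))
      rw [if_neg (by omega), if_neg (by omega), add_zero, sub_zero, add_sub_cancel_right] at this
      rw [this]
      congr 2
      · push_cast; ring
  have hz : ∀ c : ℕ, 1 ≤ c → fcM 0 R * a * fcM (-(c : ℤ)) R = 0 := fun c hc =>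
    kpen_zero R a c _ (hstep c hc)
  refine ⟨hA0, hB0, ?_, ?_⟩
  · have := hrel 0 (-1)
    rw [if_pos rfl, if_neg (by omega), sub_zero] at this
    have h3 := hz 2 (by omega)
    rw [show (0 : ℤ) - 1 = -1 by norm_num, show (-1 : ℤ) - 1 = -((2 : ℕ) : ℤ) by norm_num, h3,
      zero_add] at this
    exact this
  · have := hrel 0 0
    rw [if_pos rfl] at this
    have h3 := hz 1 (by omega)
    rw [show (0 : ℤ) - 1 = -((1 : ℕ) : ℤ) by norm_num, h3, zero_add, sub_self] at this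
    have h4 : fcM 0 R * b = 1 - fcM (-1) R * a := by rw [← hB0]; abel
    rw [h4, Matrix.sub_mul, Matrix.one_mul]
    rw [show ((-((1 : ℕ) : ℤ)) : ℤ) = -1 by norm_num] at this
    rw [this, sub_zero]

/-- The class of a pencil.  `Q = S a` is a homogeneous idempotent and
`[triv w0] - [f] = (1 - x) [Q]`. -/
theorem pencil_class (hf : f * f = f) (hfh : HomM u w1 w1 f)
    (ha : ∀ i j, IsW u (w1 i - w0 j - x) (a i j)) (hb : HomM u w1 w0 b)
    (hR : ∀ i j, IsW u (w0 i - w1 j) (R i j))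
    (hfa : f * a = a) (hfb : f * b = b) (hRf : R * pullM ContinuousMap.fst f = R)
    (h1 : penc u x a b * R = pullM ContinuousMap.fst f) (h2 : R * penc u x a b = 1) :
    ∃ (hQ : (fcM (-1) R * a) * (fcM (-1) R * a) = fcM (-1) R * a)
      (hQh : HomM u w0 w0 (fcM (-1) R * a)),
      cls (Bun.triv u Z w0) - cls ⟨κ, w1, f, hf, hfh⟩ =
        (1 - Ktw x : AddMonoid.End (K u Z)) (cls ⟨ι, w0, fcM (-1) R * a, hQ, hQh⟩) := by
  obtain ⟨hA, hB, hS, hT⟩ := pencil_alg f a b R hfa hfb hRf h1 h2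
  have hSf : fcM (-1) R * f = fcM (-1) R := by rw [← kpen_mul_fst, hRf]
  have hTf : fcM 0 R * f = fcM 0 R := by rw [← kpen_mul_fst, hRf]
  set S := fcM (-1) R with hSdef
  set T := fcM 0 R with hTdef
  have hSw : ∀ i j, IsW u (w0 i + x - w1 j) (S i j) := fun i j =>
    (fc_isW (-1) _ _ (hR i j)).congr (by rw [neg_smul, one_smul]; abel)
  have hTw : HomM u w0 w1 T := fun i j =>
    (fc_isW 0 _ _ (hR i j)).congr (by rw [zero_smul, sub_zero])
  -- the idempotents
  have hQ : (S * a) * (S * a) = S * a := by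
    rw [← Matrix.mul_assoc, hS]
  have hQh : HomM u w0 w0 (S * a) := by
    intro i j
    rw [Matrix.mul_apply]
    exact IsW.sum fun k _ => ((hSw i k).mul (ha k j)).congr (by abel)
  have hQ1 : (a * S) * (a * S) = a * S := by
    rw [Matrix.mul_assoc, ← Matrix.mul_assoc S, hS]
  have hQ1h : HomM u w1 w1 (a * S) := by
    intro i j
    rw [Matrix.mul_apply]
    exact IsW.sum fun k _ => ((ha i k).mul (hSw k j)).congr (by abel)
  have hP : (T * b) * (T * b) = T * b := by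
    rw [← Matrix.mul_assoc, hT]
  have hPh : HomM u w0 w0 (T * b) := hTw.mul hb
  have hP1 : (b * T) * (b * T) = b * T := by
    rw [Matrix.mul_assoc, ← Matrix.mul_assoc T, hT]
  have hP1h : HomM u w1 w1 (b * T) := hb.mul hTw
  refine ⟨hQ, hQh, ?_⟩
  have hPeq : T * b = 1 - S * a := by rw [← hB]; abel
  have hP1eq : b * T = f - a * S := by rw [← hA]; abel
  have c0 : cls (Bun.triv u Z w0) = cls (⟨ι, w0, S * a, hQ, hQh⟩ : Bun u Z) +
      cls (⟨ι, w0, T * b, hP, hPh⟩ : Bun u Z) := by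
    refine kpen_split w0 1 (S * a) (T * b) (one_mul _) HomM.one hQ hQh hP hPh ?_ ?_ hB
    · rw [hPeq, mul_sub, mul_one, hQ, sub_self]
    · rw [hPeq, sub_mul, one_mul, hQ, sub_self]
  have c1 : cls (⟨κ, w1, f, hf, hfh⟩ : Bun u Z) = cls (⟨κ, w1, a * S, hQ1, hQ1h⟩ : Bun u Z) +
      cls (⟨κ, w1, b * T, hP1, hP1h⟩ : Bun u Z) := by
    refine kpen_split w1 f (a * S) (b * T) hf hfh hQ1 hQ1h hP1 hP1h ?_ ?_ hA
    · rw [hP1eq, mul_sub, hQ1, Matrix.mul_assoc, hSf, sub_self]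
    · rw [hP1eq, sub_mul, hQ1, ← Matrix.mul_assoc, hfa, sub_self]
  have c2 : cls (⟨ι, w0, T * b, hP, hPh⟩ : Bun u Z) = cls (⟨κ, w1, b * T, hP1, hP1h⟩ : Bun u Z) := by
    refine cls_iso ⟨T, b * T * b, hTw, (hb.mul hTw).mul hb, ?_, ?_⟩
    · change T * (b * T * b) = T * b
      rw [← Matrix.mul_assoc, ← Matrix.mul_assoc, hT]
    · change b * T * b * T = b * T
      rw [Matrix.mul_assoc, Matrix.mul_assoc, ← Matrix.mul_assoc T, hT]
  have c3 : cls (⟨κ, w1, a * S, hQ1, hQ1h⟩ : Bun u Z) =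
      cls ((⟨ι, w0, S * a, hQ, hQh⟩ : Bun u Z).tw x) := by
    refine cls_iso ⟨a * S * a, S, ?_, ?_, ?_, ?_⟩
    · intro i j
      change IsW u (w1 i - (w0 j + x)) ((a * S * a) i j)
      rw [Matrix.mul_apply]
      exact IsW.sum fun k _ => ((hQ1h i k).mul (ha k j)).congr (by abel)
    · exact hSw
    · change a * S * a * S = a * S
      rw [Matrix.mul_assoc, Matrix.mul_assoc, ← Matrix.mul_assoc S, hS]
    · change S * (a * S * a) = S * a
      rw [← Matrix.mul_assoc, ← Matrix.mul_assoc, hS]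
  change _ = cls (⟨ι, w0, S * a, hQ, hQh⟩ : Bun u Z) - Ktw x (cls _)
  rw [Ktw_cls, c0, c1, c2, c3]
  abel

end Pool.Agent.HCF
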