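import Pool.Agent.HCF.KIsot

/-! # K theory of the point (module KPT) -/

noncomputable section

namespace Pool.Agent.HCF

/-- the weight with value `c` at `false` and `0` at `true` -/
def wt (c : ℤ) : Bool → ℤ := fun b => bif b then 0 else c

/-- the value of a matrix of functions at the point -/
def kptEv {ι κ : Type} (a : Matrix ι κ C(PUnit.{1}, ℂ)) : Matrix ι κ ℂ :=
  fun i j => a i j PUnit.unit

lemma kptEv_mul {ι κ μ : Type} [Fintype κ] (a : Matrix ι κ C(PUnit.{1}, ℂ))
    (b : Matrix κ μ C(PUnit.{1}, ℂ)) : kptEv (a * b) = kptEv a * kptEv b := by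
  ext i j
  simp [kptEv, Matrix.mul_apply, ContinuousMap.sum_apply]

lemma kptEv_trace_comm {ι κ : Type} [Fintype ι] [Fintype κ] (a : Matrix ι κ C(PUnit.{1}, ℂ))
    (b : Matrix κ ι C(PUnit.{1}, ℂ)) :
    (kptEv (a * b)).trace = (kptEv (b * a)).trace := by
  rw [kptEv_mul, kptEv_mul, Matrix.trace_mul_comm]

/-- the rank of an idempotent matrix -/
def kptRank {ι : Type} [Fintype ι] [DecidableEq ι] (a : Matrix ι ι ℂ) : ℤ :=
  (Module.finrank ℂ (LinearMap.range (Matrix.toLin' a)) : ℤ)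

lemma kptRank_eq {ι : Type} [Fintype ι] [DecidableEq ι] (a : Matrix ι ι ℂ) (ha : a * a = a) :
    ((kptRank a : ℤ) : ℂ) = a.trace := by
  have h1 : IsIdempotentElem (Matrix.toLin' a) := by
    change Matrix.toLin' a * Matrix.toLin' a = Matrix.toLin' a
    have := (Matrix.toLin'_mul a a).symm
    rw [ha] at this
    exact this
  have h2 := (LinearMap.IsIdempotentElem.isProj_range _ h1).trace
  have h3 : LinearMap.trace ℂ (ι → ℂ) (Matrix.toLin' a) = a.trace := by
    rw [LinearMap.trace_eq_matrix_trace ℂ (Pi.basisFun ℂ ι), LinearMap.toMatrix_eq_toMatrix',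
      LinearMap.toMatrix'_toLin']
  rw [← h3, h2, kptRank]
  push_cast
  rfl

/-- there is an additive rank homomorphism with integer values on the K group of a point -/
theorem exists_rank {Γ : Type} {u : Γ → Circle} : ∃ rk : K u PUnit.{1} →+ ℤ,
    rk (K1 u PUnit.{1}) = 1 := by
  have hid : ∀ E : Bun u PUnit.{1}, kptEv E.e * kptEv E.e = kptEv E.e := fun E => by
    rw [← kptEv_mul, E.idem]
  refine ⟨Klift (fun E => kptRank (kptEv E.e)) ?_ ?_, ?_⟩
  · intro E F
    have h1 : ((kptRank (kptEv (E.sum F).e) : ℤ) : ℂ) =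
        ((kptRank (kptEv E.e) + kptRank (kptEv F.e) : ℤ) : ℂ) := by
      rw [Int.cast_add, kptRank_eq _ (hid _), kptRank_eq _ (hid _), kptRank_eq _ (hid _)]
      have h2 : kptEv (E.sum F).e = Matrix.fromBlocks (kptEv E.e) 0 0 (kptEv F.e) := by
        ext (i | i) (j | j) <;> rfl
      rw [h2]
      simp [Matrix.trace, Fintype.sum_sum_type]
    exact_mod_cast h1
  · rintro E F ⟨a, b, -, -, hab, hba⟩
    have h1 : ((kptRank (kptEv E.e) : ℤ) : ℂ) = ((kptRank (kptEv F.e) : ℤ) : ℂ) := by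
      rw [kptRank_eq _ (hid _), kptRank_eq _ (hid _), ← hab, ← hba, kptEv_trace_comm]
    exact_mod_cast h1
  · rw [K1, Klift_cls]
    have h1 : ((kptRank (kptEv (Bun.triv u PUnit.{1} (fun _ : Unit => (0 : Γ → ℤ))).e) : ℤ) : ℂ) =
        ((1 : ℤ) : ℂ) := by
      rw [kptRank_eq _ (hid _)]
      simp [kptEv, Matrix.trace]
    exact_mod_cast h1

/-- On the point, `(1 - t)^(q-1) 1` is not divisible by `5`. -/
theorem point_not_div (u : Bool → Circle) (q : ℕ) (hq : 1 ≤ q)
    (hu : ∀ k : ℕ, u false ^ k = 1 ↔ q ∣ k) :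
    ¬ ∃ z : K u PUnit.{1},
      ((1 - Ktw (wt 1)) ^ (q - 1) : AddMonoid.End (K u PUnit.{1})) (K1 u PUnit.{1}) =
        (5 : ℤ) • z := by
  rintro ⟨z, hz⟩
  obtain ⟨rk, hrk⟩ := exists_rank (u := u)
  obtain ⟨P, hP, hP1, hPc⟩ := exists_isotypic (u := u) (θ := false) (Z := PUnit.{1})
    (fun z => rfl)
  have key : P 1 (((1 - Ktw (wt 1)) ^ (q - 1) : AddMonoid.End (K u PUnit.{1}))
      (K1 u PUnit.{1})) = K1 u PUnit.{1} := by
    have hexp : ((1 - Ktw (wt 1)) ^ (q - 1) : AddMonoid.End (K u PUnit.{1})) =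
        ∑ m ∈ Finset.range (q - 1 + 1), (-Ktw (wt 1) : AddMonoid.End (K u PUnit.{1})) ^ m *
          1 ^ (q - 1 - m) * ((q - 1).choose m : AddMonoid.End (K u PUnit.{1})) := by
      rw [sub_eq_neg_add]
      exact Commute.add_pow (Commute.one_right _) _
    have hterm : ∀ m : ℕ, ∃ c : ℤ, ∀ y : K u PUnit.{1},
        ((-Ktw (wt 1) : AddMonoid.End (K u PUnit.{1})) ^ m *
          1 ^ (q - 1 - m) * ((q - 1).choose m : AddMonoid.End (K u PUnit.{1}))) y =
          c • (Ktw (m • wt 1) : AddMonoid.End (K u PUnit.{1})) y := by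
      intro m
      refine ⟨(-1) ^ m * ((q - 1).choose m : ℤ), fun y => ?_⟩
      rw [one_pow, mul_one, neg_pow (Ktw (wt 1) : AddMonoid.End (K u PUnit.{1})), Ktw_nsmul]
      change ((-1 : AddMonoid.End (K u PUnit.{1})) ^ m) ((Ktw (wt 1) ^ m)
        (((q - 1).choose m : AddMonoid.End (K u PUnit.{1})) y)) = _
      rw [AddMonoid.End.natCast_apply, map_nsmul, map_nsmul, mul_comm, mul_smul,
        natCast_zsmul]
      congr 1
      rcases Nat.even_or_odd m with h | h
      · have e1 : ((-1 : AddMonoid.End (K u PUnit.{1})) ^ m) = 1 := by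
          convert Even.neg_one_pow (α := AddMonoid.End (K u PUnit.{1})) h
        have e2 : ∀ w : K u PUnit.{1}, ((-1 : AddMonoid.End (K u PUnit.{1})) ^ m) w = w := by
          intro w; rw [e1]; rfl
        rw [show ((-1 : ℤ) ^ m) = 1 from h.neg_one_pow, one_smul]
        exact e2 _
      · have e1 : ((-1 : AddMonoid.End (K u PUnit.{1})) ^ m) = -1 := by
          convert Odd.neg_one_pow (α := AddMonoid.End (K u PUnit.{1})) h
        have e2 : ∀ w : K u PUnit.{1}, ((-1 : AddMonoid.End (K u PUnit.{1})) ^ m) w = -w := by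
          intro w; rw [e1]; rfl
        rw [show ((-1 : ℤ) ^ m) = -1 from h.neg_one_pow, neg_smul, one_smul]
        exact e2 _
    have hval : ∀ m : ℕ, P 1 ((Ktw (m • wt 1) : AddMonoid.End (K u PUnit.{1}))
        (K1 u PUnit.{1})) = if q ∣ m then
          (Ktw (m • wt 1) : AddMonoid.End (K u PUnit.{1})) (K1 u PUnit.{1}) else 0 := by
      intro m
      rw [hP]
      have h1 : (u false ^ (m • wt 1) false) = u false ^ m := by
        rw [show (m • wt 1) false = (m : ℤ) by simp [wt], zpow_natCast]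
      rw [h1, one_mul]
      split_ifs with h
      · rw [(hu m).2 h, inv_one, hP1]
      · rw [hPc, map_zero]
        intro h2
        exact h ((hu m).1 (inv_eq_one.1 h2))
    have hsum : ∀ (s : Finset ℕ) (F : ℕ → AddMonoid.End (K u PUnit.{1})) (y : K u PUnit.{1}),
        (∑ m ∈ s, F m) y = ∑ m ∈ s, F m y := fun s F y =>
      map_sum (AddMonoidHom.eval y : (K u PUnit.{1} →+ K u PUnit.{1}) →+ K u PUnit.{1}) F s
    rw [hexp, hsum, map_sum, Finset.sum_eq_single 0]
    · rw [pow_zero, one_pow, one_mul, Nat.choose_zero_right, Nat.cast_one, one_mul]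
      exact hP1
    · intro m hm hm0
      obtain ⟨c, hc⟩ := hterm m
      rw [hc, map_zsmul, hval, if_neg, smul_zero]
      intro hd
      have := Nat.le_of_dvd (Nat.pos_of_ne_zero hm0) hd
      have := Finset.mem_range.1 hm
      omega
    · intro h
      exact absurd (Finset.mem_range.2 (Nat.succ_pos _)) h
  rw [hz, map_zsmul] at key
  have h1 : rk ((5 : ℤ) • P 1 z) = 1 := by rw [key, hrk]
  rw [map_zsmul, smul_eq_mul] at h1
  omega

end Pool.Agent.HCF
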