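import Pool.Agent.HCF.KSph

/-! # Transfer for the fifth roots of unity (module KTRANS) -/

noncomputable section

namespace Pool.Agent.HCF

variable {Γ : Type} [DecidableEq Γ] {u : Γ → Circle} {θ : Γ} [hθ : Fact (u θ ^ 5 = 1)]
  {Z : Type} [TopologicalSpace Z] [Op Γ Z]

/-- a primitive fifth root of unity -/
def ktransZeta : Circle := Circle.exp (2 * Real.pi / 5)

theorem ktrans_prim : IsPrimitiveRoot (ktransZeta : ℂ) 5 := by
  have h1 := Complex.isPrimitiveRoot_exp 5 (by norm_num)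
  have h2 : (ktransZeta : ℂ) = Complex.exp (2 * Real.pi * Complex.I / (5 : ℕ)) := by
    rw [ktransZeta, Circle.coe_exp]
    congr 1
    push_cast
    ring
  rw [h2]
  exact h1

theorem ktrans_zeta5 : ktransZeta ^ 5 = 1 := by
  apply Circle.ext
  rw [Circle.coe_pow, Circle.coe_one]
  exact ktrans_prim.pow_eq_one

/-- the powers of the primitive root -/
def ktransPt (u : Γ → Circle) (θ : Γ) (k : Fin 5) : HH u θ :=
  ⟨ktransZeta ^ (k : ℕ), by rw [← pow_mul, mul_comm, pow_mul, ktrans_zeta5, one_pow]⟩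

omit [DecidableEq Γ] hθ in
theorem ktrans_bij : Function.Bijective (ktransPt u θ) := by
  constructor
  · intro k l h
    have h1 : (ktransZeta : ℂ) ^ (k : ℕ) = (ktransZeta : ℂ) ^ (l : ℕ) := by
      have h2 : ktransZeta ^ (k : ℕ) = ktransZeta ^ (l : ℕ) := congrArg Subtype.val h
      rw [← Circle.coe_pow, ← Circle.coe_pow, h2]
    exact Fin.ext (ktrans_prim.pow_inj k.isLt l.isLt h1)
  · intro h
    have h1 : ((h.1 : Circle) : ℂ) ^ 5 = 1 := by
      rw [← Circle.coe_pow, h.2, Circle.coe_one]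
    obtain ⟨i, hi, hi'⟩ := ktrans_prim.eq_pow_of_pow_eq_one h1
    refine ⟨⟨i, hi⟩, Subtype.ext (Circle.ext ?_)⟩
    change ((ktransZeta ^ i : Circle) : ℂ) = _
    rw [Circle.coe_pow, hi']

/-- the fifth roots of unity are finite in number -/
def ktransFin (u : Γ → Circle) (θ : Γ) : Fintype (HH u θ) :=
  Fintype.ofBijective (ktransPt u θ) ktrans_bij

attribute [local instance] ktransFin

omit [DecidableEq Γ] hθ in
theorem ktrans_card : Fintype.card (HH u θ) = 5 := by
  rw [← Fintype.card_of_bijective (ktrans_bij (u := u) (θ := θ)), Fintype.card_fin]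

/-- multiplication by a fifth root of unity -/
def ktransMul (c : Circle) (hc : c ^ 5 = 1) : HH u θ ≃ HH u θ where
  toFun h := ⟨c * h.1, by rw [mul_pow, hc, h.2, one_mul]⟩
  invFun h := ⟨c⁻¹ * h.1, by rw [mul_pow, inv_pow, hc, h.2, inv_one, one_mul]⟩
  left_inv h := Subtype.ext (inv_mul_cancel_left c h.1)
  right_inv h := Subtype.ext (mul_inv_cancel_left c h.1)

/-- the character of number `m` -/
def ktransCh (m : ℤ) (h : HH u θ) : ℂ := ((h.1 ^ m : Circle) : ℂ)

omit [DecidableEq Γ] hθ in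
theorem ktransCh_add (m n : ℤ) (h : HH u θ) :
    ktransCh (m + n) h = ktransCh m h * ktransCh n h := by
  rw [ktransCh, ktransCh, ktransCh, zpow_add, Circle.coe_mul]

omit [DecidableEq Γ] hθ in
theorem ktransCh_five (m : ℤ) (h : HH u θ) (hm : (5 : ℤ) ∣ m) : ktransCh m h = 1 := by
  obtain ⟨k, rfl⟩ := hm
  have h1 : h.1 ^ (5 : ℤ) = 1 := by
    have := h.2
    exact_mod_cast this
  rw [ktransCh, zpow_mul, h1, one_zpow, Circle.coe_one]

omit [DecidableEq Γ] hθ in
theorem ktrans_orth (m : ℤ) :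
    ∑ h : HH u θ, ktransCh m h = if (5 : ℤ) ∣ m then 5 else 0 := by
  by_cases hm : (5 : ℤ) ∣ m
  · rw [if_pos hm, Finset.sum_congr rfl fun h _ => ktransCh_five m h hm, Finset.sum_const,
      Finset.card_univ, ktrans_card]
    norm_num
  · rw [if_neg hm]
    have h1 : ∑ h : HH u θ, ktransCh m h =
        ∑ h : HH u θ, ktransCh m (ktransMul (u := u) (θ := θ) ktransZeta ktrans_zeta5 h) :=
      (Equiv.sum_comp (ktransMul (u := u) (θ := θ) ktransZeta ktrans_zeta5)
        (fun h => ktransCh m h)).symm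
    have h2 : ∀ h : HH u θ,
        ktransCh m (ktransMul (u := u) (θ := θ) ktransZeta ktrans_zeta5 h) =
          ((ktransZeta ^ m : Circle) : ℂ) * ktransCh m h := by
      intro h
      change (((ktransZeta * h.1) ^ m : Circle) : ℂ) = _
      rw [mul_zpow, Circle.coe_mul]
      rfl
    simp only [h2] at h1
    rw [← Finset.mul_sum] at h1
    have h3 : ((ktransZeta ^ m : Circle) : ℂ) ≠ 1 := by
      intro h4
      rw [Circle.coe_zpow] at h4
      exact hm ((ktrans_prim.zpow_eq_one_iff_dvd m).1 h4)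
    have h5 : (1 - ((ktransZeta ^ m : Circle) : ℂ)) * ∑ h : HH u θ, ktransCh m h = 0 := by
      rw [sub_mul, one_mul, ← h1, sub_self]
    rcases mul_eq_zero.1 h5 with h6 | h6
    · exact absurd (sub_eq_zero.1 h6).symm h3
    · exact h6

omit [DecidableEq Γ] hθ in
/-- the dual orthogonality relation -/
theorem ktrans_orth' [DecidableEq (HH u θ)] (h h' : HH u θ) :
    ∑ l : Fin 5, ktransCh (-(l : ℤ)) h * ktransCh (l : ℤ) h' = if h = h' then 5 else 0 := by
  by_cases hh : h = h'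
  · subst hh
    rw [if_pos rfl]
    have h1 : ∀ l : Fin 5, ktransCh (-(l : ℤ)) h * ktransCh (l : ℤ) h = 1 := by
      intro l
      rw [← ktransCh_add, neg_add_cancel]
      exact ktransCh_five 0 h (dvd_zero _)
    rw [Finset.sum_congr rfl fun l _ => h1 l]
    simp
  · rw [if_neg hh]
    obtain ⟨r, hr⟩ : ∃ r : ℂ, r = (((h.1)⁻¹ * h'.1 : Circle) : ℂ) := ⟨_, rfl⟩
    have h1 : ∀ l : Fin 5, ktransCh (-(l : ℤ)) h * ktransCh (l : ℤ) h' = r ^ (l : ℕ) := by
      intro l
      rw [ktransCh, ktransCh, hr, ← Circle.coe_mul, ← Circle.coe_pow, mul_pow, zpow_neg,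
        zpow_natCast, zpow_natCast, inv_pow]
    have h2 : r ≠ 1 := by
      intro h3
      rw [hr] at h3
      have h4 : (h.1)⁻¹ * h'.1 = 1 := Circle.ext (by rw [h3, Circle.coe_one])
      exact hh (Subtype.ext (inv_mul_eq_one.1 h4))
    have h5 : r ^ 5 = 1 := by
      rw [hr, ← Circle.coe_pow, mul_pow, inv_pow, h.2, h'.2, inv_one, one_mul, Circle.coe_one]
    rw [Finset.sum_congr rfl fun l _ => h1 l, Fin.sum_univ_eq_sum_range (fun l => r ^ l) 5,
      geom_sum_eq h2, h5, sub_self, zero_div]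

/-- the `m`-th coefficient -/
def ktransC (m : ℤ) (f : C(Z × HH u θ, ℂ)) : C(Z, ℂ) :=
  ⟨fun z => (1 / 5) * ∑ h : HH u θ, ktransCh (-m) h * f (z, h), by
    refine continuous_const.mul (continuous_finsetSum _ fun h _ => ?_)
    exact continuous_const.mul (f.continuous.comp (continuous_id.prodMk continuous_const))⟩

omit [DecidableEq Γ] hθ [Op Γ Z] in
theorem ktransC_apply (m : ℤ) (f : C(Z × HH u θ, ℂ)) (z : Z) :
    ktransC m f z = (1 / 5) * ∑ h : HH u θ, ktransCh (-m) h * f (z, h) := rfl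

omit [DecidableEq Γ] hθ [Op Γ Z] in
theorem ktransC_zero (m : ℤ) : ktransC m (0 : C(Z × HH u θ, ℂ)) = 0 := by
  ext z
  rw [ktransC_apply]
  simp

omit [DecidableEq Γ] hθ [Op Γ Z] in
theorem ktransC_sum {α : Type} (s : Finset α) (m : ℤ) (f : α → C(Z × HH u θ, ℂ)) :
    ktransC m (∑ i ∈ s, f i) = ∑ i ∈ s, ktransC m (f i) := by
  ext z
  rw [ktransC_apply, ContinuousMap.sum_apply]
  simp only [ktransC_apply, ContinuousMap.sum_apply]
  rw [← Finset.mul_sum, Finset.sum_comm]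
  congr 1
  refine Finset.sum_congr rfl fun h _ => ?_
  rw [Finset.mul_sum]

omit [DecidableEq Γ] hθ [Op Γ Z] in
theorem ktransC_conv (k n : ℤ) (f g : C(Z × HH u θ, ℂ)) :
    ∑ l : Fin 5, ktransC ((l : ℤ) - k) f * ktransC (n - (l : ℤ)) g = ktransC (n - k) (f * g) := by
  classical
  ext z
  rw [ContinuousMap.sum_apply]
  have h1 : ∀ l : Fin 5, (ktransC ((l : ℤ) - k) f * ktransC (n - (l : ℤ)) g) z =
      ∑ h : HH u θ, ∑ h' : HH u θ, (1 / 25) * (ktransCh k h * ktransCh (-n) h' *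
        (f (z, h) * g (z, h'))) * (ktransCh (-(l : ℤ)) h * ktransCh (l : ℤ) h') := by
    intro l
    rw [ContinuousMap.mul_apply, ktransC_apply, ktransC_apply, mul_mul_mul_comm,
      Finset.sum_mul_sum, Finset.mul_sum]
    refine Finset.sum_congr rfl fun h _ => ?_
    rw [Finset.mul_sum]
    refine Finset.sum_congr rfl fun h' _ => ?_
    have e1 : -((l : ℤ) - k) = k + -(l : ℤ) := by ring
    have e2 : -(n - (l : ℤ)) = -n + (l : ℤ) := by ring
    rw [e1, e2, ktransCh_add, ktransCh_add]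
    ring
  rw [Finset.sum_congr rfl fun l _ => h1 l, Finset.sum_comm]
  have h2 : ∀ h : HH u θ, ∑ l : Fin 5, ∑ h' : HH u θ, (1 / 25) * (ktransCh k h *
      ktransCh (-n) h' * (f (z, h) * g (z, h'))) * (ktransCh (-(l : ℤ)) h *
        ktransCh (l : ℤ) h') = (1 / 5) * (ktransCh (-(n - k)) h * (f (z, h) * g (z, h))) := by
    intro h
    rw [Finset.sum_comm]
    simp only [← Finset.mul_sum, ktrans_orth']
    rw [Finset.sum_eq_single h]
    · rw [if_pos rfl]
      have e3 : -(n - k) = k + -n := by ring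
      rw [e3, ktransCh_add]
      ring
    · intro h' _ hne
      rw [if_neg (Ne.symm hne), mul_zero]
    · intro hcon
      exact absurd (Finset.mem_univ h) hcon
  rw [Finset.sum_congr rfl fun h _ => h2 h, ktransC_apply, ← Finset.mul_sum]
  rfl

theorem ktransC_isW (m : ℤ) (y : Γ → ℤ) (f : C(Z × HH u θ, ℂ)) (hf : IsW u y f) :
    IsW u (y - m • sw θ) (ktransC m f) := by
  intro g z
  have hc : (u g ^ sw θ g) ^ 5 = 1 := by
    by_cases hg : g = θ
    · subst hg; simp [sw, hθ.out]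
    · simp [sw, hg]
  rw [ktransC_apply, ktransC_apply]
  have h1 : ∑ h : HH u θ, ktransCh (-m) h * f (op g z, h) =
      ∑ h : HH u θ, ktransCh (-m) (ktransMul (u := u) (θ := θ) _ hc h) *
        f (op g z, ktransMul (u := u) (θ := θ) _ hc h) :=
    (Equiv.sum_comp (ktransMul (u := u) (θ := θ) _ hc)
      (fun h => ktransCh (-m) h * f (op g z, h))).symm
  have h2 : ∀ h : HH u θ, ktransCh (-m) (ktransMul (u := u) (θ := θ) _ hc h) *
      f (op g z, ktransMul (u := u) (θ := θ) _ hc h) =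
        ch u (y - m • sw θ) g * (ktransCh (-m) h * f (z, h)) := by
    intro h
    have h3 : f (op g z, ktransMul (u := u) (θ := θ) _ hc h) = ch u y g * f (z, h) :=
      hf g (z, h)
    have h4 : ktransCh (-m) (ktransMul (u := u) (θ := θ) _ hc h) =
        ch u (-(m • sw θ)) g * ktransCh (-m) h := by
      change (((u g ^ sw θ g * h.1) ^ (-m) : Circle) : ℂ) = _
      rw [mul_zpow, Circle.coe_mul]
      congr 1
      rw [ch, ← zpow_mul]
      congr 2
      simp only [Pi.neg_apply, Pi.smul_apply, smul_eq_mul]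
      ring
    rw [h3, h4, sub_eq_add_neg, ch_add]
    ring
  rw [h1, Finset.sum_congr rfl fun h _ => h2 h, ← Finset.mul_sum]
  ring

/-- transfer of a matrix -/
def ktransM {μ ν : Type} (a : Matrix μ ν C(Z × HH u θ, ℂ)) :
    Matrix (μ × Fin 5) (ν × Fin 5) C(Z, ℂ) :=
  fun p q => ktransC ((q.2 : ℤ) - (p.2 : ℤ)) (a p.1 q.1)

omit [DecidableEq Γ] hθ [Op Γ Z] in
theorem ktransM_mul {μ ν ρ : Type} [Fintype ν] (a : Matrix μ ν C(Z × HH u θ, ℂ))
    (b : Matrix ν ρ C(Z × HH u θ, ℂ)) : ktransM a * ktransM b = ktransM (a * b) := by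
  ext1 p q
  rw [Matrix.mul_apply, Fintype.sum_prod_type]
  simp only [ktransM]
  rw [Matrix.mul_apply, ktransC_sum]
  exact Finset.sum_congr rfl fun j _ => ktransC_conv _ _ _ _

/-- the weights of the transfer -/
def ktransW {μ : Type} (θ : Γ) (w : μ → Γ → ℤ) : μ × Fin 5 → Γ → ℤ :=
  fun p => w p.1 + ((p.2 : ℕ) : ℤ) • sw θ

theorem ktransM_hom {μ ν : Type} {w : μ → Γ → ℤ} {w' : ν → Γ → ℤ}
    {a : Matrix μ ν C(Z × HH u θ, ℂ)} (ha : HomM u w w' a) :
    HomM u (ktransW θ w) (ktransW θ w') (ktransM a) := by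
  intro p q
  refine (ktransC_isW ((q.2 : ℤ) - (p.2 : ℤ)) _ _ (ha p.1 q.1)).congr ?_
  simp only [ktransW, sub_smul]
  abel

/-- transfer of a bundle -/
def ktransB (E : Bun u (Z × HH u θ)) : Bun u Z where
  ι := E.ι × Fin 5
  w := ktransW θ E.w
  e := ktransM E.e
  idem := by rw [ktransM_mul, E.idem]
  hom := ktransM_hom E.hom

theorem ktrans_iso {E F : Bun u (Z × HH u θ)} (h : Bun.Iso E F) :
    Bun.Iso (ktransB E) (ktransB F) := by
  obtain ⟨a, b, ha, hb, hab, hba⟩ := h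
  refine ⟨ktransM a, ktransM b, ktransM_hom ha, ktransM_hom hb, ?_, ?_⟩
  · change ktransM a * ktransM b = ktransM E.e
    rw [ktransM_mul, hab]
  · change ktransM b * ktransM a = ktransM F.e
    rw [ktransM_mul, hba]

theorem ktrans_sum (E F : Bun u (Z × HH u θ)) :
    Bun.Iso (ktransB (E.sum F)) ((ktransB E).sum (ktransB F)) := by
  refine Bun.iso_of_equiv _ _ (Equiv.sumProdDistrib E.ι F.ι (Fin 5)) ?_ ?_
  · rintro ⟨i | i, k⟩
    · rfl
    · rfl
  · rintro ⟨i | i, k⟩ ⟨j | j, l⟩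
    · rfl
    · exact (ktransC_zero _).symm
    · exact (ktransC_zero _).symm
    · rfl

/-- the transfer on the K group -/
def ktransK (u : Γ → Circle) (θ : Γ) [Fact (u θ ^ 5 = 1)] (Z : Type) [TopologicalSpace Z]
    [Op Γ Z] : K u (Z × HH u θ) →+ K u Z :=
  Klift (fun E => cls (ktransB E))
    (fun E F => by
      rw [← cls_sum]
      exact cls_iso (ktrans_sum E F))
    (fun E F h => cls_iso (ktrans_iso h))

omit [DecidableEq Γ] hθ [Op Γ Z] in
theorem ktransC_fst (f : C(Z, ℂ)) (k l : Fin 5) :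
    ktransC ((l : ℤ) - (k : ℤ)) (f.comp ContinuousMap.fst : C(Z × HH u θ, ℂ)) =
      if k = l then f else 0 := by
  ext z
  rw [ktransC_apply]
  have h1 : ∀ h : HH u θ, ktransCh (-((l : ℤ) - (k : ℤ))) h *
      (f.comp ContinuousMap.fst : C(Z × HH u θ, ℂ)) (z, h) =
        ktransCh (-((l : ℤ) - (k : ℤ))) h * f z := fun h => rfl
  rw [Finset.sum_congr rfl fun h _ => h1 h, ← Finset.sum_mul, ktrans_orth]
  by_cases hkl : k = l
  · subst hkl
    rw [if_pos (by simp), if_pos rfl]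
    ring
  · rw [if_neg, if_neg hkl]
    · simp
    · intro hd
      apply hkl
      apply Fin.ext
      have h2 := k.isLt
      have h3 := l.isLt
      omega

/-- five copies -/
def ktransE (ι : Type) : ι × Fin 5 ≃ ((((ι ⊕ ι) ⊕ ι) ⊕ ι) ⊕ ι) where
  toFun p := match p with
    | (i, 0) => Sum.inl (Sum.inl (Sum.inl (Sum.inl i)))
    | (i, 1) => Sum.inl (Sum.inl (Sum.inl (Sum.inr i)))
    | (i, 2) => Sum.inl (Sum.inl (Sum.inr i))
    | (i, 3) => Sum.inl (Sum.inr i)
    | (i, 4) => Sum.inr i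
  invFun q := match q with
    | Sum.inl (Sum.inl (Sum.inl (Sum.inl i))) => (i, 0)
    | Sum.inl (Sum.inl (Sum.inl (Sum.inr i))) => (i, 1)
    | Sum.inl (Sum.inl (Sum.inr i)) => (i, 2)
    | Sum.inl (Sum.inr i) => (i, 3)
    | Sum.inr i => (i, 4)
  left_inv := by
    rintro ⟨i, k⟩
    fin_cases k <;> rfl
  right_inv := by
    rintro ((((i | i) | i) | i) | i) <;> rfl

theorem ktrans_pull (E : Bun u Z) :
    Bun.Iso (ktransB (E.pull (cfst Z (HH u θ)) eqv_fst))
      (((((E.tw 0).sum (E.tw (sw θ))).sum (E.tw (2 • sw θ))).sum (E.tw (3 • sw θ))).sum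
        (E.tw (4 • sw θ))) := by
  refine Bun.iso_of_equiv _ _ (ktransE E.ι) ?_ ?_
  · rintro ⟨i, k⟩
    fin_cases k
    · change E.w i + 0 = E.w i + (((0 : Fin 5) : ℕ) : ℤ) • sw θ
      simp
    · change E.w i + sw θ = E.w i + (((1 : Fin 5) : ℕ) : ℤ) • sw θ
      simp
    · change E.w i + 2 • sw θ = E.w i + (((2 : Fin 5) : ℕ) : ℤ) • sw θ
      simp
    · change E.w i + 3 • sw θ = E.w i + (((3 : Fin 5) : ℕ) : ℤ) • sw θ
      rw [natCast_zsmul]
      rfl
    · change E.w i + 4 • sw θ = E.w i + (((4 : Fin 5) : ℕ) : ℤ) • sw θ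
      rw [natCast_zsmul]
      rfl
  · rintro ⟨i, k⟩ ⟨j, l⟩
    have h1 : (ktransB (E.pull (cfst Z (HH u θ)) eqv_fst)).e (i, k) (j, l) =
        if k = l then E.e i j else 0 := ktransC_fst (E.e i j) k l
    rw [h1]
    fin_cases k <;> fin_cases l <;> rfl

/-- The transfer: there is an additive map `K(Z × H) → K(Z)` whose composition with the pull back
is multiplication by `1 + s + s^2 + s^3 + s^4`. -/
theorem exists_transfer : ∃ tr : K u (Z × HH u θ) →+ K u Z, ∀ y : K u Z,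
    tr (Kfst u Z (HH u θ) y) =
      y + Ktw (sw θ) y + Ktw (2 • sw θ) y + Ktw (3 • sw θ) y + Ktw (4 • sw θ) y := by
  refine ⟨ktransK u θ Z, fun y => ?_⟩
  have h : (ktransK u θ Z).comp (Kfst u Z (HH u θ)) =
      ((((Ktw 0 : AddMonoid.End (K u Z)) + Ktw (sw θ) + Ktw (2 • sw θ) + Ktw (3 • sw θ) +
        Ktw (4 • sw θ) : AddMonoid.End (K u Z))) : K u Z →+ K u Z) := by
    refine K_hom_ext fun E => ?_
    rw [AddMonoidHom.comp_apply, Kpull_cls]
    change ktransK u θ Z (cls (E.pull (cfst Z (HH u θ)) eqv_fst)) =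
      Ktw 0 (cls E) + Ktw (sw θ) (cls E) + Ktw (2 • sw θ) (cls E) + Ktw (3 • sw θ) (cls E) +
        Ktw (4 • sw θ) (cls E)
    rw [Ktw_cls, Ktw_cls, Ktw_cls, Ktw_cls, Ktw_cls, ktransK, Klift_cls,
      cls_iso (ktrans_pull E), cls_sum, cls_sum, cls_sum, cls_sum]
  have h1 := DFunLike.congr_fun h y
  rw [AddMonoidHom.comp_apply] at h1
  rw [h1]
  change Ktw 0 y + Ktw (sw θ) y + Ktw (2 • sw θ) y + Ktw (3 • sw θ) y + Ktw (4 • sw θ) y = _
  rw [Ktw_zero]
  rfl

end Pool.Agent.HCF
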