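import Pool.Agent.HCF.KBott
import Pool.Agent.HCF.KClif
import Pool.Agent.HCF.KRoot
import Pool.Agent.HCF.KTrans
import Pool.Agent.HCF.KDesc
import Pool.Agent.HCF.KPt
import Pool.Agent.HCF.KIsotB

/-! # The reduction lemma (module KRED) -/

noncomputable section

namespace Pool.Agent.HCF

section KRedMaps

variable {Γ : Type} {u : Γ → Circle}

/-- the coordinate functions of the sphere -/
def kredC (u : Γ → Circle) (x : Γ → ℤ) (n : ℕ) (i : Fin n) : C(Sph u x n, ℂ) :=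
  (⟨fun v => v.1 i, by fun_prop⟩ : C(Metric.sphere (0 : EuclideanSpace ℂ (Fin n)) 1, ℂ))

lemma kredC_isW (x : Γ → ℤ) (n : ℕ) (i : Fin n) : IsW u x (kredC u x n i) := fun _ _ => rfl

lemma kredC_norm (x : Γ → ℤ) (n : ℕ) (v : Sph u x n) : ∑ i, ‖kredC u x n i v‖ ^ 2 = 1 := by
  have hv : ‖v.1‖ = 1 := mem_sphere_zero_iff_norm.1 v.2
  have h1 := EuclideanSpace.norm_sq_eq v.1
  rw [hv, one_pow] at h1
  exact h1.symm

/-- a map into the sphere given by its coordinates -/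
def kredS (u : Γ → Circle) (x : Γ → ℤ) {n : ℕ} {X : Type} [TopologicalSpace X]
    (f : Fin n → C(X, ℂ)) (hf : ∀ z, ∑ i, ‖f i z‖ ^ 2 = 1) : C(X, Sph u x n) :=
  (⟨fun z => ⟨WithLp.toLp 2 (fun i => f i z), by
    rw [mem_sphere_zero_iff_norm, EuclideanSpace.norm_eq]
    simp only
    rw [hf z, Real.sqrt_one]⟩, by
      refine Continuous.subtype_mk ?_ _
      refine (PiLp.continuous_toLp 2 _).comp ?_
      exact continuous_pi fun i => (f i).continuous⟩ :
    C(X, Metric.sphere (0 : EuclideanSpace ℂ (Fin n)) 1))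

lemma kredS_eqv (x : Γ → ℤ) {n : ℕ} {X : Type} [TopologicalSpace X] [Op Γ X]
    (f : Fin n → C(X, ℂ)) (hf : ∀ z, ∑ i, ‖f i z‖ ^ 2 = 1) (hW : ∀ i, IsW u x (f i)) :
    Eqv Γ (kredS u x f hf) := by
  intro g z
  apply Subtype.ext
  apply PiLp.ext
  intro i
  exact hW i g z

lemma kredS_ext (x : Γ → ℤ) {n : ℕ} {X : Type} [TopologicalSpace X]
    (f : Fin n → C(X, ℂ)) (hf : ∀ z, ∑ i, ‖f i z‖ ^ 2 = 1) (z : X) (v : Sph u x n)
    (h : ∀ i, f i z = kredC u x n i v) : kredS u x f hf z = v := by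
  apply Subtype.ext
  apply PiLp.ext
  intro i
  exact h i

lemma kredS_ext' (x : Γ → ℤ) {n : ℕ} {X X' : Type} [TopologicalSpace X] [TopologicalSpace X']
    (f : Fin n → C(X, ℂ)) (hf : ∀ z, ∑ i, ‖f i z‖ ^ 2 = 1) (f' : Fin n → C(X', ℂ))
    (hf' : ∀ z, ∑ i, ‖f' i z‖ ^ 2 = 1) (z : X) (z' : X') (h : ∀ i, f i z = f' i z') :
    kredS u x f hf z = kredS u x f' hf' z' := by
  apply Subtype.ext
  apply PiLp.ext
  intro i
  exact h i

lemma kred_prodMk {X Z Z' : Type} [TopologicalSpace X] [TopologicalSpace Z] [TopologicalSpace Z']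
    [Op Γ X] [Op Γ Z] [Op Γ Z'] {f : C(X, Z)} {g : C(X, Z')} (hf : Eqv Γ f) (hg : Eqv Γ g) :
    Eqv Γ (f.prodMk g) := fun γ z => Prod.ext (hf γ z) (hg γ z)

lemma kred_comp {X Z Z' : Type} [TopologicalSpace X] [TopologicalSpace Z] [TopologicalSpace Z']
    [Op Γ X] [Op Γ Z] [Op Γ Z'] {f : C(X, Z)} {g : C(Z, Z')} (hf : Eqv Γ f) (hg : Eqv Γ g) :
    Eqv Γ (g.comp f) := fun γ z => by
  rw [ContinuousMap.comp_apply, hf γ z, hg γ (f z)]
  rfl

lemma kred_sub_apply {Z : Type} [TopologicalSpace Z] [Op Γ Z] (x : Γ → ℤ) (y : K u Z) :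
    (1 - Ktw x : AddMonoid.End (K u Z)) y = y - Ktw x y := rfl

lemma kred_mul_apply {Z : Type} [TopologicalSpace Z] [Op Γ Z] (f g : AddMonoid.End (K u Z))
    (y : K u Z) : (f * g) y = f (g y) := rfl

/-- pull back commutes with `(1 - x)^m` -/
lemma kred_pull_pow {Z Z' : Type} [TopologicalSpace Z] [Op Γ Z] [TopologicalSpace Z'] [Op Γ Z']
    (φ : C(Z', Z)) (hφ : Eqv Γ φ) (x : Γ → ℤ) (m : ℕ) (y : K u Z) :
    Kpull φ hφ (((1 - Ktw x) ^ m : AddMonoid.End (K u Z)) y) =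
      ((1 - Ktw x) ^ m : AddMonoid.End (K u Z')) (Kpull φ hφ y) := by
  induction m generalizing y with
  | zero => rfl
  | succ m ih =>
    rw [pow_succ, pow_succ, kred_mul_apply, kred_mul_apply, ih, kred_sub_apply, kred_sub_apply,
      map_sub, Kpull_tw]

end KRedMaps

section KRedMain

/-- the class `(1 - t)^m [1]` -/
def kredX (u : Bool → Circle) (Z : Type) [TopologicalSpace Z] [Op Bool Z] (m : ℕ) : K u Z :=
  ((1 - Ktw (wt 1)) ^ m : AddMonoid.End (K u Z)) (K1 u Z)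

/-- the class `(1 - s) (1 - t)^m [1]` -/
def kredY (u : Bool → Circle) (Z : Type) [TopologicalSpace Z] [Op Bool Z] (m : ℕ) : K u Z :=
  (1 - Ktw (sw true) : AddMonoid.End (K u Z)) (kredX u Z m)

variable {u : Bool → Circle} {Z Z' : Type} [TopologicalSpace Z] [Op Bool Z] [TopologicalSpace Z']
  [Op Bool Z']

lemma kredX_pull (φ : C(Z', Z)) (hφ : Eqv Bool φ) (m : ℕ) :
    Kpull φ hφ (kredX u Z m) = kredX u Z' m := by
  rw [kredX, kred_pull_pow, Kpull_one]
  rfl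

lemma kredY_pull (φ : C(Z', Z)) (hφ : Eqv Bool φ) (m : ℕ) :
    Kpull φ hφ (kredY u Z m) = kredY u Z' m := by
  change Kpull φ hφ (kredX u Z m - Ktw (sw true) (kredX u Z m)) =
    kredX u Z' m - Ktw (sw true) (kredX u Z' m)
  rw [map_sub, Kpull_tw, kredX_pull]

lemma kred_u5 (hθ : u true = Circle.exp (2 * Real.pi / 5)) : u true ^ 5 = 1 := by
  rw [hθ]
  apply Circle.ext
  rw [Circle.coe_pow, Circle.coe_exp, ← Complex.exp_nat_mul, Circle.coe_one]
  rw [Complex.exp_eq_one_iff]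
  refine ⟨1, ?_⟩
  push_cast
  ring

lemma kred_prim (hθ : u true = Circle.exp (2 * Real.pi / 5)) :
    IsPrimitiveRoot ((u true : Circle) : ℂ) 5 := by
  have h1 := Complex.isPrimitiveRoot_exp 5 (by norm_num)
  rw [hθ, Circle.coe_exp]
  convert h1 using 2
  push_cast
  ring

lemma kred_u1 (hθ : u true = Circle.exp (2 * Real.pi / 5)) : u true ≠ 1 := by
  intro h
  have h1 := (kred_prim hθ).ne_one (by norm_num)
  rw [h] at h1
  exact h1 rfl

lemma kred_gen (hθ : u true = Circle.exp (2 * Real.pi / 5)) (h : Circle) (hh : h ^ 5 = 1) :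
    ∃ k : ℤ, h = u true ^ k := by
  have h1 : ((h : Circle) : ℂ) ^ 5 = 1 := by
    rw [← Circle.coe_pow, hh, Circle.coe_one]
  obtain ⟨i, -, hi⟩ := (kred_prim hθ).eq_pow_of_pow_eq_one h1
  refine ⟨i, ?_⟩
  rw [zpow_natCast]
  apply Circle.ext
  rw [Circle.coe_pow, hi]

lemma kred_s5 (h5 : u true ^ 5 = 1) : (Ktw (sw true) : AddMonoid.End (K u Z)) ^ 5 = 1 := by
  rw [← Ktw_nsmul]
  apply Ktw_eq_one_of_ch
  rintro (_ | _)
  · simp [sw]
  · simp only [sw, Pi.smul_apply, Pi.single_eq_same]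
    rw [show (5 : ℕ) • (1 : ℤ) = ((5 : ℕ) : ℤ) from rfl, zpow_natCast]
    exact h5

/-- over a space with three functions: `1 + s + ... + s^4 = 5` and `5 (1 - s) = 0` -/
lemma kred_nu (h5 : u true ^ 5 = 1) (v : Fin 3 → C(Z, ℂ)) (hv : ∀ i, IsW u (sw true) (v i))
    (hn : ∀ z, ∑ i, ‖v i z‖ ^ 2 = 1) (y : K u Z) :
    y + Ktw (sw true) y + Ktw (2 • sw true) y + Ktw (3 • sw true) y + Ktw (4 • sw true) y =
      (5 : ℤ) • y ∧ (5 : ℤ) • (1 - Ktw (sw true) : AddMonoid.End (K u Z)) y = 0 := by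
  obtain ⟨h1, h2⟩ := nu_eq (Ktw (sw true) : AddMonoid.End (K u Z)) (kred_s5 h5)
    (Ktw_cube (sw true) v hv hn)
  have hfive : ∀ y : K u Z, (5 : AddMonoid.End (K u Z)) y = (5 : ℤ) • y := by
    intro y
    rw [show (5 : AddMonoid.End (K u Z)) = 1 + 1 + 1 + 1 + 1 from by norm_num]
    change y + y + y + y + y = (5 : ℤ) • y
    rw [show (5 : ℤ) = 1 + 1 + 1 + 1 + 1 from by norm_num]
    simp only [add_smul, one_smul]
  refine ⟨?_, ?_⟩
  · have h3 := DFunLike.congr_fun h1 y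
    rw [hfive] at h3
    rw [← h3, Ktw_nsmul, Ktw_nsmul, Ktw_nsmul]
    rfl
  · have h3 := DFunLike.congr_fun h2 y
    rw [← hfive]
    exact h3

end KRedMain

variable {Z : Type} [TopologicalSpace Z] [Op Bool Z]

/-- Step 1 (module KREDA): on `Z × S(2s)` the class `σ ξ` vanishes. -/
theorem reduction_aux [CompactSpace Z] (u : Bool → Circle)
    (hτ : ∃ m : ℕ, 0 < m ∧ u false ^ m = 1)
    (hθ : u true = Circle.exp (2 * Real.pi / 5)) (hZ : ∀ z : Z, (op true : C(Z, Z)) z = z)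
    (c : ℤ) (j : ℕ) (hc : (u false ^ c) ^ (5 ^ j) = 1) (m : ℕ)
    (h : ∃ z : K u (Z × Sph u (wt c) (5 ^ j)),
      ((1 - Ktw (wt 1)) ^ m : AddMonoid.End (K u (Z × Sph u (wt c) (5 ^ j)))) (K1 u _) =
        (5 : ℤ) • z) :
    Kfst u Z (Sph u (sw true) 2) (((1 - Ktw (sw true)) * (1 - Ktw (wt 1)) ^ m :
      AddMonoid.End (K u Z)) (K1 u Z)) = 0 := by
  have h5 := kred_u5 hθ
  have : Fact (u true ^ 5 = 1) := ⟨h5⟩
  change Kfst u Z (Sph u (sw true) 2) (kredY u Z m) = 0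
  rw [kredY_pull]
  obtain ⟨z, hz⟩ := h
  change kredX u (Z × Sph u (wt c) (5 ^ j)) m = (5 : ℤ) • z at hz
  -- Step 1: on `(Z × S3) × X`
  have hstep1 : kredY u ((Z × Sph u (sw true) 3) × Sph u (wt c) (5 ^ j)) m = 0 := by
    let p : C((Z × Sph u (sw true) 3) × Sph u (wt c) (5 ^ j), Z × Sph u (wt c) (5 ^ j)) :=
      (ContinuousMap.fst.comp ContinuousMap.fst).prodMk ContinuousMap.snd
    have hp : Eqv Bool p := fun g z => rfl
    have h1 := kredX_pull (u := u) p hp m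
    rw [hz, map_zsmul] at h1
    rw [kredY, ← h1, map_zsmul]
    refine (kred_nu h5 (fun i => (kredC u (sw true) 3 i).comp
      (ContinuousMap.snd.comp ContinuousMap.fst)) ?_ ?_ _).2
    · intro i
      exact (kredC_isW (u := u) (sw true) 3 i).comp (fun g z => rfl)
    · intro z
      exact kredC_norm (u := u) (sw true) 3 z.1.2
  -- divisibility
  obtain ⟨b, hb⟩ := bott (u := u) (x := wt c) (Z := Z × Sph u (sw true) 3)
    ⟨5 ^ j, by positivity, by
      rintro (_ | _)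
      · simpa [wt] using hc
      · simp [wt]⟩ (5 ^ j) (kredY u (Z × Sph u (sw true) 3) m) (by
        rw [kredY_pull]
        exact hstep1)
  obtain ⟨r, -, hr, -⟩ := one_sub_pow_five (Ktw (wt c) :
      AddMonoid.End (K u (Z × Sph u (sw true) 3))) j (by
    rw [← Ktw_nsmul]
    apply Ktw_eq_one_of_ch
    rintro (_ | _)
    · simp only [wt, Pi.smul_apply, cond_false]
      rw [nsmul_eq_mul, mul_comm, zpow_mul, zpow_natCast]
      exact hc
    · simp [wt])
  have hfive : ∀ (W : Type) [TopologicalSpace W] [Op Bool W] (y : K u W),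
      (5 : AddMonoid.End (K u W)) y = (5 : ℤ) • y := by
    intro W _ _ y
    rw [show (5 : AddMonoid.End (K u W)) = 1 + 1 + 1 + 1 + 1 from by norm_num]
    change y + y + y + y + y = (5 : ℤ) • y
    rw [show (5 : ℤ) = 1 + 1 + 1 + 1 + 1 from by norm_num]
    simp only [add_smul, one_smul]
  obtain ⟨u1, hu1⟩ : ∃ u1 : K u (Z × Sph u (sw true) 3),
      kredY u (Z × Sph u (sw true) 3) m = (5 : ℤ) • u1 := by
    refine ⟨r b, ?_⟩
    rw [hb, hr, ← hfive]
    rfl
  -- Step 2: restriction to `Z × S2`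
  let fi : Fin 3 → C(Z × Sph u (sw true) 2, ℂ) :=
    ![(kredC u (sw true) 2 0).comp ContinuousMap.snd,
      (kredC u (sw true) 2 1).comp ContinuousMap.snd, 0]
  have hfiW : ∀ i, IsW u (sw true) (fi i) := by
    intro i
    fin_cases i
    · exact (kredC_isW (u := u) (sw true) 2 0).comp eqv_snd
    · exact (kredC_isW (u := u) (sw true) 2 1).comp eqv_snd
    · exact IsW.zero
  have hfin : ∀ z, ∑ i, ‖fi i z‖ ^ 2 = 1 := by
    intro z
    have h1 := kredC_norm (u := u) (sw true) 2 z.2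
    rw [Fin.sum_univ_two] at h1
    rw [Fin.sum_univ_three]
    simpa [fi] using h1
  let i23 : C(Z × Sph u (sw true) 2, Z × Sph u (sw true) 3) :=
    ContinuousMap.fst.prodMk (kredS u (sw true) fi hfin)
  have hi23 : Eqv Bool i23 := kred_prodMk eqv_fst (kredS_eqv (sw true) fi hfin hfiW)
  set u2 : K u (Z × Sph u (sw true) 2) := Kpull i23 hi23 u1 with hu2
  have hY2 : kredY u (Z × Sph u (sw true) 2) m = (5 : ℤ) • u2 := by
    rw [hu2, ← map_zsmul, ← hu1, kredY_pull]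
  -- the maps to `S3` from `Z × H`
  let fj : Fin 3 → C(Z × HH u true, ℂ) := ![0, 0, (Pool.Agent.HCF.hc u true).comp ContinuousMap.snd]
  have hfjW : ∀ i, IsW u (sw true) (fj i) := by
    intro i
    fin_cases i
    · exact IsW.zero
    · exact IsW.zero
    · exact (isW_hc u true).comp eqv_snd
  have hhn : ∀ x : HH u true, ‖Pool.Agent.HCF.hc u true x‖ = 1 := fun x => Circle.norm_coe x.1
  have hfjn : ∀ z, ∑ i, ‖fj i z‖ ^ 2 = 1 := by
    intro z
    rw [Fin.sum_univ_three]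
    simp [fj, hhn]
  let j3 : C(Z × HH u true, Z × Sph u (sw true) 3) :=
    ContinuousMap.fst.prodMk (kredS u (sw true) fj hfjn)
  have hj3 : Eqv Bool j3 := kred_prodMk eqv_fst (kredS_eqv (sw true) fj hfjn hfjW)
  obtain ⟨D, hD⟩ := exists_descent (u := u) (θ := true) hZ (kred_gen hθ)
  set w0 : K u Z := D (Kpull j3 hj3 u1) with hw0
  have hw0' : Kfst u Z (HH u true) w0 = Kpull j3 hj3 u1 := hD _
  -- the homotopy
  let Ct : C(unitInterval, ℂ) := ⟨fun t => (Real.cos (Real.pi * t / 2) : ℂ), by fun_prop⟩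
  let St : C(unitInterval, ℂ) := ⟨fun t => (Real.sin (Real.pi * t / 2) : ℂ), by fun_prop⟩
  let A2 (i : Fin 2) : C(((Z × Sph u (sw true) 2) × HH u true) × unitInterval, ℂ) :=
    (kredC u (sw true) 2 i).comp
      (ContinuousMap.snd.comp (ContinuousMap.fst.comp ContinuousMap.fst))
  let AH : C(((Z × Sph u (sw true) 2) × HH u true) × unitInterval, ℂ) :=
    (Pool.Agent.HCF.hc u true).comp (ContinuousMap.snd.comp ContinuousMap.fst)
  let fF : Fin 3 → C(((Z × Sph u (sw true) 2) × HH u true) × unitInterval, ℂ) :=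
    ![Ct.comp ContinuousMap.snd * A2 0, Ct.comp ContinuousMap.snd * A2 1,
      St.comp ContinuousMap.snd * AH]
  have hfFW : ∀ i, IsW u (sw true) (fF i) := by
    have hA2 : ∀ i, IsW u (sw true) (A2 i) := fun i =>
      (kredC_isW (u := u) (sw true) 2 i).comp (fun g z => rfl)
    have hAH : IsW u (sw true) AH := (isW_hc u true).comp (fun g z => rfl)
    intro i
    fin_cases i
    · intro g z
      have := hA2 0 g z
      change Ct z.2 * A2 0 (op g z) = _ * (Ct z.2 * A2 0 z)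
      rw [this]
      ring
    · intro g z
      have := hA2 1 g z
      change Ct z.2 * A2 1 (op g z) = _ * (Ct z.2 * A2 1 z)
      rw [this]
      ring
    · intro g z
      have := hAH g z
      change St z.2 * AH (op g z) = _ * (St z.2 * AH z)
      rw [this]
      ring
  have hfFn : ∀ z, ∑ i, ‖fF i z‖ ^ 2 = 1 := by
    intro z
    have h1 := kredC_norm (u := u) (sw true) 2 z.1.1.2
    rw [Fin.sum_univ_two] at h1
    have h2 : ‖AH z‖ = 1 := hhn z.1.2
    have h3 : ‖Ct z.2‖ ^ 2 + ‖St z.2‖ ^ 2 = 1 := by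
      change ‖((Real.cos (Real.pi * z.2 / 2) : ℝ) : ℂ)‖ ^ 2 +
        ‖((Real.sin (Real.pi * z.2 / 2) : ℝ) : ℂ)‖ ^ 2 = 1
      rw [Complex.norm_real, Complex.norm_real, Real.norm_eq_abs, Real.norm_eq_abs, sq_abs, sq_abs]
      exact Real.cos_sq_add_sin_sq _
    rw [Fin.sum_univ_three]
    change ‖Ct z.2 * A2 0 z‖ ^ 2 + ‖Ct z.2 * A2 1 z‖ ^ 2 + ‖St z.2 * AH z‖ ^ 2 = 1
    rw [norm_mul, norm_mul, norm_mul, h2]
    have h4 : ‖A2 0 z‖ ^ 2 + ‖A2 1 z‖ ^ 2 = 1 := h1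
    calc (‖Ct z.2‖ * ‖A2 0 z‖) ^ 2 + (‖Ct z.2‖ * ‖A2 1 z‖) ^ 2 + (‖St z.2‖ * 1) ^ 2
        = ‖Ct z.2‖ ^ 2 * (‖A2 0 z‖ ^ 2 + ‖A2 1 z‖ ^ 2) + ‖St z.2‖ ^ 2 := by ring
      _ = 1 := by rw [h4, mul_one, h3]
  let F : C(((Z × Sph u (sw true) 2) × HH u true) × unitInterval, Z × Sph u (sw true) 3) :=
    (ContinuousMap.fst.comp (ContinuousMap.fst.comp ContinuousMap.fst)).prodMk
      (kredS u (sw true) fF hfFn)
  have hF : Eqv Bool F := kred_prodMk (fun g z => rfl) (kredS_eqv (sw true) fF hfFn hfFW)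
  let φ0 : C((Z × Sph u (sw true) 2) × HH u true, Z × Sph u (sw true) 3) :=
    i23.comp ContinuousMap.fst
  have hφ0 : Eqv Bool φ0 := kred_comp eqv_fst hi23
  let q : C((Z × Sph u (sw true) 2) × HH u true, Z × HH u true) :=
    (ContinuousMap.fst.comp ContinuousMap.fst).prodMk ContinuousMap.snd
  have hq : Eqv Bool q := fun g z => rfl
  let φ1 : C((Z × Sph u (sw true) 2) × HH u true, Z × Sph u (sw true) 3) := j3.comp q
  have hφ1 : Eqv Bool φ1 := kred_comp hq hj3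
  have hhom : Kpull φ0 hφ0 u1 = Kpull φ1 hφ1 u1 := by
    refine Kpull_homotopy F hF φ0 φ1 hφ0 hφ1 ?_ ?_ u1
    · intro z
      refine Prod.ext rfl ?_
      refine kredS_ext' (sw true) _ _ _ _ _ _ ?_
      intro i
      have hC0 : Ct 0 = 1 := by
        change ((Real.cos (Real.pi * ((0 : unitInterval) : ℝ) / 2) : ℝ) : ℂ) = 1
        simp
      have hS0 : St 0 = 0 := by
        change ((Real.sin (Real.pi * ((0 : unitInterval) : ℝ) / 2) : ℝ) : ℂ) = 0
        simp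
      fin_cases i
      · change Ct 0 * A2 0 (z, 0) = kredC u (sw true) 2 0 z.1.2
        rw [hC0, one_mul]
        rfl
      · change Ct 0 * A2 1 (z, 0) = kredC u (sw true) 2 1 z.1.2
        rw [hC0, one_mul]
        rfl
      · change St 0 * AH (z, 0) = 0
        rw [hS0, zero_mul]
    · intro z
      refine Prod.ext rfl ?_
      refine kredS_ext' (sw true) _ _ _ _ _ _ ?_
      intro i
      have hC1 : Ct 1 = 0 := by
        change ((Real.cos (Real.pi * ((1 : unitInterval) : ℝ) / 2) : ℝ) : ℂ) = 0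
        simp
      have hS1 : St 1 = 1 := by
        change ((Real.sin (Real.pi * ((1 : unitInterval) : ℝ) / 2) : ℝ) : ℂ) = 1
        simp
      fin_cases i
      · change Ct 1 * A2 0 (z, 1) = 0
        rw [hC1, zero_mul]
      · change Ct 1 * A2 1 (z, 1) = 0
        rw [hC1, zero_mul]
      · change St 1 * AH (z, 1) = Pool.Agent.HCF.hc u true z.2
        rw [hS1, one_mul]
        rfl
  set w2 : K u (Z × Sph u (sw true) 2) := Kfst u Z (Sph u (sw true) 2) w0 with hw2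
  have hpull : Kfst u (Z × Sph u (sw true) 2) (HH u true) u2 =
      Kfst u (Z × Sph u (sw true) 2) (HH u true) w2 := by
    have e1 : Kfst u (Z × Sph u (sw true) 2) (HH u true) u2 = Kpull φ0 hφ0 u1 :=
      Kpull_comp _ _ _ _ _ _ (fun _ => rfl) _
    have e2 : Kpull φ1 hφ1 u1 = Kpull q hq (Kpull j3 hj3 u1) :=
      (Kpull_comp _ _ _ _ _ _ (fun _ => rfl) _).symm
    rw [e1, hhom, e2, ← hw0']
    let χ : C((Z × Sph u (sw true) 2) × HH u true, Z) := ContinuousMap.fst.comp ContinuousMap.fst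
    have hχ : Eqv Bool χ := fun g z => rfl
    have e3 : Kpull q hq (Kfst u Z (HH u true) w0) = Kpull χ hχ w0 :=
      Kpull_comp _ _ _ _ _ _ (fun _ => rfl) _
    have e4 : Kfst u (Z × Sph u (sw true) 2) (HH u true) w2 = Kpull χ hχ w0 :=
      Kpull_comp _ _ _ _ _ _ (fun _ => rfl) _
    rw [e3, e4]
  obtain ⟨tr, htr⟩ := exists_transfer (u := u) (θ := true) (Z := Z × Sph u (sw true) 2)
  have h5u : (5 : ℤ) • u2 = (5 : ℤ) • w2 := by
    rw [← (kred_nu h5 fi hfiW hfin u2).1, ← (kred_nu h5 fi hfiW hfin w2).1, ← htr, ← htr, hpull]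
  -- Step 3: restriction to `Z × H`
  let fk : Fin 2 → C(Z × HH u true, ℂ) := ![0, (Pool.Agent.HCF.hc u true).comp ContinuousMap.snd]
  have hfkW : ∀ i, IsW u (sw true) (fk i) := by
    intro i
    fin_cases i
    · exact IsW.zero
    · exact (isW_hc u true).comp eqv_snd
  have hfkn : ∀ z, ∑ i, ‖fk i z‖ ^ 2 = 1 := by
    intro z
    rw [Fin.sum_univ_two]
    simp [fk, hhn]
  let j2 : C(Z × HH u true, Z × Sph u (sw true) 2) :=
    ContinuousMap.fst.prodMk (kredS u (sw true) fk hfkn)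
  have hj2 : Eqv Bool j2 := kred_prodMk eqv_fst (kredS_eqv (sw true) fk hfkn hfkW)
  have hYH : kredY u (Z × HH u true) m = 0 := by
    have h1 : (Ktw (sw true) : AddMonoid.End (K u (Z × HH u true))) = 1 := by
      refine Ktw_eq_one_of_unit (sw true) ((Pool.Agent.HCF.hc u true).comp ContinuousMap.snd)
        ((isW_hc u true).comp eqv_snd) ?_
      intro z
      exact Circle.coe_ne_zero z.2.1
    rw [kredY, h1, sub_self]
    rfl
  have h5w : (5 : ℤ) • Kfst u Z (HH u true) w0 = 0 := by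
    have h1 : Kpull j2 hj2 w2 = Kfst u Z (HH u true) w0 :=
      Kpull_comp _ _ _ _ _ _ (fun _ => rfl) _
    rw [← h1, ← map_zsmul, ← h5u, ← hY2, kredY_pull, hYH]
  have h5w0 : (5 : ℤ) • w0 = 0 := by
    rw [hw0, ← map_zsmul, ← hw0', h5w, map_zero]
  rw [hY2, h5u, hw2, ← map_zsmul, h5w0, map_zero]

/-- The reduction lemma: divisibility of `(1 - t)^m` by `5` on `Z × S(V)` implies divisibility on
`Z`. -/
theorem reduction [CompactSpace Z] (u : Bool → Circle)
    (hτ : ∃ m : ℕ, 0 < m ∧ u false ^ m = 1)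
    (hθ : u true = Circle.exp (2 * Real.pi / 5)) (hZ : ∀ z : Z, (op true : C(Z, Z)) z = z)
    (c : ℤ) (j : ℕ) (hc : (u false ^ c) ^ (5 ^ j) = 1) (m : ℕ)
    (h : ∃ z : K u (Z × Sph u (wt c) (5 ^ j)),
      ((1 - Ktw (wt 1)) ^ m : AddMonoid.End (K u (Z × Sph u (wt c) (5 ^ j)))) (K1 u _) =
        (5 : ℤ) • z) :
    ∃ z : K u Z, ((1 - Ktw (wt 1)) ^ m : AddMonoid.End (K u Z)) (K1 u Z) = (5 : ℤ) • z := by
  have h5 := kred_u5 hθ
  have h1 := reduction_aux u hτ hθ hZ c j hc m h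
  obtain ⟨w, hw⟩ := bott (u := u) (x := sw true) (Z := Z) ⟨5, by norm_num, by
    rintro (_ | _)
    · simp [sw]
    · simpa [sw] using h5⟩ 2 _ h1
  exact div_five_of_isotypic (θ := true) hZ h5 (kred_u1 hθ) _ ⟨wt 1, m, rfl, rfl⟩ w hw

end Pool.Agent.HCF
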