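import Pool.Agent.HCF.KDefs

/-! # Spheres, discs, circles and the group of fifth roots of unity, with operators -/

noncomputable section

namespace Pool.Agent.HCF

variable {Γ : Type}

/-- The unit sphere of `ℂ^n`; `g` multiplies by `ch u x g`. -/
def Sph (_u : Γ → Circle) (_x : Γ → ℤ) (n : ℕ) : Type :=
  Metric.sphere (0 : EuclideanSpace ℂ (Fin n)) 1

/-- The closed unit ball of `ℂ^n`; `g` multiplies by `ch u x g`. -/
def Dsk (_u : Γ → Circle) (_x : Γ → ℤ) (n : ℕ) : Type :=
  Metric.closedBall (0 : EuclideanSpace ℂ (Fin n)) 1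

/-- The circle; `g` multiplies by `u g ^ x g`. -/
def Cir (_u : Γ → Circle) (_x : Γ → ℤ) : Type := Circle

/-- The weight which is `1` at `θ` and `0` elsewhere. -/
def sw [DecidableEq Γ] (θ : Γ) : Γ → ℤ := Pi.single θ 1

/-- The fifth roots of unity; `θ` multiplies by `u θ`, the other operators are trivial. -/
def HH (_u : Γ → Circle) (_θ : Γ) : Type := {h : Circle // h ^ 5 = 1}

variable (u : Γ → Circle) (x : Γ → ℤ) (n : ℕ)

instance : TopologicalSpace (Sph u x n) := inferInstanceAs (TopologicalSpace (Metric.sphere _ _))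
instance : CompactSpace (Sph u x n) :=
  inferInstanceAs (CompactSpace (Metric.sphere (0 : EuclideanSpace ℂ (Fin n)) 1))
instance : T2Space (Sph u x n) :=
  inferInstanceAs (T2Space (Metric.sphere (0 : EuclideanSpace ℂ (Fin n)) 1))

/-- multiplication of the unit sphere by a number of modulus one -/
def sphMul (n : ℕ) (c : ℂ) (hc : ‖c‖ = 1) : C(Metric.sphere (0 : EuclideanSpace ℂ (Fin n)) 1,
    Metric.sphere (0 : EuclideanSpace ℂ (Fin n)) 1) :=
  ⟨fun v => ⟨c • v.1, by
    have hv : ‖v.1‖ = 1 := mem_sphere_zero_iff_norm.1 v.2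
    rw [mem_sphere_zero_iff_norm, norm_smul, hc, hv, one_mul]⟩,
    Continuous.subtype_mk (by fun_prop) _⟩

/-- multiplication of the unit ball by a number of modulus one -/
def dskMul (n : ℕ) (c : ℂ) (hc : ‖c‖ = 1) : C(Metric.closedBall (0 : EuclideanSpace ℂ (Fin n)) 1,
    Metric.closedBall (0 : EuclideanSpace ℂ (Fin n)) 1) :=
  ⟨fun v => ⟨c • v.1, by
    have hv : ‖v.1‖ ≤ 1 := mem_closedBall_zero_iff.1 v.2
    rw [mem_closedBall_zero_iff, norm_smul, hc, one_mul]
    exact hv⟩,
    Continuous.subtype_mk (by fun_prop) _⟩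

/-- multiplication of the circle by an element -/
def cirMul (c : Circle) : C(Circle, Circle) := ⟨fun z => c * z, by fun_prop⟩

instance : Op Γ (Sph u x n) where
  op g := sphMul n (ch u x g) (norm_ch u x g)

instance : TopologicalSpace (Dsk u x n) :=
  inferInstanceAs (TopologicalSpace (Metric.closedBall _ _))
instance : CompactSpace (Dsk u x n) :=
  inferInstanceAs (CompactSpace (Metric.closedBall (0 : EuclideanSpace ℂ (Fin n)) 1))
instance : T2Space (Dsk u x n) :=
  inferInstanceAs (T2Space (Metric.closedBall (0 : EuclideanSpace ℂ (Fin n)) 1))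

instance : Op Γ (Dsk u x n) where
  op g := dskMul n (ch u x g) (norm_ch u x g)

instance : TopologicalSpace (Cir u x) := inferInstanceAs (TopologicalSpace Circle)
instance : CompactSpace (Cir u x) := inferInstanceAs (CompactSpace Circle)
instance : T2Space (Cir u x) := inferInstanceAs (T2Space Circle)
instance : Op Γ (Cir u x) where
  op g := cirMul (u g ^ x g)

/-- the coordinate function of the circle -/
def zc : C(Cir u x, ℂ) := (⟨fun z => (z : ℂ), continuous_subtype_val⟩ : C(Circle, ℂ))

/-- the value of a point of the circle as a complex number -/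
lemma zc_op (g : Γ) (z : Cir u x) : zc u x (op g z) = ch u x g * zc u x z :=
  Circle.coe_mul (u g ^ x g) z

lemma norm_zc (z : Cir u x) : ‖zc u x z‖ = 1 := Circle.norm_coe z

lemma isW_zc : IsW u x (zc u x) := fun g z => zc_op u x g z

instance (θ : Γ) : TopologicalSpace (HH u θ) :=
  inferInstanceAs (TopologicalSpace {h : Circle // h ^ 5 = 1})
instance (θ : Γ) : T2Space (HH u θ) := inferInstanceAs (T2Space {h : Circle // h ^ 5 = 1})
instance (θ : Γ) : CompactSpace (HH u θ) := by
  apply isCompact_iff_compactSpace.1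
  exact (isClosed_eq (continuous_pow 5) continuous_const).isCompact

instance [DecidableEq Γ] (θ : Γ) [hθ : Fact (u θ ^ 5 = 1)] : Op Γ (HH u θ) where
  op g := ⟨fun h => ⟨u g ^ sw θ g * h.1, by
    rw [mul_pow, h.2, mul_one]
    by_cases hg : g = θ
    · subst hg; simp [sw, hθ.out]
    · simp [sw, hg]⟩, by
      refine Continuous.subtype_mk ?_ _
      exact continuous_const.mul continuous_subtype_val⟩

/-- the coordinate function on the fifth roots of unity -/
def hc (θ : Γ) : C(HH u θ, ℂ) := ⟨fun h => ((h.1 : Circle) : ℂ), by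
  exact continuous_subtype_val.comp continuous_subtype_val⟩

lemma isW_hc [DecidableEq Γ] (θ : Γ) [Fact (u θ ^ 5 = 1)] : IsW u (sw θ) (hc u θ) :=
  fun g z => Circle.coe_mul (u g ^ sw θ g) z.1

section
variable {Z Z' : Type} [TopologicalSpace Z] [Op Γ Z] [TopologicalSpace Z'] [Op Γ Z']

/-- first projection as a continuous map -/
abbrev cfst (Z Z' : Type) [TopologicalSpace Z] [TopologicalSpace Z'] : C(Z × Z', Z) :=
  ContinuousMap.fst

lemma eqv_fst : Eqv Γ (cfst Z Z') := fun _ _ => rfl

lemma eqv_snd : Eqv Γ (ContinuousMap.snd : C(Z × Z', Z')) := fun _ _ => rfl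

/-- pull back along the first projection -/
abbrev Kfst (u : Γ → Circle) (Z Z' : Type) [TopologicalSpace Z] [TopologicalSpace Z'] [Op Γ Z]
    [Op Γ Z'] : K u Z →+ K u (Z × Z') := Kpull (cfst Z Z') eqv_fst

end

/-- operators on a product of spaces -/
instance {ι : Type} {X : ι → Type} [∀ i, TopologicalSpace (X i)] [∀ i, Op Γ (X i)] :
    Op Γ (∀ i, X i) where
  op g := ⟨fun y i => op g (y i), continuous_pi fun i =>
    (op g : C(X i, X i)).continuous.comp (continuous_apply i)⟩

@[simp] lemma op_pi {ι : Type} {X : ι → Type} [∀ i, TopologicalSpace (X i)] [∀ i, Op Γ (X i)]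
    (g : Γ) (y : ∀ i, X i) (i : ι) : (op g : C(∀ i, X i, ∀ i, X i)) y i = op g (y i) := rfl

end Pool.Agent.HCF
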