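import Pool.Agent.HCF.MTop
import Pool.Agent.HCF.GAct
import Pool.Agent.HCF.GPow

/-! # The actions of the group on the model -/

open Topology

noncomputable section

namespace Pool.Agent.HCF

/-- the rotations given by an element of the group at level `k` form a compatible sequence -/
theorem isCS_ak (w : PG) (k : ℕ) : IsCS fun j => w.1 (ak k j) := by
  intro j
  have h2 : 2 ^ (j + 1) = 2 * 2 ^ j := by ring
  refine ⟨?_, ?_⟩
  · change w.1 (ak k (j + 1)) ^ 5 ^ 2 ^ (j + 1) = 1
    rw [PG_pow]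
    have h : ak k (j + 1) - 2 ^ (j + 1) = 0 := by
      unfold ak
      omega
    rw [h]
    exact w.2.1
  · change w.1 (ak k (j + 1)) ^ 5 ^ 2 ^ j = w.1 (ak k j)
    rw [PG_pow]
    have h : ak k (j + 1) - 2 ^ j = ak k j := by
      unfold ak
      omega
    rw [h]

/-- the model with the action of level `k` -/
def MK (T : Tower) (_k : ℕ) : Type := M0 T

instance (T : Tower) (k : ℕ) : MetricSpace (MK T k) := inferInstanceAs (MetricSpace (M0 T))

instance (T : Tower) (k : ℕ) : CompactSpace (MK T k) := inferInstanceAs (CompactSpace (M0 T))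

theorem emb_act (T : Tower) (c : ℕ → Circle) (hc : IsCS c) (y : CC) :
    emb T (actC c y) = ((emb T y).1, fun j => (c j : ℂ) • (emb T y).2 j) := by
  unfold emb
  refine Prod.ext (rho_act T c hc y) ?_
  funext j
  change ((cw j * rho T (actC c y) : ℝ) : ℂ) • ((c j : ℂ) • (y j).1) =
    (c j : ℂ) • (((cw j * rho T y : ℝ) : ℂ) • (y j).1)
  rw [rho_act T c hc y, smul_comm]

/-- the action of level `k`: the `j`-th coordinate is multiplied by `w (ak k j)` -/
instance (T : Tower) (k : ℕ) : MulAction PG (MK T k) where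
  smul w m := ⟨((m.1 : ℝ × PE).1, fun j => (w.1 (ak k j) : ℂ) • (m.1 : ℝ × PE).2 j), by
    obtain ⟨_, y, rfl⟩ := m
    exact ⟨actC (fun j => w.1 (ak k j)) y, emb_act T _ (isCS_ak w k) y⟩⟩
  one_smul m := by
    refine Subtype.ext (Prod.ext rfl ?_)
    funext j
    change (((1 : PG).1 (ak k j) : Circle) : ℂ) • (m.1 : ℝ × PE).2 j = (m.1 : ℝ × PE).2 j
    have h : (1 : PG).1 (ak k j) = 1 := rfl
    rw [h, Circle.coe_one, one_smul]
  mul_smul w w' m := by
    refine Subtype.ext (Prod.ext rfl ?_)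
    funext j
    change (((w * w' : PG).1 (ak k j) : Circle) : ℂ) • (m.1 : ℝ × PE).2 j =
      ((w.1 (ak k j) : Circle) : ℂ) • (((w'.1 (ak k j) : Circle) : ℂ) • (m.1 : ℝ × PE).2 j)
    have h : (w * w' : PG).1 (ak k j) = w.1 (ak k j) * w'.1 (ak k j) := rfl
    rw [h, Circle.coe_mul, mul_smul]

theorem smul_toM0 (T : Tower) (k : ℕ) (w : PG) (y : CC) :
    (w • (show MK T k from toM0 T y)) = (show MK T k from toM0 T (actC (fun j => w.1 (ak k j)) y)) :=
  Subtype.ext (emb_act T _ (isCS_ak w k) y).symm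

/-- the coordinates of the model are continuous -/
theorem mact_continuous_coord (T : Tower) (k j : ℕ) :
    Continuous fun m : MK T k => (m.1 : ℝ × PE).2 j := by
  have h1 : Continuous fun m : MK T k => (m.1 : ℝ × PE) := continuous_subtype_val
  have h2 : Continuous fun m : MK T k => (m.1 : ℝ × PE).2 := continuous_snd.comp h1
  have h3 : Continuous fun v : PE => (v j : E2) :=
    continuous_apply (A := fun _ : ℕ => E2) j
  exact h3.comp h2

theorem mact_continuous_PG (n : ℕ) : Continuous fun w : PG => w.1 n :=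
  (continuous_apply n).comp continuous_subtype_val

instance (T : Tower) (k : ℕ) : ContinuousSMul PG (MK T k) := by
  refine ⟨?_⟩
  refine Continuous.subtype_mk ?_ _
  refine Continuous.prodMk ?_ ?_
  · have h1 : Continuous fun m : MK T k => (m.1 : ℝ × PE) := continuous_subtype_val
    exact (continuous_fst.comp h1).comp continuous_snd
  · have key : Continuous (fun p : PG × MK T k => (fun j => (p.1.1 (ak k j) : ℂ) •
        (p.2.1 : ℝ × PE).2 j : ℕ → E2)) := by
      refine continuous_pi fun j => ?_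
      have h1 : Continuous fun p : PG × MK T k => ((p.1.1 (ak k j) : Circle) : ℂ) :=
        continuous_subtype_val.comp ((mact_continuous_PG (ak k j)).comp continuous_fst)
      exact h1.smul ((mact_continuous_coord T k j).comp continuous_snd)
    exact key

theorem mact_dist (T : Tower) (k : ℕ) (m m' : MK T k) :
    dist m m' = max (dist (m.1 : ℝ × PE).1 (m'.1 : ℝ × PE).1)
      (∑' j : ℕ, min (2⁻¹ ^ j) (dist ((m.1 : ℝ × PE).2 j) ((m'.1 : ℝ × PE).2 j))) := rfl

instance (T : Tower) (k : ℕ) : IsIsometricSMul PG (MK T k) := by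
  refine ⟨fun w => Isometry.of_dist_eq fun m m' => ?_⟩
  rw [mact_dist, mact_dist]
  congr 1
  refine tsum_congr fun j => ?_
  congr 1
  change dist (((w.1 (ak k j) : Circle) : ℂ) • (m.1 : ℝ × PE).2 j)
    (((w.1 (ak k j) : Circle) : ℂ) • (m'.1 : ℝ × PE).2 j) = _
  rw [dist_smul₀, Circle.norm_coe, one_mul]

theorem mact_norm_le (w : PG) (n : ℕ) : ‖(1 : ℂ) - (w.1 n : ℂ)‖ ≤ 2 := by
  refine (norm_sub_le _ _).trans ?_
  rw [norm_one, Circle.norm_coe]
  norm_num

/-- the displacement of a coordinate -/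
theorem mact_term (T : Tower) (k j : ℕ) (w : PG) (y : CC) :
    dist ((emb T y).2 j) ((w.1 (ak k j) : ℂ) • (emb T y).2 j) ≤
      2⁻¹ ^ (2 ^ j) * ‖(1 : ℂ) - (w.1 (ak k j) : ℂ)‖ := by
  have h1 : dist ((emb T y).2 j) ((w.1 (ak k j) : ℂ) • (emb T y).2 j) =
      ‖((1 : ℂ) - (w.1 (ak k j) : ℂ)) • ((emb T y).2 j : E2)‖ := by
    rw [dist_eq_norm, sub_smul, one_smul]
  have h2 : ‖((emb T y).2 j : E2)‖ ≤ 2⁻¹ ^ (2 ^ j) := by
    change ‖((cw j * rho T y : ℝ) : ℂ) • (y j).1‖ ≤ _
    have h3 : ‖(y j).1‖ ≤ 2 := mem_closedBall_zero_iff.1 (y j).2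
    have h4 : 0 ≤ cw j := by unfold cw; positivity
    have h5 := rho_nonneg T y
    have h6 := rho_le_one T y
    rw [norm_smul, Complex.norm_real, Real.norm_eq_abs, abs_of_nonneg (mul_nonneg h4 h5)]
    have h7 : cw j * rho T y ≤ cw j := mul_le_of_le_one_right h4 h6
    calc cw j * rho T y * ‖(y j).1‖ ≤ cw j * 2 :=
          mul_le_mul h7 h3 (norm_nonneg _) h4
      _ = 2⁻¹ ^ (2 ^ j) := by unfold cw; rw [pow_succ]; ring
  rw [h1, norm_smul, mul_comm]
  exact mul_le_mul_of_nonneg_right h2 (norm_nonneg _)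

/-- the displacement on the model is bounded by the displacement on `I0` -/
theorem displacement_le (T : Tower) (k : ℕ) (w : PG) (m : MK T k) : dist m (w • m) ≤ kap w := by
  obtain ⟨y, rfl⟩ : ∃ y, (show MK T k from toM0 T y) = m := toM0_surjective T m
  rw [mact_dist]
  have hkap : Summable fun i : ℕ => min ((2⁻¹ : ℝ) ^ i) ‖(1 : ℂ) - (w.1 (i + 1) : ℂ)‖ := by
    refine Summable.of_nonneg_of_le (fun i => ?_) (fun i => min_le_left _ _) ?_
    · exact le_min (by positivity) (norm_nonneg _)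
    · exact summable_geometric_of_lt_one (by norm_num) (by norm_num)
  set f : ℕ → ℝ := fun j => min (2⁻¹ ^ j)
    (dist ((emb T y).2 j) ((w.1 (ak k j) : ℂ) • (emb T y).2 j)) with hf
  have hfs : Summable f := by
    refine Summable.of_nonneg_of_le (fun i => ?_) (fun i => min_le_left _ _) ?_
    · exact le_min (by positivity) dist_nonneg
    · exact summable_geometric_of_lt_one (by norm_num) (by norm_num)
  have hf0 : ∀ j ∈ Finset.range k, f j = 0 := by
    intro j hj
    have h1 : ak k j = 0 := by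
      have h2 : 2 ^ j < 2 ^ k := Nat.pow_lt_pow_right (by norm_num) (Finset.mem_range.1 hj)
      unfold ak
      omega
    have h3 : w.1 0 = 1 := w.2.1
    simp only [hf]
    rw [h1, h3, Circle.coe_one, one_smul, dist_self]
    exact min_eq_right (by positivity)
  have hle : ∑' j, f j ≤ kap w := by
    rw [← hfs.sum_add_tsum_nat_add k, Finset.sum_eq_zero hf0, zero_add]
    unfold kap
    have hak : ∀ j, ak k (j + k) = 2 ^ (j + k) - 2 ^ k + 1 := by
      intro j
      have h1 : 2 ^ k ≤ 2 ^ (j + k) := Nat.pow_le_pow_right (by norm_num) (by omega)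
      have h2 : 0 < 2 ^ k := by positivity
      unfold ak
      omega
    refine Summable.tsum_le_tsum_of_inj (fun j => 2 ^ (j + k) - 2 ^ k) ?_ ?_ ?_ ?_ hkap
    · intro i j hij
      simp only at hij
      have h1 : 2 ^ k ≤ 2 ^ (i + k) := Nat.pow_le_pow_right (by norm_num) (by omega)
      have h2 : 2 ^ k ≤ 2 ^ (j + k) := Nat.pow_le_pow_right (by norm_num) (by omega)
      have h3 : 2 ^ (i + k) = 2 ^ (j + k) := by omega
      have h4 := Nat.pow_right_injective (le_refl 2) h3
      omega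
    · intro c _
      exact le_min (by positivity) (norm_nonneg _)
    · intro j
      have h1 := mact_term T k (j + k) w y
      have h2 := mact_norm_le w (ak k (j + k))
      have h3 : (2⁻¹ : ℝ) ^ (2 ^ (j + k)) ≤ 2⁻¹ ^ (2 ^ (j + k) - 2 ^ k + 1) := by
        refine pow_le_pow_of_le_one (by norm_num) (by norm_num) ?_
        have h4 : 2 ^ k ≤ 2 ^ (j + k) := Nat.pow_le_pow_right (by norm_num) (by omega)
        have h5 : 0 < 2 ^ k := by positivity
        omega
      have h6 := norm_nonneg ((1 : ℂ) - (w.1 (ak k (j + k)) : ℂ))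
      have h7 : (2⁻¹ : ℝ) ^ (2 ^ (j + k) - 2 ^ k + 1) = 2⁻¹ ^ (2 ^ (j + k) - 2 ^ k) * 2⁻¹ :=
        pow_succ _ _
      have h8 : (0 : ℝ) < 2⁻¹ ^ (2 ^ (j + k) - 2 ^ k) := by positivity
      have h9 : (2⁻¹ : ℝ) ^ (2 ^ (j + k) - 2 ^ k) ≤ 1 := pow_le_one₀ (by norm_num) (by norm_num)
      simp only [hf]
      refine (min_le_right _ _).trans ?_
      refine h1.trans (le_min ?_ ?_)
      · calc (2⁻¹ : ℝ) ^ (2 ^ (j + k)) * ‖(1 : ℂ) - (w.1 (ak k (j + k)) : ℂ)‖
            ≤ 2⁻¹ ^ (2 ^ (j + k) - 2 ^ k + 1) * 2 := mul_le_mul h3 h2 h6 (by positivity)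
          _ = 2⁻¹ ^ (2 ^ (j + k) - 2 ^ k) := by rw [h7]; ring
      · rw [← hak j]
        refine mul_le_of_le_one_left h6 ?_
        refine h3.trans ?_
        rw [h7]
        linarith
    · exact (summable_nat_add_iff k).2 hfs
  refine max_le ?_ hle
  have h0 : (0 : ℝ) ≤ kap w := kap_nonneg w
  refine le_trans (le_of_eq ?_) h0
  exact dist_self _

/-- the two fixed points -/
def pt0 (T : Tower) (k : ℕ) : MK T k := toM0 T c0

theorem smul_pt0 (T : Tower) (k : ℕ) (w : PG) : w • pt0 T k = pt0 T k := by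
  unfold pt0
  refine (smul_toM0 T k w c0).trans ?_
  have h : actC (fun j => w.1 (ak k j)) c0 = c0 := by
    funext j
    refine Subtype.ext ?_
    change ((w.1 (ak k j) : Circle) : ℂ) • (0 : E2) = 0
    exact smul_zero _
  rw [h]

theorem smul_ptI (T : Tower) (k : ℕ) (w : PG) (y : CC) (hy : y ∈ II T) :
    w • (show MK T k from toM0 T y) = (show MK T k from toM0 T y) := by
  have h0 : rho T y = 0 := (rho_eq_zero T y).2 hy
  refine Subtype.ext (Prod.ext rfl ?_)
  funext j
  change ((w.1 (ak k j) : Circle) : ℂ) • (((cw j * rho T y : ℝ) : ℂ) • (y j).1) =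
    ((cw j * rho T y : ℝ) : ℂ) • (y j).1
  rw [h0, mul_zero, Complex.ofReal_zero, zero_smul, smul_zero]

end Pool.Agent.HCF
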