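import Pool.Agent.HCF.MRho
import Pool.Agent.HCF.GDefs

/-! # The model of `C / I` (definitions) -/

open Topology
open scoped PiCountable

noncomputable section

namespace Pool.Agent.HCF

/-- the product of countably many copies of `ℂ²` with the metric `∑ min (2^-j) dist` -/
def PE : Type := ℕ → E2

instance : MetricSpace PE := PiCountable.metricSpace (F := fun _ : ℕ => E2)

/-- the Hilbert cube `CC` with the metric `∑ min (2^-j) dist` -/
def CM : Type := CC

instance : MetricSpace CM := PiCountable.metricSpace (F := fun _ : ℕ => D2)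

instance : CompactSpace CM := inferInstanceAs (CompactSpace (∀ _ : ℕ, D2))

/-- the chosen function -/
def rho (T : Tower) : C(CC, ℝ) := (exists_rho T).choose

lemma rho_nonneg (T : Tower) (y : CC) : 0 ≤ rho T y := ((exists_rho T).choose_spec.1 y).1

lemma rho_le_one (T : Tower) (y : CC) : rho T y ≤ 1 := ((exists_rho T).choose_spec.1 y).2

lemma rho_eq_zero (T : Tower) (y : CC) : rho T y = 0 ↔ y ∈ II T :=
  (exists_rho T).choose_spec.2.1 y

lemma rho_act (T : Tower) (c : ℕ → Circle) (hc : IsCS c) (y : CC) :
    rho T (actC c y) = rho T y := (exists_rho T).choose_spec.2.2 c hc y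

/-- the weights -/
def cw (j : ℕ) : ℝ := 2⁻¹ ^ (2 ^ j + 1)

/-- the embedding of `C / I` -/
def emb (T : Tower) (y : CC) : ℝ × PE :=
  (rho T y, fun j => ((cw j * rho T y : ℝ) : ℂ) • (y j).1)

/-- the model of `C / I` -/
def M0 (T : Tower) : Type := Set.range (emb T)

instance (T : Tower) : MetricSpace (M0 T) := inferInstanceAs (MetricSpace (Set.range (emb T)))

/-- the quotient map -/
def toM0 (T : Tower) (y : CC) : M0 T := ⟨emb T y, y, rfl⟩

lemma toM0_surjective (T : Tower) : Function.Surjective (toM0 T) := by
  rintro ⟨_, y, rfl⟩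
  exact ⟨y, rfl⟩

end Pool.Agent.HCF
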