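import Pool.Agent.HCF.MTop

/-! # Onto maps of the model with small point preimages (module MFUN) -/

open Topology

noncomputable section

namespace Pool.Agent.HCF

/-- points with the same first coordinates have nearly the same image -/
private theorem MFun_tail (T : Tower) (ε : ℝ) (hε : 0 < ε) : ∃ N : ℕ, ∀ y y' : CC,
    (∀ i ≤ N, y i = y' i) → dist (toM0 T y) (toM0 T y') < ε := by
  by_contra hcon
  push Not at hcon
  let t : ℕ → Set (CC × CC) := fun N =>
    {p | (∀ i ≤ N, p.1 i = p.2 i) ∧ ε ≤ dist (toM0 T p.1) (toM0 T p.2)}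
  have hcl : ∀ N, IsClosed (t N) := by
    intro N
    have h1 : IsClosed {p : CC × CC | ∀ i ≤ N, p.1 i = p.2 i} := by
      have e : {p : CC × CC | ∀ i ≤ N, p.1 i = p.2 i} =
          ⋂ i ∈ {i : ℕ | i ≤ N}, {p : CC × CC | p.1 i = p.2 i} := by
        ext p
        simp
      rw [e]
      refine isClosed_biInter fun i _ => ?_
      exact isClosed_eq ((continuous_apply i).comp continuous_fst)
        ((continuous_apply i).comp continuous_snd)
    have h2 : IsClosed {p : CC × CC | ε ≤ dist (toM0 T p.1) (toM0 T p.2)} :=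
      isClosed_le continuous_const (((continuous_toM0 T).comp continuous_fst).dist
        ((continuous_toM0 T).comp continuous_snd))
    exact h1.inter h2
  have hne : (⋂ N, t N).Nonempty := by
    refine IsCompact.nonempty_iInter_of_sequence_nonempty_isCompact_isClosed t ?_ ?_ ?_ hcl
    · intro N p hp
      exact ⟨fun i hi => hp.1 i (by omega), hp.2⟩
    · intro N
      obtain ⟨y, y', h1, h2⟩ := hcon N
      exact ⟨(y, y'), h1, h2⟩
    · exact (hcl 0).isCompact
  obtain ⟨p, hp⟩ := hne
  rw [Set.mem_iInter] at hp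
  have h1 : p.1 = p.2 := funext fun i => (hp i).1 i le_rfl
  have h2 := (hp 0).2
  rw [h1, dist_self] at h2
  linarith

/-- For every `ε` there are `n` and an onto map `F` from the model to the product of the first
`n + 1` balls with point preimages of diameter less than `ε`, which only depends on the
coordinates `0, ..., n + 1`. -/
theorem exists_F (T : Tower) (ε : ℝ) (hε : 0 < ε) : ∃ (n : ℕ) (F : C(M0 T, Fin (n + 1) → D2)),
    Function.Surjective F ∧ (∀ m m', F m = F m' → dist m m' < ε) ∧
      ∀ y y' : CC, (∀ i ≤ n + 1, y i = y' i) → F (toM0 T y) = F (toM0 T y') := by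
  obtain ⟨N0, hN0⟩ := MFun_tail T ε hε
  obtain ⟨x0, hx0⟩ := II_nonempty T
  have hU : IsOpen {y : CC | dist (toM0 T y) (toM0 T x0) < ε / 2} :=
    isOpen_lt ((continuous_toM0 T).dist continuous_const) continuous_const
  have hIU : II T ⊆ {y : CC | dist (toM0 T y) (toM0 T x0) < ε / 2} := by
    intro y hy
    have e : toM0 T y = toM0 T x0 := (toM0_eq_iff T y x0).2 (Or.inr ⟨hy, hx0⟩)
    show dist (toM0 T y) (toM0 T x0) < ε / 2
    rw [e, dist_self]
    linarith
  obtain ⟨n, δ, hn, hδ, hδ1, hNN⟩ := exists_NN_subset T _ hU hIU N0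
  obtain ⟨h, h1, h2, h3, h4, h5⟩ := exists_push T n δ hδ hδ1
  have hc : Continuous fun (y : CC) (i : Fin (n + 1)) => h y i :=
    continuous_pi fun i => (continuous_apply (i : ℕ)).comp h.continuous
  let F0 : C(CC, Fin (n + 1) → D2) := ⟨fun y i => h y i, hc⟩
  let q : C(CC, M0 T) := ⟨toM0 T, continuous_toM0 T⟩
  have hq : IsQuotientMap q := isQuotientMap_toM0 T
  have hfac : Function.FactorsThrough F0 q := by
    intro y y' hyy
    rcases (toM0_eq_iff T y y').1 hyy with he | ⟨hy, hy'⟩
    · rw [he]
    · funext i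
      exact h3 y hy y' hy' i (Nat.lt_succ_iff.1 i.2)
  let F : C(M0 T, Fin (n + 1) → D2) := hq.lift F0 hfac
  have hF : ∀ y, F (toM0 T y) = F0 y := fun y =>
    congrArg (fun g : C(CC, Fin (n + 1) → D2) => g y) (hq.lift_comp F0 hfac)
  refine ⟨n, F, ?_, ?_, ?_⟩
  · intro w
    let z : CC := (splitCC n).symm (w, fun _ => ⟨0, by simp⟩)
    refine ⟨toM0 T (h.symm z), ?_⟩
    rw [hF]
    funext i
    show h (h.symm z) i = w i
    rw [h.apply_symm_apply]
    have e : (splitCC n) z = (w, fun _ => ⟨0, by simp⟩) := (splitCC n).apply_symm_apply _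
    exact congrFun (congrArg Prod.fst e) i
  · intro m m' hmm
    obtain ⟨y, rfl⟩ := toM0_surjective T m
    obtain ⟨y', rfl⟩ := toM0_surjective T m'
    rw [hF, hF] at hmm
    have hag : ∀ i ≤ n, h y i = h y' i := fun i hi =>
      congrFun hmm ⟨i, Nat.lt_succ_of_le hi⟩
    have hdep : ∀ a b : CC, (∀ i ≤ n, a i = b i) → a ∈ NN T n δ → b ∈ NN T n δ := by
      rintro a b hab ⟨v, hv⟩
      refine ⟨v, fun i hi => ?_⟩
      rw [← hab i hi]
      exact hv i hi
    by_cases hy : y ∈ NN T n δ
    · have hy' : y' ∈ NN T n δ := by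
        by_contra hc'
        have e := h1 y' hc'
        apply hc'
        have h6 := hdep (h y) (h y') hag (h2 y hy)
        rwa [e] at h6
      have d1 : dist (toM0 T y) (toM0 T x0) < ε / 2 := hNN hy
      have d2 : dist (toM0 T y') (toM0 T x0) < ε / 2 := hNN hy'
      have d3 := dist_triangle_right (toM0 T y) (toM0 T y') (toM0 T x0)
      linarith
    · have hy' : y' ∉ NN T n δ := by
        intro hc'
        apply hy
        have h6 := hdep (h y') (h y) (fun i hi => (hag i hi).symm) (h2 y' hc')
        rwa [h1 y hy] at h6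
      refine hN0 y y' fun i hi => ?_
      have h6 := hag i (hi.trans hn)
      rwa [h1 y hy, h1 y' hy'] at h6
  · intro y y' hyy
    rw [hF, hF]
    funext i
    exact h4 y y' hyy i (Nat.lt_succ_iff.1 i.2)

end Pool.Agent.HCF
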