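import Pool.Agent.HCF.TNbhd

/-! # The invariant function (module MRHO) -/

open Topology
open scoped PiCountable

noncomputable section

namespace Pool.Agent.HCF

/-- compatible sequences of rotations of the tower -/
def IsCS (c : ℕ → Circle) : Prop :=
  ∀ j, c (j + 1) ^ 5 ^ 2 ^ (j + 1) = 1 ∧ c (j + 1) ^ 5 ^ 2 ^ j = c j

/-- coordinatewise rotation of `CC` -/
def actC (c : ℕ → Circle) (y : CC) : CC := fun j => csmD (c j) (y j)

lemma mrho_dist_csmD (c : Circle) (v w : D2) : dist (csmD c v) (csmD c w) = dist v w := by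
  rw [Subtype.dist_eq, Subtype.dist_eq, dist_eq_norm, dist_eq_norm]
  change ‖(c : ℂ) • v.1 - (c : ℂ) • w.1‖ = _
  rw [← smul_sub, norm_smul, Circle.norm_coe, one_mul]

lemma mrho_isometry (c : ℕ → Circle) : Isometry (actC c) := by
  refine Isometry.of_dist_eq fun y z => ?_
  rw [PiCountable.dist_eq_tsum, PiCountable.dist_eq_tsum]
  refine tsum_congr fun j => ?_
  change min _ (dist (csmD (c j) (y j)) (csmD (c j) (z j))) = _
  rw [mrho_dist_csmD]

lemma mrho_inv {c : ℕ → Circle} (hc : IsCS c) : IsCS c⁻¹ := fun j => by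
  obtain ⟨h1, h2⟩ := hc j
  refine ⟨?_, ?_⟩
  · change (c (j + 1))⁻¹ ^ _ = 1
    rw [inv_pow, h1, inv_one]
  · change (c (j + 1))⁻¹ ^ _ = (c j)⁻¹
    rw [inv_pow, h2]

lemma mrho_actC_mem (T : Tower) {c : ℕ → Circle} (hc : IsCS c) {y : CC} (hy : y ∈ II T) :
    actC c y ∈ II T := by
  obtain ⟨x, hx, hxy⟩ := hy
  refine ⟨fun j => csm (c j) (x j), fun j => ?_, fun j => ?_⟩
  · rw [T.eqv j (c (j + 1)) (hc j).1, (hc j).2, hx j]
  · change (c j : ℂ) • (y j).1 = (c j : ℂ) • (x j).1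
    rw [hxy j]

lemma mrho_actC_inv (c : ℕ → Circle) (y : CC) : actC c (actC c⁻¹ y) = y := by
  funext j
  apply Subtype.ext
  change (c j : ℂ) • (((c j)⁻¹ : Circle) : ℂ) • (y j).1 = (y j).1
  rw [smul_smul, ← Circle.coe_mul, mul_inv_cancel, Circle.coe_one, one_smul]

lemma mrho_image (T : Tower) {c : ℕ → Circle} (hc : IsCS c) : actC c '' II T = II T := by
  refine Set.Subset.antisymm ?_ ?_
  · rintro _ ⟨y, hy, rfl⟩
    exact mrho_actC_mem T hc hy
  · intro y hy
    exact ⟨actC c⁻¹ y, mrho_actC_mem T (mrho_inv hc) hy, mrho_actC_inv c y⟩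

lemma mrho_dist_le (y z : CC) : dist y z ≤ 2 := by
  rw [PiCountable.dist_eq_tsum]
  have h2 : Summable (fun j : ℕ => (2⁻¹ : ℝ) ^ Encodable.encode j) := by
    simpa using summable_geometric_of_lt_one (by norm_num : (0:ℝ) ≤ 2⁻¹) (by norm_num)
  refine ((PiCountable.dist_summable y z).tsum_le_tsum (fun j => min_le_left _ _) h2).trans ?_
  have h3 : ∑' j : ℕ, (2⁻¹ : ℝ) ^ Encodable.encode j = 2 := by
    have := tsum_geometric_of_lt_one (by norm_num : (0:ℝ) ≤ 2⁻¹) (by norm_num)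
    simp only [Encodable.encode_nat]
    rw [this]
    norm_num
  exact h3.le

/-- an invariant function which vanishes exactly on the inverse limit (module MRHO) -/
theorem exists_rho (T : Tower) : ∃ ρ : C(CC, ℝ), (∀ y, 0 ≤ ρ y ∧ ρ y ≤ 1) ∧
    (∀ y, ρ y = 0 ↔ y ∈ II T) ∧ ∀ c, IsCS c → ∀ y, ρ (actC c y) = ρ y := by
  obtain ⟨z, hz⟩ := II_nonempty T
  refine ⟨⟨fun y => Metric.infDist y (II T) / 2, ?_⟩, fun y => ⟨?_, ?_⟩, fun y => ?_, ?_⟩
  · exact (Metric.continuous_infDist_pt (II T)).div_const 2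
  · exact div_nonneg Metric.infDist_nonneg (by norm_num)
  · change Metric.infDist y (II T) / 2 ≤ 1
    have h1 := Metric.infDist_le_dist_of_mem (x := y) hz
    have h2 := mrho_dist_le y z
    linarith
  · change Metric.infDist y (II T) / 2 = 0 ↔ _
    rw [(isCompact_II T).isClosed.mem_iff_infDist_zero ⟨z, hz⟩]
    constructor
    · intro h; linarith
    · intro h; rw [h]; norm_num
  · intro c hc y
    change Metric.infDist (actC c y) (II T) / 2 = Metric.infDist y (II T) / 2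
    conv_lhs => rw [← mrho_image T hc]
    rw [Metric.infDist_image (mrho_isometry c)]

end Pool.Agent.HCF
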