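import Mathlib

/-! # The shrinking lemma (module TBING) -/

noncomputable section

namespace Pool.Agent.HCF

open Set Filter Topology

/-- one step of the shrinking construction -/
theorem TBING_step {X : Type} [MetricSpace X] [CompactSpace X] (I : Set X) (hI : IsClosed I)
    (h : ∀ U : Set X, IsOpen U → I ⊆ U → ∀ ε : ℝ, 0 < ε → ∃ φ : X ≃ₜ X,
      (∀ x, x ∉ U → φ x = x) ∧ ∀ x ∈ I, ∀ y ∈ I, dist (φ x) (φ y) < ε)
    (g : X ≃ₜ X) (U : Set X) (hU : IsOpen U) (hIU : I ⊆ U) (β ρ : ℝ) (hβ : 0 < β) (hρ : 0 < ρ) :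
    ∃ (g' : X ≃ₜ X) (U' : Set X), IsOpen U' ∧ I ⊆ U' ∧
      (∀ x ∈ U', ∀ y ∈ U', dist (g' x) (g' y) < β) ∧ closure U' ⊆ U ∧
      U' ⊆ Metric.thickening ρ I ∧ (∀ x, x ∉ U → g' x = g x) ∧ (∀ x ∈ U, ∃ y ∈ U, g' x = g y) := by
  have huc : UniformContinuous g := CompactSpace.uniformContinuous_of_continuous g.continuous
  obtain ⟨δ, hδ, hδ'⟩ := Metric.uniformContinuous_iff.1 huc β hβ
  obtain ⟨φ, hφ, hφI⟩ := h U hU hIU δ hδ
  have hIc : IsCompact I := hI.isCompact
  have hopen : IsOpen {p : X × X | dist ((φ.trans g) p.1) ((φ.trans g) p.2) < β} := by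
    apply isOpen_lt
    · exact ((φ.trans g).continuous.comp continuous_fst).dist
        ((φ.trans g).continuous.comp continuous_snd)
    · exact continuous_const
  have hsub : I ×ˢ I ⊆ {p : X × X | dist ((φ.trans g) p.1) ((φ.trans g) p.2) < β} := by
    rintro ⟨x, y⟩ ⟨hx, hy⟩
    exact hδ' (hφI x hx y hy)
  obtain ⟨A, B, hA, hB, hIA, hIB, hAB⟩ := generalized_tube_lemma hIc hIc hopen hsub
  have hW : IsOpen (A ∩ B ∩ U ∩ Metric.thickening ρ I) :=
    ((hA.inter hB).inter hU).inter Metric.isOpen_thickening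
  have hIW : I ⊆ A ∩ B ∩ U ∩ Metric.thickening ρ I :=
    subset_inter (subset_inter (subset_inter hIA hIB) hIU) (Metric.self_subset_thickening hρ I)
  obtain ⟨U', hU', hIU', hcl⟩ := normal_exists_closure_subset hI hW hIW
  have hU'W : U' ⊆ A ∩ B ∩ U ∩ Metric.thickening ρ I := subset_closure.trans hcl
  refine ⟨φ.trans g, U', hU', hIU', ?_, ?_, ?_, ?_, ?_⟩
  · intro x hx y hy
    exact hAB (mk_mem_prod (hU'W hx).1.1.1 (hU'W hy).1.1.2)
  · exact fun x hx => (hcl hx).1.2
  · exact fun x hx => (hU'W hx).2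
  · intro x hx
    show g (φ x) = g x
    rw [hφ x hx]
  · intro x hx
    refine ⟨φ x, ?_, rfl⟩
    by_contra hn
    have h1 := hφ (φ x) hn
    have h2 : φ x = x := φ.injective h1
    rw [h2] at hn
    exact hn hx

/-- If a compact set `I` in a compact metric space `X` can be made small by homeomorphisms
supported in arbitrary neighbourhoods, there is a self surjection of `X` whose only nondegenerate
point preimage is `I`. -/
theorem bing {X : Type} [MetricSpace X] [CompactSpace X] (I : Set X) (hI : IsClosed I)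
    (hne : I.Nonempty)
    (h : ∀ U : Set X, IsOpen U → I ⊆ U → ∀ ε : ℝ, 0 < ε → ∃ φ : X ≃ₜ X,
      (∀ x, x ∉ U → φ x = x) ∧ ∀ x ∈ I, ∀ y ∈ I, dist (φ x) (φ y) < ε) :
    ∃ π : C(X, X), Function.Surjective π ∧ ∀ x y, π x = π y ↔ x = y ∨ (x ∈ I ∧ y ∈ I) := by
  classical
  -- the diameter bound
  obtain ⟨C, hC⟩ : ∃ C : ℝ, ∀ x y : X, dist x y < C := by
    refine ⟨Metric.diam (univ : Set X) + 1, fun x y => ?_⟩
    have := Metric.dist_le_diam_of_mem (isCompact_univ.isBounded) (mem_univ x) (mem_univ y)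
    linarith
  obtain ⟨x₀, hx₀⟩ := hne
  have hC0 : 0 < C := lt_of_le_of_lt dist_nonneg (hC x₀ x₀)
  have hβ : ∀ n : ℕ, 0 < C * (1 / 2 : ℝ) ^ n := fun n => by positivity
  -- states
  let St : ℕ → Type := fun n => {p : (X ≃ₜ X) × Set X // IsOpen p.2 ∧ I ⊆ p.2 ∧
    ∀ x ∈ p.2, ∀ y ∈ p.2, dist (p.1 x) (p.1 y) < C * (1 / 2 : ℝ) ^ n}
  have step : ∀ (n : ℕ) (s : St n), ∃ s' : St (n + 1), closure s'.1.2 ⊆ s.1.2 ∧
      s'.1.2 ⊆ Metric.thickening (1 / ((n : ℝ) + 1)) I ∧ (∀ x, x ∉ s.1.2 → s'.1.1 x = s.1.1 x) ∧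
      (∀ x ∈ s.1.2, ∃ y ∈ s.1.2, s'.1.1 x = s.1.1 y) := by
    rintro n ⟨⟨g, U⟩, hU, hIU, hd⟩
    obtain ⟨g', U', h1, h2, h3, h4, h5, h6, h7⟩ := TBING_step I hI h g U hU hIU
      (C * (1 / 2 : ℝ) ^ (n + 1)) (1 / ((n : ℝ) + 1)) (hβ _) (by positivity)
    exact ⟨⟨⟨g', U'⟩, h1, h2, h3⟩, h4, h5, h6, h7⟩
  choose next hn1 hn2 hn3 hn4 using step
  let s0 : St 0 := ⟨⟨Homeomorph.refl X, univ⟩, isOpen_univ, subset_univ _, fun x _ y _ => by
    simpa using hC x y⟩
  let S : ∀ n, St n := fun n => Nat.rec s0 (fun n s => next n s) n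
  have hS : ∀ n, S (n + 1) = next n (S n) := fun n => rfl
  let g : ℕ → X ≃ₜ X := fun n => (S n).1.1
  let U : ℕ → Set X := fun n => (S n).1.2
  have hUo : ∀ n, IsOpen (U n) := fun n => (S n).2.1
  have hIU : ∀ n, I ⊆ U n := fun n => (S n).2.2.1
  have hd : ∀ n, ∀ x ∈ U n, ∀ y ∈ U n, dist (g n x) (g n y) < C * (1 / 2 : ℝ) ^ n :=
    fun n => (S n).2.2.2
  have hcl : ∀ n, closure (U (n + 1)) ⊆ U n := fun n => hn1 n (S n)
  have hth : ∀ n : ℕ, U (n + 1) ⊆ Metric.thickening (1 / ((n : ℝ) + 1)) I := fun n => hn2 n (S n)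
  have hoff : ∀ n, ∀ x, x ∉ U n → g (n + 1) x = g n x := fun n => hn3 n (S n)
  have hon : ∀ n, ∀ x ∈ U n, ∃ y ∈ U n, g (n + 1) x = g n y := fun n => hn4 n (S n)
  have hUanti : Antitone U := antitone_nat_of_succ_le fun n => subset_closure.trans (hcl n)
  -- distances
  have hdist : ∀ n x, dist (g n x) (g (n + 1) x) ≤ C * (1 / 2 : ℝ) ^ n := by
    intro n x
    by_cases hx : x ∈ U n
    · obtain ⟨y, hy, hxy⟩ := hon n x hx
      rw [hxy]
      exact (hd n x hx y hy).le
    · rw [hoff n x hx, dist_self]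
      exact (hβ n).le
  have hcau : ∀ x, CauchySeq fun n => g n x := fun x =>
    cauchySeq_of_le_geometric (1 / 2) C (by norm_num) fun n => hdist n x
  have hlim : ∀ x, ∃ y, Tendsto (fun n => g n x) atTop (𝓝 y) := fun x =>
    cauchySeq_tendsto_of_complete (hcau x)
  choose p hp using hlim
  have hpd : ∀ x n, dist (g n x) (p x) ≤ C * (1 / 2 : ℝ) ^ n / (1 - 1 / 2) := fun x n =>
    dist_le_of_le_geometric_of_tendsto (1 / 2) C (by norm_num) (fun n => hdist n x) (hp x) n
  have hsmall : Tendsto (fun n : ℕ => C * (1 / 2 : ℝ) ^ n / (1 - 1 / 2)) atTop (𝓝 0) := by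
    have h1 : Tendsto (fun n : ℕ => (1 / 2 : ℝ) ^ n) atTop (𝓝 0) :=
      tendsto_pow_atTop_nhds_zero_of_lt_one (by norm_num) (by norm_num)
    have h2 := (h1.const_mul C).div_const (1 - 1 / 2)
    simpa using h2
  have hunif : TendstoUniformly (fun n x => g n x) p atTop := by
    rw [Metric.tendstoUniformly_iff]
    intro ε hε
    filter_upwards [hsmall.eventually (gt_mem_nhds hε)] with n hn x
    rw [dist_comm]
    exact lt_of_le_of_lt (hpd x n) hn
  have hpc : Continuous p :=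
    hunif.continuous (Eventually.frequently (Eventually.of_forall fun n => (g n).continuous))
  -- stabilisation off I
  have hstab : ∀ x N, x ∉ U N → ∀ n, N ≤ n → g n x = g N x := by
    intro x N hx n hn
    induction n, hn using Nat.le_induction with
    | base => rfl
    | succ n hn ih =>
      rw [hoff n x (fun hxn => hx (hUanti hn hxn)), ih]
  have hpstab : ∀ x N, x ∉ U N → ∀ n, N ≤ n → p x = g n x := by
    intro x N hx n hn
    refine tendsto_nhds_unique (hp x) ?_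
    refine tendsto_const_nhds.congr' ?_
    filter_upwards [eventually_ge_atTop n] with m hm
    rw [hstab x N hx n hn, hstab x N hx m (hn.trans hm)]
  have hexN : ∀ x, x ∉ I → ∃ N, x ∉ U N := by
    intro x hx
    have hpos : 0 < Metric.infDist x I := (hI.notMem_iff_infDist_pos ⟨x₀, hx₀⟩).1 hx
    obtain ⟨n, hn⟩ := exists_nat_one_div_lt hpos
    refine ⟨n + 1, fun hxn => ?_⟩
    have h1 := hth n hxn
    rw [Metric.mem_thickening_iff_infDist_lt ⟨x₀, hx₀⟩] at h1
    linarith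
  -- images of neighbourhoods
  have himg : ∀ n m, n ≤ m → ∀ x ∈ U n, ∃ y ∈ U n, g m x = g n y := by
    intro n m hnm
    induction m, hnm using Nat.le_induction with
    | base => exact fun x hx => ⟨x, hx, rfl⟩
    | succ m hm ih =>
      intro x hx
      by_cases hxm : x ∈ U m
      · obtain ⟨y, hy, hxy⟩ := hon m x hxm
        obtain ⟨z, hz, hyz⟩ := ih y (hUanti hm hy)
        exact ⟨z, hz, hxy.trans hyz⟩
      · obtain ⟨z, hz, hyz⟩ := ih x hx
        exact ⟨z, hz, (hoff m x hxm).trans hyz⟩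
  have hpI : ∀ y ∈ I, ∀ n, ∃ z ∈ closure (U n), p y = g n z := by
    intro y hy n
    have h1 : p y ∈ closure (g n '' U n) := by
      refine mem_closure_of_tendsto (hp y) ?_
      filter_upwards [eventually_ge_atTop n] with m hm
      obtain ⟨z, hz, hyz⟩ := himg n m hm y (hIU n hy)
      exact ⟨z, hz, hyz.symm⟩
    rw [← (g n).image_closure] at h1
    obtain ⟨z, hz, hzy⟩ := h1
    exact ⟨z, hz, hzy.symm⟩
  have hII : ∀ x ∈ I, ∀ y ∈ I, p x = p y := by
    intro x hx y hy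
    have h1 : Tendsto (fun n => dist (g n x) (g n y)) atTop (𝓝 (dist (p x) (p y))) :=
      (hp x).dist (hp y)
    have h2 : Tendsto (fun n : ℕ => C * (1 / 2 : ℝ) ^ n) atTop (𝓝 0) := by
      have h1 : Tendsto (fun n : ℕ => (1 / 2 : ℝ) ^ n) atTop (𝓝 0) :=
        tendsto_pow_atTop_nhds_zero_of_lt_one (by norm_num) (by norm_num)
      simpa using h1.const_mul C
    have h3 : dist (p x) (p y) ≤ 0 :=
      le_of_tendsto_of_tendsto' h1 h2 fun n => (hd n x (hIU n hx) y (hIU n hy)).le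
    exact dist_le_zero.1 h3
  have hIn : ∀ x, x ∉ I → ∀ y ∈ I, p x ≠ p y := by
    intro x hx y hy hxy
    obtain ⟨N, hN⟩ := hexN x hx
    obtain ⟨z, hz, hyz⟩ := hpI y hy (N + 1)
    have h1 := hpstab x N hN (N + 1) (Nat.le_succ N)
    have h2 : g (N + 1) x = g (N + 1) z := by rw [← h1, hxy, hyz]
    have h3 : x = z := (g (N + 1)).injective h2
    rw [h3] at hN
    exact hN (hcl N hz)
  refine ⟨⟨p, hpc⟩, ?_, ?_⟩
  · intro y
    have hcr : IsClosed (range p) := (isCompact_range hpc).isClosed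
    have h1 : y ∈ closure (range p) := by
      rw [Metric.mem_closure_iff]
      intro ε hε
      obtain ⟨n, hn⟩ := (hsmall.eventually (gt_mem_nhds hε)).exists
      refine ⟨p ((g n).symm y), mem_range_self _, ?_⟩
      have h2 := hpd ((g n).symm y) n
      rw [Homeomorph.apply_symm_apply] at h2
      exact lt_of_le_of_lt h2 hn
    rw [hcr.closure_eq] at h1
    exact h1
  · intro x y
    show p x = p y ↔ _
    constructor
    · intro hxy
      by_cases hx : x ∈ I
      · by_cases hy : y ∈ I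
        · exact Or.inr ⟨hx, hy⟩
        · exact absurd hxy.symm (hIn y hy x hx)
      · by_cases hy : y ∈ I
        · exact absurd hxy (hIn x hx y hy)
        · left
          obtain ⟨N, hN⟩ := hexN x hx
          obtain ⟨N', hN'⟩ := hexN y hy
          have h1 := hpstab x N hN (max N N') (le_max_left _ _)
          have h2 := hpstab y N' hN' (max N N') (le_max_right _ _)
          exact (g (max N N')).injective (by rw [← h1, ← h2, hxy])
    · rintro (rfl | ⟨hx, hy⟩)
      · rfl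
      · exact hII x hx y hy

end Pool.Agent.HCF
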