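import Pool.Agent.HCF.TShr
import Pool.Agent.HCF.TBing

/-! # The quotient of the cube by the inverse limit is the cube (module TCOL) -/

open Topology Filter

noncomputable section

namespace Pool.Agent.HCF

/-- Points of the product which agree in many coordinates are close. -/
theorem tcol_close (d : MetricSpace CC)
    (hd : d.toUniformSpace.toTopologicalSpace = (inferInstance : TopologicalSpace CC))
    (ε : ℝ) (hε : 0 < ε) :
    ∃ n₀ : ℕ, ∀ p q : CC, (∀ i ≤ n₀, p i = q i) → d.dist p q < ε := by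
  by_contra hcon
  push Not at hcon
  choose p q hpq hdist using hcon
  obtain ⟨a, φ, hφ, ha⟩ := CompactSpace.tendsto_subseq (fun n => ((p n, q n) : CC × CC))
  have h1 : Tendsto (fun k => p (φ k)) atTop (𝓝 a.1) := (continuous_fst.tendsto a).comp ha
  have h2 : Tendsto (fun k => q (φ k)) atTop (𝓝 a.2) := (continuous_snd.tendsto a).comp ha
  have heq : a.1 = a.2 := by
    funext i
    have h1' : Tendsto (fun k => p (φ k) i) atTop (𝓝 (a.1 i)) :=
      ((continuous_apply i).tendsto a.1).comp h1
    have h2' : Tendsto (fun k => q (φ k) i) atTop (𝓝 (a.2 i)) :=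
      ((continuous_apply i).tendsto a.2).comp h2
    refine tendsto_nhds_unique h1' (h2'.congr' ?_)
    filter_upwards [eventually_ge_atTop i] with k hk
    exact (hpq (φ k) i (hk.trans (hφ.id_le k))).symm
  have h3 : Tendsto (fun k => d.dist (p (φ k)) (q (φ k))) atTop (𝓝 (d.dist a.1 a.2)) := by
    have hp : @Tendsto ℕ CC (fun k => p (φ k)) atTop (@nhds CC d.toUniformSpace.toTopologicalSpace a.1) := by
      rw [hd]; exact h1
    have hq : @Tendsto ℕ CC (fun k => q (φ k)) atTop (@nhds CC d.toUniformSpace.toTopologicalSpace a.2) := by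
      rw [hd]; exact h2
    exact @Tendsto.dist CC ℕ d.toPseudoMetricSpace _ _ _ _ _ hp hq
  have h4 : d.dist a.1 a.2 = 0 := by
    rw [heq]; exact d.dist_self a.2
  rw [h4] at h3
  exact absurd (ge_of_tendsto' h3 fun k => hdist (φ k)) (not_le.2 hε)

theorem exists_collapse (T : Tower) : ∃ π : C(CC, CC), Function.Surjective π ∧
    ∀ x y, π x = π y ↔ x = y ∨ (x ∈ II T ∧ y ∈ II T) := by
  have hclosed : IsClosed (II T) := (isCompact_II T).isClosed
  letI d : MetricSpace CC := TopologicalSpace.metrizableSpaceMetric CC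
  have hd : d.toUniformSpace.toTopologicalSpace = (inferInstance : TopologicalSpace CC) := rfl
  refine bing (X := CC) (II T) hclosed (II_nonempty T) fun U hU hIU ε hε => ?_
  obtain ⟨n₀, hn₀⟩ := tcol_close d hd ε hε
  obtain ⟨n, δ, hn, hδ, hδ1, hNN⟩ := exists_NN_subset T U hU hIU n₀
  obtain ⟨h, h1, -, h3, -, -⟩ := exists_push T n δ hδ hδ1
  refine ⟨h, fun x hx => h1 x fun hx' => hx (hNN hx'), fun x hx y hy => ?_⟩
  exact hn₀ _ _ fun i hi => h3 x hx y hy i (hi.trans hn)

end Pool.Agent.HCF
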