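import Pool.Agent.HCF.MDefs
import Pool.Agent.HCF.TCol

/-! # Topology of the model of `C / I` (module MTOP) -/

open Topology

noncomputable section

namespace Pool.Agent.HCF

private lemma mtop_cont_snd (T : Tower) :
    Continuous (fun y : CC => (fun j => ((cw j * rho T y : ℝ) : ℂ) • (y j).1 : ℕ → E2)) := by
  refine continuous_pi fun j => ?_
  have h1 : Continuous fun y : CC => ((cw j * rho T y : ℝ) : ℂ) :=
    Complex.continuous_ofReal.comp (continuous_const.mul (rho T).continuous)
  have h2 : Continuous fun y : CC => (y j).1 := continuous_subtype_val.comp (continuous_apply j)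
  exact h1.smul h2

private lemma mtop_cont_emb (T : Tower) : Continuous (emb T) :=
  Continuous.prodMk (rho T).continuous
    (show @Continuous CC PE _ _ (fun y => fun j => ((cw j * rho T y : ℝ) : ℂ) • (y j).1) from
      mtop_cont_snd T)

theorem continuous_toM0 (T : Tower) : Continuous (toM0 T) :=
  (mtop_cont_emb T).subtype_mk _

instance (T : Tower) : CompactSpace (M0 T) where
  isCompact_univ := by
    rw [← (toM0_surjective T).range_eq]
    exact isCompact_range (continuous_toM0 T)

theorem toM0_eq_iff (T : Tower) (x y : CC) :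
    toM0 T x = toM0 T y ↔ x = y ∨ (x ∈ II T ∧ y ∈ II T) := by
  have hcw : ∀ j, cw j ≠ 0 := fun j => by unfold cw; positivity
  constructor
  · intro h
    have h1 : emb T x = emb T y := congrArg Subtype.val h
    have h2 : rho T x = rho T y := congrArg Prod.fst h1
    have h3 : ∀ j, ((cw j * rho T x : ℝ) : ℂ) • (x j).1 = ((cw j * rho T y : ℝ) : ℂ) • (y j).1 :=
      fun j => congrFun (congrArg Prod.snd h1) j
    by_cases h0 : rho T x = 0
    · exact Or.inr ⟨(rho_eq_zero T x).1 h0, (rho_eq_zero T y).1 (h2 ▸ h0)⟩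
    · refine Or.inl (funext fun j => Subtype.ext ?_)
      have h4 := h3 j
      rw [← h2] at h4
      have h5 : ((cw j * rho T x : ℝ) : ℂ) ≠ 0 := by
        rw [Complex.ofReal_ne_zero]
        exact mul_ne_zero (hcw j) h0
      exact smul_right_injective _ h5 h4
  · rintro (rfl | ⟨hx, hy⟩)
    · rfl
    · refine Subtype.ext (Prod.ext ?_ ?_)
      · change rho T x = rho T y
        rw [(rho_eq_zero T x).2 hx, (rho_eq_zero T y).2 hy]
      · change (fun j => ((cw j * rho T x : ℝ) : ℂ) • (x j).1) =
          fun j => ((cw j * rho T y : ℝ) : ℂ) • (y j).1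
        rw [(rho_eq_zero T x).2 hx, (rho_eq_zero T y).2 hy]
        simp

theorem isQuotientMap_toM0 (T : Tower) : IsQuotientMap (toM0 T) :=
  IsQuotientMap.of_surjective_continuous (toM0_surjective T) (continuous_toM0 T)

private lemma mtop_homeo {X Y Z : Type} [TopologicalSpace X] [TopologicalSpace Y]
    [TopologicalSpace Z] (f : C(X, Y)) (g : C(X, Z)) (hf : IsQuotientMap f) (hg : IsQuotientMap g)
    (h : ∀ a b, f a = f b ↔ g a = g b) : Nonempty (Y ≃ₜ Z) := by
  have h1 : Function.FactorsThrough g f := fun a b hab => (h a b).1 hab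
  have h2 : Function.FactorsThrough f g := fun a b hab => (h a b).2 hab
  have e1 : ∀ x, hf.lift g h1 (f x) = g x := fun x =>
    ContinuousMap.congr_fun (hf.lift_comp g h1) x
  have e2 : ∀ x, hg.lift f h2 (g x) = f x := fun x =>
    ContinuousMap.congr_fun (hg.lift_comp f h2) x
  refine ⟨
    { toFun := hf.lift g h1
      invFun := hg.lift f h2
      left_inv := ?_
      right_inv := ?_
      continuous_toFun := (hf.lift g h1).continuous
      continuous_invFun := (hg.lift f h2).continuous }⟩
  · intro y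
    obtain ⟨x, rfl⟩ := hf.surjective y
    rw [e1, e2]
  · intro z
    obtain ⟨x, rfl⟩ := hg.surjective z
    rw [e2, e1]

/-- the model is homeomorphic to the Hilbert cube -/
theorem M0_homeo (T : Tower) : Nonempty (M0 T ≃ₜ CC) := by
  obtain ⟨p, hp, hp2⟩ := exists_collapse T
  refine mtop_homeo (⟨toM0 T, continuous_toM0 T⟩ : C(CC, M0 T)) p (isQuotientMap_toM0 T)
    (IsQuotientMap.of_surjective_continuous hp p.continuous) ?_
  intro a b
  change toM0 T a = toM0 T b ↔ p a = p b
  rw [toM0_eq_iff, hp2]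

theorem M0_CM_homeo_CC (T : Tower) : Nonempty (M0 T × CM ≃ₜ CC) := by
  obtain ⟨e⟩ := M0_homeo T
  obtain ⟨e2⟩ := CC_prod_homeo
  exact ⟨(e.prodCongr (show CM ≃ₜ CC from Homeomorph.refl CC)).trans e2⟩

theorem M0_CM_homeo_Q (T : Tower) : Nonempty (M0 T × CM ≃ₜ (ℕ → unitInterval)) := by
  obtain ⟨e⟩ := M0_CM_homeo_CC T
  obtain ⟨e2⟩ := CC_homeo_Q
  exact ⟨e.trans e2⟩

end Pool.Agent.HCF
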