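import Pool.Agent.HCF.SDefs

/-! # The space of idempotent matrices is an ANR (module SANR) -/

open Topology

noncomputable section

namespace Pool.Agent.HCF

section SanrIter

variable {A : Type} [NormedRing A]

/-- the defect -/
def sanrD (a : A) : A := a * a - a

/-- one step of the iteration: `3 a ^ 2 - 2 a ^ 3` -/
def sanrQ (a : A) : A := a + (sanrD a - (a * sanrD a + a * sanrD a))

/-- the iteration -/
def sanrI (a : A) : ℕ → A
  | 0 => a
  | n + 1 => sanrQ (sanrI a n)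

lemma sanrD_sanrQ (a : A) : sanrD (sanrQ a) =
    sanrD a * sanrD a * (sanrD a + sanrD a + (sanrD a + sanrD a)) -
      (sanrD a * sanrD a + sanrD a * sanrD a + sanrD a * sanrD a) := by
  simp only [sanrQ, sanrD]
  noncomm_ring

lemma sanr_norm_step (a : A) : ‖sanrQ a - a‖ ≤ (1 + 2 * ‖a‖) * ‖sanrD a‖ := by
  have h : sanrQ a - a = sanrD a - (a * sanrD a + a * sanrD a) := by
    unfold sanrQ
    abel
  rw [h]
  have h1 := norm_sub_le (sanrD a) (a * sanrD a + a * sanrD a)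
  have h2 := norm_add_le (a * sanrD a) (a * sanrD a)
  have h3 := norm_mul_le a (sanrD a)
  nlinarith

lemma sanr_norm_defect (a : A) (ha : ‖sanrD a‖ ≤ 1 / 8) :
    ‖sanrD (sanrQ a)‖ ≤ ‖sanrD a‖ / 2 := by
  rw [sanrD_sanrQ]
  have h0 := norm_nonneg (sanrD a)
  have h1 := norm_sub_le (sanrD a * sanrD a * (sanrD a + sanrD a + (sanrD a + sanrD a)))
    (sanrD a * sanrD a + sanrD a * sanrD a + sanrD a * sanrD a)
  have h2 := norm_mul_le (sanrD a * sanrD a) (sanrD a + sanrD a + (sanrD a + sanrD a))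
  have h3 := norm_mul_le (sanrD a) (sanrD a)
  have h4 := norm_add_le (sanrD a + sanrD a) (sanrD a + sanrD a)
  have h5 := norm_add_le (sanrD a) (sanrD a)
  have h6 := norm_add_le (sanrD a * sanrD a + sanrD a * sanrD a) (sanrD a * sanrD a)
  have h7 := norm_add_le (sanrD a * sanrD a) (sanrD a * sanrD a)
  have h8 : ‖sanrD a * sanrD a‖ * ‖sanrD a + sanrD a + (sanrD a + sanrD a)‖ ≤
      (‖sanrD a‖ * ‖sanrD a‖) * (4 * ‖sanrD a‖) := by
    apply mul_le_mul h3 (by linarith) (norm_nonneg _) (by positivity)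
  have h9 : ‖sanrD a‖ * ‖sanrD a‖ ≤ ‖sanrD a‖ * (1 / 8) := mul_le_mul_of_nonneg_left ha h0
  have h10 : (‖sanrD a‖ * ‖sanrD a‖) * (4 * ‖sanrD a‖) ≤
      (‖sanrD a‖ * ‖sanrD a‖) * (4 * (1 / 8)) := by
    apply mul_le_mul_of_nonneg_left (by linarith) (by positivity)
  nlinarith

lemma sanr_bounds (a : A) (ha : ‖sanrD a‖ ≤ 1 / 8) (n : ℕ) :
    ‖sanrD (sanrI a n)‖ ≤ 1 / 8 * (1 / 2) ^ n ∧
      1 + 2 * ‖sanrI a n‖ ≤ (1 + 2 * ‖a‖) * (2 - (1 / 2) ^ n) := by
  induction n with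
  | zero => exact ⟨by simpa [sanrI] using ha, by simp [sanrI]; linarith⟩
  | succ n ih =>
    obtain ⟨h1, h2⟩ := ih
    have hp : (0 : ℝ) < (1 / 2) ^ n := by positivity
    have hp1 : ((1 : ℝ) / 2) ^ n ≤ 1 := pow_le_one₀ (by norm_num) (by norm_num)
    have h8 : ‖sanrD (sanrI a n)‖ ≤ 1 / 8 := by nlinarith
    refine ⟨?_, ?_⟩
    · have := sanr_norm_defect _ h8
      change ‖sanrD (sanrQ (sanrI a n))‖ ≤ _
      rw [pow_succ]
      linarith
    · change 1 + 2 * ‖sanrQ (sanrI a n)‖ ≤ _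
      have h3 := sanr_norm_step (sanrI a n)
      have h4 : ‖sanrQ (sanrI a n)‖ ≤ ‖sanrQ (sanrI a n) - sanrI a n‖ + ‖sanrI a n‖ := by
        have := norm_add_le (sanrQ (sanrI a n) - sanrI a n) (sanrI a n)
        rwa [sub_add_cancel] at this
      have h5 : (1 + 2 * ‖sanrI a n‖) * ‖sanrD (sanrI a n)‖ ≤
          (1 + 2 * ‖sanrI a n‖) * (1 / 8 * (1 / 2) ^ n) :=
        mul_le_mul_of_nonneg_left h1 (by positivity)
      have h6 : (1 + 2 * ‖sanrI a n‖) * (1 + 1 / 4 * (1 / 2) ^ n) ≤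
          ((1 + 2 * ‖a‖) * (2 - (1 / 2) ^ n)) * (1 + 1 / 4 * (1 / 2) ^ n) :=
        mul_le_mul_of_nonneg_right h2 (by positivity)
      have h7 : (1 + 2 * ‖a‖) * ((2 - (1 / 2) ^ n) * (1 + 1 / 4 * (1 / 2) ^ n)) ≤
          (1 + 2 * ‖a‖) * (2 - (1 / 2) ^ (n + 1)) := by
        apply mul_le_mul_of_nonneg_left _ (by positivity)
        rw [pow_succ]
        nlinarith [mul_pos hp hp]
      nlinarith

lemma sanr_step_le (a : A) (ha : ‖sanrD a‖ ≤ 1 / 8) (n : ℕ) :
    ‖sanrI a (n + 1) - sanrI a n‖ ≤ (1 + 2 * ‖a‖) * (1 / 2) ^ n := by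
  obtain ⟨h1, h2⟩ := sanr_bounds a ha n
  have h3 := sanr_norm_step (sanrI a n)
  change ‖sanrQ (sanrI a n) - sanrI a n‖ ≤ _
  have hp : (0 : ℝ) < (1 / 2) ^ n := by positivity
  have h4 : (1 + 2 * ‖sanrI a n‖) * ‖sanrD (sanrI a n)‖ ≤
      (1 + 2 * ‖sanrI a n‖) * (1 / 8 * (1 / 2) ^ n) :=
    mul_le_mul_of_nonneg_left h1 (by positivity)
  have h5 : (1 + 2 * ‖sanrI a n‖) * (1 / 8 * (1 / 2) ^ n) ≤
      ((1 + 2 * ‖a‖) * (2 - (1 / 2) ^ n)) * (1 / 8 * (1 / 2) ^ n) :=
    mul_le_mul_of_nonneg_right h2 (by positivity)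
  have h6 : (1 + 2 * ‖a‖) * ((2 - (1 / 2) ^ n) * (1 / 8 * (1 / 2) ^ n)) ≤
      (1 + 2 * ‖a‖) * (1 / 2) ^ n := by
    apply mul_le_mul_of_nonneg_left _ (by positivity)
    nlinarith [mul_pos hp hp]
  nlinarith

lemma sanrI_continuous (n : ℕ) : Continuous fun a : A => sanrI a n := by
  induction n with
  | zero => exact continuous_id
  | succ n ih =>
    change Continuous fun a : A => sanrQ (sanrI a n)
    unfold sanrQ sanrD
    fun_prop

lemma sanrI_of_idem (a : A) (ha : a * a = a) (n : ℕ) : sanrI a n = a := by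
  induction n with
  | zero => rfl
  | succ n ih =>
    change sanrQ (sanrI a n) = a
    rw [ih, sanrQ, sanrD, ha]
    simp

/-- the limit of the iteration -/
def sanrL (a : A) : A := a + ∑' n, (sanrI a (n + 1) - sanrI a n)

lemma sanrL_of_idem (a : A) (ha : a * a = a) : sanrL a = a := by
  simp [sanrL, sanrI_of_idem a ha]

variable [CompleteSpace A]

lemma sanr_summable (a : A) (ha : ‖sanrD a‖ ≤ 1 / 8) :
    Summable fun n => sanrI a (n + 1) - sanrI a n :=
  Summable.of_norm_bounded ((summable_geometric_two).mul_left _) (sanr_step_le a ha)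

lemma sanr_tendsto (a : A) (ha : ‖sanrD a‖ ≤ 1 / 8) :
    Filter.Tendsto (fun n => sanrI a n) Filter.atTop (𝓝 (sanrL a)) := by
  have h := (sanr_summable a ha).hasSum.tendsto_sum_nat
  have h2 := h.const_add a
  refine h2.congr fun n => ?_
  rw [Finset.sum_range_sub]
  change a + (sanrI a n - a) = sanrI a n
  abel

lemma sanrL_idem (a : A) (ha : ‖sanrD a‖ ≤ 1 / 8) : sanrL a * sanrL a = sanrL a := by
  have h := sanr_tendsto a ha
  have h1 : Filter.Tendsto (fun n => sanrD (sanrI a n)) Filter.atTop (𝓝 (sanrD (sanrL a))) := by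
    unfold sanrD
    exact (h.mul h).sub h
  have h2 : Filter.Tendsto (fun n => sanrD (sanrI a n)) Filter.atTop (𝓝 0) := by
    refine squeeze_zero_norm (fun n => (sanr_bounds a ha n).1) ?_
    have := (tendsto_pow_atTop_nhds_zero_of_lt_one (r := (1 / 2 : ℝ)) (by norm_num)
      (by norm_num)).const_mul (1 / 8)
    simpa using this
  exact sub_eq_zero.1 (tendsto_nhds_unique h1 h2)

lemma sanrL_continuousAt (a : A) (ha : ‖sanrD a‖ < 1 / 8) : ContinuousAt sanrL a := by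
  have hDc : Continuous fun b : A => ‖sanrD b‖ := by
    unfold sanrD
    fun_prop
  have hO : IsOpen ({b : A | ‖sanrD b‖ < 1 / 8} ∩ {b : A | ‖b‖ < ‖a‖ + 1}) :=
    (isOpen_lt hDc continuous_const).inter (isOpen_lt continuous_norm continuous_const)
  have hmem : a ∈ ({b : A | ‖sanrD b‖ < 1 / 8} ∩ {b : A | ‖b‖ < ‖a‖ + 1}) :=
    ⟨ha, by simp⟩
  have hc : ContinuousOn sanrL ({b : A | ‖sanrD b‖ < 1 / 8} ∩ {b : A | ‖b‖ < ‖a‖ + 1}) := by
    unfold sanrL
    refine continuousOn_id.add ?_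
    refine continuousOn_tsum (u := fun n => (1 + 2 * (‖a‖ + 1)) * (1 / 2) ^ n)
      (fun n => ((sanrI_continuous (n + 1)).sub (sanrI_continuous n)).continuousOn)
      ((summable_geometric_two).mul_left _) ?_
    rintro n b ⟨hb1, hb2⟩
    simp only [Set.mem_ofPred_eq] at hb1 hb2
    refine (sanr_step_le b hb1.le n).trans ?_
    apply mul_le_mul_of_nonneg_right _ (by positivity)
    linarith
  exact hc.continuousAt (hO.mem_nhds hmem)

end SanrIter

/-- the space of idempotent matrices -/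
def Idem (N : Type) [Fintype N] [DecidableEq N] : Type := {a : Matrix N N ℂ // a * a = a}

instance (N : Type) [Fintype N] [DecidableEq N] : TopologicalSpace (Idem N) :=
  inferInstanceAs (TopologicalSpace {a : Matrix N N ℂ // a * a = a})

lemma sanr_retract (N : Type) [Fintype N] [DecidableEq N] :
    ∃ (O : Set (Matrix N N ℂ)) (L : Matrix N N ℂ → Matrix N N ℂ), IsOpen O ∧
      (∀ a, a * a = a → a ∈ O) ∧ (∀ a, a * a = a → L a = a) ∧ (∀ a ∈ O, L a * L a = L a) ∧
        ContinuousOn L O := by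
  let _ : NormedRing (Matrix N N ℂ) := Matrix.linftyOpNormedRing
  let _ : NormedAlgebra ℂ (Matrix N N ℂ) := Matrix.linftyOpNormedAlgebra
  have : CompleteSpace (Matrix N N ℂ) := FiniteDimensional.complete ℂ _
  refine ⟨{a | ‖sanrD a‖ < 1 / 8}, sanrL, ?_, ?_, sanrL_of_idem, ?_, ?_⟩
  · have hDc : Continuous fun b : Matrix N N ℂ => ‖sanrD b‖ := by
      unfold sanrD
      fun_prop
    exact isOpen_lt hDc continuous_const
  · intro a ha
    simp [sanrD, ha]
  · intro a ha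
    exact sanrL_idem a (le_of_lt ha)
  · intro a ha
    exact (sanrL_continuousAt a ha).continuousWithinAt

theorem isANR_Idem (N : Type) [Fintype N] [DecidableEq N] : IsANR (Idem N) := by
  have hm : TopologicalSpace.MetrizableSpace (Matrix N N ℂ) :=
    inferInstanceAs (TopologicalSpace.MetrizableSpace (N → N → ℂ))
  have hemb : IsEmbedding (fun a : Idem N => (a.1 : Matrix N N ℂ)) := IsEmbedding.subtypeVal
  refine ⟨hemb.metrizableSpace, ?_⟩
  intro Z _ _ e he
  obtain ⟨O, L, hO, h1, h2, h3, h4⟩ := sanr_retract N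
  have : TietzeExtension.{0, 0} (Matrix N N ℂ) :=
    inferInstanceAs (TietzeExtension.{0, 0} (N → N → ℂ))
  obtain ⟨F, hF⟩ := ContinuousMap.exists_extension' he
    (⟨fun a => a.1, continuous_subtype_val⟩ : C(Idem N, Matrix N N ℂ))
  have hF' : ∀ a : Idem N, F (e a) = a.1 := fun a => congrFun hF a
  refine ⟨F ⁻¹' O, hO.preimage F.continuous, ?_, ⟨fun z => ⟨L (F z.1), h3 _ z.2⟩, ?_⟩, ?_⟩
  · rintro _ ⟨a, rfl⟩
    change F (e a) ∈ O
    rw [hF']
    exact h1 _ a.2
  · refine Continuous.subtype_mk ?_ _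
    exact h4.comp_continuous (F.continuous.comp continuous_subtype_val) fun z => z.2
  · intro a ha
    refine Subtype.ext ?_
    change L (F (e a)) = a.1
    rw [hF', h2 _ a.2]

end Pool.Agent.HCF
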