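import Pool.Agent.HCF.MAct

/-! # The Bott idempotent on the model (module SBOTT) -/

open Topology

noncomputable section

namespace Pool.Agent.HCF

/-- the weights of the four coordinates -/
def w4 : Fin 4 → ℤ := ![0, 2, 1, 1]

/-- the truncated square of the norm -/
def sbottR (v : E2) : ℝ := min 1 (‖v‖ ^ 2)

/-- the off diagonal factor -/
def sbottS (v : E2) : ℝ := √(1 - sbottR v)

/-- the Bott idempotent on `ℂ²` -/
def sbottE (v : E2) : Matrix (Fin 4) (Fin 4) ℂ :=
  !![1 - (sbottR v : ℂ), 0, (sbottS v : ℂ) * star (v 0), (sbottS v : ℂ) * star (v 1);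
     0, 1 - (sbottR v : ℂ), -((sbottS v : ℂ) * v 1), (sbottS v : ℂ) * v 0;
     (sbottS v : ℂ) * v 0, -((sbottS v : ℂ) * star (v 1)), (sbottR v : ℂ), 0;
     (sbottS v : ℂ) * v 1, (sbottS v : ℂ) * star (v 0), 0, (sbottR v : ℂ)]

lemma sbott_continuous_R : Continuous sbottR := by
  unfold sbottR
  fun_prop

lemma sbott_continuous_S : Continuous sbottS := by
  have := sbott_continuous_R
  unfold sbottS
  fun_prop

lemma sbott_continuous_E : Continuous sbottE := by
  have h1 : Continuous fun v : E2 => (sbottR v : ℂ) :=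
    Complex.continuous_ofReal.comp sbott_continuous_R
  have h2 : Continuous fun v : E2 => (sbottS v : ℂ) :=
    Complex.continuous_ofReal.comp sbott_continuous_S
  refine continuous_matrix fun i j => ?_
  fin_cases i <;> fin_cases j <;> simp [sbottE] <;> fun_prop

lemma sbott_norm (v : E2) : star (v 0) * v 0 + star (v 1) * v 1 = ((‖v‖ ^ 2 : ℝ) : ℂ) := by
  rw [EuclideanSpace.norm_sq_eq, Fin.sum_univ_two, Complex.ofReal_add, Complex.ofReal_pow,
    Complex.ofReal_pow]
  congr 1
  · exact Complex.conj_mul' _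
  · exact Complex.conj_mul' _

lemma sbott_R_le (v : E2) : sbottR v ≤ 1 := min_le_left _ _

lemma sbott_S_sq (v : E2) : sbottS v * sbottS v = 1 - sbottR v :=
  Real.mul_self_sqrt (by linarith [sbott_R_le v])

lemma sbott_key (v : E2) : (sbottS v : ℂ) * (sbottS v : ℂ) *
    (star (v 0) * v 0 + star (v 1) * v 1) = (1 - (sbottR v : ℂ)) * (sbottR v : ℂ) := by
  rw [sbott_norm]
  have h : sbottS v * sbottS v * ‖v‖ ^ 2 = (1 - sbottR v) * sbottR v := by
    rw [sbott_S_sq]
    unfold sbottR
    rcases le_total 1 (‖v‖ ^ 2) with h1 | h1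
    · rw [min_eq_left h1]; ring
    · rw [min_eq_right h1]
  have h2 := congrArg Complex.ofReal h
  push_cast at h2 ⊢
  exact h2

lemma sbott_idem (v : E2) : sbottE v * sbottE v = sbottE v := by
  have h : (sbottS v : ℂ) * (sbottS v : ℂ) *
    ((starRingEnd ℂ) (v 0) * v 0 + (starRingEnd ℂ) (v 1) * v 1) =
      (1 - (sbottR v : ℂ)) * (sbottR v : ℂ) := sbott_key v
  ext i j
  rw [Matrix.mul_apply, Fin.sum_univ_four]
  fin_cases i <;> fin_cases j <;> simp [sbottE] <;>
    first
      | ring1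
      | linear_combination h

lemma sbott_weight (v : E2) (c : Circle) (i j : Fin 4) :
    sbottE ((c : ℂ) • v) i j = ((c ^ (w4 i - w4 j) : Circle) : ℂ) * sbottE v i j := by
  have hR : sbottR ((c : ℂ) • v) = sbottR v := by
    unfold sbottR; rw [norm_smul, Circle.norm_coe, one_mul]
  have hS : sbottS ((c : ℂ) • v) = sbottS v := by
    unfold sbottS; rw [hR]
  have hc : star (c : ℂ) = ((c⁻¹ : Circle) : ℂ) := (Circle.coe_inv_eq_conj c).symm
  have h0 : ∀ k, ((c : ℂ) • v) k = (c : ℂ) * v k := fun k => by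
    rw [PiLp.smul_apply, smul_eq_mul]
  have h1 : ∀ k, star (((c : ℂ) • v) k) = ((c⁻¹ : Circle) : ℂ) * star (v k) := fun k => by
    rw [h0, star_mul', hc]
  unfold sbottE
  rw [hR, hS, h0, h0, star_mul', star_mul', hc]
  have e1 : ((c ^ (0 : ℤ) : Circle) : ℂ) = 1 := by simp
  have e2 : ((c ^ (1 : ℤ) : Circle) : ℂ) = (c : ℂ) := by simp
  have e3 : ((c ^ (-1 : ℤ) : Circle) : ℂ) = ((c⁻¹ : Circle) : ℂ) := by simp
  fin_cases i <;> fin_cases j <;> simp [w4] <;> ring

/-- The Bott idempotent, equivariant under the action of level `k`. -/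
theorem exists_bott_idem (T : Tower) (k : ℕ) : ∃ e : C(MK T k, Matrix (Fin 4) (Fin 4) ℂ),
    (∀ m, e m * e m = e m) ∧
    (∀ (w : PG) (m : MK T k) (i j : Fin 4), e (w • m) i j =
      ((w.1 1 ^ (w4 i - w4 j) : Circle) : ℂ) * e m i j) ∧
    e (pt0 T k) = Matrix.diagonal ![1, 1, 0, 0] ∧
    ∀ y ∈ II T, e (show MK T k from toM0 T y) = Matrix.diagonal ![0, 0, 1, 1] := by
  have hone : ∀ v : E2, ‖v‖ = 1 → sbottE v = Matrix.diagonal ![0, 0, 1, 1] := by
    intro v hv
    have hR : sbottR v = 1 := by unfold sbottR; rw [hv]; norm_num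
    have hS : sbottS v = 0 := by unfold sbottS; rw [hR]; norm_num
    unfold sbottE
    rw [hR, hS]
    ext i j
    fin_cases i <;> fin_cases j <;> simp
  have hII : ∀ y ∈ II T, sbottE (y k).1 = Matrix.diagonal ![0, 0, 1, 1] := by
    rintro y ⟨x, -, hx⟩
    apply hone
    rw [hx k]
    exact mem_sphere_zero_iff_norm.1 (x k).2
  let q : C(CC, M0 T) := ⟨toM0 T, continuous_toM0 T⟩
  let g : C(CC, Matrix (Fin 4) (Fin 4) ℂ) :=
    ⟨fun y => sbottE (y k).1, sbott_continuous_E.comp
      (continuous_subtype_val.comp (continuous_apply k))⟩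
  have hq : IsQuotientMap q := isQuotientMap_toM0 T
  have hg : Function.FactorsThrough g q := by
    intro y y' h
    rcases (toM0_eq_iff T y y').1 h with h1 | ⟨h1, h2⟩
    · rw [h1]
    · exact (hII y h1).trans (hII y' h2).symm
  have hlift : ∀ y : CC, hq.lift g hg (toM0 T y) = sbottE (y k).1 := fun y =>
    DFunLike.congr_fun (hq.lift_comp g hg) y
  refine ⟨(hq.lift g hg : C(M0 T, Matrix (Fin 4) (Fin 4) ℂ)), ?_, ?_, ?_, ?_⟩
  · intro m
    obtain ⟨y, rfl⟩ := toM0_surjective T m
    have := hlift y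
    erw [this]
    exact sbott_idem _
  · intro w m i j
    obtain ⟨y, rfl⟩ := toM0_surjective T m
    have h1 := smul_toM0 T k w y
    erw [h1]
    erw [hlift y, hlift (actC (fun j => w.1 (ak k j)) y)]
    have h2 : ((actC (fun j => w.1 (ak k j)) y) k).1 = (w.1 1 : ℂ) • (y k).1 := by
      have h3 : ak k k = 1 := by
        unfold ak
        have := Nat.one_le_two_pow (n := k)
        omega
      change (w.1 (ak k k) : ℂ) • (y k).1 = _
      rw [h3]
    rw [h2]
    exact sbott_weight _ _ _ _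
  · have h1 := hlift c0
    refine Eq.trans h1 ?_
    have h0 : ((c0 : CC) k).1 = 0 := rfl
    rw [h0]
    have hR : sbottR (0 : E2) = 0 := by unfold sbottR; simp
    have hS : sbottS (0 : E2) = 1 := by unfold sbottS; rw [hR]; simp
    unfold sbottE
    rw [hR, hS]
    ext i j
    fin_cases i <;> fin_cases j <;> simp
  · intro y hy
    exact (hlift y).trans (hII y hy)

end Pool.Agent.HCF
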