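import Pool.Agent.HCF.GAct

/-! # Embedding of the equivariant line bundles (module SUMAP) -/

open Topology

noncomputable section

namespace Pool.Agent.HCF

/-- index type of the large matrices -/
abbrev NI : Type := Fin 4 × Fin 5 × Fin 5

lemma sumap_cast : 5 = 5 ^ (0 + 1) := by norm_num

/-- the conjugates of the coordinates of the first component -/
def sumapCv (x : I0) (i : Fin 5) : ℂ := star ((x 0).1 (Fin.cast sumap_cast i))

/-- the first basis vector -/
def sumapE (i : Fin 5) : ℂ := if i = 0 then 1 else 0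

/-- left factor -/
def sumapL (x : I0) (b : Fin 4) (i : Fin 5) : ℂ := if b = 0 then sumapE i else sumapCv x i

/-- right factor -/
def sumapR (x : I0) (b : Fin 4) (i : Fin 5) : ℂ := if b = 1 then sumapCv x i else sumapE i

lemma sumap_continuous_cv (i : Fin 5) : Continuous fun x : I0 => sumapCv x i := by
  have h1 : Continuous fun x : I0 => x 0 := continuous_apply (A := fun j : ℕ => SS j) 0
  have h2 : Continuous fun v : SS 0 => (v.1 (Fin.cast sumap_cast i) : ℂ) := by fun_prop
  exact continuous_star.comp (h2.comp h1)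

lemma sumap_continuous_L (b : Fin 4) (i : Fin 5) : Continuous fun x : I0 => sumapL x b i := by
  unfold sumapL
  split_ifs
  · exact continuous_const
  · exact sumap_continuous_cv i

lemma sumap_continuous_R (b : Fin 4) (i : Fin 5) : Continuous fun x : I0 => sumapR x b i := by
  unfold sumapR
  split_ifs
  · exact sumap_continuous_cv i
  · exact continuous_const

lemma sumap_cv_sum (x : I0) : ∑ i, star (sumapCv x i) * sumapCv x i = 1 := by
  have h1 : ‖(x 0).1‖ = 1 := mem_sphere_zero_iff_norm.1 (x 0).2
  have h2 : ∑ i, ‖(x 0).1 i‖ ^ 2 = 1 := by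
    rw [← EuclideanSpace.norm_sq_eq, h1, one_pow]
  have h3 : ∀ i : Fin 5, star (sumapCv x i) * sumapCv x i =
      ((‖(x 0).1 (Fin.cast sumap_cast i)‖ ^ 2 : ℝ) : ℂ) := by
    intro i
    unfold sumapCv
    rw [star_star, Complex.ofReal_pow]
    exact Complex.mul_conj' _
  simp only [h3]
  rw [← Complex.ofReal_sum]
  rw [show (∑ i : Fin 5, ‖(x 0).1 (Fin.cast sumap_cast i)‖ ^ 2) = ∑ i, ‖(x 0).1 i‖ ^ 2 from
    Equiv.sum_comp (finCongr sumap_cast) fun i => ‖(x 0).1 i‖ ^ 2]
  rw [h2, Complex.ofReal_one]

lemma sumap_E_sum : ∑ i, star (sumapE i) * sumapE i = 1 := by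
  simp [sumapE, Fin.sum_univ_five]

lemma sumap_L_sum (x : I0) (b : Fin 4) : ∑ i, star (sumapL x b i) * sumapL x b i = 1 := by
  unfold sumapL
  split_ifs
  · exact sumap_E_sum
  · exact sumap_cv_sum x

lemma sumap_R_sum (x : I0) (b : Fin 4) : ∑ i, star (sumapR x b i) * sumapR x b i = 1 := by
  unfold sumapR
  split_ifs
  · exact sumap_cv_sum x
  · exact sumap_E_sum

/-- the weights of the left factor -/
def sumapWL (b : Fin 4) : ℤ := if b = 0 then 0 else 1
/-- the weights of the right factor -/
def sumapWR (b : Fin 4) : ℤ := if b = 1 then 1 else 0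

lemma sumap_cv_smul (w : PG) (x : I0) (i : Fin 5) :
    sumapCv (w • x) i = ((w.1 1 ^ (-1 : ℤ) : Circle) : ℂ) * sumapCv x i := by
  have h1 : ((w • x) 0).1 = (w.1 1 : ℂ) • (x 0).1 := rfl
  unfold sumapCv
  rw [h1, PiLp.smul_apply, smul_eq_mul, star_mul', zpow_neg_one, Circle.coe_inv_eq_conj]
  rfl

lemma sumap_L_smul (w : PG) (x : I0) (b : Fin 4) (i : Fin 5) :
    sumapL (w • x) b i = ((w.1 1 ^ (-(sumapWL b)) : Circle) : ℂ) * sumapL x b i := by
  unfold sumapL sumapWL
  split_ifs
  · simp
  · exact sumap_cv_smul w x i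

lemma sumap_R_smul (w : PG) (x : I0) (b : Fin 4) (i : Fin 5) :
    sumapR (w • x) b i = ((w.1 1 ^ (-(sumapWR b)) : Circle) : ℂ) * sumapR x b i := by
  unfold sumapR sumapWR
  split_ifs
  · exact sumap_cv_smul w x i
  · simp

/-- isometric embeddings which trivialise the weights `0, 2, 1, 1` over `I0` -/
theorem exists_U (w4 : Fin 4 → ℤ) (hw : w4 = ![0, 2, 1, 1]) :
    ∃ U : C(I0, Matrix NI (Fin 4) ℂ), (∀ x, (U x).conjTranspose * U x = 1) ∧
      ∀ (w : PG) (x : I0) (i : NI) (j : Fin 4), U (w • x) i j =
        ((w.1 1 ^ (-(w4 j)) : Circle) : ℂ) * U x i j := by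
  subst hw
  refine ⟨⟨fun x => Matrix.of fun (i : NI) (b : Fin 4) =>
    if i.1 = b then sumapL x b i.2.1 * sumapR x b i.2.2 else 0, ?_⟩, ?_, ?_⟩
  · refine continuous_matrix fun i b => ?_
    simp only [Matrix.of_apply]
    split_ifs
    · exact (sumap_continuous_L b i.2.1).mul (sumap_continuous_R b i.2.2)
    · exact continuous_const
  · intro x
    ext b b'
    rw [Matrix.mul_apply]
    simp only [ContinuousMap.coe_mk, Matrix.conjTranspose_apply, Matrix.of_apply]
    rw [Fintype.sum_prod_type]
    by_cases hb : b = b'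
    · subst hb
      rw [Matrix.one_apply_eq, Finset.sum_eq_single b]
      · simp only [if_true]
        rw [Fintype.sum_prod_type]
        have h1 : ∀ i j, star (sumapL x b i * sumapR x b j) * (sumapL x b i * sumapR x b j) =
            (star (sumapL x b i) * sumapL x b i) * (star (sumapR x b j) * sumapR x b j) := by
          intro i j
          rw [star_mul']
          ring
        simp only [h1]
        rw [← Finset.sum_mul_sum, sumap_L_sum, sumap_R_sum, one_mul]
      · intro a _ ha
        simp [ha]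
      · intro h
        exact absurd (Finset.mem_univ _) h
    · rw [Matrix.one_apply_ne hb]
      refine Finset.sum_eq_zero fun a _ => Finset.sum_eq_zero fun p _ => ?_
      by_cases h1 : a = b
      · have h2 : a ≠ b' := fun h => hb (h1.symm.trans h)
        simp [h2]
      · simp [h1]
  · intro w x i b
    simp only [ContinuousMap.coe_mk, Matrix.of_apply]
    split_ifs
    · rw [sumap_L_smul, sumap_R_smul]
      have h1 : (![0, 2, 1, 1] : Fin 4 → ℤ) b = sumapWL b + sumapWR b := by
        fin_cases b <;> simp [sumapWL, sumapWR]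
      rw [h1, neg_add, zpow_add, Circle.coe_mul]
      ring
    · rw [mul_zero]

end Pool.Agent.HCF
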