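import Pool.Agent.HCF.SBott
import Pool.Agent.HCF.SUmap
import Pool.Agent.HCF.SAnr
import Pool.Agent.HCF.GConn

/-! # The total spaces, sections, the idempotent valued map (module SEE) -/

open Topology

noncomputable section

namespace Pool.Agent.HCF

/-- the total space of level `k` -/
def EE (T : Tower) (k : ℕ) : Type := Orb PG (PS I0 (MK T k))

instance (T : Tower) (k : ℕ) : MetricSpace (EE T k) :=
  inferInstanceAs (MetricSpace (Orb PG (PS I0 (MK T k))))

instance (T : Tower) (k : ℕ) : CompactSpace (EE T k) :=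
  inferInstanceAs (CompactSpace (Orb PG (PS I0 (MK T k))))

/-- the projection -/
def pE (T : Tower) (k : ℕ) : C(EE T k, BB) := oproj PG I0 (MK T k)

/-- a fixed point of the action gives a section -/
theorem exists_section (T : Tower) (k : ℕ) (m : MK T k) (hm : ∀ w : PG, w • m = m) :
    ∃ s : C(BB, EE T k), (∀ b, pE T k (s b) = b) ∧
      ∀ x : I0, s (Orb.mk PG x) = Orb.mk PG (PS.pair x m) := by
  refine ⟨⟨Quotient.lift (fun x : I0 => (Orb.mk PG (PS.pair x m) : Orb PG (PS I0 (MK T k)))) ?_, ?_⟩,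
    ?_, fun x => rfl⟩
  · rintro x y ⟨g, hg⟩
    simp only at hg
    rw [← hg]
    have h1 : (PS.pair (g • y) m : PS I0 (MK T k)) = g • PS.pair y m := by
      rw [PS.smul_pair, hm]
    simp only [h1]
    exact Orb.mk_smul g _
  · refine (Orb.isOpenQuotientMap_mk (G := PG) (X := I0)).isQuotientMap.continuous_iff.2 ?_
    exact Orb.continuous_mk.comp (PS.continuous_pair continuous_id continuous_const)
  · intro b
    obtain ⟨x, rfl⟩ := Orb.mk_surjective (G := PG) (X := I0) b
    rfl

/-- the idempotent valued map (module SUE) -/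
theorem exists_uE (T : Tower) (k : ℕ) (U : C(I0, Matrix NI (Fin 4) ℂ))
    (hU : ∀ x, (U x).conjTranspose * U x = 1)
    (hUw : ∀ (w : PG) (x : I0) (i : NI) (j : Fin 4), U (w • x) i j =
        ((w.1 1 ^ (-(w4 j)) : Circle) : ℂ) * U x i j)
    (e : C(MK T k, Matrix (Fin 4) (Fin 4) ℂ)) (he : ∀ m, e m * e m = e m)
    (hew : ∀ (w : PG) (m : MK T k) (i j : Fin 4), e (w • m) i j =
      ((w.1 1 ^ (w4 i - w4 j) : Circle) : ℂ) * e m i j) :
    ∃ u : C(EE T k, Idem NI), ∀ (x : I0) (m : MK T k),
      (u (Orb.mk PG (PS.pair x m))).1 = U x * e m * (U x).conjTranspose := by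
  set F : PS I0 (MK T k) → Idem NI := fun p => ⟨U p.1 * e p.2 * (U p.1).conjTranspose, by
    calc U p.1 * e p.2 * (U p.1).conjTranspose * (U p.1 * e p.2 * (U p.1).conjTranspose)
        = U p.1 * (e p.2 * ((U p.1).conjTranspose * U p.1) * e p.2) * (U p.1).conjTranspose := by
          simp only [Matrix.mul_assoc]
      _ = U p.1 * e p.2 * (U p.1).conjTranspose := by
          rw [hU, Matrix.mul_one, he]⟩ with hF
  have hFc : Continuous F := by
    apply Continuous.subtype_mk
    have h1 : Continuous fun p : PS I0 (MK T k) => U p.1 := U.continuous.comp PS.continuous_fst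
    have h2 : Continuous fun p : PS I0 (MK T k) => e p.2 := e.continuous.comp PS.continuous_snd
    exact (h1.matrix_mul h2).matrix_mul h1.matrix_conjTranspose
  have hFi : ∀ (w : PG) (p : PS I0 (MK T k)), F (w • p) = F p := by
    intro w p
    apply Subtype.ext
    change U (w • p.1) * e (w • p.2) * (U (w • p.1)).conjTranspose =
      U p.1 * e p.2 * (U p.1).conjTranspose
    ext i l
    simp only [Matrix.mul_apply, Matrix.conjTranspose_apply, hUw, hew]
    apply Finset.sum_congr rfl
    intro j _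
    rw [Finset.sum_mul, Finset.sum_mul]
    apply Finset.sum_congr rfl
    intro a _
    have h1 : star (((w.1 1 ^ (-(w4 j)) : Circle) : ℂ) * U p.1 l j) =
        ((w.1 1 ^ (w4 j) : Circle) : ℂ) * star (U p.1 l j) := by
      rw [star_mul', zpow_neg, Circle.coe_inv_eq_conj]
      simp
    rw [h1]
    have h2 : ((w.1 1 ^ (-(w4 a)) : Circle) : ℂ) * ((w.1 1 ^ (w4 a - w4 j) : Circle) : ℂ) *
        ((w.1 1 ^ (w4 j) : Circle) : ℂ) = 1 := by
      rw [← Circle.coe_mul, ← Circle.coe_mul, ← zpow_add, ← zpow_add]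
      have h3 : -(w4 a) + (w4 a - w4 j) + w4 j = 0 := by ring
      rw [h3, zpow_zero, Circle.coe_one]
    linear_combination (U p.1 i a * e p.2 a j * star (U p.1 l j)) * h2
  refine ⟨⟨Quotient.lift F ?_, ?_⟩, fun x m => rfl⟩
  · rintro x y ⟨g, hg⟩
    simp only at hg
    rw [← hg]
    exact hFi g y
  · refine (Orb.isOpenQuotientMap_mk (G := PG) (X := PS I0 (MK T k))).isQuotientMap.continuous_iff.2 ?_
    exact hFc

end Pool.Agent.HCF
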