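import Pool.Agent.HCF.KFin
import Pool.Agent.HCF.GAct
import Pool.Agent.HCF.GPow

/-! # Finite level approximation (module SFIN) -/

open Topology

noncomputable section

namespace Pool.Agent.HCF

/-- points which agree on the first coordinates are close -/
private lemma sfin_dist_le (l : ℕ) (x y : I0) (h : ∀ j, j < l → x j = y j) :
    dist x y ≤ 2 * (2⁻¹ : ℝ) ^ l := by
  have h0 : dist x y = ∑' j : ℕ, min ((2⁻¹ : ℝ) ^ j) (dist (x j) (y j)) :=
    PiCountable.dist_eq_tsum (F := fun j : ℕ => SS j) x y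
  have hs : Summable fun j : ℕ => min ((2⁻¹ : ℝ) ^ j) (dist (x j) (y j)) :=
    PiCountable.dist_summable (F := fun j : ℕ => SS j) x y
  rw [h0, ← hs.sum_add_tsum_nat_add l]
  have h1 : ∑ j ∈ Finset.range l, min ((2⁻¹ : ℝ) ^ j) (dist (x j) (y j)) = 0 := by
    refine Finset.sum_eq_zero fun j hj => ?_
    rw [h j (Finset.mem_range.1 hj), dist_self]
    exact min_eq_right (by positivity)
  have hg : Summable fun j : ℕ => (2⁻¹ : ℝ) ^ (j + l) := by
    have : Summable fun j : ℕ => (2⁻¹ : ℝ) ^ j :=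
      summable_geometric_of_lt_one (by norm_num) (by norm_num)
    exact (summable_nat_add_iff l).2 this
  have h2 : ∑' j : ℕ, min ((2⁻¹ : ℝ) ^ (j + l)) (dist (x (j + l)) (y (j + l))) ≤
      ∑' j : ℕ, (2⁻¹ : ℝ) ^ (j + l) :=
    Summable.tsum_le_tsum (fun j => min_le_left _ _) ((summable_nat_add_iff l).2 hs) hg
  have h3 : ∑' j : ℕ, (2⁻¹ : ℝ) ^ (j + l) = 2 * (2⁻¹ : ℝ) ^ l := by
    simp only [pow_add]
    rw [tsum_mul_right, tsum_geometric_of_lt_one (by norm_num) (by norm_num)]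
    norm_num
  rw [h1, zero_add]
  exact h2.trans h3.le

/-- a base point -/
private def sfin_pt (j : ℕ) : SS j :=
  ⟨EuclideanSpace.single ⟨0, by positivity⟩ 1, by simp⟩

/-- the inclusion of the finite level -/
private def sfin_inc (l : ℕ) (y : YY l l) : I0 :=
  fun j => if h : j < l then (y ⟨j, h⟩ : SS j) else sfin_pt j

private lemma sfin_inc_lt (l : ℕ) (y : YY l l) (j : ℕ) (hj : j < l) :
    sfin_inc l y j = (y ⟨j, hj⟩ : SS j) := dif_pos hj

private lemma sfin_inc_cont (l : ℕ) : Continuous (sfin_inc l) := by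
  have h : Continuous (fun (y : YY l l) (j : ℕ) => (sfin_inc l y j : SS j)) := by
    refine continuous_pi fun j => ?_
    by_cases hj : j < l
    · have h1 : (fun y : YY l l => (sfin_inc l y j : SS j)) = fun y => (y ⟨j, hj⟩ : SS j) :=
        funext fun y => sfin_inc_lt l y j hj
      rw [h1]
      exact continuous_apply (⟨j, hj⟩ : Fin l)
    · have h1 : (fun y : YY l l => (sfin_inc l y j : SS j)) = fun _ => sfin_pt j :=
        funext fun y => dif_neg hj
      rw [h1]
      exact continuous_const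
  exact h

/-- the operator of the finite level -/
private def sfin_op (l : ℕ) : YY l l → YY l l := fun y => (op false : C(YY l l, YY l l)) y

private lemma sfin_op_cont (l : ℕ) : Continuous (sfin_op l) :=
  (op false : C(YY l l, YY l l)).continuous

private lemma sfin_wt (l j : ℕ) : wt ((5 : ℤ) ^ (l - 1 - j)) false = (5 : ℤ) ^ (l - 1 - j) := rfl

/-- the iterates of the operator agree with the action of the group on the first coordinates -/
private lemma sfin_inc_op (l : ℕ) (w : PG) (hw : w.1 l = ul l false) (y : YY l l) (j : ℕ)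
    (hj : j < l) : sfin_inc l (sfin_op l y) j = csmS (w.1 (j + 1)) (sfin_inc l y j) := by
  have h1 : w.1 (j + 1) = ul l false ^ ((5 : ℤ) ^ (l - 1 - j)) := by
    have h2 := PG_pow w (l - 1 - j) l
    rw [hw] at h2
    have h3 : l - (l - 1 - j) = j + 1 := by omega
    rw [h3] at h2
    rw [← h2]
    have h4 : ((5 : ℤ) ^ (l - 1 - j)) = ((5 ^ (l - 1 - j) : ℕ) : ℤ) := by push_cast; rfl
    rw [h4, zpow_natCast]
  rw [sfin_inc_lt l _ j hj, sfin_inc_lt l _ j hj]
  apply Subtype.ext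
  change ch (ul l) (wt ((5 : ℤ) ^ (l - 1 - j))) false • (y ⟨j, hj⟩).1 =
    ((w.1 (j + 1) : Circle) : ℂ) • (y ⟨j, hj⟩).1
  rw [h1]
  rfl

private lemma sfin_inc_iter (l : ℕ) (w : PG) (hw : w.1 l = ul l false) (y : YY l l) (n : ℕ)
    (j : ℕ) (hj : j < l) :
    sfin_inc l ((sfin_op l)^[n] y) j = (w ^ n • sfin_inc l y : I0) j := by
  induction n with
  | zero => rw [pow_zero, one_smul]; rfl
  | succ n ih =>
    rw [Function.iterate_succ_apply', sfin_inc_op l w hw _ j hj, ih, pow_succ', mul_smul]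
    rfl

private lemma sfin_iter_full (l : ℕ) (w : PG) (hw : w.1 l = ul l false) (y : YY l l) :
    (sfin_op l)^[5 ^ l] y = y := by
  have h0 : ∀ j, j < l → sfin_inc l ((sfin_op l)^[5 ^ l] y) j = sfin_inc l y j := by
    intro j hj
    rw [sfin_inc_iter l w hw y _ j hj, I0_smul_apply]
    have h1 : (w ^ 5 ^ l : PG).1 (j + 1) = 1 := by
      change (w.1 (j + 1)) ^ 5 ^ l = 1
      have h2 := PG_pow w l (j + 1)
      rw [h2]
      have h3 : j + 1 - l = 0 := by omega
      rw [h3]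
      exact w.2.1
    rw [h1, csmS_one]
  funext j
  have h1 := h0 j.1 j.2
  rw [sfin_inc_lt l _ j.1 j.2, sfin_inc_lt l _ j.1 j.2] at h1
  exact h1

/-- there is no equivariant invertible matrix function with weights `(1,1)`, `(0,2)` on `I0` -/
theorem no_A (A : C(I0, Matrix (Fin 2) (Fin 2) ℂ)) (hdet : ∀ x, (A x).det ≠ 0)
    (hA : ∀ (w : PG) (x : I0) (i j : Fin 2), A (w • x) i j =
      ((w.1 1 ^ ((![1, 1] : Fin 2 → ℤ) i - (![0, 2] : Fin 2 → ℤ) j) : Circle) : ℂ) * A x i j) :
    False := by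
  -- the matrices close to the values are invertible
  let A' : I0 → (Fin 2 → Fin 2 → ℂ) := fun x => A x
  have hA'c : Continuous A' := A.continuous
  have hKc : IsCompact (Set.range A') := isCompact_range hA'c
  have hUo : IsOpen {X : Fin 2 → Fin 2 → ℂ | X 0 0 * X 1 1 - X 0 1 * X 1 0 ≠ 0} :=
    isOpen_ne_fun (by fun_prop) continuous_const
  have hKU : Set.range A' ⊆ {X : Fin 2 → Fin 2 → ℂ | X 0 0 * X 1 1 - X 0 1 * X 1 0 ≠ 0} := by
    rintro _ ⟨x, rfl⟩
    have := hdet x
    rw [Matrix.det_fin_two] at this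
    exact this
  obtain ⟨ε, hε, hεU⟩ := hKc.exists_thickening_subset_open hUo hKU
  have huc : UniformContinuous A' := CompactSpace.uniformContinuous_of_continuous hA'c
  obtain ⟨δ, hδ, hδA⟩ := Metric.uniformContinuous_iff.1 huc (ε / 2) (half_pos hε)
  obtain ⟨l0, hl0⟩ := exists_pow_lt_of_lt_one (show 0 < δ / 2 by positivity)
    (show (2⁻¹ : ℝ) < 1 by norm_num)
  obtain ⟨l, hl1, hl⟩ : ∃ l : ℕ, 1 ≤ l ∧ 2 * (2⁻¹ : ℝ) ^ l < δ := by
    refine ⟨l0 + 1, by omega, ?_⟩
    have : (2⁻¹ : ℝ) ^ (l0 + 1) ≤ (2⁻¹ : ℝ) ^ l0 :=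
      pow_le_pow_of_le_one (by norm_num) (by norm_num) (by omega)
    linarith
  have hclose : ∀ x y : I0, (∀ j, j < l → x j = y j) → ∀ i j, ‖A x i j - A y i j‖ ≤ ε / 2 := by
    intro x y hxy i j
    have h1 : dist x y < δ := (sfin_dist_le l x y hxy).trans_lt hl
    have h2 := (hδA h1).le
    have h3 : dist (A' x i j) (A' y i j) ≤ dist (A' x) (A' y) :=
      (dist_le_pi_dist (A' x i) (A' y i) j).trans (dist_le_pi_dist (A' x) (A' y) i)
    rw [← dist_eq_norm]
    exact h3.trans h2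
  -- the element of the group
  have hul : ul l false ^ 5 ^ l = 1 := (ul_false_pow l (5 ^ l)).2 dvd_rfl
  obtain ⟨w, hw⟩ := PG_surj l (ul l false) hul
  let c : Fin 2 → Fin 2 → ℤ := fun i j => (![1, 1] : Fin 2 → ℤ) i - (![0, 2] : Fin 2 → ℤ) j
  have hw1 : ∀ i j : Fin 2, w.1 1 ^ c i j = ul l false ^ (wA l i - wB l j) := by
    intro i j
    have h2 := PG_pow w (l - 1) l
    rw [hw] at h2
    have h3 : l - (l - 1) = 1 := by omega
    rw [h3] at h2
    rw [← h2, ← zpow_natCast, ← zpow_mul]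
    congr 1
    fin_cases i <;> fin_cases j <;> simp [c, wA, wB] <;> ring
  have hw5 : w.1 1 ^ 5 ^ l = 1 := by
    rw [PG_pow]
    have h3 : 1 - l = 0 := by omega
    rw [h3]
    exact w.2.1
  -- the averaged matrix
  let F : Fin 2 → Fin 2 → ℕ → YY l l → ℂ := fun i j n y =>
    (((w.1 1 ^ c i j)⁻¹ ^ n : Circle) : ℂ) * A (sfin_inc l ((sfin_op l)^[n] y)) i j
  have hFc : ∀ i j n, Continuous (F i j n) := by
    intro i j n
    refine continuous_const.mul ?_
    exact (A.continuous.matrix_elem i j).comp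
      ((sfin_inc_cont l).comp ((sfin_op_cont l).iterate n))
  have hFper : ∀ i j y, F i j (5 ^ l) y = F i j 0 y := by
    intro i j y
    simp only [F]
    rw [sfin_iter_full l w hw y]
    have : ((w.1 1 ^ c i j)⁻¹ ^ 5 ^ l : Circle) = 1 := by
      rw [inv_pow, ← zpow_natCast, ← zpow_mul, mul_comm, zpow_mul, zpow_natCast, hw5, one_zpow,
        inv_one]
    rw [this, pow_zero]
    rfl
  have hFsucc : ∀ i j n y, F i j n (sfin_op l y) =
      ((w.1 1 ^ c i j : Circle) : ℂ) * F i j (n + 1) y := by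
    intro i j n y
    simp only [F]
    rw [Function.iterate_succ_apply, pow_succ, Circle.coe_mul]
    have h1 : ((w.1 1 ^ c i j : Circle) : ℂ) * (((w.1 1 ^ c i j)⁻¹ : Circle) : ℂ) = 1 := by
      rw [← Circle.coe_mul, mul_inv_cancel, Circle.coe_one]
    linear_combination (-(((w.1 1 ^ c i j)⁻¹ ^ n : Circle) : ℂ) *
      A (sfin_inc l ((sfin_op l)^[n] (sfin_op l y))) i j) * h1
  have hFclose : ∀ i j n y, ‖F i j n y - A (sfin_inc l y) i j‖ ≤ ε / 2 := by
    intro i j n y
    have h1 := hA (w ^ n) (sfin_inc l y) i j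
    have h2 : ((w ^ n : PG).1 1) = (w.1 1) ^ n := rfl
    have h3 : (((w.1 1 ^ c i j)⁻¹ ^ n : Circle) : ℂ) *
        (((w ^ n : PG).1 1 ^ ((![1, 1] : Fin 2 → ℤ) i - (![0, 2] : Fin 2 → ℤ) j) : Circle) : ℂ)
          = 1 := by
      rw [h2, ← Circle.coe_mul]
      change (((w.1 1 ^ c i j)⁻¹ ^ n * (w.1 1 ^ n) ^ c i j : Circle) : ℂ) = 1
      have : (w.1 1 ^ n) ^ c i j = (w.1 1 ^ c i j) ^ n := by
        rw [← zpow_natCast, ← zpow_natCast, ← zpow_mul, ← zpow_mul, mul_comm]
      rw [this, inv_pow, inv_mul_cancel, Circle.coe_one]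
    have h4 : F i j n y - A (sfin_inc l y) i j = (((w.1 1 ^ c i j)⁻¹ ^ n : Circle) : ℂ) *
        (A (sfin_inc l ((sfin_op l)^[n] y)) i j - A (w ^ n • sfin_inc l y) i j) := by
      rw [h1, mul_sub, ← mul_assoc, h3, one_mul]
    rw [h4, norm_mul, Circle.norm_coe, one_mul]
    exact hclose _ _ (fun j' hj' => sfin_inc_iter l w hw y n j' hj') i j
  let N : ℕ := 5 ^ l
  have hN : (0 : ℝ) < (N : ℝ) := by
    have : 0 < N := by positivity
    exact_mod_cast this
  have hNC : ((N : ℝ) : ℂ) ≠ 0 := by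
    rw [Complex.ofReal_ne_zero]
    exact hN.ne'
  let B : C(YY l l, Matrix (Fin 2) (Fin 2) ℂ) :=
    ⟨fun y => Matrix.of fun i j => ((N : ℝ) : ℂ)⁻¹ * ∑ n ∈ Finset.range N, F i j n y, by
      refine continuous_matrix fun i j => ?_
      exact continuous_const.mul (continuous_finsetSum _ fun n _ => hFc i j n)⟩
  have hBv : ∀ y i j, B y i j = ((N : ℝ) : ℂ)⁻¹ * ∑ n ∈ Finset.range N, F i j n y :=
    fun _ _ _ => rfl
  have hBclose : ∀ y i j, ‖B y i j - A (sfin_inc l y) i j‖ ≤ ε / 2 := by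
    intro y i j
    have h1 : B y i j - A (sfin_inc l y) i j = ((N : ℝ) : ℂ)⁻¹ *
        ∑ n ∈ Finset.range N, (F i j n y - A (sfin_inc l y) i j) := by
      rw [hBv, Finset.sum_sub_distrib, Finset.sum_const, Finset.card_range, nsmul_eq_mul,
        mul_sub]
      congr 1
      have : ((N : ℕ) : ℂ) = ((N : ℝ) : ℂ) := by push_cast; rfl
      rw [this, ← mul_assoc, inv_mul_cancel₀ hNC, one_mul]
    rw [h1, norm_mul, norm_inv, Complex.norm_real, Real.norm_of_nonneg hN.le]
    have h2 : ‖∑ n ∈ Finset.range N, (F i j n y - A (sfin_inc l y) i j)‖ ≤ N * (ε / 2) := by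
      refine (norm_sum_le_of_le _ fun n _ => hFclose i j n y).trans ?_
      rw [Finset.sum_const, Finset.card_range, nsmul_eq_mul]
    rw [inv_mul_le_iff₀ hN]
    exact h2
  refine no_equivariant l hl1 B ?_ ?_
  · intro y
    rw [Matrix.det_fin_two]
    have h1 : (fun i j => B y i j : Fin 2 → Fin 2 → ℂ) ∈ Metric.thickening ε (Set.range A') := by
      rw [Metric.mem_thickening_iff]
      refine ⟨A' (sfin_inc l y), ⟨_, rfl⟩, ?_⟩
      have h2 : dist (fun i j => B y i j : Fin 2 → Fin 2 → ℂ) (A' (sfin_inc l y)) ≤ ε / 2 := by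
        refine (dist_pi_le_iff (by positivity)).2 fun i => (dist_pi_le_iff (by positivity)).2
          fun j => ?_
        rw [dist_eq_norm]
        exact hBclose y i j
      linarith
    exact hεU h1
  · intro y i j
    rw [← hw1 i j, hBv, hBv]
    have h1 : ∑ n ∈ Finset.range N, F i j n (op false y) =
        ((w.1 1 ^ c i j : Circle) : ℂ) * ∑ n ∈ Finset.range N, F i j n y := by
      have h2 : ∑ n ∈ Finset.range N, F i j n (op false y) =
          ∑ n ∈ Finset.range N, ((w.1 1 ^ c i j : Circle) : ℂ) * F i j (n + 1) y :=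
        Finset.sum_congr rfl fun n _ => hFsucc i j n y
      rw [h2, ← Finset.mul_sum]
      congr 1
      have h3 := Finset.sum_range_succ (fun n => F i j n y) N
      have h4 := Finset.sum_range_succ' (fun n => F i j n y) N
      have h5 := hFper i j y
      change F i j N y = F i j 0 y at h5
      rw [h3, h5] at h4
      exact (add_right_cancel h4).symm
    rw [h1]
    ring

end Pool.Agent.HCF
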