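import Pool.Agent.HCF.SEE
import Pool.Agent.HCF.GFibB

/-! # The fibres are isometric to the fixed space (module SISO) -/

open Topology

noncomputable section

namespace Pool.Agent.HCF

/-- All fibres are isometric to the fixed metric space (module SISO). -/
theorem fibres_isometric (T : Tower) (k : ℕ) (b : BB) :
    Nonempty (((pE T k).comp ContinuousMap.fst : C(EE T k × CM, BB)) ⁻¹' {b} ≃ᵢ M0 T × CM) := by
  obtain ⟨φ, -⟩ := oproj_fibre_isometric PG I0 (MK T k) (fun g x h => I0_free g x h)
    (fun g x y => (displacement_le T k g y).trans (dist_smul_self g x).ge) b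
  let e : M0 T × CM ≃ (((pE T k).comp ContinuousMap.fst : C(EE T k × CM, BB)) ⁻¹' {b} :
      Set (EE T k × CM)) :=
    { toFun := fun p => ⟨((φ p.1).1, p.2), (φ p.1).2⟩
      invFun := fun x => (φ.symm ⟨x.1.1, x.2⟩, x.1.2)
      left_inv := fun p => Prod.ext (φ.symm_apply_apply p.1) rfl
      right_inv := fun x => Subtype.ext (Prod.ext
        (congrArg Subtype.val (φ.apply_symm_apply ⟨x.1.1, x.2⟩)) rfl) }
  refine ⟨(IsometryEquiv.mk e (Isometry.of_dist_eq fun p q => ?_)).symm⟩
  have h1 : dist (φ p.1).1 (φ q.1).1 = dist p.1 q.1 := φ.isometry.dist_eq p.1 q.1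
  change dist (((φ p.1).1, p.2) : EE T k × CM) (((φ q.1).1, q.2) : EE T k × CM) = dist p q
  rw [Prod.dist_eq, Prod.dist_eq]
  exact congrArg (fun t => max t (dist p.2 q.2)) h1

end Pool.Agent.HCF
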