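import Pool.Agent.HCF.SAnr
import Pool.Agent.HCF.KHomot

/-! # Homotopic idempotents are similar (module SSIM) -/

open Topology

noncomputable section

namespace Pool.Agent.HCF

private theorem SSim_cont {N : Type} [Fintype N] [DecidableEq N] :
    Continuous fun a : Idem N => a.1 :=
  continuous_subtype_val

/-- Homotopic maps to the space of idempotents on a compact space are equivalent. -/
theorem exists_similarity {B N : Type} [TopologicalSpace B] [CompactSpace B] [Fintype N]
    [DecidableEq N] (e0 e1 : C(B, Idem N)) (h : e0.Homotopic e1) :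
    ∃ a b : C(B, Matrix N N ℂ), ∀ x, a x * b x = (e0 x).1 ∧ b x * a x = (e1 x).1 := by
  obtain ⟨H⟩ := h
  letI : Op Empty B := ⟨fun g => g.elim⟩
  have hc : ∀ i j : N, Continuous fun p : B × unitInterval => (H (p.2, p.1)).1 i j := by
    intro i j
    have h1 : Continuous fun p : B × unitInterval => (H (p.2, p.1)).1 :=
      SSim_cont.comp (H.continuous.comp (continuous_snd.prodMk continuous_fst))
    exact (continuous_apply j).comp ((continuous_apply i).comp h1)
  let E : Bun (fun g : Empty => g.elim) (B × unitInterval) :=
    { ι := N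
      w := fun _ g => g.elim
      e := fun i j => ⟨fun p => (H (p.2, p.1)).1 i j, hc i j⟩
      idem := by
        ext i j p
        have h1 := congrFun (congrFun (H (p.2, p.1)).2 i) j
        rw [Matrix.mul_apply] at h1
        rw [Matrix.mul_apply, ContinuousMap.sum_apply]
        exact h1
      hom := fun i j g => g.elim }
  obtain ⟨a, b, -, -, hab, hba⟩ := iso_of_homotopy E 0 1
  have ca : Continuous fun x : B => (fun i j => a i j x : Matrix N N ℂ) :=
    continuous_matrix fun i j => (a i j).continuous
  have cb : Continuous fun x : B => (fun i j => b i j x : Matrix N N ℂ) :=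
    continuous_matrix fun i j => (b i j).continuous
  refine ⟨⟨_, ca⟩, ⟨_, cb⟩, fun x => ⟨?_, ?_⟩⟩
  · ext i j
    have h1 := congrArg (fun f : C(B, ℂ) => f x) (congrFun (congrFun hab i) j)
    have h2 : (∑ k, a i k * b k j : C(B, ℂ)) x = (E.pull (atT B 0) (eqv_atT 0)).e i j x := h1
    rw [ContinuousMap.sum_apply] at h2
    have h3 : H (0, x) = e0 x := H.apply_zero x
    rw [← h3, Matrix.mul_apply]
    exact h2
  · ext i j
    have h1 := congrArg (fun f : C(B, ℂ) => f x) (congrFun (congrFun hba i) j)
    have h2 : (∑ k, b i k * a k j : C(B, ℂ)) x = (E.pull (atT B 1) (eqv_atT 1)).e i j x := h1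
    rw [ContinuousMap.sum_apply] at h2
    have h3 : H (1, x) = e1 x := H.apply_one x
    rw [← h3, Matrix.mul_apply]
    exact h2

end Pool.Agent.HCF
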