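import Pool.Agent.HCF.SEE
import Pool.Agent.HCF.SSim

/-! # From a homotopy of sections to an equivariant matrix function (module SAMAP) -/

open Topology

noncomputable section

namespace Pool.Agent.HCF

/-- weights of rows and columns -/
def wR : Fin 2 → ℤ := ![1, 1]
/-- weights of columns -/
def wC : Fin 2 → ℤ := ![0, 2]

/-- the columns `0, 1` -/
def samapL : Fin 2 → Fin 4 := ![0, 1]
/-- the columns `2, 3` -/
def samapR : Fin 2 → Fin 4 := ![2, 3]

lemma samap_L (i : Fin 2) : w4 (samapL i) = wC i := by
  fin_cases i <;> rfl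

lemma samap_R (i : Fin 2) : w4 (samapR i) = wR i := by
  fin_cases i <;> rfl

lemma samap_L_mul (U : Matrix NI (Fin 4) ℂ) :
    U * Matrix.diagonal (![1, 1, 0, 0] : Fin 4 → ℂ) * U.conjTranspose =
      U.submatrix id samapL * (U.submatrix id samapL).conjTranspose := by
  ext p q
  rw [Matrix.mul_apply, Matrix.mul_apply]
  simp only [Matrix.mul_diagonal, Fin.sum_univ_four, Fin.sum_univ_two]
  simp [samapL]

lemma samap_R_mul (U : Matrix NI (Fin 4) ℂ) :
    U * Matrix.diagonal (![0, 0, 1, 1] : Fin 4 → ℂ) * U.conjTranspose =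
      U.submatrix id samapR * (U.submatrix id samapR).conjTranspose := by
  ext p q
  rw [Matrix.mul_apply, Matrix.mul_apply]
  simp only [Matrix.mul_diagonal, Fin.sum_univ_four, Fin.sum_univ_two]
  simp [samapR]

lemma samap_one (U : Matrix NI (Fin 4) ℂ) (hU : U.conjTranspose * U = 1) (σ : Fin 2 → Fin 4)
    (hσ : Function.Injective σ) :
    (U.submatrix id σ).conjTranspose * U.submatrix id σ = 1 := by
  ext i j
  have h := congrFun (congrFun hU (σ i)) (σ j)
  rw [Matrix.mul_apply] at h ⊢
  simp only [Matrix.conjTranspose_apply, Matrix.submatrix_apply, id_eq] at h ⊢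
  rw [h, Matrix.one_apply, Matrix.one_apply]
  simp [hσ.eq_iff]

/-- A homotopy between the two sections gives an equivariant invertible matrix function on `I0`
(module SAMAP). -/
theorem exists_A (T : Tower) (k : ℕ)
    (h : ∀ (u : C(EE T k, Idem NI)) (s0 s1 : C(BB, EE T k)), (∀ b, pE T k (s0 b) = b) →
      (∀ b, pE T k (s1 b) = b) → (u.comp s0).Homotopic (u.comp s1)) :
    ∃ A : C(I0, Matrix (Fin 2) (Fin 2) ℂ), (∀ x, (A x).det ≠ 0) ∧
      ∀ (w : PG) (x : I0) (i j : Fin 2), A (w • x) i j =
        ((w.1 1 ^ (wR i - wC j) : Circle) : ℂ) * A x i j := by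
  obtain ⟨e, he, hew, he0, heI⟩ := exists_bott_idem T k
  obtain ⟨U, hU, hUw⟩ := exists_U w4 rfl
  obtain ⟨u, hu⟩ := exists_uE T k U hU hUw e he hew
  obtain ⟨y, hy⟩ := II_nonempty T
  obtain ⟨s0, hs0, hs0'⟩ := exists_section T k (pt0 T k) fun w => smul_pt0 T k w
  obtain ⟨s1, hs1, hs1'⟩ := exists_section T k (show MK T k from toM0 T y)
    fun w => smul_ptI T k w y hy
  obtain ⟨a, b, hab⟩ := exists_similarity _ _ (h u s0 s1 hs0 hs1)
  have h0 : ∀ x : I0, a (Orb.mk PG x) * b (Orb.mk PG x) =
      (U x).submatrix id samapL * ((U x).submatrix id samapL).conjTranspose := by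
    intro x
    rw [(hab (Orb.mk PG x)).1, ContinuousMap.comp_apply, hs0' x, hu, he0, samap_L_mul]
  have h1 : ∀ x : I0, b (Orb.mk PG x) * a (Orb.mk PG x) =
      (U x).submatrix id samapR * ((U x).submatrix id samapR).conjTranspose := by
    intro x
    rw [(hab (Orb.mk PG x)).2, ContinuousMap.comp_apply, hs1' x, hu, heI y hy, samap_R_mul]
  have hL : ∀ x, ((U x).submatrix id samapL).conjTranspose * (U x).submatrix id samapL = 1 :=
    fun x => samap_one _ (hU x) _ (by decide)
  have hR : ∀ x, ((U x).submatrix id samapR).conjTranspose * (U x).submatrix id samapR = 1 :=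
    fun x => samap_one _ (hU x) _ (by decide)
  have hc : Continuous fun x : I0 => ((U x).submatrix id samapR).conjTranspose *
      b (Orb.mk PG x) * (U x).submatrix id samapL := by
    have hUc : Continuous fun x : I0 => (U x) := U.continuous
    have hbc : Continuous fun x : I0 => b (Orb.mk PG x) := b.continuous.comp Orb.continuous_mk
    exact ((hUc.matrix_submatrix id samapR).matrix_conjTranspose.matrix_mul hbc).matrix_mul
      (hUc.matrix_submatrix id samapL)
  refine ⟨⟨_, hc⟩, ?_, ?_⟩
  · intro x
    have hinv : (((U x).submatrix id samapR).conjTranspose * b (Orb.mk PG x) *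
        (U x).submatrix id samapL) * (((U x).submatrix id samapL).conjTranspose *
        a (Orb.mk PG x) * (U x).submatrix id samapR) = 1 := by
      calc _ = ((U x).submatrix id samapR).conjTranspose * b (Orb.mk PG x) *
            ((U x).submatrix id samapL * ((U x).submatrix id samapL).conjTranspose) *
            a (Orb.mk PG x) * (U x).submatrix id samapR := by
            simp only [Matrix.mul_assoc]
        _ = ((U x).submatrix id samapR).conjTranspose * (b (Orb.mk PG x) * a (Orb.mk PG x)) *
            (b (Orb.mk PG x) * a (Orb.mk PG x)) * (U x).submatrix id samapR := by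
            rw [← h0 x]; simp only [Matrix.mul_assoc]
        _ = (((U x).submatrix id samapR).conjTranspose * (U x).submatrix id samapR) *
            (((U x).submatrix id samapR).conjTranspose * (U x).submatrix id samapR) *
            (((U x).submatrix id samapR).conjTranspose * (U x).submatrix id samapR) := by
            rw [h1 x]; simp only [Matrix.mul_assoc]
        _ = 1 := by rw [hR x]; simp
    intro h2
    have h3 := congrArg Matrix.det hinv
    rw [Matrix.det_mul, Matrix.det_one] at h3
    simp only [ContinuousMap.coe_mk] at h2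
    rw [h2, zero_mul] at h3
    exact zero_ne_one h3
  · intro w x i j
    simp only [ContinuousMap.coe_mk, Orb.mk_smul]
    have hconj : ∀ (p : NI), (starRingEnd ℂ) (U (w • x) p (samapR i)) =
        ((w.1 1 ^ (wR i) : Circle) : ℂ) * (starRingEnd ℂ) (U x p (samapR i)) := by
      intro p
      rw [hUw, map_mul, samap_R]
      congr 1
      rw [← Circle.coe_inv_eq_conj, zpow_neg, inv_inv]
    simp only [Matrix.mul_apply, Matrix.conjTranspose_apply, Matrix.submatrix_apply, id_eq,
      RCLike.star_def, hconj, Finset.sum_mul, Finset.mul_sum]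
    refine Finset.sum_congr rfl fun q _ => Finset.sum_congr rfl fun p _ => ?_
    rw [hUw, samap_L, sub_eq_add_neg, zpow_add, Circle.coe_mul]
    ring

end Pool.Agent.HCF
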