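import Pool.Agent.HCF.SDefs

/-! # The shape argument (module SSHAPE) -/

open Topology

noncomputable section

namespace Pool.Agent.HCF

/-- If a map `f : E → M × B` over `B` is a shape equivalence and `M` is contractible, then any two
sections of `E → B` become homotopic after any map to an ANR. -/
theorem sections_homotopic {E B M P : Type} [TopologicalSpace E] [TopologicalSpace B]
    [TopologicalSpace M] [TopologicalSpace P] [ContractibleSpace M] (p : C(E, B))
    (f : C(E, M × B)) (hf : ∀ e, (f e).2 = p e) (hs : IsShapeEquiv f) (hP : IsANR P)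
    (s0 s1 : C(B, E)) (h0 : ∀ b, p (s0 b) = b) (h1 : ∀ b, p (s1 b) = b) (u : C(E, P)) :
    (u.comp s0).Homotopic (u.comp s1) := by
  obtain ⟨h, hh⟩ := (hs P hP).2 u
  obtain ⟨m0, hm0⟩ := id_nullhomotopic M
  have key : ∀ s : C(B, E), (∀ b, p (s b) = b) →
      (u.comp s).Homotopic (h.comp ((ContinuousMap.const B m0).prodMk (ContinuousMap.id B))) := by
    intro s hsec
    have e1 : (u.comp s).Homotopic ((h.comp f).comp s) := hh.symm.comp (ContinuousMap.Homotopic.refl s)
    have e2 : (h.comp f).comp s =
        h.comp ((((ContinuousMap.id M).comp (ContinuousMap.fst.comp (f.comp s)))).prodMk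
          (ContinuousMap.id B)) := by
      ext b
      change h (f (s b)) = h ((f (s b)).1, b)
      congr 1
      refine Prod.ext rfl ?_
      change (f (s b)).2 = b
      rw [hf, hsec]
    have e3 : ((ContinuousMap.id M).comp (ContinuousMap.fst.comp (f.comp s))).Homotopic
        ((ContinuousMap.const M m0).comp (ContinuousMap.fst.comp (f.comp s))) :=
      hm0.comp (ContinuousMap.Homotopic.refl _)
    have e4 : ((((ContinuousMap.id M).comp (ContinuousMap.fst.comp (f.comp s)))).prodMk
          (ContinuousMap.id B)).Homotopic
        (((ContinuousMap.const M m0).comp (ContinuousMap.fst.comp (f.comp s))).prodMk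
          (ContinuousMap.id B)) :=
      e3.prodMk (ContinuousMap.Homotopic.refl _)
    rw [e2] at e1
    refine e1.trans ?_
    exact (ContinuousMap.Homotopic.refl h).comp e4
  exact (key s0 h0).trans (key s1 h1).symm

/-- composition of a Hurewicz fibration with a projection `E × X → E` -/
theorem fibration_prod {E B X : Type} [TopologicalSpace E] [TopologicalSpace B]
    [TopologicalSpace X] (p : C(E, B)) (hp : IsHurewiczFibration p) :
    IsHurewiczFibration (p.comp (ContinuousMap.fst : C(E × X, E))) := by
  intro Z _ H g hg
  obtain ⟨G, hG0, hG⟩ := hp Z H (ContinuousMap.fst.comp g) hg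
  refine ⟨G.prodMk ((ContinuousMap.snd.comp g).comp ContinuousMap.fst), fun z => ?_, fun y => ?_⟩
  · exact Prod.ext (hG0 z) rfl
  · exact hG y

end Pool.Agent.HCF
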