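import Pool.Agent.HCF.TDefs

/-! # The tower exists (module TTOW) -/

open Topology

noncomputable section

namespace Pool.Agent.HCF

/-- A map to the sphere which misses the point `a` is null homotopic. -/
theorem ttow_null (f : C(S3, S3)) (a : S3) (h : ∀ v, f v ≠ a) :
    ∃ c : S3, f.Homotopic (ContinuousMap.const S3 c) := by
  have hne : ∀ (t : unitInterval) (v : S3),
      (1 - (t : ℝ)) • (f v).1 - (t : ℝ) • a.1 ≠ (0 : E2) := by
    intro t v h0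
    have h1 : (1 - (t : ℝ)) • (f v).1 = (t : ℝ) • a.1 := sub_eq_zero.1 h0
    have hf : ‖(f v).1‖ = 1 := mem_sphere_zero_iff_norm.1 (f v).2
    have ha : ‖a.1‖ = 1 := mem_sphere_zero_iff_norm.1 a.2
    have ht0 : 0 ≤ (t : ℝ) := t.2.1
    have ht1 : 0 ≤ 1 - (t : ℝ) := sub_nonneg.2 t.2.2
    have h2 : 1 - (t : ℝ) = t := by
      have := congrArg norm h1
      rw [norm_smul, norm_smul, hf, ha, mul_one, mul_one, Real.norm_eq_abs, Real.norm_eq_abs,
        abs_of_nonneg ht1, abs_of_nonneg ht0] at this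
      exact this
    have h3 : (t : ℝ) ≠ 0 := by
      intro h3
      rw [h3] at h2
      norm_num at h2
    rw [h2] at h1
    exact h v (Subtype.ext (smul_right_injective E2 h3 h1))
  refine ⟨⟨-a.1, by rw [mem_sphere_zero_iff_norm, norm_neg]; exact mem_sphere_zero_iff_norm.1 a.2⟩,
    ⟨⟨⟨fun p => ⟨(‖(1 - (p.1 : ℝ)) • (f p.2).1 - (p.1 : ℝ) • a.1‖⁻¹ : ℝ) •
      ((1 - (p.1 : ℝ)) • (f p.2).1 - (p.1 : ℝ) • a.1), ?_⟩, ?_⟩, ?_, ?_⟩⟩⟩
  · rw [mem_sphere_zero_iff_norm, norm_smul, norm_inv, norm_norm]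
    exact inv_mul_cancel₀ (norm_ne_zero_iff.2 (hne p.1 p.2))
  · have hc : Continuous fun p : unitInterval × S3 =>
        (1 - (p.1 : ℝ)) • (f p.2).1 - (p.1 : ℝ) • a.1 := by fun_prop
    refine Continuous.subtype_mk ?_ _
    exact (hc.norm.inv₀ fun p => norm_ne_zero_iff.2 (hne p.1 p.2)).smul hc
  · intro v
    apply Subtype.ext
    have hf : ‖(f v).1‖ = 1 := mem_sphere_zero_iff_norm.1 (f v).2
    simp [hf]
  · intro v
    apply Subtype.ext
    have ha : ‖a.1‖ = 1 := mem_sphere_zero_iff_norm.1 a.2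
    simp [ha]

/-- the formula for the map of degree zero -/
def ttowF (m : ℕ) (v : E2) : E2 :=
  !₂[(v 0) ^ m - (starRingEnd ℂ (v 1)) ^ (m * (m - 1)), (v 0) * (v 1) ^ (m - 1)]

theorem ttowF_cont (m : ℕ) : Continuous (ttowF m) := by
  unfold ttowF
  refine (PiLp.continuous_toLp 2 _).comp (continuous_pi fun i => ?_)
  have h0 : Continuous fun v : E2 => v 0 := by fun_prop
  have h1 : Continuous fun v : E2 => v 1 := by fun_prop
  fin_cases i
  · exact (h0.pow m).sub ((Complex.continuous_conj.comp h1).pow _)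
  · exact h0.mul (h1.pow _)

theorem ttowF_zero (m : ℕ) (v : E2) :
    ttowF m v 0 = (v 0) ^ m - (starRingEnd ℂ (v 1)) ^ (m * (m - 1)) := rfl

theorem ttowF_one (m : ℕ) (v : E2) : ttowF m v 1 = (v 0) * (v 1) ^ (m - 1) := rfl

theorem ttowF_ne (m : ℕ) (hm : 2 ≤ m) (v : E2) (hv : v ≠ 0) : ttowF m v ≠ 0 := by
  intro h
  have e0 : (v 0) ^ m - (starRingEnd ℂ (v 1)) ^ (m * (m - 1)) = 0 := by
    rw [← ttowF_zero, h]; rfl
  have e1 : (v 0) * (v 1) ^ (m - 1) = 0 := by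
    rw [← ttowF_one, h]; rfl
  have hm0 : m ≠ 0 := by omega
  have hm1 : m - 1 ≠ 0 := by omega
  have key : v 0 = 0 ∧ v 1 = 0 := by
    rcases mul_eq_zero.1 e1 with h0 | h1
    · refine ⟨h0, ?_⟩
      rw [h0, zero_pow hm0, zero_sub, neg_eq_zero] at e0
      have := (pow_eq_zero_iff (mul_ne_zero hm0 hm1)).1 e0
      exact (map_eq_zero _).1 this
    · have h1' : v 1 = 0 := (pow_eq_zero_iff hm1).1 h1
      refine ⟨?_, h1'⟩
      rw [h1', map_zero, zero_pow (mul_ne_zero hm0 hm1), sub_zero] at e0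
      exact (pow_eq_zero_iff hm0).1 e0
  apply hv
  ext i
  fin_cases i
  · exact key.1
  · exact key.2

theorem ttowF_dir (m : ℕ) (hm : 2 ≤ m) (v : E2) (ζ : ℂ) (hζ : ζ ^ m = -1) (r : ℝ) (hr : 0 < r)
    (h0 : ttowF m v 0 = 0) (h1 : ttowF m v 1 = r * ζ) : False := by
  rw [ttowF_zero, sub_eq_zero] at h0
  rw [ttowF_one] at h1
  have e : (v 0 * (v 1) ^ (m - 1)) ^ m = -((r : ℂ) ^ m) := by
    rw [h1, mul_pow, hζ, mul_neg_one]
  have e2 : (v 0 * (v 1) ^ (m - 1)) ^ m = ((Complex.normSq (v 1) ^ (m * (m - 1)) : ℝ) : ℂ) := by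
    rw [mul_pow, h0, ← pow_mul, mul_comm (m - 1) m, ← mul_pow, mul_comm (starRingEnd ℂ (v 1)),
      Complex.mul_conj]
    push_cast
    rfl
  have e3 : (Complex.normSq (v 1)) ^ (m * (m - 1)) = -(r ^ m) := by
    have := e2.symm.trans e
    apply Complex.ofReal_injective
    rw [this]
    push_cast
    rfl
  have p1 : 0 ≤ (Complex.normSq (v 1)) ^ (m * (m - 1)) := pow_nonneg (Complex.normSq_nonneg _) _
  have p2 : 0 < r ^ m := pow_pos hr m
  linarith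

theorem ttowF_smul (m : ℕ) (hm : 2 ≤ m) (v : E2) (c : Circle) (hc : c ^ (m * m) = 1) :
    ttowF m ((c : ℂ) • v) = ((c ^ m : Circle) : ℂ) • ttowF m v := by
  have hcc : ((c : ℂ)) * starRingEnd ℂ (c : ℂ) = 1 := by
    rw [Complex.mul_conj, Circle.normSq_coe, Complex.ofReal_one]
  have hmm : m * m = m * (m - 1) + m := by
    obtain ⟨k, rfl⟩ : ∃ k, m = k + 2 := ⟨m - 2, by omega⟩
    have : k + 2 - 1 = k + 1 := rfl
    rw [this]; ring
  have h1 : (starRingEnd ℂ (c : ℂ)) ^ (m * (m - 1)) = (c : ℂ) ^ m := by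
    have hc' : (c : ℂ) ^ (m * (m - 1)) * (c : ℂ) ^ m = 1 := by
      rw [← pow_add, ← hmm, ← Circle.coe_pow, hc, Circle.coe_one]
    have h2 : (c : ℂ) ^ (m * (m - 1)) * (starRingEnd ℂ (c : ℂ)) ^ (m * (m - 1)) = 1 := by
      rw [← mul_pow, hcc, one_pow]
    have h3 : (c : ℂ) ^ (m * (m - 1)) ≠ 0 := pow_ne_zero _ (Circle.coe_ne_zero c)
    exact mul_left_cancel₀ h3 (h2.trans hc'.symm)
  have hm2 : (c : ℂ) ^ m = c * (c : ℂ) ^ (m - 1) := by
    obtain ⟨k, rfl⟩ : ∃ k, m = k + 2 := ⟨m - 2, by omega⟩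
    have : k + 2 - 1 = k + 1 := rfl
    rw [this]; ring
  ext i
  fin_cases i
  · change ttowF m ((c : ℂ) • v) 0 = ((c ^ m : Circle) : ℂ) * ttowF m v 0
    rw [ttowF_zero, ttowF_zero]
    change ((c : ℂ) * v 0) ^ m - (starRingEnd ℂ ((c : ℂ) * v 1)) ^ (m * (m - 1)) = _
    rw [map_mul, mul_pow, mul_pow, h1, Circle.coe_pow]
    ring
  · change ttowF m ((c : ℂ) • v) 1 = ((c ^ m : Circle) : ℂ) * ttowF m v 1
    rw [ttowF_one, ttowF_one]
    change ((c : ℂ) * v 0) * ((c : ℂ) * v 1) ^ (m - 1) = _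
    rw [mul_pow, Circle.coe_pow, hm2]
    ring

theorem ttow_sph_ne (v : S3) : (v.1 : E2) ≠ 0 := by
  intro h
  have := mem_sphere_zero_iff_norm.1 v.2
  rw [h, norm_zero] at this
  exact zero_ne_one this

/-- the normalised map -/
def ttowMap (m : ℕ) (hm : 2 ≤ m) : C(S3, S3) where
  toFun v := ⟨(‖ttowF m v.1‖⁻¹ : ℝ) • ttowF m v.1, by
    rw [mem_sphere_zero_iff_norm, norm_smul, norm_inv, norm_norm]
    exact inv_mul_cancel₀ (norm_ne_zero_iff.2 (ttowF_ne m hm v.1 (ttow_sph_ne v)))⟩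
  continuous_toFun := by
    have hc : Continuous fun v : S3 => ttowF m v.1 :=
      (ttowF_cont m).comp continuous_subtype_val
    exact Continuous.subtype_mk ((hc.norm.inv₀ fun v => norm_ne_zero_iff.2
      (ttowF_ne m hm v.1 (ttow_sph_ne v))).smul hc) _

theorem ttowMap_null (m : ℕ) (hm : 2 ≤ m) :
    ∃ c : S3, (ttowMap m hm).Homotopic (ContinuousMap.const S3 c) := by
  obtain ⟨ζ, hζ, hn⟩ : ∃ ζ : ℂ, ζ ^ m = -1 ∧ ‖ζ‖ = 1 := by
    refine ⟨Complex.exp (Real.pi * Complex.I / m), ?_, ?_⟩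
    · rw [← Complex.exp_nat_mul, mul_div_cancel₀, Complex.exp_pi_mul_I]
      exact_mod_cast (by omega : m ≠ 0)
    · have : (Real.pi * Complex.I / m : ℂ) = ((Real.pi / m : ℝ) : ℂ) * Complex.I := by
        push_cast; ring
      rw [this, Complex.norm_exp_ofReal_mul_I]
  have ha : (!₂[(0 : ℂ), ζ] : E2) ∈ Metric.sphere (0 : E2) 1 := by
    rw [mem_sphere_zero_iff_norm, EuclideanSpace.norm_eq]
    simp [hn]
  refine ttow_null _ ⟨!₂[(0 : ℂ), ζ], ha⟩ fun v hv => ?_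
  have h := congrArg Subtype.val hv
  change (‖ttowF m v.1‖⁻¹ : ℝ) • ttowF m v.1 = !₂[(0 : ℂ), ζ] at h
  have hne := norm_ne_zero_iff.2 (ttowF_ne m hm v.1 (ttow_sph_ne v))
  have h' : ttowF m v.1 = ‖ttowF m v.1‖ • (!₂[(0 : ℂ), ζ] : E2) := by
    rw [← h, smul_smul, mul_inv_cancel₀ hne, one_smul]
  refine ttowF_dir m hm v.1 ζ hζ ‖ttowF m v.1‖ (lt_of_le_of_ne (norm_nonneg _) hne.symm) ?_ ?_
  · conv_lhs => rw [h']
    simp
  · conv_lhs => rw [h']
    simp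

theorem ttowMap_eqv (m : ℕ) (hm : 2 ≤ m) (c : Circle) (hc : c ^ (m * m) = 1) (v : S3) :
    ttowMap m hm (csm c v) = csm (c ^ m) (ttowMap m hm v) := by
  apply Subtype.ext
  change (‖ttowF m ((c : ℂ) • v.1)‖⁻¹ : ℝ) • ttowF m ((c : ℂ) • v.1) =
    ((c ^ m : Circle) : ℂ) • ((‖ttowF m v.1‖⁻¹ : ℝ) • ttowF m v.1)
  rw [ttowF_smul m hm v.1 c hc, norm_smul, Circle.norm_coe, one_mul, smul_comm]

theorem ttow_two_le (j : ℕ) : 2 ≤ 5 ^ 2 ^ j := by
  have : 5 ^ 1 ≤ 5 ^ 2 ^ j := Nat.pow_le_pow_right (by norm_num) Nat.one_le_two_pow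
  omega

theorem exists_tower : Nonempty Tower :=
  ⟨{ f := fun j => ttowMap (5 ^ 2 ^ j) (ttow_two_le j)
     null := fun j => ttowMap_null _ _
     eqv := fun j c hc v => ttowMap_eqv _ _ c (by
       rw [← hc]
       congr 1
       rw [pow_succ 2 j, pow_mul, pow_two]) v }⟩

end Pool.Agent.HCF
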