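import Pool.Agent.HCF.SFmap
import Pool.Agent.HCF.SIso
import Pool.Agent.HCF.SMain
import Pool.Agent.HCF.SFin
import Pool.Agent.HCF.SShape
import Pool.Agent.HCF.GLift
import Pool.Agent.HCF.GFibA
import Pool.Agent.HCF.TTow

/-! # The final theorem (module SFINAL) -/

open Topology Set

noncomputable section

namespace Pool.Agent.HCF

/-- a section followed by a constant in the second factor -/
def secProd {B E X : Type} [TopologicalSpace B] [TopologicalSpace E] [TopologicalSpace X]
    (s : C(B, E)) (x : X) : C(B, E × X) := s.prodMk (ContinuousMap.const B x)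

theorem not_shape (T : Tower) (k : ℕ) (f : C(EE T k × CM, (M0 T × CM) × BB))
    (hf : ∀ e, (f e).2 = pE T k e.1) : ¬ IsShapeEquiv f := by
  intro hs
  obtain ⟨φ⟩ := M0_CM_homeo_CC T
  haveI : ContractibleSpace CC := CC_contractible
  haveI : ContractibleSpace (M0 T × CM) := φ.contractibleSpace
  let q0 : CM := (c0 : CC)
  obtain ⟨A, hdet, hA⟩ := exists_A T k (fun u s0 s1 h0 h1 => by
    have h := sections_homotopic ((pE T k).comp ContinuousMap.fst) f hf hs (isANR_Idem NI)
      (secProd s0 q0) (secProd s1 q0) (fun b => h0 b) (fun b => h1 b)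
      (u.comp (ContinuousMap.fst : C(EE T k × CM, EE T k)))
    exact h)
  exact no_A A hdet hA

theorem main : ∃ (M : Type) (_ : MetricSpace M) (B : Type) (_ : MetricSpace B),
    Nonempty (M ≃ₜ Q) ∧ CompactSpace B ∧ ConnectedSpace B ∧ LocallyConnectedSpace B ∧
    ∀ ε : ℝ, 0 < ε → ∃ (E : Type) (_ : MetricSpace E) (_ : CompactSpace E) (p : C(E, B))
      (f : C(E, M × B)),
      IsHurewiczFibration p ∧ (∀ b : B, Nonempty (p ⁻¹' {b} ≃ᵢ M)) ∧
      (∀ e, (f e).2 = p e) ∧ Function.Surjective f ∧ (∀ y, Metric.diam (f ⁻¹' {y}) < ε) ∧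
      ¬ IsShapeEquiv f := by
  obtain ⟨T⟩ := exists_tower
  refine ⟨M0 T × CM, inferInstance, BB, inferInstance, M0_CM_homeo_Q T, inferInstance,
    inferInstance, inferInstance, ?_⟩
  intro ε hε
  obtain ⟨k, f, hf, hs, hd⟩ := exists_f T ε hε
  refine ⟨EE T k × CM, inferInstance, inferInstance, (pE T k).comp ContinuousMap.fst, f, ?_,
    fibres_isometric T k, hf, hs, hd, not_shape T k f hf⟩
  exact fibration_prod (pE T k) (oproj_fibration PG I0 (MK T k) I0_free I0_UHL I0_UPL)

end Pool.Agent.HCF
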