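import Pool.Agent.HCF.SEE
import Pool.Agent.HCF.MFun

/-! # The fibrewise onto maps (module SFMAP) -/

open Topology

noncomputable section

namespace Pool.Agent.HCF

/-- coordinates below the level are not moved -/
theorem ak_eq_zero (k j : ℕ) (h : j < k) : ak k j = 0 := by
  have h2 : 2 ^ j < 2 ^ k := Nat.pow_lt_pow_right (by norm_num) h
  unfold ak
  omega

/-- An onto map from the model which only depends on the coordinates `≤ n + 1` is invariant. -/
theorem sfmap_inv (T : Tower) (n : ℕ) (F : C(M0 T, Fin (n + 1) → D2))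
    (hF : ∀ y y' : CC, (∀ i ≤ n + 1, y i = y' i) → F (toM0 T y) = F (toM0 T y'))
    (w : PG) (m : MK T (n + 2)) : F (w • m : MK T (n + 2)) = F m := by
  obtain ⟨y, rfl⟩ : ∃ y, (show MK T (n + 2) from toM0 T y) = m := toM0_surjective T m
  rw [smul_toM0]
  refine hF _ _ fun i hi => ?_
  have h1 : w.1 (ak (n + 2) i) = 1 := by
    rw [ak_eq_zero (n + 2) i (by omega)]
    exact w.2.1
  refine Subtype.ext ?_
  change ((w.1 (ak (n + 2) i) : Circle) : ℂ) • (y i).1 = (y i).1
  rw [h1, Circle.coe_one, one_smul]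

/-- An onto map from the model which only depends on the coordinates `≤ n + 1` descends to the total
space of level `n + 2` (module SFMAP). -/
theorem exists_Fbar (T : Tower) (n : ℕ) (F : C(M0 T, Fin (n + 1) → D2))
    (hF : ∀ y y' : CC, (∀ i ≤ n + 1, y i = y' i) → F (toM0 T y) = F (toM0 T y')) :
    ∃ Fb : C(EE T (n + 2), Fin (n + 1) → D2), ∀ (x : I0) (m : MK T (n + 2)),
      Fb (Orb.mk PG (PS.pair x m)) = F m := by
  refine ⟨⟨Quotient.lift (fun p : PS I0 (MK T (n + 2)) => F p.2) ?_, ?_⟩, fun x m => rfl⟩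
  · rintro p q ⟨g, hg⟩
    simp only at hg
    rw [← hg]
    exact sfmap_inv T n F hF g q.2
  · refine (Orb.isOpenQuotientMap_mk (G := PG)
      (X := PS I0 (MK T (n + 2)))).isQuotientMap.continuous_iff.2 ?_
    exact F.continuous.comp PS.continuous_snd

/-- The fibrewise onto `ε`-map (module SFMAP). -/
theorem exists_f (T : Tower) (ε : ℝ) (hε : 0 < ε) : ∃ (k : ℕ)
    (f : C(EE T k × CM, (M0 T × CM) × BB)), (∀ e, (f e).2 = pE T k e.1) ∧
      Function.Surjective f ∧ ∀ y, Metric.diam (f ⁻¹' {y}) < ε := by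
  obtain ⟨n, F, hFs, hFd, hFc⟩ := exists_F T (ε / 2) (half_pos hε)
  obtain ⟨Fb, hFb⟩ := exists_Fbar T n F hFc
  obtain ⟨psi⟩ := M0_CM_homeo_CC T
  let g : EE T (n + 2) × CM → M0 T × CM := fun e =>
    psi.symm ((splitCC n).symm (Fb e.1, (show CC from e.2)))
  have hg : Continuous g := by
    refine psi.symm.continuous.comp ((splitCC n).symm.continuous.comp ?_)
    exact (Fb.continuous.comp continuous_fst).prodMk continuous_snd
  refine ⟨n + 2, ⟨fun e => (g e, pE T (n + 2) e.1), ?_⟩, fun e => rfl, ?_, ?_⟩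
  · exact hg.prodMk ((pE T (n + 2)).continuous.comp continuous_fst)
  · rintro ⟨a, b⟩
    obtain ⟨x, rfl⟩ := Orb.mk_surjective b
    obtain ⟨m, hm⟩ := hFs (splitCC n (psi a)).1
    refine ⟨(Orb.mk PG (PS.pair x (show MK T (n + 2) from m)),
      (show CM from (splitCC n (psi a)).2)), ?_⟩
    refine Prod.ext ?_ ?_
    · change psi.symm ((splitCC n).symm (Fb (Orb.mk PG (PS.pair x (show MK T (n + 2) from m))),
        (splitCC n (psi a)).2)) = a
      rw [hFb, hm]
      change psi.symm ((splitCC n).symm (splitCC n (psi a))) = a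
      rw [Homeomorph.symm_apply_apply, Homeomorph.symm_apply_apply]
    · exact oproj_mk PG I0 (MK T (n + 2)) x _
  · intro y
    refine lt_of_le_of_lt (Metric.diam_le_of_forall_dist_le (half_pos hε).le ?_)
      (half_lt_self hε)
    rintro ⟨e, q⟩ he ⟨e', q'⟩ he'
    have h1 : (g (e, q), pE T (n + 2) e) = y := he
    have h2 : (g (e', q'), pE T (n + 2) e') = y := he'
    have h3 := h1.trans h2.symm
    have h4 : g (e, q) = g (e', q') := congrArg Prod.fst h3
    have h5 : pE T (n + 2) e = pE T (n + 2) e' := congrArg Prod.snd h3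
    have h6 : (Fb e, (show CC from q)) = (Fb e', (show CC from q')) :=
      (splitCC n).symm.injective (psi.symm.injective h4)
    have h7 : Fb e = Fb e' := congrArg Prod.fst h6
    have h8 : q = q' := congrArg Prod.snd h6
    subst h8
    obtain ⟨⟨x, m⟩, rfl⟩ := Orb.mk_surjective (G := PG) (X := PS I0 (MK T (n + 2))) e
    obtain ⟨⟨x', m'⟩, rfl⟩ := Orb.mk_surjective (G := PG) (X := PS I0 (MK T (n + 2))) e'
    have h9 : Orb.mk PG x = Orb.mk PG x' := h5
    obtain ⟨w, hw⟩ := Orb.mk_eq_iff.1 h9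
    have h10 : (Orb.mk PG ((x', m') : PS I0 (MK T (n + 2))) : Orb PG (PS I0 (MK T (n + 2)))) =
        Orb.mk PG (PS.pair x (w • m')) := by
      rw [hw, ← PS.smul_pair, Orb.mk_smul]
      rfl
    have h11 : F m = F (w • m' : MK T (n + 2)) := by
      rw [← hFb x m, ← hFb x (w • m'), ← h10]
      exact h7
    have h12 : dist m (w • m') < ε / 2 := hFd m (w • m' : MK T (n + 2)) h11
    refine max_le ?_ ?_
    · have h13 : dist (Orb.mk PG (PS.pair x m : PS I0 (MK T (n + 2))))
          (Orb.mk PG (PS.pair x' m' : PS I0 (MK T (n + 2)))) ≤ ε / 2 := by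
        have h14 : (Orb.mk PG (PS.pair x' m' : PS I0 (MK T (n + 2))) :
            Orb PG (PS I0 (MK T (n + 2)))) = Orb.mk PG (PS.pair x (w • m')) := h10
        rw [h14]
        refine (Orb.dist_mk_le _ _).trans ?_
        rw [PS.dist_eq]
        change dist x x + dist m (w • m') ≤ ε / 2
        rw [dist_self, zero_add]
        exact h12.le
      exact h13
    · change dist q q ≤ ε / 2
      rw [dist_self]
      exact (half_pos hε).le

end Pool.Agent.HCF
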