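import Pool.Agent.HCF.TDefs

/-! # The product of the balls is the Hilbert cube (module TBALL) -/

noncomputable section

namespace Pool.Agent.HCF

/-- the cube in `ℝ^4` is a product of intervals -/
def tballCube : Set.Icc (0 : Fin 4 → ℝ) 1 ≃ₜ (Fin 4 → unitInterval) where
  toFun y i := ⟨y.1 i, y.2.1 i, y.2.2 i⟩
  invFun z := ⟨fun i => (z i).1, fun i => (z i).2.1, fun i => (z i).2.2⟩
  left_inv _ := rfl
  right_inv _ := rfl
  continuous_toFun := continuous_pi fun i =>
    Continuous.subtype_mk ((continuous_apply i).comp continuous_subtype_val) _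
  continuous_invFun := Continuous.subtype_mk
    (continuous_pi fun i => continuous_subtype_val.comp (continuous_apply i)) _

theorem tball_D2 : Nonempty (D2 ≃ₜ (Fin 4 → unitInterval)) := by
  have hfr : Module.finrank ℝ E2 = Module.finrank ℝ (Fin 4 → ℝ) := by
    have h1 : Module.finrank ℝ E2 = Module.finrank ℝ ℂ * Module.finrank ℂ E2 :=
      (Module.finrank_mul_finrank ℝ ℂ E2).symm
    rw [h1, Complex.finrank_real_complex, finrank_euclideanSpace, Module.finrank_pi]
    simp
  let L : E2 ≃L[ℝ] (Fin 4 → ℝ) := ContinuousLinearEquiv.ofFinrankEq hfr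
  let B : Set (Fin 4 → ℝ) := L '' Metric.closedBall (0 : E2) 2
  have hBconv : Convex ℝ B := (convex_closedBall (0 : E2) 2).linear_image L.toLinearMap
  have hBcomp : IsCompact B := (isCompact_closedBall (0 : E2) 2).image L.continuous
  have hBint : (interior B).Nonempty := by
    have h1 : L '' interior (Metric.closedBall (0 : E2) 2) ⊆ interior B :=
      L.toHomeomorph.image_interior _ |>.le
    refine Set.Nonempty.mono h1 (Set.Nonempty.image _ ?_)
    rw [interior_closedBall _ (by norm_num)]
    exact ⟨0, by simp⟩
  have hCconv : Convex ℝ (Set.Icc (0 : Fin 4 → ℝ) 1) := convex_Icc 0 1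
  have hCcomp : IsCompact (Set.Icc (0 : Fin 4 → ℝ) 1) := isCompact_Icc
  have hCint : (interior (Set.Icc (0 : Fin 4 → ℝ) 1)).Nonempty := by
    refine ⟨fun _ => 1 / 2, ?_⟩
    rw [mem_interior_iff_mem_nhds, ← Set.pi_univ_Icc]
    refine set_pi_mem_nhds Set.finite_univ fun i _ => ?_
    exact Icc_mem_nhds (by norm_num) (by norm_num)
  obtain ⟨e, -, he, -⟩ := exists_homeomorph_image_eq hBconv hBint
    (NormedSpace.isVonNBounded_of_isBounded ℝ hBcomp.isBounded) hCconv hCint
    (NormedSpace.isVonNBounded_of_isBounded ℝ hCcomp.isBounded)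
  rw [hBcomp.isClosed.closure_eq, hCcomp.isClosed.closure_eq] at he
  exact ⟨((L.toHomeomorph.image (Metric.closedBall (0 : E2) 2)).trans (e.image B)).trans
    ((Homeomorph.setCongr he).trans tballCube)⟩

/-- a double sequence is a sequence -/
def tballCurry : (ℕ → Fin 4 → unitInterval) ≃ₜ (ℕ → unitInterval) where
  toFun y n := y (Nat.divModEquiv 4 n).1 (Nat.divModEquiv 4 n).2
  invFun z a b := z ((Nat.divModEquiv 4).symm (a, b))
  left_inv y := by
    funext a b
    simp only [Equiv.apply_symm_apply]
  right_inv z := by
    funext n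
    simp only [Prod.mk.eta, Equiv.symm_apply_apply]
  continuous_toFun := continuous_pi fun _ => (continuous_apply _).comp (continuous_apply _)
  continuous_invFun := continuous_pi fun _ => continuous_pi fun _ => continuous_apply _

theorem CC_homeo_Q : Nonempty (CC ≃ₜ (ℕ → unitInterval)) := by
  obtain ⟨e⟩ := tball_D2
  exact ⟨(Homeomorph.piCongrRight fun _ : ℕ => e).trans tballCurry⟩

theorem CC_prod_homeo : Nonempty (CC × CC ≃ₜ CC) := by
  refine ⟨
    { toFun := fun p n => Sum.elim p.1 p.2 (Equiv.natSumNatEquivNat.symm n)
      invFun := fun y => (fun k => y (Equiv.natSumNatEquivNat (Sum.inl k)),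
        fun k => y (Equiv.natSumNatEquivNat (Sum.inr k)))
      left_inv := ?_
      right_inv := ?_
      continuous_toFun := ?_
      continuous_invFun := ?_ }⟩
  · rintro ⟨a, b⟩
    refine Prod.ext (funext fun k => ?_) (funext fun k => ?_)
    · simp only [Equiv.symm_apply_apply, Sum.elim_inl]
    · simp only [Equiv.symm_apply_apply, Sum.elim_inr]
  · intro y
    funext n
    rcases h : Equiv.natSumNatEquivNat.symm n with k | k
    · simp only [h, Sum.elim_inl]
      rw [← h, Equiv.apply_symm_apply]
    · simp only [h, Sum.elim_inr]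
      rw [← h, Equiv.apply_symm_apply]
  · refine continuous_pi fun n => ?_
    rcases h : Equiv.natSumNatEquivNat.symm n with k | k
    · simp only [h, Sum.elim_inl]
      exact (continuous_apply k).comp continuous_fst
    · simp only [h, Sum.elim_inr]
      exact (continuous_apply k).comp continuous_snd
  · exact (continuous_pi fun k => continuous_apply _).prodMk
      (continuous_pi fun k => continuous_apply _)

/-- splitting off the first `n + 1` coordinates -/
def splitCC (n : ℕ) : CC ≃ₜ (Fin (n + 1) → D2) × CC where
  toFun y := (fun i => y i, fun k => y (n + 1 + k))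
  invFun p j := if h : j < n + 1 then p.1 ⟨j, h⟩ else p.2 (j - (n + 1))
  left_inv := by
    intro y
    funext j
    by_cases h : j < n + 1
    · simp only [h, dif_pos]
    · simp only [h, dif_neg, not_false_iff]
      rw [Nat.add_sub_of_le (not_lt.1 h)]
  right_inv := by
    rintro ⟨a, b⟩
    refine Prod.ext (funext fun i => ?_) (funext fun k => ?_)
    · simp only [i.isLt, dif_pos]
    · have h : ¬ (n + 1 + k < n + 1) := by omega
      simp only [h, dif_neg, not_false_iff]
      rw [Nat.add_sub_cancel_left]
  continuous_toFun := by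
    exact (continuous_pi fun i => continuous_apply _).prodMk
      (continuous_pi fun k => continuous_apply _)
  continuous_invFun := by
    refine continuous_pi fun j => ?_
    by_cases h : j < n + 1
    · simp only [h, dif_pos]
      exact (continuous_apply _).comp continuous_fst
    · simp only [h, dif_neg, not_false_iff]
      exact (continuous_apply _).comp continuous_snd

theorem CC_contractible : ContractibleSpace CC := by
  rw [contractible_iff_id_nullhomotopic]
  refine ⟨c0, ⟨
    { toFun := fun p j => ⟨(1 - (p.1 : ℝ)) • (p.2 j).1, ?_⟩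
      continuous_toFun := ?_
      map_zero_left := ?_
      map_one_left := ?_ }⟩⟩
  · have h1 : ‖(p.2 j).1‖ ≤ 2 := mem_closedBall_zero_iff.1 (p.2 j).2
    have h2 : 0 ≤ 1 - (p.1 : ℝ) := by
      have := p.1.2.2
      linarith
    have h3 : 1 - (p.1 : ℝ) ≤ 1 := by
      have := p.1.2.1
      linarith
    rw [mem_closedBall_zero_iff, norm_smul, Real.norm_eq_abs, abs_of_nonneg h2]
    have h4 := norm_nonneg (p.2 j).1
    nlinarith
  · refine continuous_pi fun j => Continuous.subtype_mk ?_ _
    have h5 : Continuous fun p : unitInterval × CC => (1 - (p.1 : ℝ)) :=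
      continuous_const.sub (continuous_subtype_val.comp continuous_fst)
    have h6 : Continuous fun p : unitInterval × CC => (p.2 j).1 :=
      continuous_subtype_val.comp ((continuous_apply j).comp continuous_snd)
    exact h5.smul h6
  · intro y
    funext j
    refine Subtype.ext ?_
    change (1 - ((0 : unitInterval) : ℝ)) • (y j).1 = (y j).1
    simp
  · intro y
    funext j
    refine Subtype.ext ?_
    change (1 - ((1 : unitInterval) : ℝ)) • (y j).1 = 0
    simp

end Pool.Agent.HCF
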