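import Mathlib

/-! # The tower of three spheres and the convex Hilbert cube (definitions) -/

open Topology

noncomputable section

namespace Pool.Agent.HCF

/-- `ℂ²` -/
abbrev E2 : Type := EuclideanSpace ℂ (Fin 2)

/-- the three sphere -/
abbrev S3 : Type := Metric.sphere (0 : E2) 1

/-- the ball of radius two -/
abbrev D2 : Type := Metric.closedBall (0 : E2) 2

/-- the product of the balls; it is homeomorphic to the Hilbert cube -/
abbrev CC : Type := ℕ → D2

/-- multiplication of the three sphere by a unit complex number -/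
def csm (c : Circle) (v : S3) : S3 := ⟨(c : ℂ) • v.1, by
  have hv : ‖v.1‖ = 1 := mem_sphere_zero_iff_norm.1 v.2
  rw [mem_sphere_zero_iff_norm, norm_smul, Circle.norm_coe, hv, one_mul]⟩

/-- multiplication of the ball by a unit complex number -/
def csmD (c : Circle) (v : D2) : D2 := ⟨(c : ℂ) • v.1, by
  have hv : ‖v.1‖ ≤ 2 := mem_closedBall_zero_iff.1 v.2
  rw [mem_closedBall_zero_iff, norm_smul, Circle.norm_coe, one_mul]
  exact hv⟩

/-- the tower of equivariant null homotopic maps -/
structure Tower where
  f : ℕ → C(S3, S3)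
  null : ∀ j, ∃ c : S3, (f j).Homotopic (ContinuousMap.const S3 c)
  eqv : ∀ (j : ℕ) (c : Circle), c ^ 5 ^ 2 ^ (j + 1) = 1 → ∀ v : S3,
    f j (csm c v) = csm (c ^ 5 ^ 2 ^ j) (f j v)

/-- the inverse limit of the tower, as a subset of the product of the balls -/
def II (T : Tower) : Set CC :=
  {y | ∃ x : ℕ → S3, (∀ j, T.f j (x (j + 1)) = x j) ∧ ∀ j, (y j).1 = (x j).1}

/-- the centre of the product of the balls -/
def c0 : CC := fun _ => ⟨0, by simp⟩

end Pool.Agent.HCF
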