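import Pool.Agent.HCF.TDefs

/-! # Neighbourhoods of the inverse limit (module TNBHD) -/

noncomputable section

namespace Pool.Agent.HCF

/-- the compatible point `(x_0, ..., x_n)` determined by `x_n = v`; the coordinates above `n` are
put equal to `v` -/
def tail (T : Tower) (v : S3) (n : ℕ) : ℕ → S3
  | i => if i < n then Nat.recOn (n - i) v (fun k w => T.f (n - 1 - k) w) else v

theorem tail_self (T : Tower) (v : S3) (n : ℕ) : tail T v n n = v := by
  simp [tail]

/-- the coordinate `n - k` of the compatible point -/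
def tnbhdRec (T : Tower) (v : S3) (n k : ℕ) : S3 :=
  Nat.rec v (fun k w => T.f (n - 1 - k) w) k

theorem tnbhdRec_succ (T : Tower) (v : S3) (n k : ℕ) :
    tnbhdRec T v n (k + 1) = T.f (n - 1 - k) (tnbhdRec T v n k) := rfl

theorem tnbhd_tail_eq (T : Tower) (v : S3) (n i : ℕ) (h : i ≤ n) :
    tail T v n i = tnbhdRec T v n (n - i) := by
  rcases h.lt_or_eq with h1 | h1
  · simp only [tail, if_pos h1]
    rfl
  · subst h1
    rw [tail_self, Nat.sub_self]
    rfl

theorem tail_step (T : Tower) (v : S3) (n i : ℕ) (h : i < n) :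
    T.f i (tail T v n (i + 1)) = tail T v n i := by
  rw [tnbhd_tail_eq T v n (i + 1) h, tnbhd_tail_eq T v n i h.le]
  have h1 : n - i = (n - (i + 1)) + 1 := by omega
  have h2 : n - 1 - (n - (i + 1)) = i := by omega
  rw [h1, tnbhdRec_succ, h2]

theorem tnbhd_rec_succ' (T : Tower) (v : S3) (n k : ℕ) :
    tnbhdRec T v (n + 1) (k + 1) = tnbhdRec T (T.f n v) n k := by
  induction k with
  | zero => rfl
  | succ k ih =>
    rw [tnbhdRec_succ, ih, tnbhdRec_succ]
    have h2 : n + 1 - 1 - (k + 1) = n - 1 - k := by omega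
    rw [h2]

theorem tail_succ (T : Tower) (v : S3) (n i : ℕ) (h : i ≤ n) :
    tail T v (n + 1) i = tail T (T.f n v) n i := by
  rw [tnbhd_tail_eq T v (n + 1) i (by omega), tnbhd_tail_eq T _ n i h]
  have h1 : n + 1 - i = (n - i) + 1 := by omega
  rw [h1, tnbhd_rec_succ']

theorem tnbhd_continuous_rec (T : Tower) (n k : ℕ) : Continuous fun v => tnbhdRec T v n k := by
  induction k with
  | zero => exact continuous_id
  | succ k ih =>
    simp only [tnbhdRec_succ]
    exact (T.f (n - 1 - k)).continuous.comp ih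

theorem continuous_tail (T : Tower) (n i : ℕ) : Continuous fun v => tail T v n i := by
  by_cases h : i ≤ n
  · simp only [tnbhd_tail_eq T _ n i h]
    exact tnbhd_continuous_rec T n (n - i)
  · have h1 : ∀ v, tail T v n i = v := fun v => by
      simp only [tail]
      rw [if_neg (by omega)]
    simp only [h1]
    exact continuous_id

/-- the neighbourhood of radius `δ` of the compatible points, in the first `n + 1` coordinates -/
def NN (T : Tower) (n : ℕ) (δ : ℝ) : Set CC :=
  {y | ∃ v : S3, ∀ i ≤ n, ‖(y i).1 - (tail T v n i).1‖ < δ}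

theorem tnbhd_compat (T : Tower) (x : ℕ → S3) (hx : ∀ j, T.f j (x (j + 1)) = x j) (n k : ℕ)
    (h : k ≤ n) : tnbhdRec T (x n) n k = x (n - k) := by
  induction k with
  | zero => rfl
  | succ k ih =>
    rw [tnbhdRec_succ, ih (by omega)]
    have h1 : n - k = (n - 1 - k) + 1 := by omega
    have h2 : n - (k + 1) = n - 1 - k := by omega
    rw [h1, hx, h2]

/-- the inclusion of the three sphere in the ball -/
def tnbhdIncl (v : S3) : D2 := ⟨v.1, by
  have hv : ‖v.1‖ = 1 := mem_sphere_zero_iff_norm.1 v.2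
  rw [mem_closedBall_zero_iff, hv]
  norm_num⟩

theorem tnbhd_continuous_incl : Continuous tnbhdIncl :=
  Continuous.subtype_mk continuous_subtype_val _

theorem tnbhd_II_eq (T : Tower) :
    II T = (fun (x : ℕ → S3) (j : ℕ) => tnbhdIncl (x j)) '' {x | ∀ j, T.f j (x (j + 1)) = x j} := by
  ext y
  constructor
  · rintro ⟨x, hx, hy⟩
    exact ⟨x, hx, funext fun j => Subtype.ext (hy j).symm⟩
  · rintro ⟨x, hx, rfl⟩
    exact ⟨x, hx, fun j => rfl⟩

theorem tnbhd_isClosed (T : Tower) (j : ℕ) :
    IsClosed {x : ℕ → S3 | T.f j (x (j + 1)) = x j} :=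
  isClosed_eq ((T.f j).continuous.comp (continuous_apply (j + 1))) (continuous_apply j)

theorem isCompact_II (T : Tower) : IsCompact (II T) := by
  rw [tnbhd_II_eq]
  refine IsCompact.image ?_ (continuous_pi fun j =>
    tnbhd_continuous_incl.comp (continuous_apply j))
  have h1 : {x : ℕ → S3 | ∀ j, T.f j (x (j + 1)) = x j} =
      ⋂ j, {x : ℕ → S3 | T.f j (x (j + 1)) = x j} := by
    ext x
    simp
  rw [h1]
  exact (isClosed_iInter fun j => tnbhd_isClosed T j).isCompact

theorem II_nonempty (T : Tower) : (II T).Nonempty := by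
  rw [tnbhd_II_eq]
  refine Set.Nonempty.image _ ?_
  have v0 : S3 := ⟨EuclideanSpace.single 0 1, by simp⟩
  have h1 : (⋂ n, {x : ℕ → S3 | ∀ j < n, T.f j (x (j + 1)) = x j}).Nonempty := by
    refine IsCompact.nonempty_iInter_of_sequence_nonempty_isCompact_isClosed _ ?_ ?_ ?_ ?_
    · intro n x hx j hj
      exact hx j (by omega)
    · intro n
      exact ⟨tail T v0 n, fun j hj => tail_step T v0 n j hj⟩
    · refine IsClosed.isCompact ?_
      have h2 : {x : ℕ → S3 | ∀ j < 0, T.f j (x (j + 1)) = x j} = Set.univ := by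
        ext x
        simp
      rw [h2]
      exact isClosed_univ
    · intro n
      have h2 : {x : ℕ → S3 | ∀ j < n, T.f j (x (j + 1)) = x j} =
          ⋂ j, ⋂ (_ : j < n), {x : ℕ → S3 | T.f j (x (j + 1)) = x j} := by
        ext x
        simp
      rw [h2]
      exact isClosed_iInter fun j => isClosed_iInter fun _ => tnbhd_isClosed T j
  obtain ⟨x, hx⟩ := h1
  refine ⟨x, fun j => ?_⟩
  exact (Set.mem_iInter.1 hx (j + 1)) j (Nat.lt_succ_self j)

theorem II_subset_NN (T : Tower) (n : ℕ) (δ : ℝ) (hδ : 0 < δ) : II T ⊆ NN T n δ := by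
  rintro y ⟨x, hx, hy⟩
  refine ⟨x n, fun i hi => ?_⟩
  rw [tnbhd_tail_eq T _ n i hi, tnbhd_compat T x hx n (n - i) (by omega)]
  have h1 : n - (n - i) = i := by omega
  rw [h1, hy i, sub_self, norm_zero]
  exact hδ

/-- every neighbourhood of the inverse limit contains some `NN` -/
theorem exists_NN_subset (T : Tower) (U : Set CC) (hU : IsOpen U) (hIU : II T ⊆ U) (n₀ : ℕ) :
    ∃ (n : ℕ) (δ : ℝ), n₀ ≤ n ∧ 0 < δ ∧ δ < 1 ∧ NN T n δ ⊆ U := by
  by_contra hcon
  push Not at hcon
  have h1 : ∀ m : ℕ, ∃ y : CC, y ∈ NN T (m + n₀) (1 / ((m : ℝ) + 2)) ∧ y ∉ U := by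
    intro m
    have h2 := hcon (m + n₀) (1 / ((m : ℝ) + 2)) (by omega) (by positivity) (by
      rw [div_lt_one (by positivity)]
      have : (0 : ℝ) ≤ m := Nat.cast_nonneg m
      linarith)
    exact Set.not_subset.1 h2
  choose y hy hyU using h1
  choose v hv using hy
  obtain ⟨⟨a, b⟩, φ, hφ, hlim⟩ := CompactSpace.tendsto_subseq
    (fun m : ℕ => ((y m, tail T (v m) (m + n₀)) : CC × (ℕ → S3)))
  have ha : Filter.Tendsto (fun k => y (φ k)) Filter.atTop (nhds a) :=
    (continuous_fst.tendsto _).comp hlim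
  have hb : Filter.Tendsto (fun k => tail T (v (φ k)) (φ k + n₀)) Filter.atTop (nhds b) :=
    (continuous_snd.tendsto _).comp hlim
  have hb' : ∀ j, Filter.Tendsto (fun k => tail T (v (φ k)) (φ k + n₀) j) Filter.atTop
      (nhds (b j)) := fun j => ((continuous_apply j).tendsto b).comp hb
  have ha' : ∀ j, Filter.Tendsto (fun k => (y (φ k) j).1) Filter.atTop (nhds (a j).1) :=
    fun j => (continuous_subtype_val.tendsto _).comp (((continuous_apply j).tendsto a).comp ha)
  have haU : a ∉ U := by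
    have h3 : a ∈ Uᶜ := hU.isClosed_compl.mem_of_tendsto ha
      (Filter.Eventually.of_forall fun k => hyU (φ k))
    exact h3
  apply haU
  apply hIU
  refine ⟨b, fun j => ?_, fun j => ?_⟩
  · have h4 : Filter.Tendsto (fun k => T.f j (tail T (v (φ k)) (φ k + n₀) (j + 1)))
        Filter.atTop (nhds (T.f j (b (j + 1)))) :=
      ((T.f j).continuous.tendsto _).comp (hb' (j + 1))
    have h5 : ∀ᶠ k in Filter.atTop, tail T (v (φ k)) (φ k + n₀) j =
        T.f j (tail T (v (φ k)) (φ k + n₀) (j + 1)) := by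
      filter_upwards [Filter.eventually_ge_atTop (j + 1)] with k hk
      have h6 : k ≤ φ k := hφ.id_le k
      exact (tail_step T _ _ j (by omega)).symm
    exact tendsto_nhds_unique h4 ((hb' j).congr' h5)
  · have h7 : Filter.Tendsto (fun k => (y (φ k) j).1 - (tail T (v (φ k)) (φ k + n₀) j).1)
        Filter.atTop (nhds ((a j).1 - (b j).1)) :=
      (ha' j).sub ((continuous_subtype_val.tendsto _).comp (hb' j))
    have h8 : Filter.Tendsto (fun k : ℕ => 1 / ((φ k : ℝ) + 2)) Filter.atTop (nhds 0) := by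
      have h9 : Filter.Tendsto (fun k : ℕ => ((φ k : ℝ) + 2)) Filter.atTop Filter.atTop :=
        Filter.tendsto_atTop_add_const_right _ _
          (tendsto_natCast_atTop_atTop.comp hφ.tendsto_atTop)
      simpa using h9.const_div_atTop 1
    have h10 : ‖(a j).1 - (b j).1‖ ≤ 0 := by
      refine le_of_tendsto_of_tendsto h7.norm h8 ?_
      filter_upwards [Filter.eventually_ge_atTop j] with k hk
      have h6 : k ≤ φ k := hφ.id_le k
      exact (hv (φ k) j (by omega)).le
    exact sub_eq_zero.1 (norm_eq_zero.1 (le_antisymm h10 (norm_nonneg _)))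

end Pool.Agent.HCF
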