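import Mathlib

/-! # Homeomorphisms near the identity (module TPUSH) -/

open Set

noncomputable section

namespace Pool.Agent.HCF

/-- Let `D` be a compact set in a Banach space `W`, and `φ : K × W → W` continuous and `1/2`
Lipschitz in `W`, such that `φ (k, y) ≠ 0` implies `y ∈ D` and `y + φ (k, y) ∈ D`.  Then
`(k, y) ↦ (k, y + φ (k, y))` is a homeomorphism of `K × D`. -/
theorem push_homeo {K W : Type} [TopologicalSpace K] [CompactSpace K] [T2Space K]
    [NormedAddCommGroup W] [NormedSpace ℝ W] [CompleteSpace W] (D : Set W) (hD : IsCompact D)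
    (φ : C(K × W, W)) (hLip : ∀ k y y', ‖φ (k, y) - φ (k, y')‖ ≤ 1 / 2 * ‖y - y'‖)
    (hsupp : ∀ k y, φ (k, y) ≠ 0 → y ∈ D ∧ y + φ (k, y) ∈ D) :
    ∃ Φ : K × D ≃ₜ K × D, ∀ (k : K) (y : D), (Φ (k, y)).1 = k ∧
      ((Φ (k, y)).2 : W) = y + φ (k, y) := by
  haveI : CompactSpace D := isCompact_iff_compactSpace.1 hD
  have hmem : ∀ (k : K) (y : D), (y : W) + φ (k, y) ∈ D := by
    intro k y
    by_cases h : φ (k, (y : W)) = 0
    · rw [h, add_zero]
      exact y.2
    · exact (hsupp k y h).2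
  let f : K × D → K × D := fun p => (p.1, ⟨(p.2 : W) + φ (p.1, p.2), hmem p.1 p.2⟩)
  have hf : Continuous f := by
    refine Continuous.prodMk continuous_fst (Continuous.subtype_mk ?_ _)
    exact (continuous_subtype_val.comp continuous_snd).add (φ.continuous.comp
      (continuous_fst.prodMk (continuous_subtype_val.comp continuous_snd)))
  have hinj : Function.Injective f := by
    rintro ⟨k, y⟩ ⟨k', y'⟩ h
    have h1 : k = k' := congrArg Prod.fst h
    subst h1
    have h2 : (y : W) + φ (k, y) = y' + φ (k, y') :=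
      congrArg (fun q : K × D => (q.2 : W)) h
    have h3 : (y : W) - y' = φ (k, y') - φ (k, y) := by
      rw [sub_eq_sub_iff_add_eq_add, h2]
      abel
    have h4 := hLip k y' y
    rw [← h3, norm_sub_rev (y' : W) y] at h4
    have h5 : ‖(y : W) - y'‖ = 0 := by
      have := norm_nonneg ((y : W) - y')
      linarith
    have h6 : (y : W) = y' := sub_eq_zero.1 (norm_eq_zero.1 h5)
    rw [Subtype.ext h6]
  have hsurj : Function.Surjective f := by
    rintro ⟨k, y'⟩
    have hc : ContractingWith (1 / 2 : NNReal) (fun y : W => (y' : W) - φ (k, y)) := by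
      refine ⟨?_, LipschitzWith.of_dist_le_mul fun a b => ?_⟩
      · rw [← NNReal.coe_lt_coe]
        norm_num
      · rw [dist_eq_norm, dist_eq_norm]
        have h1 : (y' : W) - φ (k, a) - (y' - φ (k, b)) = φ (k, b) - φ (k, a) := by abel
        rw [h1, norm_sub_rev a b]
        have h2 := hLip k b a
        simpa using h2
    obtain ⟨y, hy⟩ : ∃ y : W, (y' : W) - φ (k, y) = y :=
      ⟨_, hc.fixedPoint_isFixedPt⟩
    have hyD : y ∈ D := by
      by_cases h : φ (k, y) = 0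
      · rw [h, sub_zero] at hy
        rw [← hy]
        exact y'.2
      · exact (hsupp k y h).1
    refine ⟨(k, ⟨y, hyD⟩), ?_⟩
    refine Prod.ext rfl (Subtype.ext ?_)
    change y + φ (k, y) = y'
    rw [← hy]
    nth_rewrite 2 [hy]
    abel
  let e : K × D ≃ K × D := Equiv.ofBijective f ⟨hinj, hsurj⟩
  refine ⟨Continuous.homeoOfEquivCompactToT2 (f := e) hf, fun k y => ⟨rfl, rfl⟩⟩

/-- The elementary push: `y ↦ y + t * max 0 (1 - ‖y - a‖ / δ) • (b - a)`. -/
def pushV {W : Type} [NormedAddCommGroup W] [NormedSpace ℝ W] (δ t : ℝ) (a b y : W) : W :=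
  (t * max 0 (1 - ‖y - a‖ / δ)) • (b - a)

theorem pushV_lip {W : Type} [NormedAddCommGroup W] [NormedSpace ℝ W] (δ t : ℝ) (hδ : 0 < δ)
    (ht : 0 ≤ t) (ht1 : t ≤ 1) (a b y y' : W) (hab : ‖b - a‖ ≤ δ / 2) :
    ‖pushV δ t a b y - pushV δ t a b y'‖ ≤ 1 / 2 * ‖y - y'‖ := by
  rw [pushV, pushV, ← sub_smul, ← mul_sub, norm_smul, norm_mul, Real.norm_eq_abs,
    Real.norm_eq_abs, abs_of_nonneg ht]
  have h1 : |max 0 (1 - ‖y - a‖ / δ) - max 0 (1 - ‖y' - a‖ / δ)| ≤ ‖y - y'‖ / δ := by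
    refine (abs_max_sub_max_le_max _ _ _ _).trans ?_
    rw [sub_self, abs_zero]
    refine max_le (by positivity) ?_
    have h2 : (1 - ‖y - a‖ / δ) - (1 - ‖y' - a‖ / δ) = (‖y' - a‖ - ‖y - a‖) / δ := by ring
    rw [h2, abs_div, abs_of_pos hδ]
    refine div_le_div_of_nonneg_right ?_ hδ.le
    refine (abs_norm_sub_norm_le _ _).trans ?_
    rw [sub_sub_sub_cancel_right, norm_sub_rev]
  calc t * |max 0 (1 - ‖y - a‖ / δ) - max 0 (1 - ‖y' - a‖ / δ)| * ‖b - a‖
      ≤ 1 * (‖y - y'‖ / δ) * (δ / 2) := by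
        gcongr
    _ = 1 / 2 * ‖y - y'‖ := by
        field_simp

theorem pushV_supp {W : Type} [NormedAddCommGroup W] [NormedSpace ℝ W] (δ t : ℝ) (hδ : 0 < δ)
    (ht : 0 ≤ t) (ht1 : t ≤ 1) (a b y : W) (hab : ‖b - a‖ ≤ δ / 2)
    (h : pushV δ t a b y ≠ 0) : ‖y - a‖ < δ ∧ ‖y + pushV δ t a b y - a‖ < δ := by
  have h1 : ‖y - a‖ < δ := by
    by_contra hcon
    push Not at hcon
    apply h
    have h2 : 1 - ‖y - a‖ / δ ≤ 0 := by
      rw [sub_nonpos, le_div_iff₀ hδ]
      linarith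
    rw [pushV, max_eq_left h2, mul_zero, zero_smul]
  refine ⟨h1, ?_⟩
  have h2 : ‖pushV δ t a b y‖ ≤ (1 - ‖y - a‖ / δ) * (δ / 2) := by
    have h3 : 0 ≤ 1 - ‖y - a‖ / δ := by
      rw [sub_nonneg, div_le_one hδ]
      exact h1.le
    rw [pushV, norm_smul, norm_mul, Real.norm_eq_abs, Real.norm_eq_abs, abs_of_nonneg ht,
      max_eq_right h3, abs_of_nonneg h3]
    calc t * (1 - ‖y - a‖ / δ) * ‖b - a‖ ≤ 1 * (1 - ‖y - a‖ / δ) * (δ / 2) := by
          gcongr
      _ = (1 - ‖y - a‖ / δ) * (δ / 2) := by ring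
  have h4 : (1 - ‖y - a‖ / δ) * (δ / 2) = (δ - ‖y - a‖) / 2 := by
    field_simp
  rw [h4] at h2
  have h5 : y + pushV δ t a b y - a = (y - a) + pushV δ t a b y := by abel
  rw [h5]
  have h6 := norm_add_le (y - a) (pushV δ t a b y)
  linarith

theorem pushV_center {W : Type} [NormedAddCommGroup W] [NormedSpace ℝ W] (δ : ℝ) (a b : W) :
    a + pushV δ 1 a b a = b := by
  simp [pushV]

end Pool.Agent.HCF
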