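import Pool.Agent.HCF.TNbhd
import Pool.Agent.HCF.TPush
import Pool.Agent.HCF.TBall

/-! # Shrinking the inverse limit (module TSHR) -/

open Topology

noncomputable section

namespace Pool.Agent.HCF

/-- the space of the first `n + 1` coordinates -/
abbrev TshrW (n : ℕ) : Type := Fin (n + 1) → E2

/-- the direction of a nonzero vector -/
def tshrDir (c : S3) (z : E2) : S3 :=
  if h : z = 0 then c else ⟨(‖z‖⁻¹ : ℝ) • z, by
    rw [mem_sphere_zero_iff_norm, norm_smul, norm_inv, norm_norm]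
    exact inv_mul_cancel₀ (norm_ne_zero_iff.2 h)⟩

theorem tshrDir_of_ne (c : S3) (z : E2) (h : z ≠ 0) :
    (tshrDir c z).1 = (‖z‖⁻¹ : ℝ) • z := by
  rw [tshrDir, dif_neg h]

theorem tshrDir_sph (c x : S3) : tshrDir c x.1 = x := by
  have hx : ‖x.1‖ = 1 := mem_sphere_zero_iff_norm.1 x.2
  have h : x.1 ≠ 0 := by
    intro h
    rw [h, norm_zero] at hx
    exact zero_ne_one hx
  apply Subtype.ext
  rw [tshrDir_of_ne c x.1 h, hx, inv_one, one_smul]

theorem tshrDir_cont (c : S3) (z : E2) (hz : z ≠ 0) :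
    ContinuousAt (fun z => tshrDir c z) z := by
  rw [IsInducing.subtypeVal.continuousAt_iff]
  have h1 : ContinuousAt (fun z : E2 => (‖z‖⁻¹ : ℝ) • z) z :=
    (continuous_norm.continuousAt.inv₀ (norm_ne_zero_iff.2 hz)).smul continuousAt_id
  refine h1.congr ?_
  filter_upwards [isOpen_compl_singleton.mem_nhds (show z ∈ ({0}ᶜ : Set E2) from hz)] with w hw
  exact (tshrDir_of_ne c w hw).symm

/-- the radial cut off -/
def tshrLam (r : ℝ) : ℝ := min 1 (max 0 (2 * r - 1))

theorem tshrLam_nonneg (r : ℝ) : 0 ≤ tshrLam r := le_min zero_le_one (le_max_left _ _)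

theorem tshrLam_le_one (r : ℝ) : tshrLam r ≤ 1 := min_le_left _ _

theorem tshrLam_small (r : ℝ) (h : r < 1 / 2) : tshrLam r = 0 := by
  rw [tshrLam, max_eq_left (by linarith), min_eq_right zero_le_one]

theorem tshrLam_one : tshrLam 1 = 1 := by
  rw [tshrLam]; norm_num

theorem tshrLam_cont : Continuous tshrLam := by
  unfold tshrLam; fun_prop

/-- the path point -/
def tshrA (T : Tower) (n : ℕ) (c : S3) (u : C(S3, S3)) (z : E2) : TshrW n :=
  fun i => (tail T (u (tshrDir c z)) n i).1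

theorem tshrA_cont (T : Tower) (n : ℕ) (c : S3) (u : C(S3, S3)) (z : E2) (hz : z ≠ 0) :
    ContinuousAt (fun z => tshrA T n c u z) z := by
  refine continuousAt_pi.2 fun i => ?_
  have h1 : Continuous fun v : S3 => (tail T (u v) n i).1 :=
    continuous_subtype_val.comp ((continuous_tail T n i).comp u.continuous)
  exact ContinuousAt.comp (f := fun z => tshrDir c z) (g := fun v : S3 => (tail T (u v) n i).1)
    h1.continuousAt (tshrDir_cont c z hz)

/-- the displacement -/
def tshrPhi (T : Tower) (n : ℕ) (c : S3) (δ : ℝ) (u v : C(S3, S3)) (z : E2) (w : TshrW n) :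
    TshrW n :=
  pushV δ (tshrLam ‖z‖) (tshrA T n c u z) (tshrA T n c v z) w

theorem tshrPhi_cont (T : Tower) (n : ℕ) (c : S3) (δ : ℝ) (u v : C(S3, S3)) :
    Continuous fun p : E2 × TshrW n => tshrPhi T n c δ u v p.1 p.2 := by
  refine continuous_iff_continuousAt.2 fun p => ?_
  by_cases hz : p.1 = 0
  · have hev : ∀ᶠ q : E2 × TshrW n in 𝓝 p, (0 : TshrW n) = tshrPhi T n c δ u v q.1 q.2 := by
      have hop : IsOpen {q : E2 × TshrW n | ‖q.1‖ < 1 / 2} :=
        isOpen_lt continuous_fst.norm continuous_const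
      have hmem : p ∈ {q : E2 × TshrW n | ‖q.1‖ < 1 / 2} := by
        change ‖p.1‖ < 1 / 2
        rw [hz, norm_zero]; norm_num
      filter_upwards [hop.mem_nhds hmem] with q hq
      rw [tshrPhi, tshrLam_small _ hq, pushV, zero_mul, zero_smul]
    exact continuousAt_const.congr hev
  · have hA : ContinuousAt (fun q : E2 × TshrW n => tshrA T n c u q.1) p :=
      ContinuousAt.comp (f := fun q : E2 × TshrW n => q.1) (g := fun z => tshrA T n c u z)
        (tshrA_cont T n c u p.1 hz) continuousAt_fst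
    have hB : ContinuousAt (fun q : E2 × TshrW n => tshrA T n c v q.1) p :=
      ContinuousAt.comp (f := fun q : E2 × TshrW n => q.1) (g := fun z => tshrA T n c v z)
        (tshrA_cont T n c v p.1 hz) continuousAt_fst
    have hl : ContinuousAt (fun q : E2 × TshrW n => tshrLam ‖q.1‖) p :=
      (tshrLam_cont.comp continuous_fst.norm).continuousAt
    have h2 : ContinuousAt (fun q : E2 × TshrW n => q.2) p := continuousAt_snd
    have h3 : ContinuousAt (fun q : E2 × TshrW n =>
        max (0 : ℝ) (1 - ‖q.2 - tshrA T n c u q.1‖ / δ)) p :=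
      continuousAt_const.max (continuousAt_const.sub ((h2.sub hA).norm.div_const δ))
    exact (hl.mul h3).smul (hB.sub hA)

theorem tshr_pr_cont (n : ℕ) :
    Continuous fun p : CC × TshrW n => (((p.1 0).1, p.2) : E2 × TshrW n) := by
  refine Continuous.prodMk ?_ continuous_snd
  exact continuous_subtype_val.comp ((continuous_apply 0).comp continuous_fst)

/-- the displacement as a continuous map -/
def tshrPhiC (T : Tower) (n : ℕ) (c : S3) (δ : ℝ) (u v : C(S3, S3)) :
    C(CC × TshrW n, TshrW n) :=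
  ContinuousMap.comp ⟨fun p : E2 × TshrW n => tshrPhi T n c δ u v p.1 p.2,
    tshrPhi_cont T n c δ u v⟩ ⟨fun p : CC × TshrW n => ((p.1 0).1, p.2), tshr_pr_cont n⟩

/-- The properties of the partial homeomorphisms. -/
structure TshrGood (T : Tower) (n : ℕ) (δ : ℝ) (u v : S3 → S3) (h : CC ≃ₜ CC) : Prop where
  off : ∀ y, y ∉ NN T n δ → h y = y
  on : ∀ y, y ∈ NN T n δ → h y ∈ NN T n δ
  loc : ∀ y y' : CC, (∀ i ≤ n + 1, y i = y' i) → ∀ i ≤ n, h y i = h y' i
  high : ∀ (y : CC) (i : ℕ), n < i → h y i = y i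
  move : ∀ (y : CC) (x : S3), (y (n + 1)).1 = x.1 → (∀ i ≤ n, (y i).1 = (tail T (u x) n i).1) →
    ∀ i ≤ n, (h y i).1 = (tail T (v x) n i).1

theorem TshrGood.refl (T : Tower) (n : ℕ) (δ : ℝ) (u : S3 → S3) :
    TshrGood T n δ u u (Homeomorph.refl CC) where
  off _ _ := rfl
  on _ hy := hy
  loc _ _ hy i hi := hy i (by omega)
  high _ _ _ := rfl
  move _ _ _ hy := hy

theorem TshrGood.trans {T : Tower} {n : ℕ} {δ : ℝ} {u v w : S3 → S3} {h k : CC ≃ₜ CC}
    (hh : TshrGood T n δ u v h) (hk : TshrGood T n δ v w k) :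
    TshrGood T n δ u w (h.trans k) where
  off y hy := by
    change k (h y) = y
    rw [hh.off y hy, hk.off y hy]
  on y hy := hk.on _ (hh.on _ hy)
  loc y y' hy i hi := by
    refine hk.loc (h y) (h y') (fun j hj => ?_) i hi
    rcases Nat.lt_or_ge n j with h1 | h1
    · rw [hh.high y j h1, hh.high y' j h1]
      exact hy j hj
    · exact hh.loc y y' hy j h1
  high y i hi := by
    change k (h y) i = y i
    rw [hk.high _ i hi, hh.high _ i hi]
  move y x hx hy i hi := by
    refine hk.move (h y) x ?_ (hh.move y x hx hy) i hi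
    rw [hh.high y (n + 1) (Nat.lt_succ_self n)]
    exact hx

/-- the balls as a subset of the Banach space -/
def tshrD (n : ℕ) : Set (TshrW n) := {w | ∀ i, ‖w i‖ ≤ 2}

theorem tshrD_compact (n : ℕ) : IsCompact (tshrD n) := by
  have h : tshrD n = Set.pi Set.univ fun _ : Fin (n + 1) => Metric.closedBall (0 : E2) 2 := by
    ext w
    simp [tshrD]
  rw [h]
  exact isCompact_univ_pi fun _ => isCompact_closedBall 0 2

/-- the identification of the balls -/
def tshrE (n : ℕ) : (Fin (n + 1) → D2) ≃ₜ tshrD n where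
  toFun w := ⟨fun i => (w i).1, fun i => mem_closedBall_zero_iff.1 (w i).2⟩
  invFun w i := ⟨w.1 i, mem_closedBall_zero_iff.2 (w.2 i)⟩
  left_inv _ := rfl
  right_inv _ := rfl
  continuous_toFun := by fun_prop
  continuous_invFun := continuous_pi fun i =>
    Continuous.subtype_mk ((continuous_apply i).comp continuous_subtype_val) _

theorem tshr_coord {n : ℕ} (w a : TshrW n) (i : Fin (n + 1)) : ‖w i - a i‖ ≤ ‖w - a‖ :=
  norm_le_pi_norm (w - a) i

/-- the identification of the product of the balls -/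
def tshrS (n : ℕ) : CC ≃ₜ CC × tshrD n :=
  ((splitCC n).trans (Homeomorph.prodComm _ _)).trans ((Homeomorph.refl CC).prodCongr (tshrE n))

theorem tshr_step (T : Tower) (n : ℕ) (δ : ℝ) (hδ : 0 < δ) (hδ1 : δ < 1) (c : S3)
    (u v : C(S3, S3))
    (huv : ∀ x, ∀ i ≤ n, ‖(tail T (v x) n i).1 - (tail T (u x) n i).1‖ ≤ δ / 2) :
    ∃ h : CC ≃ₜ CC, TshrGood T n δ u v h := by
  have hAB : ∀ z, ‖tshrA T n c v z - tshrA T n c u z‖ ≤ δ / 2 := fun z =>
    (pi_norm_le_iff_of_nonneg (by linarith)).2 fun i =>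
      huv (tshrDir c z) i (Nat.lt_succ_iff.1 i.2)
  have hA1 : ∀ z i, ‖tshrA T n c u z i‖ = 1 := fun z i =>
    mem_sphere_zero_iff_norm.1 (tail T (u (tshrDir c z)) n i).2
  have hsmall : ∀ (z : E2) (w : TshrW n), ‖w - tshrA T n c u z‖ < δ → w ∈ tshrD n := by
    intro z w hw i
    have h1 : ‖w i - tshrA T n c u z i‖ < δ := lt_of_le_of_lt (tshr_coord _ _ i) hw
    have h2 : ‖w i‖ ≤ ‖w i - tshrA T n c u z i‖ + ‖tshrA T n c u z i‖ := by
      have := norm_add_le (w i - tshrA T n c u z i) (tshrA T n c u z i)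
      rwa [sub_add_cancel] at this
    rw [hA1] at h2
    linarith
  let φ : C(CC × TshrW n, TshrW n) := tshrPhiC T n c δ u v
  have hφ : ∀ k y, φ (k, y) = pushV δ (tshrLam ‖(k 0).1‖) (tshrA T n c u (k 0).1)
      (tshrA T n c v (k 0).1) y := fun _ _ => rfl
  have hLip : ∀ k y y', ‖φ (k, y) - φ (k, y')‖ ≤ 1 / 2 * ‖y - y'‖ := by
    intro k y y'
    rw [hφ, hφ]
    exact pushV_lip δ (tshrLam ‖(k 0).1‖) hδ (tshrLam_nonneg _) (tshrLam_le_one _)
      (tshrA T n c u (k 0).1) (tshrA T n c v (k 0).1) y y' (hAB _)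
  have hsp : ∀ k y, φ (k, y) ≠ 0 → y ∈ tshrD n ∧ y + φ (k, y) ∈ tshrD n := by
    intro k y hy
    rw [hφ] at hy ⊢
    have := pushV_supp δ (tshrLam ‖(k 0).1‖) hδ (tshrLam_nonneg _) (tshrLam_le_one _)
      (tshrA T n c u (k 0).1) (tshrA T n c v (k 0).1) y (hAB _) hy
    exact ⟨hsmall _ _ this.1, hsmall _ _ this.2⟩
  obtain ⟨Φ, hΦ⟩ := push_homeo (tshrD n) (tshrD_compact n) φ hLip hsp
  clear_value φ
  let F : CC → TshrW n := fun y =>
    tshrPhi T n c δ u v (y (n + 1)).1 (fun i => (y i).1)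
  refine ⟨(tshrS n).trans (Φ.trans (tshrS n).symm), ?_⟩
  generalize hh : (tshrS n).trans (Φ.trans (tshrS n).symm) = h
  have hS : ∀ y, tshrS n (h y) = Φ (tshrS n y) := by
    intro y
    rw [← hh]
    change tshrS n ((tshrS n).symm (Φ (tshrS n y))) = _
    rw [Homeomorph.apply_symm_apply]
  have hhigh : ∀ (y : CC) (i : ℕ), n < i → h y i = y i := by
    intro y i hi
    have h1 : (tshrS n (h y)).1 = (tshrS n y).1 := by
      rw [hS]
      exact (hΦ _ _).1
    have h2 := congrFun h1 (i - (n + 1))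
    change h y (n + 1 + (i - (n + 1))) = y (n + 1 + (i - (n + 1))) at h2
    rwa [Nat.add_sub_cancel' (by omega : n + 1 ≤ i)] at h2
  have hlow : ∀ (y : CC) (i : Fin (n + 1)), (h y i).1 = (y i).1 + F y i := by
    intro y i
    have h1 : ((tshrS n (h y)).2 : TshrW n) = (tshrS n y).2 + φ ((tshrS n y).1, (tshrS n y).2) := by
      rw [hS]
      exact (hΦ _ _).2
    rw [hφ] at h1
    exact congrFun h1 i
  have hfix : ∀ y, F y = 0 → h y = y := by
    intro y hy
    funext i
    rcases Nat.lt_or_ge n i with h1 | h1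
    · exact hhigh y i h1
    · apply Subtype.ext
      have := hlow y ⟨i, Nat.lt_succ_of_le h1⟩
      rw [hy] at this
      exact this.trans (add_zero _)
  have hsup : ∀ y, F y ≠ 0 → y ∈ NN T n δ ∧ h y ∈ NN T n δ := by
    intro y hy
    have := pushV_supp δ (tshrLam ‖(y (n + 1)).1‖) hδ (tshrLam_nonneg _) (tshrLam_le_one _)
      (tshrA T n c u (y (n + 1)).1) (tshrA T n c v (y (n + 1)).1)
      (fun i : Fin (n + 1) => (y i).1) (hAB _) hy
    refine ⟨⟨u (tshrDir c (y (n + 1)).1), fun i hi => ?_⟩,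
      ⟨u (tshrDir c (y (n + 1)).1), fun i hi => ?_⟩⟩
    · exact lt_of_le_of_lt (tshr_coord (fun i : Fin (n + 1) => (y i).1)
        (tshrA T n c u (y (n + 1)).1) ⟨i, Nat.lt_succ_of_le hi⟩) this.1
    · have h3 := hlow y ⟨i, Nat.lt_succ_of_le hi⟩
      change (h y i).1 = _ at h3
      rw [h3]
      exact lt_of_le_of_lt (tshr_coord ((fun i : Fin (n + 1) => (y i).1) + F y)
        (tshrA T n c u (y (n + 1)).1) ⟨i, Nat.lt_succ_of_le hi⟩) this.2
  refine ⟨fun y hy => hfix y ?_, fun y hy => ?_, fun y y' hy i hi => ?_, hhigh,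
    fun y x hx hy i hi => ?_⟩
  · by_contra h0
    exact hy (hsup y h0).1
  · by_cases h0 : F y = 0
    · rw [hfix y h0]; exact hy
    · exact (hsup y h0).2
  · apply Subtype.ext
    have h1 := hlow y ⟨i, Nat.lt_succ_of_le hi⟩
    have h2 := hlow y' ⟨i, Nat.lt_succ_of_le hi⟩
    have h3 : F y = F y' := by
      change tshrPhi T n c δ u v (y (n + 1)).1 (fun i => (y i).1) =
        tshrPhi T n c δ u v (y' (n + 1)).1 (fun i => (y' i).1)
      rw [hy (n + 1) le_rfl]
      congr 1
      funext j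
      rw [hy j (by omega)]
    change (h y i).1 = (y i).1 + _ at h1
    change (h y' i).1 = (y' i).1 + _ at h2
    rw [h1, h2, h3, hy i (by omega)]
  · have h1 := hlow y ⟨i, Nat.lt_succ_of_le hi⟩
    change (h y i).1 = (y i).1 + _ at h1
    rw [h1]
    have hxn : ‖x.1‖ = 1 := mem_sphere_zero_iff_norm.1 x.2
    have hw : (fun i : Fin (n + 1) => (y i).1) = tshrA T n c u x.1 := by
      funext j
      rw [hy j (Nat.lt_succ_iff.1 j.2), tshrA, tshrDir_sph]
    have hF : F y = tshrA T n c v x.1 - tshrA T n c u x.1 := by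
      change tshrPhi T n c δ u v (y (n + 1)).1 (fun i => (y i).1) = _
      rw [hx, hw, tshrPhi, hxn, tshrLam_one, eq_sub_iff_add_eq, add_comm]
      exact pushV_center δ _ _
    rw [hF, hy i hi]
    have h5 : ∀ w : C(S3, S3), tshrA T n c w x.1 ⟨i, Nat.lt_succ_of_le hi⟩ =
        (tail T (w x) n i).1 := by
      intro w
      rw [tshrA, tshrDir_sph]
    rw [Pi.sub_apply, h5, h5]
    abel

theorem tshr_compat (T : Tower) (x : ℕ → S3) (hx : ∀ j, T.f j (x (j + 1)) = x j) (n : ℕ) :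
    ∀ k ≤ n, tail T (x n) n (n - k) = x (n - k) := by
  intro k
  induction k with
  | zero => intro _; exact tail_self T (x n) n
  | succ k ih =>
    intro hk
    have h1 : n - (k + 1) < n := by omega
    have h2 : n - (k + 1) + 1 = n - k := by omega
    rw [← tail_step T (x n) n (n - (k + 1)) h1, h2, ih (by omega), ← h2, hx]

/-- The pushing homeomorphism at level `n`. -/
theorem exists_push (T : Tower) (n : ℕ) (δ : ℝ) (hδ : 0 < δ) (hδ1 : δ < 1) :
    ∃ h : CC ≃ₜ CC,
      (∀ y, y ∉ NN T n δ → h y = y) ∧ (∀ y, y ∈ NN T n δ → h y ∈ NN T n δ) ∧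
      (∀ x ∈ II T, ∀ y ∈ II T, ∀ i ≤ n, h x i = h y i) ∧
      (∀ y y' : CC, (∀ i ≤ n + 1, y i = y' i) → ∀ i ≤ n, h y i = h y' i) ∧
      ∀ (y : CC) (i : ℕ), n < i → h y i = y i := by
  obtain ⟨c, ⟨H⟩⟩ := T.null n
  let G : unitInterval × S3 → TshrW n := fun p i => (tail T (H p) n i).1
  have hG : Continuous G := continuous_pi fun i =>
    continuous_subtype_val.comp ((continuous_tail T n i).comp H.continuous)
  have hGu : UniformContinuous G := CompactSpace.uniformContinuous_of_continuous hG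
  obtain ⟨ε, hε, hεG⟩ := Metric.uniformContinuous_iff.1 hGu (δ / 2) (by linarith)
  obtain ⟨N, hN⟩ := exists_nat_one_div_lt hε
  let τ : ℕ → unitInterval := fun k => Set.projIcc 0 1 zero_le_one ((k : ℝ) / (N + 1))
  let U : unitInterval → C(S3, S3) := fun t =>
    ⟨fun x => H (t, x), H.continuous.comp (by fun_prop)⟩
  have hstep : ∀ k, ∃ h : CC ≃ₜ CC, TshrGood T n δ (U (τ k)) (U (τ (k + 1))) h := by
    intro k
    refine tshr_step T n δ hδ hδ1 c (U (τ k)) (U (τ (k + 1))) fun x i hi => ?_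
    have hd : dist ((τ (k + 1), x) : unitInterval × S3) (τ k, x) < ε := by
      rw [Prod.dist_eq, dist_self, max_eq_left dist_nonneg]
      refine lt_of_le_of_lt ?_ hN
      have h1 := (LipschitzWith.projIcc (a := (0 : ℝ)) (b := 1) zero_le_one).dist_le_mul
        (((k + 1 : ℕ) : ℝ) / (N + 1)) ((k : ℝ) / (N + 1))
      refine h1.trans ?_
      rw [NNReal.coe_one, one_mul, Real.dist_eq, ← sub_div]
      push_cast
      rw [add_sub_cancel_left, abs_of_nonneg (by positivity)]
    have h2 := hεG hd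
    rw [dist_eq_norm] at h2
    exact (lt_of_le_of_lt (norm_le_pi_norm (G (τ (k + 1), x) - G (τ k, x))
      (⟨i, Nat.lt_succ_of_le hi⟩ : Fin (n + 1))) h2).le
  have hall : ∀ k, ∃ h : CC ≃ₜ CC, TshrGood T n δ (U (τ 0)) (U (τ k)) h := by
    intro k
    induction k with
    | zero => exact ⟨_, TshrGood.refl T n δ _⟩
    | succ k ih =>
      obtain ⟨h1, hh1⟩ := ih
      obtain ⟨h2, hh2⟩ := hstep k
      exact ⟨_, hh1.trans hh2⟩
  obtain ⟨h, hh⟩ := hall (N + 1)
  have hτ0 : τ 0 = 0 := by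
    change Set.projIcc (0 : ℝ) 1 zero_le_one (((0 : ℕ) : ℝ) / (N + 1)) = 0
    rw [Nat.cast_zero, zero_div]
    exact Set.projIcc_left zero_le_one
  have hτ1 : τ (N + 1) = 1 := by
    change Set.projIcc (0 : ℝ) 1 zero_le_one (((N + 1 : ℕ) : ℝ) / (N + 1)) = 1
    have : ((N + 1 : ℕ) : ℝ) / ((N : ℝ) + 1) = 1 := by
      push_cast
      exact div_self (by positivity)
    rw [this]
    exact Set.projIcc_right zero_le_one
  refine ⟨h, hh.off, hh.on, ?_, hh.loc, hh.high⟩
  have key : ∀ y ∈ II T, ∀ i ≤ n, (h y i).1 = (tail T c n i).1 := by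
    rintro y ⟨x, hx, hyx⟩ i hi
    have h1 : ∀ i ≤ n, (y i).1 = (tail T (U (τ 0) (x (n + 1))) n i).1 := by
      intro i hi
      have h2 : U (τ 0) (x (n + 1)) = x n := by
        rw [hτ0]
        change H (0, x (n + 1)) = _
        rw [H.apply_zero, hx]
      have h3 := tshr_compat T x hx n (n - i) (by omega)
      rw [show n - (n - i) = i by omega] at h3
      rw [h2, h3, hyx]
    rw [hh.move y (x (n + 1)) (hyx (n + 1)) h1 i hi, hτ1]
    change (tail T (H (1, x (n + 1))) n i).1 = _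
    rw [H.apply_one]
    rfl
  intro x hx y hy i hi
  apply Subtype.ext
  rw [key x hx i hi, key y hy i hi]

end Pool.Agent.HCF
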